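import Mathlib
import Pool.Agent.Run7.h489.TM.Cnt
import Pool.Agent.Run7.h489.TM.Lau

set_option autoImplicit false
set_option linter.unusedSectionVars false

/-!
The values of a Laurent polynomial at most tuples of units.
-/

namespace Pool.Agent.Run7.h489.PX

open Height NumberField IsDedekindDomain
open Pool.Agent.W180.OP (Pl av wt fv nrm wt_nonneg le_nrm exists_nrm nrm_pos)
open Pool.Agent.R404.TC (Sp)
open Pool.Agent.Run7.h489.LV (IsU IsI mem_Sp_inl mem_Sp_inr)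
open Pool.Agent.Run7.h489.TM

variable {k : Type} [Field k] [NumberField k] {m : ℕ}

theorem wS_pos (S : Finset (HeightOneSpectrum (𝓞 k))) : 0 < wS S := by
  obtain ⟨x0⟩ : Nonempty (InfinitePlace k) := inferInstance
  unfold wS
  have h1 : wt (Sum.inl x0 : Pl k) ≤ ∑ v ∈ Sp S, wt v :=
    Finset.single_le_sum (f := fun v => wt v) (fun v _ => wt_nonneg v) (mem_Sp_inl x0)
  exact lt_of_lt_of_le (lt_of_lt_of_le one_pos (Pool.Agent.Run7.h489.LV.wt_pos _)) h1

/-- one monomial dominates -/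
theorem dom (f : AbsoluteValue k ℝ) {Δ : (Fin m → ℤ) →₀ k} (hΔ : Δ ≠ 0) :
    ∃ A M : ℝ, 0 ≤ A ∧ 0 ≤ M ∧ ∀ (u : Fin m → k) (r : ℝ), (∀ i, u i ≠ 0) → M ≤ r →
      ∀ a ∈ Δ.support, (∀ b ∈ Δ.support, b ≠ a → Real.log (f (mono u b)) + r ≤
        Real.log (f (mono u a))) → Real.log (f (mono u a)) - A ≤ Real.log (f (ev Δ u)) := by
  classical
  obtain ⟨a0, ha0, hmin⟩ := Finset.exists_min_image Δ.support (fun a => f (Δ a))
    (Finsupp.support_nonempty_iff.2 hΔ)
  obtain ⟨c, hc⟩ : ∃ c : ℝ, c = f (Δ a0) := ⟨_, rfl⟩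
  have hc0 : 0 < c := by
    rw [hc]
    exact f.pos (Finsupp.mem_support_iff.1 ha0)
  obtain ⟨Q, hQ⟩ : ∃ Q : ℝ, Q = ∑ b ∈ Δ.support, f (Δ b) := ⟨_, rfl⟩
  have hQ0 : 0 ≤ Q := by
    rw [hQ]
    exact Finset.sum_nonneg fun _ _ => f.nonneg _
  refine ⟨|Real.log (c / 2)|, 2 * Q / c, abs_nonneg _, by positivity, ?_⟩
  intro u r hu hr a ha hb
  have hma : 0 < f (mono u a) := f.pos (mono_ne hu a)
  have he : Q * Real.exp (-r) ≤ c / 2 := by
    have h1 : 2 * Q / c ≤ Real.exp r := hr.trans (by linarith [Real.add_one_le_exp r])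
    rw [div_le_iff₀ hc0] at h1
    have h2 := mul_le_mul_of_nonneg_right h1 (Real.exp_pos (-r)).le
    have h3 : Real.exp r * c * Real.exp (-r) = c := by
      rw [mul_right_comm, ← Real.exp_add, add_neg_cancel, Real.exp_zero, one_mul]
    rw [h3] at h2
    linarith
  have h1 : ev Δ u = Δ a * mono u a + ∑ b ∈ Δ.support.erase a, Δ b * mono u b := by
    unfold ev Finsupp.sum
    exact (Finset.add_sum_erase _ _ ha).symm
  have h2 : f (∑ b ∈ Δ.support.erase a, Δ b * mono u b) ≤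
      Q * Real.exp (-r) * f (mono u a) := by
    refine (f.sum_le _ _).trans ?_
    rw [hQ, Finset.sum_mul, Finset.sum_mul]
    refine (Finset.sum_le_sum fun b hbs => ?_).trans (Finset.sum_le_sum_of_subset_of_nonneg
      (Finset.erase_subset _ _) fun b _ _ => mul_nonneg (mul_nonneg (f.nonneg _)
        (Real.exp_pos _).le) hma.le)
    obtain ⟨h3, h4⟩ := Finset.mem_erase.1 hbs
    rw [map_mul, mul_assoc]
    refine mul_le_mul_of_nonneg_left ?_ (f.nonneg _)
    have h5 := hb b h4 h3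
    have hmb : 0 < f (mono u b) := f.pos (mono_ne hu b)
    rw [← Real.exp_log hmb, ← Real.exp_log hma, ← Real.exp_add]
    refine Real.exp_le_exp.2 ?_
    linarith
  have h3 : f (Δ a * mono u a) - f (∑ b ∈ Δ.support.erase a, Δ b * mono u b) ≤ f (ev Δ u) := by
    rw [h1]
    have := f.sub_le_add (Δ a * mono u a + ∑ b ∈ Δ.support.erase a, Δ b * mono u b)
      (∑ b ∈ Δ.support.erase a, Δ b * mono u b)
    rw [add_sub_cancel_right] at this
    linarith
  have h4 : c * f (mono u a) ≤ f (Δ a * mono u a) := by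
    rw [map_mul, hc]
    exact mul_le_mul_of_nonneg_right (hmin a ha) hma.le
  have h5 : c / 2 * f (mono u a) ≤ f (ev Δ u) := by
    have h6 := mul_le_mul_of_nonneg_right he hma.le
    linarith
  have h6 := Real.log_le_log (by positivity) h5
  rw [Real.log_mul (by positivity) hma.ne'] at h6
  have h7 := neg_abs_le (Real.log (c / 2))
  linarith

/-- Laurent polynomials which are not monomials are large at most tuples of units -/
theorem disc_big (S : Finset (HeightOneSpectrum (𝓞 k))) (hS : 2 ≤ (Sp S).card)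
    {Δ : (Fin m → ℤ) →₀ k} (hΔ : 2 ≤ Δ.support.card) {η : ℝ} (hη : 0 < η) :
    ∃ c T₀ : ℝ, 0 < c ∧ ∀ T : ℝ, T₀ ≤ T →
      (({u | u ∈ Bx m S T ∧ ∑ v ∈ Sp S, wt v * Real.log (av v (ev Δ u)) < c * T}.ncard : ℕ) : ℝ) ≤
        η * (UF S T).card ^ m := by
  classical
  obtain ⟨a0, ha0, a1, ha1, h01⟩ := Finset.one_lt_card.1 hΔ
  have hΔ0 : Δ ≠ 0 := Finsupp.support_nonempty_iff.1 ⟨a0, ha0⟩
  obtain ⟨W, hW⟩ : ∃ W : Finset (Fin m → ℤ), W =
    Δ.support.offDiag.image fun p => p.1 - p.2 := ⟨_, rfl⟩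
  have hW0 : ∀ ν ∈ W, ν ≠ 0 := by
    intro ν hν
    rw [hW] at hν
    obtain ⟨p, hp, rfl⟩ := Finset.mem_image.1 hν
    exact sub_ne_zero.2 (Finset.mem_offDiag.1 hp).2.2
  have hWm : ∀ a ∈ Δ.support, ∀ b ∈ Δ.support, a ≠ b → a - b ∈ W := by
    intro a ha b hb hab
    rw [hW]
    exact Finset.mem_image.2 ⟨(a, b), Finset.mem_offDiag.2 ⟨ha, hb, hab⟩, rfl⟩
  obtain ⟨δ, T₁, hδ, hbad⟩ := bad S hS hW0 hη
  have hdom := fun v : Pl k => dom (av v) hΔ0
  choose A M hA hM hdom using hdom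
  obtain ⟨As, hAs⟩ : ∃ As : ℝ, As = ∑ v ∈ Sp S, A v := ⟨_, rfl⟩
  obtain ⟨Ms, hMs⟩ : ∃ Ms : ℝ, Ms = ∑ v ∈ Sp S, M v := ⟨_, rfl⟩
  have hAle : ∀ v ∈ Sp S, A v ≤ As := fun v hv => by
    rw [hAs]
    exact Finset.single_le_sum (f := A) (fun v _ => hA v) hv
  have hMle : ∀ v ∈ Sp S, M v ≤ Ms := fun v hv => by
    rw [hMs]
    exact Finset.single_le_sum (f := M) (fun v _ => hM v) hv
  have hws := wS_pos S
  refine ⟨δ * wS S / 4, max (max T₁ 0) (max (Ms / δ) (4 * As / δ)), by positivity,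
    fun T hT => ?_⟩
  have hT1 : T₁ ≤ T := (le_max_left _ _).trans ((le_max_left _ _).trans hT)
  have hT0 : 0 ≤ T := (le_max_right _ _).trans ((le_max_left _ _).trans hT)
  have hTM : Ms ≤ δ * T := by
    have h1 : Ms / δ ≤ T := (le_max_left _ _).trans ((le_max_right _ _).trans hT)
    rw [div_le_iff₀ hδ] at h1
    linarith
  have hTA : 4 * As ≤ δ * T := by
    have h1 : 4 * As / δ ≤ T := (le_max_right _ _).trans ((le_max_right _ _).trans hT)
    rw [div_le_iff₀ hδ] at h1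
    linarith
  refine le_trans ?_ (hbad T hT1)
  rw [Nat.cast_le, ← Set.ncard_coe_finset]
  refine Set.ncard_le_ncard ?_ (Finset.finite_toSet _)
  rintro u ⟨huB, hlt⟩
  refine Finset.mem_coe.2 (Finset.mem_filter.2 ⟨huB, ?_⟩)
  by_contra hcon
  push Not at hcon
  have huU := fun i => (mem_Bx.1 huB i).1
  have hu0 : ∀ i, u i ≠ 0 := fun i => (huU i).1
  have hloc : ∀ v ∈ Sp S, (dt (dir u v) a0 + dt (dir u v) a1) / 2 + δ * T / 2 - As ≤
      Real.log (av v (ev Δ u)) := by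
    intro v hv
    obtain ⟨a, ha, hmax⟩ := Finset.exists_max_image Δ.support (fun a => dt (dir u v) a) ⟨a0, ha0⟩
    have h1 := hdom v u (δ * T) hu0 ((hMle v hv).trans hTM) a ha (by
      intro b hb hne
      rw [log_av_mono hu0, log_av_mono hu0]
      have h2 := hcon v hv (a - b) (hWm a ha b hb (Ne.symm hne))
      rw [dt_sub, abs_of_nonneg (sub_nonneg.2 (hmax b hb))] at h2
      linarith)
    rw [log_av_mono hu0] at h1
    have h2 := hcon v hv (a0 - a1) (hWm a0 ha0 a1 ha1 h01)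
    rw [dt_sub] at h2
    have h3 := hmax a0 ha0
    have h4 := hmax a1 ha1
    have h5 := hAle v hv
    rcases abs_cases (dt (dir u v) a0 - dt (dir u v) a1) with ⟨h6, -⟩ | ⟨h6, -⟩
    · rw [h6] at h2
      linarith
    · rw [h6] at h2
      linarith
  have h1 : ∑ v ∈ Sp S, wt v * ((dt (dir u v) a0 + dt (dir u v) a1) / 2 + δ * T / 2 - As) ≤
      ∑ v ∈ Sp S, wt v * Real.log (av v (ev Δ u)) :=
    Finset.sum_le_sum fun v hv => mul_le_mul_of_nonneg_left (hloc v hv) (wt_nonneg v)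
  have h2 : ∑ v ∈ Sp S, wt v * ((dt (dir u v) a0 + dt (dir u v) a1) / 2 + δ * T / 2 - As) =
      (∑ v ∈ Sp S, wt v * dt (dir u v) a0) / 2 + (∑ v ∈ Sp S, wt v * dt (dir u v) a1) / 2 +
        (δ * T / 2 - As) * wS S := by
    unfold wS
    rw [Finset.mul_sum, Finset.sum_div, Finset.sum_div, ← Finset.sum_add_distrib,
      ← Finset.sum_add_distrib]
    exact Finset.sum_congr rfl fun v _ => by ring
  rw [h2, sum_dt huU, sum_dt huU] at h1
  have h3 : δ * T / 4 * wS S ≤ (δ * T / 2 - As) * wS S :=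
    mul_le_mul_of_nonneg_right (by linarith) hws.le
  have h4 : δ * wS S / 4 * T = δ * T / 4 * wS S := by ring
  rw [h4] at hlt
  linarith

end Pool.Agent.Run7.h489.PX
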