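import Mathlib
import Pool.Agent.Run7.h489.TM.Raw
import Pool.Agent.N63.MT.Core

set_option autoImplicit false
set_option linter.unusedSectionVars false

/-!
The exceptional closed subset.
-/

namespace Pool.Agent.Run7.h489.PX

open Pool.Agent.Run7.h489.TM
open Pool.Agent.N63.MT (mn mn_ne)

/-- clearing denominators -/
theorem clear' {K : Type} [Field K] {m : ℕ} (b : (Fin m → ℤ) →₀ K) :
    ∃ (E : Fin m →₀ ℕ) (q : MvPolynomial (Fin m) K), (b ≠ 0 → q ≠ 0) ∧
      ∀ u : Fin m → K, (∀ i, u i ≠ 0) → MvPolynomial.eval u q = mn u E * ev b u := by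
  classical
  obtain ⟨D, hD⟩ : ∃ D : ℕ, ∀ ν ∈ b.support, ∀ i, |ν i| ≤ D := by
    refine ⟨∑ ν ∈ b.support, ∑ i, (ν i).natAbs, ?_⟩
    intro ν hν i
    have h1 := Finset.single_le_sum (f := fun i => (ν i).natAbs) (fun _ _ => Nat.zero_le _)
      (Finset.mem_univ i)
    have h2 := Finset.single_le_sum (f := fun ν : Fin m → ℤ => ∑ i, (ν i).natAbs)
      (fun _ _ => Nat.zero_le _) hν
    rw [Int.abs_eq_natAbs]
    exact_mod_cast h1.trans h2
  obtain ⟨φ, hφ⟩ : ∃ φ : (Fin m → ℤ) → (Fin m →₀ ℕ), ∀ ν i, φ ν i = (ν i + D).toNat :=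
    ⟨fun ν => Finsupp.equivFunOnFinite.symm fun i => (ν i + D).toNat, fun _ _ => rfl⟩
  have hφc : ∀ ν ∈ b.support, ∀ i, ((φ ν i : ℕ) : ℤ) = ν i + D := by
    intro ν hν i
    rw [hφ, Int.toNat_of_nonneg]
    have := (abs_le.1 (hD ν hν i)).1
    omega
  have hinj : ∀ ν ∈ b.support, ∀ ν' ∈ b.support, φ ν = φ ν' → ν = ν' := by
    intro ν hν ν' hν' h
    funext i
    have h1 := hφc ν hν i
    have h2 := hφc ν' hν' i
    rw [h] at h1
    omega
  refine ⟨Finsupp.equivFunOnFinite.symm fun _ => D,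
    ∑ ν ∈ b.support, MvPolynomial.monomial (φ ν) (b ν), ?_, ?_⟩
  · intro hb
    obtain ⟨ν0, hν0⟩ := Finsupp.support_nonempty_iff.2 hb
    intro h0
    have h1 : (∑ ν ∈ b.support, MvPolynomial.monomial (φ ν) (b ν)).coeff (φ ν0) = b ν0 := by
      rw [MvPolynomial.coeff_sum, Finset.sum_eq_single ν0]
      · rw [MvPolynomial.coeff_monomial, if_pos rfl]
      · intro ν hν hne
        rw [MvPolynomial.coeff_monomial, if_neg]
        exact fun h => hne (hinj ν hν ν0 hν0 h)
      · intro h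
        exact absurd hν0 h
    rw [h0, MvPolynomial.coeff_zero] at h1
    exact Finsupp.mem_support_iff.1 hν0 h1.symm
  · intro u hu
    rw [map_sum]
    unfold ev Finsupp.sum
    rw [Finset.mul_sum]
    refine Finset.sum_congr rfl fun ν hν => ?_
    rw [MvPolynomial.eval_monomial]
    have h1 : ((φ ν).prod fun n e => u n ^ e) =
        mn u (Finsupp.equivFunOnFinite.symm fun _ => D) * mono u ν := by
      rw [Finsupp.prod_fintype _ _ (fun _ => pow_zero _)]
      unfold mono mn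
      rw [← Finset.prod_mul_distrib]
      refine Finset.prod_congr rfl fun i _ => ?_
      show u i ^ (φ ν i) = u i ^ D * u i ^ ν i
      rw [← zpow_natCast (u i) (φ ν i), hφc ν hν i, zpow_add₀ (hu i), zpow_natCast]
      ring
    rw [h1]
    ring

variable {k K : Type} [Field k] [Field K] {m : ℕ}

/-- pushing down a polynomial -/
theorem push (f : k →+* K) (hint : ∀ a : K, f.IsIntegralElem a) {ξ : Fin m → k}
    (hξ : ∀ i, ξ i ≠ 0) {E : ℕ} (hE : 0 < E) {P : MvPolynomial (Fin m ⊕ Fin 2) K} (hP : P ≠ 0) :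
    ∃ G : MvPolynomial (Fin m ⊕ Fin 2) k, G ≠ 0 ∧
      ∀ (u w : Fin m → k) (t : Fin 2 → k), (∀ i, u i = ξ i * w i ^ E) →
        MvPolynomial.eval (Sum.elim u t) G ≠ 0 →
        MvPolynomial.eval (Sum.elim (fun i => f (w i)) fun i => f (t i)) P ≠ 0 := by
  obtain ⟨Ψ, hΨ⟩ : ∃ Ψ : MvPolynomial (Fin m ⊕ Fin 2) k →+* MvPolynomial (Fin m ⊕ Fin 2) K,
      Ψ = MvPolynomial.eval₂Hom (MvPolynomial.C.comp f)
        (Sum.elim (fun i => MvPolynomial.C (f (ξ i)) * MvPolynomial.X (Sum.inl i) ^ E)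
          fun i => MvPolynomial.X (Sum.inr i)) := ⟨_, rfl⟩
  have hC : ∀ a, Ψ (MvPolynomial.C a) = MvPolynomial.C (f a) := fun a => by
    rw [hΨ, MvPolynomial.coe_eval₂Hom, MvPolynomial.eval₂_C]
    rfl
  have hX1 : ∀ i, Ψ (MvPolynomial.X (Sum.inl i)) =
      MvPolynomial.C (f (ξ i)) * MvPolynomial.X (Sum.inl i) ^ E := fun i => by
    rw [hΨ, MvPolynomial.coe_eval₂Hom, MvPolynomial.eval₂_X]
    rfl
  have hX2 : ∀ i, Ψ (MvPolynomial.X (Sum.inr i)) = MvPolynomial.X (Sum.inr i) := fun i => by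
    rw [hΨ, MvPolynomial.coe_eval₂Hom, MvPolynomial.eval₂_X]
    rfl
  let alg : Algebra (MvPolynomial (Fin m ⊕ Fin 2) k) (MvPolynomial (Fin m ⊕ Fin 2) K) :=
    Ψ.toAlgebra
  have halg : ∀ a, algebraMap (MvPolynomial (Fin m ⊕ Fin 2) k) (MvPolynomial (Fin m ⊕ Fin 2) K) a =
      Ψ a := fun _ => rfl
  have hI : ∀ Q : MvPolynomial (Fin m ⊕ Fin 2) K,
      IsIntegral (MvPolynomial (Fin m ⊕ Fin 2) k) Q := by
    intro Q
    induction Q using MvPolynomial.induction_on with
    | C a =>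
      obtain ⟨p, hp, hpa⟩ := hint a
      refine ⟨p.map MvPolynomial.C, hp.map _, ?_⟩
      rw [Polynomial.eval₂_map]
      have h1 : (algebraMap (MvPolynomial (Fin m ⊕ Fin 2) k)
          (MvPolynomial (Fin m ⊕ Fin 2) K)).comp MvPolynomial.C =
          (MvPolynomial.C : K →+* MvPolynomial (Fin m ⊕ Fin 2) K).comp f := by
        refine RingHom.ext fun x => ?_
        rw [RingHom.comp_apply, halg, hC]
        rfl
      rw [h1, ← Polynomial.hom_eval₂, hpa, map_zero]
    | add P Q hP hQ => exact hP.add hQ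
    | mul_X P i hP =>
      refine hP.mul ?_
      rcases i with i | i
      · refine IsIntegral.of_pow hE ?_
        have h1 : (MvPolynomial.X (Sum.inl i) : MvPolynomial (Fin m ⊕ Fin 2) K) ^ E =
            algebraMap (MvPolynomial (Fin m ⊕ Fin 2) k) (MvPolynomial (Fin m ⊕ Fin 2) K)
              (MvPolynomial.C (ξ i)⁻¹ * MvPolynomial.X (Sum.inl i)) := by
          rw [halg, map_mul, hC, hX1, ← mul_assoc, ← MvPolynomial.C_mul, ← map_mul,
            inv_mul_cancel₀ (hξ i), map_one, MvPolynomial.C_1, one_mul]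
        rw [h1]
        exact isIntegral_algebraMap
      · have h1 : (MvPolynomial.X (Sum.inr i) : MvPolynomial (Fin m ⊕ Fin 2) K) =
            algebraMap (MvPolynomial (Fin m ⊕ Fin 2) k) (MvPolynomial (Fin m ⊕ Fin 2) K)
              (MvPolynomial.X (Sum.inr i)) := by
          rw [halg, hX2]
        rw [h1]
        exact isIntegral_algebraMap
  obtain ⟨G, hG, hd⟩ := ((hI P).isAlgebraic).exists_nonzero_dvd (mem_nonZeroDivisors_of_ne_zero hP)
  refine ⟨G, hG, ?_⟩
  intro u w t hu hGe hPe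
  obtain ⟨Q, hQ⟩ := hd
  rw [halg] at hQ
  have h1 : MvPolynomial.eval (Sum.elim (fun i => f (w i)) fun i => f (t i)) (Ψ G) =
      f (MvPolynomial.eval (Sum.elim u t) G) := by
    have h2 : (MvPolynomial.eval (Sum.elim (fun i => f (w i)) fun i => f (t i))).comp Ψ =
        f.comp (MvPolynomial.eval (Sum.elim u t)) := by
      refine MvPolynomial.ringHom_ext (fun a => ?_) fun i => ?_
      · rw [RingHom.comp_apply, hC, MvPolynomial.eval_C, RingHom.comp_apply, MvPolynomial.eval_C]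
      · rcases i with i | i
        · rw [RingHom.comp_apply, hX1, map_mul, map_pow, MvPolynomial.eval_C, MvPolynomial.eval_X,
            RingHom.comp_apply, MvPolynomial.eval_X]
          show f (ξ i) * f (w i) ^ E = f (u i)
          rw [hu, map_mul, map_pow]
        · rw [RingHom.comp_apply, hX2, MvPolynomial.eval_X, RingHom.comp_apply,
            MvPolynomial.eval_X]
          rfl
    exact congrArg (fun g => g G) h2
  rw [hQ, map_mul, hPe, zero_mul] at h1
  exact hGe ((map_eq_zero f).1 h1.symm)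

/-- the polynomial of a moving line -/
noncomputable def lpol (P : Fin 2 → MvPolynomial (Fin m) K) : MvPolynomial (Fin m ⊕ Fin 2) K :=
  ∑ i, MvPolynomial.rename Sum.inl (P i) * MvPolynomial.X (Sum.inr i)

theorem lpol_ne {P : Fin 2 → MvPolynomial (Fin m) K} (hP : P ≠ 0) : lpol P ≠ 0 := by
  intro h0
  apply hP
  funext j
  have h1 := congrArg (MvPolynomial.aeval (Sum.elim (fun i => MvPolynomial.X i)
    (Pi.single j 1) : Fin m ⊕ Fin 2 → MvPolynomial (Fin m) K)) h0
  unfold lpol at h1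
  rw [map_zero, map_sum] at h1
  rw [Pi.zero_apply, ← h1, Finset.sum_eq_single j]
  · rw [map_mul, MvPolynomial.aeval_rename, MvPolynomial.aeval_X]
    have h2 : (Sum.elim (fun i => MvPolynomial.X i) (Pi.single j 1) :
        Fin m ⊕ Fin 2 → MvPolynomial (Fin m) K) ∘ Sum.inl = MvPolynomial.X := rfl
    rw [h2, MvPolynomial.aeval_X_left]
    show P j = P j * Pi.single (M := fun _ => MvPolynomial (Fin m) K) j 1 j
    rw [Pi.single_eq_same, mul_one]
  · intro i _ hi
    rw [map_mul, MvPolynomial.aeval_X]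
    show _ * Pi.single (M := fun _ => MvPolynomial (Fin m) K) j 1 i = 0
    rw [Pi.single_eq_of_ne hi, mul_zero]
  · intro h
    exact absurd (Finset.mem_univ j) h

theorem eval_lpol (P : Fin 2 → MvPolynomial (Fin m) K) (w : Fin m → K) (t : Fin 2 → K) :
    MvPolynomial.eval (Sum.elim w t) (lpol P) = Pool.Agent.N63.MT.lv P w t := by
  unfold lpol Pool.Agent.N63.MT.lv
  rw [map_sum]
  refine Finset.sum_congr rfl fun i _ => ?_
  rw [map_mul, MvPolynomial.eval_rename, MvPolynomial.eval_X]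
  rfl

end Pool.Agent.Run7.h489.PX
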