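import Mathlib
import Pool.Agent.Run7.h489.LV.Gens
import Pool.Agent.Run7.h489.LV.Many

set_option autoImplicit false
set_option linter.unusedSectionVars false

/-!
The group of `S`-units modulo powers.
-/

namespace Pool.Agent.Run7.h489.PX

open Height NumberField IsDedekindDomain
open Pool.Agent.W180.OP (Pl av wt fv)
open Pool.Agent.Run7.h489.LV

variable {L : Type} [Field L] [NumberField L]

/-- generators up to roots of the group of units outside a finite set of primes -/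
theorem gensU (P : Finset (HeightOneSpectrum (𝓞 L))) :
    ∃ g : (Fin (Units.rank L) ⊕ P) → L, (∀ j, IsU P (g j)) ∧ ∀ x : L, IsU P x → InD g x := by
  classical
  obtain ⟨h, hh⟩ : ∃ h, h = Fintype.card (ClassGroup (𝓞 L)) := ⟨_, rfl⟩
  have hpos : 0 < h := by rw [hh]; exact Fintype.card_pos
  have hex : ∀ v : HeightOneSpectrum (𝓞 L), ∃ U : 𝓞 L, Ideal.span {U} = v.asIdeal ^ h := by
    intro v
    rw [hh]
    exact Pool.Agent.Y742.SF.exists_gen v
  choose π hπ using hex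
  have hπ0 : ∀ v, ((π v : 𝓞 L) : L) ≠ 0 := fun v =>
    RingOfIntegers.coe_ne_zero_iff.2 (Pool.Agent.Y742.SF.gen_ne v h hpos (π v) (hπ v))
  set g : (Fin (Units.rank L) ⊕ P) → L := Sum.elim
    (fun i => ((Units.fundSystem L i : 𝓞 L) : L)) (fun v => ((π v.1 : 𝓞 L) : L)) with hg
  have hg0 : ∀ j, g j ≠ 0 := by
    rintro (i | v)
    · exact RingOfIntegers.coe_ne_zero_iff.2 (Units.ne_zero _)
    · exact hπ0 v.1
  have hgU : ∀ j, IsU P (g j) := by
    rintro (i | v)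
    · exact ⟨RingOfIntegers.coe_ne_zero_iff.2 (Units.ne_zero _), fun v _ => fv_unit v _⟩
    · exact ⟨hπ0 v.1, fun w hw => Pool.Agent.Y742.SF.fv_gen_ne v.1 h hpos (π v.1) (hπ v.1) w
        fun h => hw (h ▸ v.2)⟩
  refine ⟨g, hgU, fun x hx => ?_⟩
  -- units
  have hunit : ∀ u : (𝓞 L)ˣ, InD g ((u : 𝓞 L) : L) := by
    intro u
    obtain ⟨⟨ζ, e⟩, he, -⟩ := Units.exist_unique_eq_mul_prod L u
    let φ : (𝓞 L)ˣ →* Lˣ := Units.map (algebraMap (𝓞 L) L : 𝓞 L →* L)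
    have h1 : ((u : 𝓞 L) : L) = (((ζ : (𝓞 L)ˣ) : 𝓞 L) : L) *
        ∏ i, ((Units.fundSystem L i : 𝓞 L) : L) ^ e i := by
      have h2 : ((φ u : Lˣ) : L) = ((φ (ζ : (𝓞 L)ˣ) : Lˣ) : L) *
          ∏ i, ((φ (Units.fundSystem L i) : Lˣ) : L) ^ e i := by
        conv_lhs => rw [he]
        rw [map_mul, map_prod, _root_.Units.val_mul, _root_.Units.coe_prod]
        congr 1
        refine Finset.prod_congr rfl fun i _ => ?_
        rw [map_zpow, _root_.Units.val_zpow_eq_zpow_val]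
      exact h2
    rw [h1]
    refine InD.mul hg0 ?_ ?_
    · obtain ⟨k, hk, hk1⟩ := isOfFinOrder_iff_pow_eq_one.1 ((CommGroup.mem_torsion _).1 ζ.2)
      refine InD.of_pow (n := k) hk ?_
      have h3 : (((ζ : (𝓞 L)ˣ) : 𝓞 L) : L) ^ k = ((((ζ : (𝓞 L)ˣ) ^ k : (𝓞 L)ˣ) : 𝓞 L) : L) := by
        push_cast
        rfl
      rw [h3, hk1]
      have h4 : ((((1 : (𝓞 L)ˣ)) : 𝓞 L) : L) = 1 := by simp
      rw [h4]
      exact InD.one
    · refine InD.prod hg0 _ _ fun i _ => InD.zpow ?_ _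
      exact InD.gen (g := g) (Sum.inl i)
  -- the exponents
  have hexp : ∀ v : HeightOneSpectrum (𝓞 L), ∃ n : ℤ, fv v (x ^ h) = fv v ((π v : 𝓞 L) : L) ^ n := by
    intro v
    obtain ⟨n, hn⟩ := fv_zpow_int v hx.1
    refine ⟨-n, ?_⟩
    have h1 : fv v ((π v : 𝓞 L) : L) = ((Ideal.absNorm (Ideal.span {π v}) : ℕ) : ℝ)⁻¹ :=
      Pool.Agent.Y742.SF.fv_gen v h hpos (π v) (hπ v)
    rw [h1, hπ v, map_pow, map_pow, hn, Nat.cast_pow, inv_zpow', neg_neg, ← zpow_natCast,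
      ← zpow_natCast, ← zpow_mul, ← zpow_mul, mul_comm]
  choose n hn using hexp
  set y : L := x ^ h * ∏ v : P, (((π v.1 : 𝓞 L) : L) ^ n v.1)⁻¹ with hy
  have hprod0 : ∏ v : P, (((π v.1 : 𝓞 L) : L) ^ n v.1)⁻¹ ≠ 0 :=
    Finset.prod_ne_zero_iff.2 fun v _ => inv_ne_zero (zpow_ne_zero _ (hπ0 v.1))
  have hyU : IsU (∅ : Finset (HeightOneSpectrum (𝓞 L))) y := by
    refine ⟨mul_ne_zero (pow_ne_zero _ hx.1) hprod0, fun v _ => ?_⟩
    rw [hy, map_mul, map_prod]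
    have h1 : ∀ w : P, w.1 ≠ v → fv v (((π w.1 : 𝓞 L) : L) ^ n w.1)⁻¹ = 1 := by
      intro w hw
      have h2 : fv v ((π w.1 : 𝓞 L) : L) = 1 :=
        Pool.Agent.Y742.SF.fv_gen_ne w.1 h hpos (π w.1) (hπ w.1) v (Ne.symm hw)
      rw [map_inv₀, map_zpow₀, h2, one_zpow, inv_one]
    by_cases hv : v ∈ P
    · rw [Finset.prod_eq_single (⟨v, hv⟩ : P)]
      · rw [map_inv₀, map_zpow₀, hn v]
        refine mul_inv_cancel₀ (zpow_ne_zero _ ?_)
        exact ((fv v).ne_zero (hπ0 v))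
      · intro w _ hw
        exact h1 w fun h => hw (Subtype.ext h)
      · intro h
        exact absurd (Finset.mem_univ _) h
    · rw [Finset.prod_eq_one, mul_one, map_pow, hx.2 v hv, one_pow]
      intro w _
      exact h1 w fun h => hv (h ▸ w.2)
  obtain ⟨u, hu⟩ := unit_of_isU hyU
  refine InD.of_pow hpos ?_
  have h1 : x ^ h = y * (∏ v : P, (((π v.1 : 𝓞 L) : L) ^ n v.1)⁻¹)⁻¹ := by
    rw [hy, mul_inv_cancel_right₀ hprod0]
  rw [h1, ← hu]
  refine (hunit u).mul hg0 (InD.inv (InD.prod hg0 _ _ fun v _ => InD.inv (InD.zpow ?_ _)))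
  exact InD.gen (g := g) (Sum.inr v)


theorem kummer (S : Finset (HeightOneSpectrum (𝓞 L))) {E : ℕ} (hE : 0 < E) :
    ∃ Ξ : Finset L, (∀ ξ ∈ Ξ, IsU S ξ) ∧
      ∀ x : L, IsU S x → ∃ ξ ∈ Ξ, ∃ w, IsU S w ∧ x = ξ * w ^ E := by
  classical
  obtain ⟨g, hg, hgen⟩ := gensU S
  obtain ⟨C, hC⟩ : ∃ C : ℝ, C = E * ∑ j, logHeight₁ (g j) := ⟨_, rfl⟩
  refine ⟨(un_finite S C).toFinset, fun ξ hξ => ((un_finite S C).mem_toFinset.1 hξ).1, ?_⟩
  intro x hx
  obtain ⟨n, hn, a, ha⟩ := hgen x hx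
  have hEn : 0 < (E * n : ℕ) := Nat.mul_pos hE hn
  have hEn' : (0 : ℤ) < ((E * n : ℕ) : ℤ) := by exact_mod_cast hEn
  obtain ⟨w, hw⟩ : ∃ w : L, w = ∏ j, g j ^ (a j / ((E * n : ℕ) : ℤ)) := ⟨_, rfl⟩
  have hwU : IsU S w := by
    rw [hw]
    have : ∀ s : Finset (Fin (Units.rank L) ⊕ S),
        IsU S (∏ j ∈ s, g j ^ (a j / ((E * n : ℕ) : ℤ))) := by
      intro s
      induction s using Finset.induction_on with
      | empty => rw [Finset.prod_empty]; exact IsU.one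
      | insert b s hb ih =>
        rw [Finset.prod_insert hb]
        exact ((hg b).zpow _).mul ih
    exact this _
  obtain ⟨ξ, hξ⟩ : ∃ ξ : L, ξ = x / w ^ E := ⟨_, rfl⟩
  have hξU : IsU S ξ := by
    rw [hξ]
    exact hx.div (hwU.pow E)
  refine ⟨ξ, (un_finite S C).mem_toFinset.2 ⟨hξU, ?_⟩, w, hwU, by
    rw [hξ, div_mul_cancel₀ _ (pow_ne_zero _ hwU.1)]⟩
  have h1 : ξ ^ n = ∏ j, g j ^ (a j % ((E * n : ℕ) : ℤ)) := by
    rw [hξ, div_pow, ha, ← pow_mul, hw, ← Finset.prod_pow, ← Finset.prod_div_distrib]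
    refine Finset.prod_congr rfl fun j _ => ?_
    rw [← zpow_natCast (g j ^ (a j / ((E * n : ℕ) : ℤ))), ← zpow_mul, ← zpow_sub₀ (hg j).1]
    congr 1
    have h2 := Int.emod_add_mul_ediv (a j) ((E * n : ℕ) : ℤ)
    linarith [mul_comm (a j / ((E * n : ℕ) : ℤ)) ((E * n : ℕ) : ℤ)]
  have h2 : n * logHeight₁ ξ ≤ n * C := by
    rw [← logHeight₁_pow, h1]
    refine (height_prod_le _ _).trans ?_
    rw [hC, ← mul_assoc, Finset.mul_sum]
    refine Finset.sum_le_sum fun j _ => ?_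
    rw [logHeight₁_zpow]
    refine mul_le_mul_of_nonneg_right ?_ (zero_le_logHeight₁ _)
    have h3 := Int.emod_lt_of_pos (a j) hEn'
    have h4 := Int.emod_nonneg (a j) hEn'.ne'
    have h5 : (a j % ((E * n : ℕ) : ℤ)).natAbs ≤ n * E := by
      rw [mul_comm n E]
      omega
    exact_mod_cast h5
  exact le_of_mul_le_mul_left h2 (by exact_mod_cast hn)

end Pool.Agent.Run7.h489.PX
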