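import Mathlib

set_option autoImplicit false
set_option linter.unusedSectionVars false

/-!
Orders of elements of a group algebra along a direction.
-/

namespace Pool.Agent.Run7.h489.PX

open Polynomial

variable {Λ G : Type} [Field Λ] [AddCommGroup G]

/-- all exponents have order at most `l` -/
def Oa (θ : G →+ ℝ) (l : ℝ) (f : AddMonoidAlgebra Λ G) : Prop := ∀ ν ∈ f.coeff.support, θ ν ≤ l

variable {θ : G →+ ℝ} {l l' : ℝ}

theorem Oa.zero : Oa θ l (0 : AddMonoidAlgebra Λ G) := by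
  intro ν hν
  simp at hν

theorem Oa.mono {f : AddMonoidAlgebra Λ G} (h : Oa θ l f) (hl : l ≤ l') : Oa θ l' f :=
  fun ν hν => (h ν hν).trans hl

theorem Oa.add {f g : AddMonoidAlgebra Λ G} (hf : Oa θ l f) (hg : Oa θ l g) :
    Oa θ l (f + g) := by
  classical
  intro ν hν
  rw [AddMonoidAlgebra.coeff_add] at hν
  rcases Finset.mem_union.1 (Finsupp.support_add hν) with h | h
  · exact hf ν h
  · exact hg ν h

theorem Oa.neg {f : AddMonoidAlgebra Λ G} (hf : Oa θ l f) : Oa θ l (-f) := by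
  intro ν hν
  rw [AddMonoidAlgebra.coeff_neg, Finsupp.support_neg] at hν
  exact hf ν hν

theorem Oa.sub {f g : AddMonoidAlgebra Λ G} (hf : Oa θ l f) (hg : Oa θ l g) :
    Oa θ l (f - g) := by
  rw [sub_eq_add_neg]
  exact hf.add hg.neg

theorem Oa.mul {f g : AddMonoidAlgebra Λ G} (hf : Oa θ l f) (hg : Oa θ l' g) :
    Oa θ (l + l') (f * g) := by
  classical
  intro ν hν
  obtain ⟨a, ha, b, hb, rfl⟩ := Finset.mem_add.1 (AddMonoidAlgebra.support_coeff_mul_subset f g hν)
  rw [map_add]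
  exact add_le_add (hf a ha) (hg b hb)

theorem Oa.sum {ι : Type} (s : Finset ι) {f : ι → AddMonoidAlgebra Λ G}
    (h : ∀ i ∈ s, Oa θ l (f i)) : Oa θ l (∑ i ∈ s, f i) := by
  classical
  induction s using Finset.induction_on with
  | empty => rw [Finset.sum_empty]; exact Oa.zero
  | insert i s hi ih =>
    rw [Finset.sum_insert hi]
    exact (h i (Finset.mem_insert_self _ _)).add
      (ih fun j hj => h j (Finset.mem_insert_of_mem hj))

theorem Oa.single {ν : G} (h : θ ν ≤ l) (c : Λ) : Oa θ l (AddMonoidAlgebra.single ν c) := by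
  intro ν' hν'
  rw [AddMonoidAlgebra.coeff_single] at hν'
  have h1 := Finsupp.support_single_subset hν'
  rw [Finset.mem_singleton] at h1
  rw [h1]
  exact h

theorem Oa.alg (h : 0 ≤ l) (c : Λ) : Oa θ l (algebraMap Λ (AddMonoidAlgebra Λ G) c) := by
  rw [AddMonoidAlgebra.coe_algebraMap]
  refine Oa.single ?_ _
  rw [map_zero]
  exact h

theorem Oa.one (h : 0 ≤ l) : Oa θ l (1 : AddMonoidAlgebra Λ G) := by
  have := Oa.alg (Λ := Λ) (G := G) (θ := θ) h 1
  rwa [map_one] at this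

theorem Oa.pow {f : AddMonoidAlgebra Λ G} (hf : Oa θ l f) (j : ℕ) : Oa θ (j * l) (f ^ j) := by
  induction j with
  | zero =>
    rw [pow_zero]
    exact Oa.one (by simp)
  | succ j ih =>
    rw [pow_succ]
    refine (ih.mul hf).mono (le_of_eq ?_)
    push_cast
    ring

/-- all coefficients have order at most `l` -/
def Op (θ : G →+ ℝ) (l : ℝ) (F : (AddMonoidAlgebra Λ G)[X]) : Prop := ∀ i, Oa θ l (F.coeff i)

theorem Op.zero : Op θ l (0 : (AddMonoidAlgebra Λ G)[X]) := fun i => by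
  rw [coeff_zero]
  exact Oa.zero

theorem Op.mono {F : (AddMonoidAlgebra Λ G)[X]} (h : Op θ l F) (hl : l ≤ l') : Op θ l' F :=
  fun i => (h i).mono hl

theorem Op.add {F F' : (AddMonoidAlgebra Λ G)[X]} (h : Op θ l F) (h' : Op θ l F') :
    Op θ l (F + F') := fun i => by
  rw [coeff_add]
  exact (h i).add (h' i)

theorem Op.neg {F : (AddMonoidAlgebra Λ G)[X]} (h : Op θ l F) : Op θ l (-F) := fun i => by
  rw [coeff_neg]
  exact (h i).neg

theorem Op.sub {F F' : (AddMonoidAlgebra Λ G)[X]} (h : Op θ l F) (h' : Op θ l F') :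
    Op θ l (F - F') := fun i => by
  rw [coeff_sub]
  exact (h i).sub (h' i)

theorem Op.mul {F F' : (AddMonoidAlgebra Λ G)[X]} (h : Op θ l F) (h' : Op θ l' F') :
    Op θ (l + l') (F * F') := fun i => by
  rw [coeff_mul]
  exact Oa.sum _ fun p _ => (h p.1).mul (h' p.2)

theorem Op.sum {ι : Type} (s : Finset ι) {F : ι → (AddMonoidAlgebra Λ G)[X]}
    (h : ∀ i ∈ s, Op θ l (F i)) : Op θ l (∑ i ∈ s, F i) := fun j => by
  rw [finsetSum_coeff]
  exact Oa.sum _ fun i hi => h i hi j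

theorem Op.C {f : AddMonoidAlgebra Λ G} (h : Oa θ l f) : Op θ l (Polynomial.C f) := fun i => by
  rw [coeff_C]
  split_ifs
  · exact h
  · exact Oa.zero

theorem Op.X (h : 0 ≤ l) : Op θ l (Polynomial.X : (AddMonoidAlgebra Λ G)[X]) := fun i => by
  rw [coeff_X]
  split_ifs
  · exact Oa.one h
  · exact Oa.zero

theorem Op.one (h : 0 ≤ l) : Op θ l (1 : (AddMonoidAlgebra Λ G)[X]) := by
  have := Op.C (Oa.one (Λ := Λ) (θ := θ) h)
  rwa [Polynomial.C_1] at this

theorem Op.pow {F : (AddMonoidAlgebra Λ G)[X]} (h : Op θ l F) (j : ℕ) :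
    Op θ (j * l) (F ^ j) := by
  induction j with
  | zero =>
    rw [pow_zero]
    exact Op.one (by simp)
  | succ j ih =>
    rw [pow_succ]
    refine (ih.mul h).mono (le_of_eq ?_)
    push_cast
    ring

theorem Op.map (h : 0 ≤ l) (g : Λ[X]) : Op θ l (g.map (algebraMap Λ (AddMonoidAlgebra Λ G))) :=
  fun i => by
  rw [coeff_map]
  exact Oa.alg h _

/-- translation -/
theorem Op.taylor {F : (AddMonoidAlgebra Λ G)[X]} {N : ℕ} (hN : F.natDegree ≤ N) (h : Op θ l F)
    {c : AddMonoidAlgebra Λ G} {M : ℝ} (hM : 0 ≤ M) (hc : Oa θ M c) :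
    Op θ (l + N * M) (Polynomial.taylor c F) := by
  rw [taylor_apply, Polynomial.comp, Polynomial.eval₂_eq_sum_range' _ (Nat.lt_succ_of_le hN)]
  refine Op.sum _ fun i hi => ?_
  have h1 : Op θ M (Polynomial.X + Polynomial.C c) := (Op.X hM).add (Op.C hc)
  refine ((Op.C (h i)).mul (h1.pow i)).mono ?_
  have h2 : i ≤ N := Nat.lt_succ_iff.1 (Finset.mem_range.1 hi)
  have h3 : (i : ℝ) * M ≤ N * M := mul_le_mul_of_nonneg_right (by exact_mod_cast h2) hM
  linarith

end Pool.Agent.Run7.h489.PX
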