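import Mathlib
import Pool.Agent.Run7.h489.PX.Ord

set_option autoImplicit false
set_option linter.unusedSectionVars false

/-!
Approximate factorisation of polynomials over a group algebra.
-/

namespace Pool.Agent.Run7.h489.PX

open Polynomial

variable {Λ G : Type} [Field Λ] [AddCommGroup G]

theorem bez {g₁ g₂ : Λ[X]} (h1 : g₁.Monic) (h2 : g₂.Monic) (hc : IsCoprime g₁ g₂) (p : Λ[X])
    (hp : p.degree < g₁.degree + g₂.degree) :
    ∃ α β : Λ[X], α.degree < g₁.degree ∧ β.degree < g₂.degree ∧ α * g₂ + β * g₁ = p := by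
  obtain ⟨a, b, hab⟩ := hc
  obtain ⟨α, hα⟩ : ∃ α : Λ[X], α = (b * p) %ₘ g₁ := ⟨_, rfl⟩
  obtain ⟨q, hq⟩ : ∃ q : Λ[X], q = (b * p) /ₘ g₁ := ⟨_, rfl⟩
  have h3 : α + g₁ * q = b * p := by
    rw [hα, hq]
    exact modByMonic_add_div (b * p) g₁
  have h4 : α.degree < g₁.degree := by
    rw [hα]
    exact degree_modByMonic_lt _ h1
  have h5 : α * g₂ + (a * p + g₂ * q) * g₁ = p := by
    calc α * g₂ + (a * p + g₂ * q) * g₁ = (α + g₁ * q) * g₂ + a * p * g₁ := by ring
      _ = (a * g₁ + b * g₂) * p := by rw [h3]; ring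
      _ = p := by rw [hab, one_mul]
  refine ⟨α, a * p + g₂ * q, h4, ?_, h5⟩
  obtain ⟨β, hβ⟩ : ∃ β : Λ[X], β = a * p + g₂ * q := ⟨_, rfl⟩
  rw [← hβ] at h5 ⊢
  have h6 : β * g₁ = p - α * g₂ := by
    rw [← h5]
    ring
  have h7 : (β * g₁).degree < g₁.degree + g₂.degree := by
    rw [h6]
    refine (degree_sub_le _ _).trans_lt (max_lt hp ?_)
    rw [degree_mul]
    exact WithBot.add_lt_add_of_lt_of_le (by
      rw [Ne, degree_eq_bot]
      exact h2.ne_zero) h4 le_rfl
  rw [degree_mul, add_comm] at h7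
  exact lt_of_add_lt_add_left h7

theorem degree_C_mul_le' {R : Type} [CommRing R] (c : R) (p : R[X]) :
    (C c * p).degree ≤ p.degree := by
  refine (degree_mul_le _ _).trans ?_
  calc (C c).degree + p.degree ≤ 0 + p.degree := add_le_add degree_C_le le_rfl
    _ = p.degree := zero_add _

/-- the linear equation -/
theorem lineq {g₁ g₂ : Λ[X]} (h1 : g₁.Monic) (h2 : g₂.Monic) (hc : IsCoprime g₁ g₂)
    (E : (AddMonoidAlgebra Λ G)[X]) (hE : E.degree < g₁.degree + g₂.degree) :
    ∃ x y : (AddMonoidAlgebra Λ G)[X], x.degree < g₁.degree ∧ y.degree < g₂.degree ∧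
      x * g₂.map (algebraMap _ _) + y * g₁.map (algebraMap _ _) = E ∧
      ∀ (θ : G →+ ℝ) (l : ℝ), Op θ l E → Op θ l x ∧ Op θ l y := by
  classical
  obtain ⟨N, hN⟩ : ∃ N : ℕ, N = g₁.natDegree + g₂.natDegree := ⟨_, rfl⟩
  have hNd : g₁.degree + g₂.degree = (N : WithBot ℕ) := by
    rw [degree_eq_natDegree h1.ne_zero, degree_eq_natDegree h2.ne_zero, hN]
    rfl
  have hx := fun i : Fin N => bez h1 h2 hc (X ^ (i : ℕ)) (by
    rw [hNd, degree_X_pow]
    exact_mod_cast i.2)
  choose α β hα hβ hαβ using hx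
  refine ⟨∑ i : Fin N, C (E.coeff i) * (α i).map (algebraMap _ _),
    ∑ i : Fin N, C (E.coeff i) * (β i).map (algebraMap _ _), ?_, ?_, ?_, ?_⟩
  · refine (degree_sum_le _ _).trans_lt ?_
    rw [Finset.sup_lt_iff (by
      rw [bot_lt_iff_ne_bot, Ne, degree_eq_bot]
      exact h1.ne_zero)]
    intro i _
    exact (degree_C_mul_le' _ _).trans_lt ((degree_map_le).trans_lt (hα i))
  · refine (degree_sum_le _ _).trans_lt ?_
    rw [Finset.sup_lt_iff (by
      rw [bot_lt_iff_ne_bot, Ne, degree_eq_bot]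
      exact h2.ne_zero)]
    intro i _
    exact (degree_C_mul_le' _ _).trans_lt ((degree_map_le).trans_lt (hβ i))
  · rw [Finset.sum_mul, Finset.sum_mul, ← Finset.sum_add_distrib]
    have h3 : ∀ i : Fin N, C (E.coeff i) * (α i).map (algebraMap Λ (AddMonoidAlgebra Λ G)) *
        g₂.map (algebraMap _ _) + C (E.coeff i) * (β i).map (algebraMap _ _) *
        g₁.map (algebraMap _ _) = C (E.coeff i) * X ^ (i : ℕ) := by
      intro i
      have h4 := congrArg (Polynomial.map (algebraMap Λ (AddMonoidAlgebra Λ G))) (hαβ i)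
      rw [Polynomial.map_add, Polynomial.map_mul, Polynomial.map_mul, Polynomial.map_pow,
        Polynomial.map_X] at h4
      rw [← h4]
      ring
    rw [Finset.sum_congr rfl fun i _ => h3 i,
      Fin.sum_univ_eq_sum_range (fun i => C (E.coeff i) * X ^ i) N]
    symm
    rw [hNd] at hE
    by_cases hE0 : E = 0
    · rw [hE0]
      simp
    · refine as_sum_range_C_mul_X_pow' E ?_
      rw [degree_eq_natDegree hE0] at hE
      exact_mod_cast hE
  · intro θ l h
    refine ⟨Op.sum _ fun i _ => ?_, Op.sum _ fun i _ => ?_⟩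
    · exact ((Op.C (h i)).mul (Op.map le_rfl _)).mono (by rw [add_zero])
    · exact ((Op.C (h i)).mul (Op.map le_rfl _)).mono (by rw [add_zero])

/-- Hensel's lemma -/
theorem hensel {g₁ g₂ : Λ[X]} (h1 : g₁.Monic) (h2 : g₂.Monic) (hc : IsCoprime g₁ g₂)
    (F : (AddMonoidAlgebra Λ G)[X]) (hF : F.Monic)
    (hd : F.natDegree = g₁.natDegree + g₂.natDegree) (t : ℕ) :
    ∃ G₁ G₂ : (AddMonoidAlgebra Λ G)[X], G₁.Monic ∧ G₂.Monic ∧ G₁.natDegree = g₁.natDegree ∧
      G₂.natDegree = g₂.natDegree ∧ ∀ (θ : G →+ ℝ) (δ : ℝ), 0 ≤ δ →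
      Op θ (-δ) (F - (g₁ * g₂).map (algebraMap _ _)) →
      Op θ (-δ) (G₁ - g₁.map (algebraMap _ _)) ∧ Op θ (-δ) (G₂ - g₂.map (algebraMap _ _)) ∧
      Op θ (-((t + 1) * δ)) (F - G₁ * G₂) := by
  induction t with
  | zero =>
    refine ⟨g₁.map (algebraMap _ _), g₂.map (algebraMap _ _), h1.map _, h2.map _,
      h1.natDegree_map _, h2.natDegree_map _, fun θ δ hδ h => ⟨?_, ?_, ?_⟩⟩
    · rw [sub_self]
      exact Op.zero
    · rw [sub_self]
      exact Op.zero
    · rw [← Polynomial.map_mul]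
      exact h.mono (by simp)
  | succ t ih =>
    obtain ⟨G₁, G₂, hG₁, hG₂, hd₁, hd₂, ih⟩ := ih
    have hE : (F - G₁ * G₂).degree < g₁.degree + g₂.degree := by
      have h3 : g₁.degree + g₂.degree = ((g₁.natDegree + g₂.natDegree : ℕ) : WithBot ℕ) := by
        rw [degree_eq_natDegree h1.ne_zero, degree_eq_natDegree h2.ne_zero]
        rfl
      have h4 : F.degree = ((g₁.natDegree + g₂.natDegree : ℕ) : WithBot ℕ) := by
        rw [degree_eq_natDegree hF.ne_zero, hd]
      have h5 : (G₁ * G₂).degree = ((g₁.natDegree + g₂.natDegree : ℕ) : WithBot ℕ) := by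
        rw [degree_eq_natDegree (hG₁.mul hG₂).ne_zero, hG₁.natDegree_mul hG₂, hd₁, hd₂]
      rw [h3, ← h4]
      exact degree_sub_lt_left (h4.trans h5.symm) hF.ne_zero (by
        rw [hF.leadingCoeff, (hG₁.mul hG₂).leadingCoeff])
    obtain ⟨x, y, hx, hy, hxy, hord⟩ := lineq h1 h2 hc (F - G₁ * G₂) hE
    have hx' : x.degree < G₁.degree := by
      rw [degree_eq_natDegree hG₁.ne_zero, hd₁, ← degree_eq_natDegree h1.ne_zero]
      exact hx
    have hy' : y.degree < G₂.degree := by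
      rw [degree_eq_natDegree hG₂.ne_zero, hd₂, ← degree_eq_natDegree h2.ne_zero]
      exact hy
    refine ⟨G₁ + x, G₂ + y, hG₁.add_of_left hx', hG₂.add_of_left hy', ?_, ?_,
      fun θ δ hδ h => ?_⟩
    · rw [natDegree_add_eq_left_of_degree_lt hx', hd₁]
    · rw [natDegree_add_eq_left_of_degree_lt hy', hd₂]
    · obtain ⟨i1, i2, i3⟩ := ih θ δ hδ h
      obtain ⟨o1, o2⟩ := hord θ _ i3
      have h3 : -((t + 1) * δ) ≤ -δ := by
        have h4 : 0 ≤ t * δ := by positivity
        linarith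
      refine ⟨?_, ?_, ?_⟩
      · rw [add_sub_right_comm]
        exact i1.add (o1.mono h3)
      · rw [add_sub_right_comm]
        exact i2.add (o2.mono h3)
      · have h4 : F - (G₁ + x) * (G₂ + y) = -(x * (G₂ - g₂.map (algebraMap _ _))) -
            y * (G₁ - g₁.map (algebraMap _ _)) - x * y := by
          have h5 : F = G₁ * G₂ + (x * g₂.map (algebraMap _ _) + y * g₁.map (algebraMap _ _)) := by
            rw [hxy]
            ring
          rw [h5]
          ring
        rw [h4]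
        have h5 : -((t + 1) * δ) + -δ = -(((t + 1 : ℕ) + 1) * δ) := by
          push_cast
          ring
        refine Op.sub (Op.sub (Op.neg ?_) ?_) ?_
        · rw [← h5]
          exact o1.mul i2
        · rw [← h5]
          exact o2.mul i1
        · rw [← h5]
          exact o1.mul (o2.mono h3)

end Pool.Agent.Run7.h489.PX
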