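import Mathlib
import Pool.Agent.Run7.h489.PX.Hen

set_option autoImplicit false
set_option linter.unusedSectionVars false

/-!
The step of the Newton polygon.
-/

namespace Pool.Agent.Run7.h489.PX

open Polynomial

variable {Λ G : Type} [Field Λ] [AddCommGroup G]

theorem factor [IsAlgClosed Λ] [CharZero Λ] {g : Λ[X]} (hg : g.Monic) {N : ℕ}
    (hN : g.natDegree = N) (h0 : g.coeff (N - 1) = 0) (hne : g ≠ X ^ N) :
    ∃ g₁ g₂ : Λ[X], g₁.Monic ∧ g₂.Monic ∧ IsCoprime g₁ g₂ ∧ g = g₁ * g₂ ∧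
      g₁.natDegree < N ∧ g₂.natDegree < N := by
  have hN0 : N ≠ 0 := by
    intro h
    apply hne
    rw [h] at hN
    rw [h, pow_zero]
    exact hg.natDegree_eq_zero.1 hN
  obtain ⟨α, hα⟩ := IsAlgClosed.exists_root g (by
    rw [degree_eq_natDegree hg.ne_zero, hN]
    exact_mod_cast hN0)
  obtain ⟨q, hq, hnd⟩ := exists_eq_pow_rootMultiplicity_mul_and_not_dvd g hg.ne_zero α
  obtain ⟨n, hn⟩ : ∃ n : ℕ, n = rootMultiplicity α g := ⟨_, rfl⟩
  rw [← hn] at hq
  have hn1 : 0 < n := by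
    rw [hn]
    exact (rootMultiplicity_pos hg.ne_zero).2 hα
  have hm1 : ((X - C α) ^ n).Monic := (monic_X_sub_C α).pow n
  have hm2 : q.Monic := by
    have h1 : ((X - C α) ^ n * q).Monic := hq ▸ hg
    exact hm1.of_mul_monic_left h1
  have hdeg : n + q.natDegree = N := by
    rw [← hN, hq, hm1.natDegree_mul hm2, natDegree_pow, natDegree_X_sub_C, mul_one]
  have hqd : q.natDegree ≠ 0 := by
    intro h1
    have h2 : q = 1 := hm2.natDegree_eq_zero.1 h1
    rw [h1, add_zero] at hdeg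
    rw [h2, mul_one, hdeg] at hq
    have h3 : -α * N = 0 := by
      rw [hq, sub_eq_add_neg, ← C_neg, coeff_X_add_C_pow] at h0
      have h4 : N - (N - 1) = 1 := by omega
      have h5 : N.choose (N - 1) = N := by
        obtain ⟨M, rfl⟩ : ∃ M, N = M + 1 := ⟨N - 1, by omega⟩
        simp
      rw [h4, h5, pow_one] at h0
      exact h0
    have h4 : α = 0 := by
      rcases mul_eq_zero.1 h3 with h | h
      · exact neg_eq_zero.1 h
      · exact absurd (by exact_mod_cast h) hN0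
    apply hne
    rw [hq, h4, C_0, sub_zero]
  refine ⟨(X - C α) ^ n, q, hm1, hm2, ?_, hq, ?_, ?_⟩
  · refine IsCoprime.pow_left ?_
    exact ((irreducible_X_sub_C α).coprime_iff_not_dvd).2 hnd
  · rw [natDegree_pow, natDegree_X_sub_C, mul_one]
    omega
  · omega

/-- the slopes -/
noncomputable def slopes [Module ℚ G] (N : ℕ) (F : (AddMonoidAlgebra Λ G)[X]) : Finset G :=
  open Classical in (Finset.range N).biUnion fun i =>
    (F.coeff i).coeff.support.image fun ν => (((N - i : ℕ) : ℚ)⁻¹) • ν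

/-- the leading part -/
noncomputable def lead (N : ℕ) (F : (AddMonoidAlgebra Λ G)[X]) : Λ[X] :=
  ∑ i ∈ Finset.range (N + 1), C ((F.coeff i).coeff 0) * X ^ i

theorem coeff_lead (N : ℕ) (F : (AddMonoidAlgebra Λ G)[X]) (i : ℕ) :
    (lead N F).coeff i = if i ≤ N then (F.coeff i).coeff 0 else 0 := by
  unfold lead
  rw [finsetSum_coeff]
  simp only [coeff_C_mul, coeff_X_pow, mul_ite, mul_one, mul_zero]
  rw [Finset.sum_ite_eq]
  simp only [Finset.mem_range, Nat.lt_succ_iff]

/-- rescaled polynomial -/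
noncomputable def resc (κ : G) (F : (AddMonoidAlgebra Λ G)[X]) : (AddMonoidAlgebra Λ G)[X] :=
  F.scaleRoots (AddMonoidAlgebra.single κ 1)

theorem coeff_resc {N : ℕ} {F : (AddMonoidAlgebra Λ G)[X]} (hN : F.natDegree = N) (κ : G) (i : ℕ)
    (ν : G) : ((resc κ F).coeff i).coeff ν = (F.coeff i).coeff (ν - (N - i : ℕ) • κ) := by
  unfold resc
  rw [coeff_scaleRoots, AddMonoidAlgebra.single_pow, one_pow, hN,
    AddMonoidAlgebra.coeff_mul_single_apply, mul_one, sub_eq_add_neg]

theorem resc_resc (κ : G) (F : (AddMonoidAlgebra Λ G)[X]) : resc κ (resc (-κ) F) = F := by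
  unfold resc
  rw [← scaleRoots_mul, AddMonoidAlgebra.single_mul_single, neg_add_cancel, one_mul,
    ← AddMonoidAlgebra.one_def, scaleRoots_one]

theorem resc_monic {F : (AddMonoidAlgebra Λ G)[X]} (hF : F.Monic) (κ : G) : (resc κ F).Monic :=
  (monic_scaleRoots_iff _).2 hF

theorem natDegree_resc (F : (AddMonoidAlgebra Λ G)[X]) (κ : G) :
    (resc κ F).natDegree = F.natDegree := natDegree_scaleRoots _ _

theorem resc_prod (κ : G) (P : Multiset (AddMonoidAlgebra Λ G)) :
    resc κ (P.map fun p => X - C p).prod =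
      ((P.map fun p => AddMonoidAlgebra.single κ 1 * p).map fun p => X - C p).prod := by
  induction P using Multiset.induction_on with
  | empty =>
    simp only [Multiset.map_zero, Multiset.prod_zero]
    exact one_scaleRoots _
  | cons p P ih =>
    simp only [Multiset.map_cons, Multiset.prod_cons]
    rw [← ih]
    unfold resc
    have h1 : (P.map fun p => X - C p).prod.Monic := monic_multiset_prod_of_monic _ _ fun p _ =>
      monic_X_sub_C p
    rw [mul_scaleRoots' _ _ _ (by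
      rw [leadingCoeff_X_sub_C, h1.leadingCoeff, one_mul]
      exact one_ne_zero), X_sub_C_scaleRoots, mul_comm p]

theorem op_resc {θ : G →+ ℝ} {l M : ℝ} {N : ℕ} {F F' : (AddMonoidAlgebra Λ G)[X]}
    (hF : F.natDegree = N) (hF' : F'.natDegree = N) (h : Op θ l (F - F')) {κ : G}
    (hM : |θ κ| ≤ M) : Op θ (l + N * M) (resc κ F - resc κ F') := by
  intro i
  have hM0 : 0 ≤ M := (abs_nonneg _).trans hM
  have h1 : (resc κ F - resc κ F').coeff i = (F - F').coeff i *
      AddMonoidAlgebra.single ((N - i : ℕ) • κ) 1 := by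
    unfold resc
    rw [coeff_sub, coeff_scaleRoots, coeff_scaleRoots, hF, hF', coeff_sub,
      AddMonoidAlgebra.single_pow, one_pow, sub_mul]
  rw [h1]
  refine ((h i).mul (Oa.single (l := ((N - i : ℕ) : ℝ) * θ κ) (by
    rw [map_nsmul, nsmul_eq_mul]) _)).mono ?_
  have h2 : ((N - i : ℕ) : ℝ) ≤ N := by exact_mod_cast Nat.sub_le _ _
  have h3 : ((N - i : ℕ) : ℝ) * θ κ ≤ ((N - i : ℕ) : ℝ) * M :=
    mul_le_mul_of_nonneg_left ((le_abs_self _).trans hM) (Nat.cast_nonneg _)
  have h4 : ((N - i : ℕ) : ℝ) * M ≤ N * M := mul_le_mul_of_nonneg_right h2 hM0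
  linarith

section

variable [Module ℚ G] {N : ℕ} {F : (AddMonoidAlgebra Λ G)[X]}

theorem mem_slopes {κ : G} : κ ∈ slopes N F ↔
    ∃ i < N, ∃ ν ∈ (F.coeff i).coeff.support, (((N - i : ℕ) : ℚ)⁻¹) • ν = κ := by
  classical
  unfold slopes
  simp only [Finset.mem_biUnion, Finset.mem_range, Finset.mem_image]

theorem lead_monic (hF : F.Monic) (hN : F.natDegree = N) (κ : G) :
    (lead N (resc (-κ) F)).Monic ∧ (lead N (resc (-κ) F)).natDegree = N := by
  have h1 : (lead N (resc (-κ) F)).coeff N = 1 := by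
    rw [coeff_lead, if_pos le_rfl, coeff_resc hN, Nat.sub_self, zero_nsmul, sub_zero]
    have h2 : F.coeff N = 1 := by
      rw [← hN]
      exact hF.coeff_natDegree
    rw [h2]
    exact AddMonoidAlgebra.coeff_one_zero
  have h2 : (lead N (resc (-κ) F)).natDegree ≤ N := by
    rw [natDegree_le_iff_coeff_eq_zero]
    intro i hi
    rw [coeff_lead, if_neg (by omega)]
  have h3 : (lead N (resc (-κ) F)).natDegree = N :=
    natDegree_eq_of_le_of_coeff_ne_zero h2 (by rw [h1]; exact one_ne_zero)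
  refine ⟨?_, h3⟩
  unfold Monic leadingCoeff
  rw [h3, h1]

theorem lead_coeff (hN : F.natDegree = N) (h0 : F.coeff (N - 1) = 0) (κ : G) :
    (lead N (resc (-κ) F)).coeff (N - 1) = 0 := by
  rw [coeff_lead, if_pos (by omega), coeff_resc hN, h0]
  rfl

theorem lead_ne (hN : F.natDegree = N) {κ : G} (hκ : κ ∈ slopes N F) :
    lead N (resc (-κ) F) ≠ X ^ N := by
  obtain ⟨i, hi, ν, hν, rfl⟩ := mem_slopes.1 hκ
  intro h
  have h1 : (lead N (resc (-((((N - i : ℕ) : ℚ)⁻¹) • ν)) F)).coeff i =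
      ((X : Λ[X]) ^ N).coeff i := by rw [h]
  have hNi : ((N - i : ℕ) : ℚ) ≠ 0 := by
    have : 0 < N - i := by omega
    positivity
  rw [coeff_lead, if_pos hi.le, coeff_resc hN, coeff_X_pow, if_neg (by omega), smul_neg,
    sub_neg_eq_add, zero_add, ← Nat.cast_smul_eq_nsmul ℚ, smul_smul, mul_inv_cancel₀ hNi,
    one_smul] at h1
  exact (Finsupp.mem_support_iff.1 hν) h1

theorem lead_ord (hF : F.Monic) (hN : F.natDegree = N) (κ : G) {θ : G →+ ℝ} {δ : ℝ} (hδ : 0 ≤ δ)
    (h : ∀ q ∈ slopes N F, q ≠ κ → θ q ≤ θ κ - δ) :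
    Op θ (-δ) (resc (-κ) F - (lead N (resc (-κ) F)).map (algebraMap _ _)) := by
  classical
  intro i ν hν
  rw [Finsupp.mem_support_iff, coeff_sub, AddMonoidAlgebra.coeff_sub, coeff_map,
    AddMonoidAlgebra.coe_algebraMap, Finsupp.sub_apply, Function.comp_apply,
    AddMonoidAlgebra.coeff_single, Algebra.algebraMap_self, RingHom.id_apply] at hν
  have hiN : i ≤ N := by
    by_contra hc
    apply hν
    rw [coeff_lead, if_neg hc, coeff_eq_zero_of_natDegree_lt (by
      rw [natDegree_resc, hN]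
      omega)]
    simp
  rw [coeff_lead, if_pos hiN] at hν
  have hν0 : ν ≠ 0 := by
    rintro rfl
    apply hν
    rw [Finsupp.single_eq_same, sub_self]
  rw [Finsupp.single_eq_of_ne hν0, sub_zero, coeff_resc hN] at hν
  rcases eq_or_lt_of_le hiN with rfl | hi
  · exfalso
    have h2 : F.coeff i = 1 := by
      have := hF.coeff_natDegree
      rwa [hN] at this
    rw [Nat.sub_self, zero_nsmul, sub_zero, h2, AddMonoidAlgebra.one_def,
      AddMonoidAlgebra.coeff_single, Finsupp.single_eq_of_ne hν0] at hν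
    exact hν rfl
  · have hNi : 0 < N - i := by omega
    have hNq : ((N - i : ℕ) : ℚ) ≠ 0 := by positivity
    have hNr : (1 : ℝ) ≤ ((N - i : ℕ) : ℝ) := by exact_mod_cast hNi
    rw [smul_neg, sub_neg_eq_add] at hν
    have h1 : (((N - i : ℕ) : ℚ)⁻¹) • (ν + (N - i : ℕ) • κ) ∈ slopes N F :=
      mem_slopes.2 ⟨i, hi, _, Finsupp.mem_support_iff.2 hν, rfl⟩
    have h2 : (((N - i : ℕ) : ℚ)⁻¹) • (ν + (N - i : ℕ) • κ) = (((N - i : ℕ) : ℚ)⁻¹) • ν + κ := by
      rw [smul_add, ← Nat.cast_smul_eq_nsmul ℚ, smul_smul, inv_mul_cancel₀ hNq, one_smul]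
    rw [h2] at h1
    have h3 := h _ h1 (by
      intro h4
      have h5 : (((N - i : ℕ) : ℚ)⁻¹) • ν = 0 := by
        have := sub_eq_zero.2 h4
        rwa [add_sub_cancel_right] at this
      rcases smul_eq_zero.1 h5 with h6 | h6
      · exact inv_ne_zero hNq h6
      · exact hν0 h6)
    rw [map_add, map_rat_smul, Rat.smul_def] at h3
    push_cast at h3
    have h4 : (((N - i : ℕ) : ℝ))⁻¹ * θ ν ≤ -δ := by linarith
    rw [inv_mul_le_iff₀ (by linarith)] at h4
    nlinarith

end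

end Pool.Agent.Run7.h489.PX
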