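import Mathlib
import Pool.Agent.Run7.h489.PX.Newt

set_option autoImplicit false
set_option linter.unusedSectionVars false

/-!
Approximate roots for all directions outside of a small set.
-/

namespace Pool.Agent.Run7.h489.PX

open Polynomial

variable {Λ G : Type} [Field Λ] [AddCommGroup G] [Module ℚ G]

/-- a notion of the size of a set of directions -/
structure Dens (Θ : Set (G →+ ℝ)) (D : Set (G →+ ℝ) → ℝ → Prop) : Prop where
  emp : ∀ η : ℝ, 0 < η → D ∅ η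
  uni : ∀ Z Z' η η', D Z η → D Z' η' → D (Z ∪ Z') (η + η')
  wall : ∀ ν : G, ν ≠ 0 → ∀ η : ℝ, 0 < η → ∃ δ : ℝ, 0 < δ ∧ D {θ | |θ ν| < δ} η
  bdd : ∀ ν : G, ∃ c : ℝ, ∀ θ ∈ Θ, |θ ν| ≤ c

/-- the property holds for small sets -/
def Sm (D : Set (G →+ ℝ) → ℝ → Prop) (Φ : Set (G →+ ℝ) → Prop) : Prop :=
  ∀ η : ℝ, 0 < η → ∃ Z, D Z η ∧ Φ Z

variable {Θ : Set (G →+ ℝ)} {D : Set (G →+ ℝ) → ℝ → Prop}

theorem Sm.and (hD : Dens Θ D) {Φ Ψ : Set (G →+ ℝ) → Prop}
    (hΦ : ∀ Z Z', Z ⊆ Z' → Φ Z → Φ Z') (hΨ : ∀ Z Z', Z ⊆ Z' → Ψ Z → Ψ Z')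
    (h : Sm D Φ) (h' : Sm D Ψ) : Sm D fun Z => Φ Z ∧ Ψ Z := by
  intro η hη
  obtain ⟨Z, h1, h2⟩ := h (η / 2) (half_pos hη)
  obtain ⟨Z', h3, h4⟩ := h' (η / 2) (half_pos hη)
  refine ⟨Z ∪ Z', ?_, hΦ _ _ Set.subset_union_left h2, hΨ _ _ Set.subset_union_right h4⟩
  have := hD.uni _ _ _ _ h1 h3
  rwa [add_halves] at this

theorem Sm.all (hD : Dens Θ D) {ι : Type} (s : Finset ι) {Φ : ι → Set (G →+ ℝ) → Prop}
    (hΦ : ∀ i Z Z', Z ⊆ Z' → Φ i Z → Φ i Z') (h : ∀ i ∈ s, Sm D (Φ i)) :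
    Sm D fun Z => ∀ i ∈ s, Φ i Z := by
  classical
  induction s using Finset.induction_on with
  | empty =>
    intro η hη
    exact ⟨∅, hD.emp η hη, fun i hi => absurd hi (Finset.notMem_empty i)⟩
  | insert i s hi ih =>
    have h1 := Sm.and hD (hΦ i) (fun Z Z' hZ (h : ∀ i ∈ s, Φ i Z) j hj => hΦ j Z Z' hZ (h j hj))
      (h i (Finset.mem_insert_self _ _)) (ih fun j hj => h j (Finset.mem_insert_of_mem hj))
    intro η hη
    obtain ⟨Z, h2, h3, h4⟩ := h1 η hη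
    refine ⟨Z, h2, fun j hj => ?_⟩
    rcases Finset.mem_insert.1 hj with rfl | hj
    · exact h3
    · exact h4 j hj

/-- the walls of a finite set of exponents -/
theorem walls (hD : Dens Θ D) (s : Finset G) (hs : ∀ ν ∈ s, ν ≠ 0) {η : ℝ} (hη : 0 < η) :
    ∃ (Z : Set (G →+ ℝ)) (δ : ℝ), 0 < δ ∧ D Z η ∧ ∀ θ ∉ Z, ∀ ν ∈ s, δ ≤ |θ ν| := by
  have h := Sm.all hD s (Φ := fun ν Z => ∃ δ : ℝ, 0 < δ ∧ ∀ θ ∉ Z, δ ≤ |θ ν|)
    (fun i Z Z' hZ h => by
      obtain ⟨δ, h1, h2⟩ := h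
      exact ⟨δ, h1, fun θ hθ => h2 θ fun h => hθ (hZ h)⟩)
    (fun ν hν η hη => by
      obtain ⟨δ, h1, h2⟩ := hD.wall ν (hs ν hν) η hη
      exact ⟨_, h2, δ, h1, fun θ hθ => not_lt.1 hθ⟩) η hη
  obtain ⟨Z, h1, h2⟩ := h
  choose! δ h3 h4 using h2
  rcases s.eq_empty_or_nonempty with rfl | hne
  · exact ⟨Z, 1, one_pos, h1, fun θ _ ν hν => absurd hν (Finset.notMem_empty ν)⟩
  · refine ⟨Z, s.inf' hne δ, (Finset.lt_inf'_iff hne).2 fun ν hν => h3 ν hν, h1,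
      fun θ hθ ν hν => (Finset.inf'_le _ hν).trans (h4 ν hν θ hθ)⟩

/-- approximate roots -/
def Claim (Θ : Set (G →+ ℝ)) (D : Set (G →+ ℝ) → ℝ → Prop) (N : ℕ)
    (F : (AddMonoidAlgebra Λ G)[X]) : Prop :=
  ∀ L : ℝ, Sm D fun Z => ∃ Ps : Set (Multiset (AddMonoidAlgebra Λ G)), Ps.Finite ∧
    (∀ P ∈ Ps, P.card = N) ∧ ∀ θ ∈ Θ, θ ∉ Z → ∃ P ∈ Ps, Op θ (-L) (F - (P.map fun p => X - C p).prod)

theorem coeff_taylor_pred {F : (AddMonoidAlgebra Λ G)[X]} (hF : F.Monic) {N : ℕ} (hN1 : 1 ≤ N)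
    (hN : F.natDegree = N) (a : AddMonoidAlgebra Λ G) :
    (taylor a F).coeff (N - 1) = F.coeff (N - 1) + N * a := by
  rw [taylor_coeff]
  have h1 : (hasseDeriv (N - 1) F).natDegree < 2 := by
    have := natDegree_hasseDeriv_le F (N - 1)
    omega
  have h2 : F.coeff N = 1 := by
    rw [← hN]
    exact hF.coeff_natDegree
  rw [eval_eq_sum_range' h1, Finset.sum_range_succ, Finset.sum_range_one, hasseDeriv_coeff,
    hasseDeriv_coeff, zero_add, Nat.choose_self]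
  have h3 : 1 + (N - 1) = N := by omega
  have h4 : N.choose (N - 1) = N := by
    obtain ⟨M, rfl⟩ : ∃ M, N = M + 1 := ⟨N - 1, by omega⟩
    simp
  rw [h3, h4, h2]
  simp

theorem monic_prod (P : Multiset (AddMonoidAlgebra Λ G)) :
    (P.map fun p => X - C p).prod.Monic ∧ (P.map fun p => X - C p).prod.natDegree = P.card := by
  refine ⟨monic_multiset_prod_of_monic _ _ fun p _ => monic_X_sub_C p, ?_⟩
  exact natDegree_multiset_prod_X_sub_C_eq_card P

theorem taylor_prod (a : AddMonoidAlgebra Λ G) (P : Multiset (AddMonoidAlgebra Λ G)) :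
    taylor a (P.map fun p => X - C p).prod =
      ((P.map fun p => p - a).map fun p => X - C p).prod := by
  induction P using Multiset.induction_on with
  | empty =>
    simp only [Multiset.map_zero, Multiset.prod_zero]
    rw [taylor_one, C_1]
  | cons p P ih =>
    simp only [Multiset.map_cons, Multiset.prod_cons]
    rw [← ih, taylor_mul, map_sub, taylor_X, taylor_C, C_sub]
    ring

/-- the Tschirnhausen transformation -/
theorem claim_taylor (hD : Dens Θ D) {F : (AddMonoidAlgebra Λ G)[X]} {N : ℕ}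
    (hN : F.natDegree = N) (a : AddMonoidAlgebra Λ G) (h : Claim Θ D N (taylor (-a) F)) :
    Claim Θ D N F := by
  intro L η hη
  obtain ⟨M, hM0, hM⟩ : ∃ M : ℝ, 0 ≤ M ∧ ∀ θ ∈ Θ, Oa θ M a := by
    choose c hc using hD.bdd
    refine ⟨∑ ν ∈ a.coeff.support, |c ν|, Finset.sum_nonneg fun _ _ => abs_nonneg _, ?_⟩
    intro θ hθ ν hν
    refine (le_abs_self _).trans ((hc ν θ hθ).trans ((le_abs_self _).trans ?_))
    exact Finset.single_le_sum (f := fun ν => |c ν|) (fun _ _ => abs_nonneg _) hν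
  obtain ⟨Z, h1, Ps, h2, h3, h4⟩ := h (L + N * M) η hη
  refine ⟨Z, h1, (fun P => P.map fun p => p - a) '' Ps, h2.image _, ?_, ?_⟩
  · rintro _ ⟨P, hP, rfl⟩
    show (P.map fun p => p - a).card = N
    rw [Multiset.card_map, h3 P hP]
  · intro θ hθ hZ
    obtain ⟨P, hP, h5⟩ := h4 θ hθ hZ
    refine ⟨_, ⟨P, hP, rfl⟩, ?_⟩
    have h6 : F - ((P.map fun p => p - a).map fun p => X - C p).prod =
        taylor a (taylor (-a) F - (P.map fun p => X - C p).prod) := by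
      rw [map_sub, taylor_taylor, add_neg_cancel, taylor_zero, taylor_prod]
    have h7 : (taylor (-a) F - (P.map fun p => X - C p).prod).natDegree ≤ N := by
      refine (natDegree_sub_le _ _).trans (max_le ?_ ?_)
      · rw [natDegree_taylor, hN]
      · rw [(monic_prod P).2, h3 P hP]
    show Op θ (-L) (F - ((P.map fun p => p - a).map fun p => X - C p).prod)
    rw [h6]
    refine (Op.taylor h7 h5 hM0 (hM θ hθ)).mono ?_
    linarith

theorem mono_phi {N : ℕ} {F : (AddMonoidAlgebra Λ G)[X]} {L : ℝ} (Z Z' : Set (G →+ ℝ))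
    (hZ : Z ⊆ Z') (h : ∃ Ps : Set (Multiset (AddMonoidAlgebra Λ G)), Ps.Finite ∧
    (∀ P ∈ Ps, P.card = N) ∧ ∀ θ ∈ Θ, θ ∉ Z → ∃ P ∈ Ps, Op θ (-L) (F - (P.map fun p => X - C p).prod)) :
    ∃ Ps : Set (Multiset (AddMonoidAlgebra Λ G)), Ps.Finite ∧
    (∀ P ∈ Ps, P.card = N) ∧
      ∀ θ ∈ Θ, θ ∉ Z' → ∃ P ∈ Ps, Op θ (-L) (F - (P.map fun p => X - C p).prod) := by
  obtain ⟨Ps, h1, h2, h3⟩ := h
  exact ⟨Ps, h1, h2, fun θ hθ hZ' => h3 θ hθ fun hc => hZ' (hZ hc)⟩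

/-- one slope -/
theorem claim_slope [IsAlgClosed Λ] [CharZero Λ] (hD : Dens Θ D) {N : ℕ}
    (ih : ∀ n < N, ∀ F : (AddMonoidAlgebra Λ G)[X], F.Monic → F.natDegree = n → Claim Θ D n F)
    {F : (AddMonoidAlgebra Λ G)[X]} (hF : F.Monic) (hN : F.natDegree = N)
    (h0 : F.coeff (N - 1) = 0) {κ : G} (hκ : κ ∈ slopes N F) {δ : ℝ} (hδ : 0 < δ) (L : ℝ) :
    Sm D fun Z => ∃ Ps : Set (Multiset (AddMonoidAlgebra Λ G)), Ps.Finite ∧
      (∀ P ∈ Ps, P.card = N) ∧ ∀ θ ∈ Θ, θ ∉ Z → (∀ q ∈ slopes N F, q ≠ κ → θ q ≤ θ κ - δ) →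
        ∃ P ∈ Ps, Op θ (-L) (F - (P.map fun p => X - C p).prod) := by
  obtain ⟨M, hM⟩ := hD.bdd κ
  obtain ⟨hgm, hgd⟩ := lead_monic hF hN κ
  obtain ⟨g₁, g₂, hg₁, hg₂, hcop, hg, hd1, hd2⟩ := factor hgm hgd (lead_coeff hN h0 κ)
    (lead_ne hN hκ)
  obtain ⟨L', hL'⟩ : ∃ L' : ℝ, L' = |L| + N * |M| := ⟨_, rfl⟩
  have hL'0 : 0 ≤ L' := by
    rw [hL']
    positivity
  obtain ⟨t, ht⟩ := exists_nat_ge (L' / δ)
  have ht' : L' ≤ (t + 1) * δ := by
    rw [div_le_iff₀ hδ] at ht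
    nlinarith
  have hFd : (resc (-κ) F).natDegree = g₁.natDegree + g₂.natDegree := by
    rw [natDegree_resc, hN, ← hgd, hg, hg₁.natDegree_mul hg₂]
  obtain ⟨G₁, G₂, hG₁, hG₂, hGd₁, hGd₂, hen⟩ := hensel hg₁ hg₂ hcop (resc (-κ) F)
    (resc_monic hF _) hFd t
  have h1 := ih _ (hGd₁ ▸ hd1) G₁ hG₁ rfl L'
  have h2 := ih _ (hGd₂ ▸ hd2) G₂ hG₂ rfl L'
  intro η hη
  obtain ⟨Z, hZ, ⟨Ps₁, a1, a2, a3⟩, Ps₂, b1, b2, b3⟩ := Sm.and hD mono_phi mono_phi h1 h2 η hη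
  have hNsum : G₁.natDegree + G₂.natDegree = N := by
    rw [hGd₁, hGd₂, ← hFd, natDegree_resc, hN]
  refine ⟨Z, hZ, (fun P : Multiset (AddMonoidAlgebra Λ G) × Multiset (AddMonoidAlgebra Λ G) =>
    (P.1 + P.2).map fun p => AddMonoidAlgebra.single κ 1 * p) '' (Ps₁ ×ˢ Ps₂),
    (a1.prod b1).image _, ?_, ?_⟩
  · rintro _ ⟨P, ⟨hP1, hP2⟩, rfl⟩
    show ((P.1 + P.2).map fun p => AddMonoidAlgebra.single κ 1 * p).card = N
    rw [Multiset.card_map, Multiset.card_add, a2 _ hP1, b2 _ hP2, hNsum]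
  · intro θ hθ hθZ hgap
    obtain ⟨P₁, hP₁, c1⟩ := a3 θ hθ hθZ
    obtain ⟨P₂, hP₂, c2⟩ := b3 θ hθ hθZ
    refine ⟨_, ⟨(P₁, P₂), ⟨hP₁, hP₂⟩, rfl⟩, ?_⟩
    show Op θ (-L) (F - (((P₁ + P₂).map fun p => AddMonoidAlgebra.single κ 1 * p).map
      fun p => X - C p).prod)
    have h3 := lead_ord hF hN κ hδ.le hgap
    rw [hg] at h3
    obtain ⟨h4, h5, h6⟩ := hen θ δ hδ.le h3
    obtain ⟨q₁, hq₁⟩ : ∃ p : (AddMonoidAlgebra Λ G)[X], p = (P₁.map fun p => X - C p).prod :=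
      ⟨_, rfl⟩
    obtain ⟨q₂, hq₂⟩ : ∃ p : (AddMonoidAlgebra Λ G)[X], p = (P₂.map fun p => X - C p).prod :=
      ⟨_, rfl⟩
    have hprod : ((P₁ + P₂).map fun p => X - C p).prod = q₁ * q₂ := by
      rw [Multiset.map_add, Multiset.prod_add, hq₁, hq₂]
    rw [← hq₁] at c1
    rw [← hq₂] at c2
    have h7 : Op θ 0 G₂ := by
      have h8 : G₂ = (G₂ - g₂.map (algebraMap _ _)) + g₂.map (algebraMap _ _) := by ring
      rw [h8]
      exact (h5.mono (by linarith)).add (Op.map le_rfl _)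
    have h9 : Op θ 0 q₁ := by
      have h8 : q₁ = (G₁ - g₁.map (algebraMap _ _)) + g₁.map (algebraMap _ _) - (G₁ - q₁) := by
        ring
      rw [h8]
      exact ((h4.mono (by linarith)).add (Op.map le_rfl _)).sub (c1.mono (by linarith))
    have h10 : Op θ (-L') (resc (-κ) F - q₁ * q₂) := by
      have h8 : resc (-κ) F - q₁ * q₂ = (resc (-κ) F - G₁ * G₂) + (G₁ - q₁) * G₂ +
          q₁ * (G₂ - q₂) := by ring
      rw [h8]
      refine ((h6.mono (by linarith)).add ?_).add ?_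
      · exact (c1.mul h7).mono (by rw [add_zero])
      · exact (h9.mul c2).mono (by rw [zero_add])
    have h11 : (q₁ * q₂).natDegree = N := by
      rw [← hprod, (monic_prod _).2, Multiset.card_add, a2 _ hP₁, b2 _ hP₂, hNsum]
    have h12 := op_resc (natDegree_resc F (-κ) |>.trans hN) h11 h10 ((hM θ hθ).trans (le_abs_self M))
    rw [resc_resc, ← hprod, resc_prod] at h12
    refine h12.mono ?_
    have := le_abs_self L
    rw [hL']
    linarith

theorem claim [IsAlgClosed Λ] [CharZero Λ] (hD : Dens Θ D) (N : ℕ) :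
    ∀ F : (AddMonoidAlgebra Λ G)[X], F.Monic → F.natDegree = N → Claim Θ D N F := by
  classical
  induction N using Nat.strong_induction_on with
  | _ N ih =>
  -- the case without the second coefficient
  have hred : ∀ F : (AddMonoidAlgebra Λ G)[X], F.Monic → F.natDegree = N → F.coeff (N - 1) = 0 →
      Claim Θ D N F := by
    intro F hF hN h0
    by_cases hX : F = X ^ N
    · intro L η hη
      refine ⟨∅, hD.emp η hη, {Multiset.replicate N 0}, Set.finite_singleton _, ?_, ?_⟩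
      · rintro P rfl
        rw [Multiset.card_replicate]
      · intro θ _ _
        refine ⟨_, rfl, ?_⟩
        rw [Multiset.map_replicate, Multiset.prod_replicate, C_0, sub_zero, hX, sub_self]
        exact Op.zero
    · have hne : (slopes N F).Nonempty := by
        by_contra hcon
        rw [Finset.not_nonempty_iff_eq_empty] at hcon
        apply hX
        ext1 i
        rw [coeff_X_pow]
        split_ifs with hi
        · rw [hi, ← hN]
          exact hF.coeff_natDegree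
        · rcases lt_or_gt_of_ne hi with h | h
          · by_contra hc
            have h1 : (F.coeff i).coeff ≠ 0 := fun h2 => hc (AddMonoidAlgebra.coeff_eq_zero.1 h2)
            obtain ⟨ν, hν⟩ := Finsupp.support_nonempty_iff.2 h1
            have h2 : (((N - i : ℕ) : ℚ)⁻¹) • ν ∈ slopes N F := mem_slopes.2 ⟨i, h, ν, hν, rfl⟩
            rw [hcon] at h2
            exact absurd h2 (Finset.notMem_empty _)
          · exact coeff_eq_zero_of_natDegree_lt (hN ▸ h)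
      intro L η hη
      obtain ⟨Z₀, δ, hδ, hZ₀, hwall⟩ := walls hD
        (((slopes N F ×ˢ slopes N F).filter fun p => p.1 ≠ p.2).image fun p => p.1 - p.2) (by
          intro ν hν
          obtain ⟨p, hp, rfl⟩ := Finset.mem_image.1 hν
          exact sub_ne_zero.2 (Finset.mem_filter.1 hp).2) (half_pos hη)
      obtain ⟨Z₁, hZ₁, hall⟩ := Sm.all hD (slopes N F) (Φ := fun κ Z =>
        ∃ Ps : Set (Multiset (AddMonoidAlgebra Λ G)), Ps.Finite ∧ (∀ P ∈ Ps, P.card = N) ∧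
          ∀ θ ∈ Θ, θ ∉ Z → (∀ q ∈ slopes N F, q ≠ κ → θ q ≤ θ κ - δ) →
            ∃ P ∈ Ps, Op θ (-L) (F - (P.map fun p => X - C p).prod))
        (fun κ Z Z' hZ h => by
          obtain ⟨Ps, h1, h2, h3⟩ := h
          exact ⟨Ps, h1, h2, fun θ hθ hZ' => h3 θ hθ fun hc => hZ' (hZ hc)⟩)
        (fun κ hκ => claim_slope hD ih hF hN h0 hκ hδ L) (η / 2) (half_pos hη)
      choose! Ps h1 h2 h3 using hall
      refine ⟨Z₀ ∪ Z₁, ?_, ⋃ κ ∈ slopes N F, Ps κ, ?_, ?_, ?_⟩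
      · have := hD.uni _ _ _ _ hZ₀ hZ₁
        rwa [add_halves] at this
      · exact Set.Finite.biUnion (slopes N F).finite_toSet fun κ hκ => h1 κ hκ
      · intro P hP
        simp only [Set.mem_iUnion, exists_prop] at hP
        obtain ⟨κ, hκ, hP⟩ := hP
        exact h2 κ hκ P hP
      · intro θ hθ hZ
        rw [Set.mem_union, not_or] at hZ
        obtain ⟨κ, hκ, hmax⟩ := Finset.exists_max_image (slopes N F) (fun q => θ q) hne
        obtain ⟨P, hP, h4⟩ := h3 κ hκ θ hθ hZ.2 (by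
          intro q hq hqκ
          have h5 := hwall θ hZ.1 (q - κ) (Finset.mem_image.2 ⟨(q, κ), Finset.mem_filter.2
            ⟨Finset.mem_product.2 ⟨hq, hκ⟩, hqκ⟩, rfl⟩)
          rw [map_sub, abs_of_nonpos (sub_nonpos.2 (hmax q hq))] at h5
          linarith)
        refine ⟨P, ?_, h4⟩
        simp only [Set.mem_iUnion, exists_prop]
        exact ⟨κ, hκ, hP⟩
  intro F hF hN
  by_cases hN0 : N = 0
  · subst hN0
    have hF1 : F = 1 := hF.natDegree_eq_zero.1 hN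
    intro L η hη
    refine ⟨∅, hD.emp η hη, {0}, Set.finite_singleton _, ?_, ?_⟩
    · rintro P rfl
      rfl
    · intro θ _ _
      refine ⟨_, rfl, ?_⟩
      rw [Multiset.map_zero, Multiset.prod_zero, hF1, sub_self]
      exact Op.zero
  · have hNq : (N : Λ) ≠ 0 := by exact_mod_cast hN0
    refine claim_taylor hD hN (algebraMap Λ _ (N : Λ)⁻¹ * F.coeff (N - 1)) ?_
    refine hred _ ?_ ?_ ?_
    · unfold Monic
      rw [leadingCoeff_taylor]
      exact hF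
    · rw [natDegree_taylor, hN]
    · rw [coeff_taylor_pred hF (Nat.one_le_iff_ne_zero.2 hN0) hN]
      have h1 : (N : AddMonoidAlgebra Λ G) * (algebraMap Λ _ (N : Λ)⁻¹ * F.coeff (N - 1)) =
          F.coeff (N - 1) := by
        rw [← mul_assoc, ← map_natCast (algebraMap Λ (AddMonoidAlgebra Λ G)) N, ← map_mul,
          mul_inv_cancel₀ hNq, map_one, one_mul]
      rw [mul_neg, h1, add_neg_cancel]

end Pool.Agent.Run7.h489.PX
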