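import Mathlib
import Pool.Agent.Run7.h489.PX.Formal
import Pool.Agent.Run7.h489.GF.Base

set_option autoImplicit false
set_option linter.unusedSectionVars false

/-!
Approximate roots with integral exponents and coefficients in a number field.
-/

namespace Pool.Agent.Run7.h489.PX

open Polynomial
open Pool.Agent.Run7.h489.GF (exists_field)

variable {m : ℕ}

/-- division of the exponents by `E` -/
def dv (m E : ℕ) : (Fin m → ℤ) →+ (Fin m → ℚ) where
  toFun a := fun i => (a i : ℚ) / E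
  map_zero' := by
    funext i
    simp
  map_add' a b := by
    funext i
    simp only [Pi.add_apply]
    push_cast
    ring

theorem dv_inj {E : ℕ} (hE : E ≠ 0) : Function.Injective (dv m E) := by
  intro a b h
  funext i
  have h1 : (a i : ℚ) / E = (b i : ℚ) / E := congrFun h i
  have hE' : (E : ℚ) ≠ 0 := by exact_mod_cast hE
  have h2 : (a i : ℚ) = b i := by
    field_simp at h1
    exact h1
  exact_mod_cast h2

theorem dv_smul {E : ℕ} (hE : E ≠ 0) (a : Fin m → ℤ) : dv m E ((E : ℤ) • a) = dv m 1 a := by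
  have hE' : (E : ℚ) ≠ 0 := by exact_mod_cast hE
  funext i
  show (((E : ℤ) • a) i : ℚ) / E = (a i : ℚ) / (1 : ℕ)
  rw [Pi.smul_apply, smul_eq_mul]
  push_cast
  field_simp

/-- change of the exponents and the coefficients -/
noncomputable def jh {K Λ : Type} [Field K] [Field Λ] (m : ℕ) (f : K →+* Λ) (E : ℕ) :
    AddMonoidAlgebra K (Fin m → ℤ) →+* AddMonoidAlgebra Λ (Fin m → ℚ) :=
  (AddMonoidAlgebra.mapRingHom _ f).comp (AddMonoidAlgebra.mapDomainRingHom K (dv m E))

/-- change of the coefficients, multiplication of the exponents by `E` -/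
noncomputable def inc {k K : Type} [Field k] [Field K] (m : ℕ) (f : k →+* K) (E : ℕ) :
    AddMonoidAlgebra k (Fin m → ℤ) →+* AddMonoidAlgebra K (Fin m → ℤ) :=
  (AddMonoidAlgebra.mapRingHom _ f).comp
    (AddMonoidAlgebra.mapDomainRingHom k (DistribSMul.toAddMonoidHom (Fin m → ℤ) (E : ℤ)))

theorem jh_single {K Λ : Type} [Field K] [Field Λ] (f : K →+* Λ) (E : ℕ) (a : Fin m → ℤ) (c : K) :
    jh m f E (AddMonoidAlgebra.single a c) = AddMonoidAlgebra.single (dv m E a) (f c) := by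
  unfold jh
  rw [RingHom.comp_apply, AddMonoidAlgebra.mapDomainRingHom_apply,
    AddMonoidAlgebra.mapDomain_single, AddMonoidAlgebra.mapRingHom_single]

theorem inc_single {k K : Type} [Field k] [Field K] (f : k →+* K) (E : ℕ) (a : Fin m → ℤ) (c : k) :
    inc m f E (AddMonoidAlgebra.single a c) = AddMonoidAlgebra.single ((E : ℤ) • a) (f c) := by
  unfold inc
  rw [RingHom.comp_apply, AddMonoidAlgebra.mapDomainRingHom_apply,
    AddMonoidAlgebra.mapDomain_single, AddMonoidAlgebra.mapRingHom_single]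
  rfl

theorem jh_inc {k K Λ : Type} [Field k] [Field K] [Field Λ] (f : k →+* K) (g : K →+* Λ)
    {E : ℕ} (hE : E ≠ 0) : (jh m g E).comp (inc m f E) = jh m (g.comp f) 1 := by
  refine AddMonoidAlgebra.ringHom_ext (fun r => ?_) fun a => ?_
  · rw [RingHom.comp_apply, inc_single, jh_single, jh_single, dv_smul hE, RingHom.comp_apply]
  · rw [RingHom.comp_apply, inc_single, jh_single, jh_single, dv_smul hE, RingHom.comp_apply]

theorem coeff_jh {K Λ : Type} [Field K] [Field Λ] (f : K →+* Λ) {E : ℕ} (hE : E ≠ 0)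
    (h : AddMonoidAlgebra K (Fin m → ℤ)) (a : Fin m → ℤ) :
    (jh m f E h).coeff (dv m E a) = f (h.coeff a) := by
  unfold jh
  rw [RingHom.comp_apply, AddMonoidAlgebra.coeff_mapRingHom,
    AddMonoidAlgebra.mapDomainRingHom_apply]
  congr 1
  exact Finsupp.mapDomain_apply (dv_inj hE) _ _

/-- a common denominator -/
theorem exists_den (s : Finset (Fin m → ℚ)) :
    ∃ E : ℕ, E ≠ 0 ∧ ∀ ν ∈ s, ∃ a : Fin m → ℤ, dv m E a = ν := by
  classical
  refine ⟨∏ ν ∈ s, ∏ i, (ν i).den, ?_, ?_⟩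
  · exact Finset.prod_ne_zero_iff.2 fun ν _ => Finset.prod_ne_zero_iff.2 fun i _ => (ν i).den_nz
  · intro ν hν
    have h1 : ∀ i, ∃ z : ℤ, (z : ℚ) / ((∏ ν ∈ s, ∏ i, (ν i).den : ℕ) : ℚ) = ν i := by
      intro i
      have h2 : (ν i).den ∣ ∏ ν ∈ s, ∏ i, (ν i).den :=
        (Finset.dvd_prod_of_mem _ (Finset.mem_univ i)).trans
          (Finset.dvd_prod_of_mem (fun ν : Fin m → ℚ => ∏ i, (ν i).den) hν)
      obtain ⟨q, hq⟩ := h2
      have hE : ((∏ ν ∈ s, ∏ i, (ν i).den : ℕ) : ℚ) ≠ 0 := by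
        rw [Nat.cast_ne_zero]
        exact Finset.prod_ne_zero_iff.2 fun ν _ => Finset.prod_ne_zero_iff.2 fun i _ => (ν i).den_nz
      refine ⟨(ν i).num * q, ?_⟩
      rw [div_eq_iff hE, hq]
      push_cast
      have h3 := Rat.mul_den_eq_num (ν i)
      rw [← h3]
      ring
    choose z hz using h1
    exact ⟨z, funext hz⟩

theorem lift_elem {K Λ : Type} [Field K] [Field Λ] (f : K →+* Λ) {E : ℕ}
    (p : AddMonoidAlgebra Λ (Fin m → ℚ)) (h1 : ∀ ν ∈ p.coeff.support, ∃ a, dv m E a = ν)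
    (h2 : ∀ ν ∈ p.coeff.support, ∃ y, f y = p.coeff ν) : ∃ p', jh m f E p' = p := by
  choose! a ha using h1
  choose! y hy using h2
  refine ⟨∑ ν ∈ p.coeff.support, AddMonoidAlgebra.single (a ν) (y ν), ?_⟩
  rw [map_sum]
  conv_rhs => rw [← AddMonoidAlgebra.sum_coeff_single p]
  rw [Finsupp.sum]
  refine Finset.sum_congr rfl fun ν hν => ?_
  rw [jh_single, ha ν hν, hy ν hν]

theorem lift_multiset {α β : Type} (f : α → β) (P : Multiset β) (h : ∀ p ∈ P, ∃ q, f q = p) :
    ∃ Q : Multiset α, Q.map f = P := by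
  induction P using Multiset.induction_on with
  | empty => exact ⟨0, Multiset.map_zero _⟩
  | cons p P ih =>
    obtain ⟨q, hq⟩ := h p (Multiset.mem_cons_self _ _)
    obtain ⟨Q, hQ⟩ := ih fun p hp => h p (Multiset.mem_cons_of_mem hp)
    exact ⟨q ::ₘ Q, by rw [Multiset.map_cons, hq, hQ]⟩

/-- approximate roots over a number field -/
theorem transfer {k : Type} [Field k] [NumberField k] {Θ : Set ((Fin m → ℚ) →+ ℝ)}
    {D : Set ((Fin m → ℚ) →+ ℝ) → ℝ → Prop} (hD : Dens Θ D)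
    {Φ : (AddMonoidAlgebra k (Fin m → ℤ))[X]} (hΦ : Φ.Monic) {d : ℕ} (hd : Φ.natDegree = d)
    (extra : ℕ → Finset (AlgebraicClosure k)) (L : ℝ) {η : ℝ} (hη : 0 < η) :
    ∃ (Z : Set ((Fin m → ℚ) →+ ℝ)) (E : ℕ) (K : Type) (_ : Field K) (_ : NumberField K)
      (_ : Algebra k K) (φ : K →ₐ[k] AlgebraicClosure k)
      (Ps : Finset (Multiset (AddMonoidAlgebra K (Fin m → ℤ)))),
      D Z η ∧ E ≠ 0 ∧ IsGalois ℚ K ∧ (∃ z : K, z ^ 2 = -1) ∧
      (∀ z ∈ extra E, ∃ y, φ y = z) ∧ (∀ P ∈ Ps, P.card = d) ∧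
      ∀ θ ∈ Θ, θ ∉ Z → ∃ P ∈ Ps, ∀ i, ∀ a ∈ ((Φ.map (inc m (algebraMap k K) E) -
        (P.map fun p => X - C p).prod).coeff i).coeff.support, θ (dv m E a) ≤ -L := by
  classical
  obtain ⟨Z, hZ, Ps, hfin, hcard, hmain⟩ := claim hD d (Φ.map (jh m (algebraMap k (AlgebraicClosure k)) 1))
    (hΦ.map _) (by rw [hΦ.natDegree_map, hd]) L η hη
  obtain ⟨els, hels⟩ : ∃ els : Finset (AddMonoidAlgebra (AlgebraicClosure k) (Fin m → ℚ)),
      els = hfin.toFinset.biUnion fun P => P.toFinset := ⟨_, rfl⟩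
  have hmem : ∀ P ∈ Ps, ∀ p ∈ P, p ∈ els := by
    intro P hP p hp
    rw [hels, Finset.mem_biUnion]
    exact ⟨P, hfin.mem_toFinset.2 hP, Multiset.mem_toFinset.2 hp⟩
  obtain ⟨E, hE, hden⟩ := exists_den (els.biUnion fun p => p.coeff.support)
  obtain ⟨cs, hcs⟩ : ∃ cs : Finset (AlgebraicClosure k), cs =
    (els.biUnion fun p => p.coeff.support.image fun ν => p.coeff ν) ∪ extra E := ⟨_, rfl⟩
  obtain ⟨K, hK1, hK2, hK3, hK4, hi, φ, hφ⟩ := exists_field (k := k)
    (fun z : {z // z ∈ cs} => z.1)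
  have hφ' : ∀ z ∈ cs, ∃ y, φ y = z := fun z hz => hφ ⟨z, hz⟩
  have hlift : ∀ P ∈ Ps, ∃ Q : Multiset (AddMonoidAlgebra K (Fin m → ℤ)),
      Q.map (jh m (φ : K →+* AlgebraicClosure k) E) = P := by
    intro P hP
    refine lift_multiset _ P fun p hp => ?_
    refine lift_elem _ p (fun ν hν => ?_) fun ν hν => ?_
    · exact hden ν (Finset.mem_biUnion.2 ⟨p, hmem P hP p hp, hν⟩)
    · refine hφ' _ ?_
      rw [hcs]
      exact Finset.mem_union_left _ (Finset.mem_biUnion.2 ⟨p, hmem P hP p hp,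
        Finset.mem_image_of_mem _ hν⟩)
  choose! Q hQ using hlift
  refine ⟨Z, E, K, hK1, hK2, hK3, φ, hfin.toFinset.image Q, hZ, hE, hK4, hi, ?_, ?_, ?_⟩
  · intro z hz
    refine hφ' z ?_
    rw [hcs]
    exact Finset.mem_union_right _ hz
  · intro P hP
    obtain ⟨P', hP', rfl⟩ := Finset.mem_image.1 hP
    rw [hfin.mem_toFinset] at hP'
    have h1 := congrArg Multiset.card (hQ P' hP')
    rw [Multiset.card_map, hcard P' hP'] at h1
    exact h1
  · intro θ hθ hθZ
    obtain ⟨P, hP, h1⟩ := hmain θ hθ hθZ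
    refine ⟨Q P, Finset.mem_image_of_mem _ (hfin.mem_toFinset.2 hP), ?_⟩
    intro i a ha
    refine h1 i (dv m E a) ?_
    rw [Finsupp.mem_support_iff] at ha ⊢
    have h2 : Φ.map (jh m (algebraMap k (AlgebraicClosure k)) 1) - (P.map fun p => X - C p).prod =
        (Φ.map (inc m (algebraMap k K) E) - ((Q P).map fun p => X - C p).prod).map
          (jh m (φ : K →+* AlgebraicClosure k) E) := by
      rw [Polynomial.map_sub, Polynomial.map_map, jh_inc _ _ hE, AlgHom.comp_algebraMap,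
        Polynomial.map_multiset_prod, Multiset.map_map]
      congr 2
      conv_lhs => rw [← hQ P hP]
      rw [Multiset.map_map]
      refine Multiset.map_congr rfl fun p _ => ?_
      rw [Function.comp_apply, Function.comp_apply, Polynomial.map_sub, Polynomial.map_X,
        Polynomial.map_C]
    rw [h2, Polynomial.coeff_map, coeff_jh _ hE]
    exact fun h3 => ha ((map_eq_zero _).1 h3)

end Pool.Agent.Run7.h489.PX
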