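import Mathlib
import Pool.Agent.Run7.h489.PX.Trans
import Pool.Agent.Run7.h489.TM.Cnt

set_option autoImplicit false
set_option linter.unusedSectionVars false

/-!
The directions of tuples of units.
-/

namespace Pool.Agent.Run7.h489.PX

open Height NumberField IsDedekindDomain
open Pool.Agent.W180.OP (Pl av wt fv nrm wt_nonneg le_nrm exists_nrm nrm_pos)
open Pool.Agent.R404.TC (Sp)
open Pool.Agent.Run7.h489.LV (IsU IsI abs_log_le)
open Pool.Agent.Run7.h489.TM

variable {m : ℕ}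

/-- the direction as a homomorphism -/
noncomputable def dr (x : Fin m → ℝ) : (Fin m → ℚ) →+ ℝ where
  toFun ν := ∑ i, (ν i : ℝ) * x i
  map_zero' := by simp
  map_add' a b := by
    rw [← Finset.sum_add_distrib]
    refine Finset.sum_congr rfl fun i _ => ?_
    rw [Pi.add_apply]
    push_cast
    ring

theorem dr_apply (x : Fin m → ℝ) (ν : Fin m → ℚ) : dr x ν = ∑ i, (ν i : ℝ) * x i := rfl

theorem dr_dv (x : Fin m → ℝ) (E : ℕ) (a : Fin m → ℤ) : dr x (dv m E a) = dt x a / E := by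
  rw [dr_apply]
  unfold dt
  rw [Finset.sum_div]
  refine Finset.sum_congr rfl fun i _ => ?_
  show (((a i : ℚ) / (E : ℚ) : ℚ) : ℝ) * x i = _
  push_cast
  ring

theorem dt_div (x : Fin m → ℝ) (T : ℝ) (a : Fin m → ℤ) : dt (fun i => x i / T) a = dt x a / T := by
  unfold dt
  rw [Finset.sum_div]
  refine Finset.sum_congr rfl fun i _ => ?_
  ring

variable {k : Type} [Field k] [NumberField k]

/-- the set of directions of bounded size -/
def Th (m : ℕ) : Set ((Fin m → ℚ) →+ ℝ) := {θ | ∃ x : Fin m → ℝ, (∀ i, |x i| ≤ 1) ∧ θ = dr x}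

/-- the tuples of units with a direction in `Z` -/
def bd (S : Finset (HeightOneSpectrum (𝓞 k))) (Z : Set ((Fin m → ℚ) →+ ℝ)) (T : ℝ) :
    Set (Fin m → k) := {u | u ∈ Bx m S T ∧ ∃ v ∈ Sp S, dr (fun i => dir u v i / T) ∈ Z}

theorem bd_finite (S : Finset (HeightOneSpectrum (𝓞 k))) (Z : Set ((Fin m → ℚ) →+ ℝ)) (T : ℝ) :
    (bd S Z T).Finite := (Bx m S T).finite_toSet.subset fun _ h => h.1

/-- the density of a set of directions -/
def Dn (m : ℕ) (S : Finset (HeightOneSpectrum (𝓞 k))) (Z : Set ((Fin m → ℚ) →+ ℝ)) (η : ℝ) : Prop :=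
  ∃ T₁ : ℝ, ∀ T : ℝ, T₁ ≤ T → ((bd S Z T).ncard : ℝ) ≤ η * (UF S T).card ^ m

theorem dens (S : Finset (HeightOneSpectrum (𝓞 k))) (hS : 2 ≤ (Sp S).card) :
    Dens (Th m) (Dn m S) := by
  classical
  constructor
  · intro η hη
    refine ⟨0, fun T _ => ?_⟩
    have h1 : bd S (∅ : Set ((Fin m → ℚ) →+ ℝ)) T = ∅ := by
      ext u
      constructor
      · rintro ⟨_, v, _, hv⟩
        exact absurd hv (Set.notMem_empty _)
      · exact fun h => absurd h (Set.notMem_empty _)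
    rw [h1, Set.ncard_empty, Nat.cast_zero]
    positivity
  · rintro Z Z' η η' ⟨T₁, h1⟩ ⟨T₂, h2⟩
    refine ⟨max T₁ T₂, fun T hT => ?_⟩
    have h3 := h1 T ((le_max_left _ _).trans hT)
    have h4 := h2 T ((le_max_right _ _).trans hT)
    have h5 : bd S (Z ∪ Z') T ⊆ bd S Z T ∪ bd S Z' T := by
      rintro u ⟨hu1, v, hv, hu2⟩
      rcases hu2 with h | h
      · exact Or.inl ⟨hu1, v, hv, h⟩
      · exact Or.inr ⟨hu1, v, hv, h⟩
    have h6 := (Set.ncard_le_ncard h5 ((bd_finite S Z T).union (bd_finite S Z' T))).trans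
      (Set.ncard_union_le _ _)
    have h7 : ((bd S (Z ∪ Z') T).ncard : ℝ) ≤ (bd S Z T).ncard + (bd S Z' T).ncard := by
      exact_mod_cast h6
    rw [add_mul]
    linarith
  · intro ν hν η hη
    obtain ⟨E, hE, hden⟩ := exists_den {ν}
    obtain ⟨a, ha⟩ := hden ν (Finset.mem_singleton_self _)
    have ha0 : a ≠ 0 := by
      rintro rfl
      rw [map_zero] at ha
      exact hν ha.symm
    have hE0 : (0 : ℝ) < E := by exact_mod_cast Nat.pos_of_ne_zero hE
    obtain ⟨δ, T₀, hδ, h⟩ := bad S hS (N := {a}) (by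
      intro b hb
      rw [Finset.mem_singleton.1 hb]
      exact ha0) hη
    refine ⟨δ / E, by positivity, max T₀ 1, fun T hT => ?_⟩
    have hT1 : 1 ≤ T := (le_max_right _ _).trans hT
    have hT0 : 0 < T := by linarith
    refine le_trans ?_ (h T ((le_max_left _ _).trans hT))
    rw [Nat.cast_le, ← Set.ncard_coe_finset]
    refine Set.ncard_le_ncard ?_ (Finset.finite_toSet _)
    rintro u ⟨hu1, v, hv, hu2⟩
    refine Finset.mem_coe.2 (Finset.mem_filter.2 ⟨hu1, v, hv, a, Finset.mem_singleton_self _, ?_⟩)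
    have h3 : |dr (fun i => dir u v i / T) ν| < δ / E := hu2
    rw [← ha, dr_dv, dt_div, abs_div, abs_of_pos hE0, div_lt_div_iff_of_pos_right hE0, abs_div,
      abs_of_pos hT0, div_lt_iff₀ hT0] at h3
    exact h3
  · intro ν
    refine ⟨∑ i, |(ν i : ℝ)|, ?_⟩
    rintro θ ⟨x, hx, rfl⟩
    rw [dr_apply]
    refine (Finset.abs_sum_le_sum_abs _ _).trans (Finset.sum_le_sum fun i _ => ?_)
    rw [abs_mul]
    exact mul_le_of_le_one_right (abs_nonneg _) (hx i)

theorem dir_mem {S : Finset (HeightOneSpectrum (𝓞 k))} {T : ℝ} (hT : 0 < T) {u : Fin m → k}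
    (hu : u ∈ Bx m S T) {v : Pl k} (hv : v ∈ Sp S) : dr (fun i => dir u v i / T) ∈ Th m := by
  refine ⟨_, fun i => ?_, rfl⟩
  obtain ⟨h1, h2⟩ := mem_Bx.1 hu i
  rw [abs_div, abs_of_pos hT, div_le_one hT]
  exact (abs_log_le h1 hv).trans h2

end Pool.Agent.Run7.h489.PX
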