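import Mathlib

set_option autoImplicit false
set_option linter.unusedSectionVars false

/-!
Roots of binary forms near approximate roots.
-/

namespace Pool.Agent.Run7.h489.PX

open Polynomial

section hv

variable {R : Type} [CommRing R]

/-- the value of a form -/
def hv (d : ℕ) (g : R[X]) (x y : R) : R :=
  ∑ i ∈ Finset.range (d + 1), g.coeff i * (x ^ i * y ^ (d - i))

/-- the form along a line -/
noncomputable def hp (d : ℕ) (g : R[X]) (c : R) (s e : Fin 2 → R) : R[X] :=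
  ∑ i ∈ Finset.range (d + 1), C (g.coeff i) * ((C (c * s 0) + C (c * e 0) * X) ^ i *
    (C (s 1) + C (e 1) * X) ^ (d - i))

theorem hp_zero (d : ℕ) (g : R[X]) (c : R) (s e : Fin 2 → R) :
    (hp d g c s e).coeff 0 = hv d g (c * s 0) (s 1) := by
  unfold hp hv
  rw [coeff_zero_eq_eval_zero, eval_finsetSum]
  refine Finset.sum_congr rfl fun i _ => ?_
  simp

theorem hp_add (d : ℕ) (g g' : R[X]) (c : R) (s e : Fin 2 → R) :
    hp d (g + g') c s e = hp d g c s e + hp d g' c s e := by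
  unfold hp
  rw [← Finset.sum_add_distrib]
  refine Finset.sum_congr rfl fun i _ => ?_
  rw [coeff_add, C_add]
  ring

theorem hp_map {R' : Type} [CommRing R'] (ι : R →+* R') (d : ℕ) (g : R[X]) (c : R)
    (s e : Fin 2 → R) : (hp d g c s e).map ι =
      hp d (g.map ι) (ι c) (fun i => ι (s i)) (fun i => ι (e i)) := by
  unfold hp
  rw [Polynomial.map_sum]
  refine Finset.sum_congr rfl fun i _ => ?_
  simp only [Polynomial.map_mul, Polynomial.map_pow, Polynomial.map_add, map_C, map_X, coeff_map,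
    map_mul]

theorem eval_hp (d : ℕ) (g : R[X]) (c : R) (s e : Fin 2 → R) (t : R) :
    (hp d g c s e).eval t = hv d g (c * (s 0 + t * e 0)) (s 1 + t * e 1) := by
  unfold hp hv
  rw [eval_finsetSum]
  refine Finset.sum_congr rfl fun i _ => ?_
  simp only [eval_mul, eval_pow, eval_add, eval_C, eval_X]
  ring

theorem hv_smul (d : ℕ) (g : R[X]) (x y a : R) : hv d g (a * x) (a * y) = a ^ d * hv d g x y := by
  unfold hv
  rw [Finset.mul_sum]
  refine Finset.sum_congr rfl fun i hi => ?_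
  have h1 : i + (d - i) = d := by
    have := Finset.mem_range.1 hi
    omega
  rw [mul_pow, mul_pow]
  calc g.coeff i * (a ^ i * x ^ i * (a ^ (d - i) * y ^ (d - i))) =
        a ^ (i + (d - i)) * (g.coeff i * (x ^ i * y ^ (d - i))) := by
        rw [pow_add]
        ring
    _ = _ := by rw [h1]

theorem natDegree_hp_le (d : ℕ) (g : R[X]) (c : R) (s e : Fin 2 → R) :
    (hp d g c s e).natDegree ≤ d := by
  unfold hp
  refine natDegree_sum_le_of_forall_le _ _ fun i hi => ?_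
  refine (natDegree_C_mul_le _ _).trans ((natDegree_mul_le).trans ?_)
  have h1 : ∀ a b : R, (C a + C b * X).natDegree ≤ 1 := fun a b => by
    rw [add_comm]
    exact natDegree_linear_le
  have h2 := (natDegree_pow_le_of_le i (h1 (c * s 0) (c * e 0)))
  have h3 := (natDegree_pow_le_of_le (d - i) (h1 (s 1) (e 1)))
  have := Finset.mem_range.1 hi
  omega

/-- the form of a product of linear factors along a line -/
theorem hp_prod [Nontrivial R] (q : Multiset R) (c : R) (s e : Fin 2 → R) :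
    hp q.card (q.map fun p => X - C p).prod c s e =
      (q.map fun p => C (c * s 0 - p * s 1) + C (c * e 0 - p * e 1) * X).prod := by
  induction q using Multiset.induction_on with
  | empty =>
    simp only [Multiset.map_zero, Multiset.prod_zero, Multiset.card_zero]
    unfold hp
    simp
  | cons p q ih =>
    simp only [Multiset.map_cons, Multiset.prod_cons, Multiset.card_cons]
    rw [← ih]
    obtain ⟨Q, hQ⟩ : ∃ Q : R[X], Q = (q.map fun p => X - C p).prod := ⟨_, rfl⟩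
    obtain ⟨d, hd⟩ : ∃ d : ℕ, d = q.card := ⟨_, rfl⟩
    rw [← hQ, ← hd]
    have hQd : Q.natDegree ≤ d := by
      rw [hQ, hd, natDegree_multiset_prod_X_sub_C_eq_card]
    obtain ⟨x, hx⟩ : ∃ x : R[X], x = C (c * s 0) + C (c * e 0) * X := ⟨_, rfl⟩
    obtain ⟨y, hy⟩ : ∃ y : R[X], y = C (s 1) + C (e 1) * X := ⟨_, rfl⟩
    have h1 : C (c * s 0 - p * s 1) + C (c * e 0 - p * e 1) * X = x - C p * y := by
      rw [hx, hy]
      simp only [C_sub, C_mul]
      ring
    rw [h1]
    unfold hp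
    rw [← hx, ← hy]
    have h2 : ∀ i, ((X - C p) * Q).coeff i = (X * Q).coeff i - p * Q.coeff i := by
      intro i
      rw [sub_mul, coeff_sub, coeff_C_mul]
    simp only [h2]
    have h3 : ∑ i ∈ Finset.range (d + 1 + 1), C ((X * Q).coeff i - p * Q.coeff i) *
        (x ^ i * y ^ (d + 1 - i)) = ∑ i ∈ Finset.range (d + 1 + 1), C ((X * Q).coeff i) *
        (x ^ i * y ^ (d + 1 - i)) - ∑ i ∈ Finset.range (d + 1 + 1), C p * (C (Q.coeff i) *
        (x ^ i * y ^ (d + 1 - i))) := by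
      rw [← Finset.sum_sub_distrib]
      refine Finset.sum_congr rfl fun i _ => ?_
      simp only [C_sub, C_mul]
      ring
    rw [h3, Finset.sum_range_succ', Finset.sum_range_succ (fun i => C p * (C (Q.coeff i) *
      (x ^ i * y ^ (d + 1 - i)))), sub_mul, Finset.mul_sum, Finset.mul_sum]
    have h4 : Q.coeff (d + 1) = 0 := coeff_eq_zero_of_natDegree_lt (by omega)
    rw [h4, C_0, zero_mul, mul_zero, add_zero, coeff_X_mul_zero, C_0, zero_mul, add_zero]
    refine congrArg₂ (fun a b : R[X] => a - b) (Finset.sum_congr rfl fun i _ => ?_)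
      (Finset.sum_congr rfl fun i hi => ?_)
    · rw [coeff_X_mul, Nat.add_sub_add_right]
      ring
    · have h5 : d + 1 - i = d - i + 1 := by
        have := Finset.mem_range.1 hi
        omega
      rw [h5, pow_succ]
      ring

end hv

section bounds

variable {K : Type} [Field K] {f : AbsoluteValue K ℝ}

/-- bound for the coefficients -/
def Bd (f : AbsoluteValue K ℝ) (A r : ℝ) (P : K[X]) : Prop := ∀ i, f (P.coeff i) ≤ A * r ^ i

theorem Bd.lin {A r α : ℝ} (hr : 0 ≤ r) {P : K[X]} (h : Bd f A r P) {a b : K}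
    (ha : f a ≤ α) (hb : f b ≤ α * r) : Bd f (2 * α * A) r ((C a + C b * X) * P) := by
  have hα : 0 ≤ α := (f.nonneg _).trans ha
  have hA : 0 ≤ A := by
    have := h 0
    rw [pow_zero, mul_one] at this
    exact (f.nonneg _).trans this
  intro i
  have h0 : (C a + C b * X) * P = C a * P + C b * (X * P) := by ring
  rw [h0, coeff_add, coeff_C_mul, coeff_C_mul]
  have h1 : f (a * P.coeff i) ≤ α * (A * r ^ i) := by
    rw [map_mul]
    exact mul_le_mul ha (h i) (f.nonneg _) hα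
  rcases i with _ | i
  · rw [coeff_X_mul_zero, mul_zero, add_zero]
    refine h1.trans ?_
    rw [pow_zero, mul_one, mul_one]
    nlinarith [mul_nonneg hα hA]
  · rw [coeff_X_mul]
    have h2 : f (b * P.coeff i) ≤ α * r * (A * r ^ i) := by
      rw [map_mul]
      exact mul_le_mul hb (h i) (f.nonneg _) (mul_nonneg hα hr)
    refine (f.add_le _ _).trans ((add_le_add h1 h2).trans (le_of_eq ?_))
    ring

theorem Bd.one {r : ℝ} (hr : 0 ≤ r) : Bd f 1 r (1 : K[X]) := by
  intro i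
  rw [one_mul, coeff_one]
  split_ifs with h
  · rw [h, pow_zero, map_one]
  · rw [map_zero]
    exact pow_nonneg hr _

theorem Bd.pow {A r α : ℝ} (hr : 0 ≤ r) {P : K[X]} (h : Bd f A r P) {a b : K}
    (ha : f a ≤ α) (hb : f b ≤ α * r) (n : ℕ) :
    Bd f ((2 * α) ^ n * A) r ((C a + C b * X) ^ n * P) := by
  induction n with
  | zero => rwa [pow_zero, pow_zero, one_mul, one_mul]
  | succ n ih =>
    have h1 : (2 * α) ^ (n + 1) * A = 2 * α * ((2 * α) ^ n * A) := by ring
    have h2 : (C a + C b * X) ^ (n + 1) * P = (C a + C b * X) * ((C a + C b * X) ^ n * P) := by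
      rw [pow_succ', mul_assoc]
    rw [h1, h2]
    exact Bd.lin hr ih ha hb

theorem Bd.prod {r : ℝ} (hr : 0 ≤ r) (q : Multiset (K × K)) (h : ∀ p ∈ q, f p.2 ≤ f p.1 * r) :
    Bd f (2 ^ q.card * f (q.map Prod.fst).prod) r (q.map fun p => C p.1 + C p.2 * X).prod := by
  induction q using Multiset.induction_on with
  | empty =>
    simp only [Multiset.map_zero, Multiset.prod_zero, Multiset.card_zero, pow_zero, map_one,
      mul_one]
    exact Bd.one hr
  | cons p q ih =>
    simp only [Multiset.map_cons, Multiset.prod_cons, Multiset.card_cons, map_mul]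
    have h1 := Bd.lin hr (ih fun p' hp' => h p' (Multiset.mem_cons_of_mem hp')) (le_refl (f p.1))
      (h p (Multiset.mem_cons_self _ _))
    intro i
    refine (h1 i).trans (le_of_eq ?_)
    ring

theorem hp_small {d : ℕ} {H : K[X]} {c : K} {s e : Fin 2 → K} (hs : ∀ i, f (s i) ≤ 1)
    (he : ∀ i, f (e i) ≤ 1) {τ : ℝ} (hH : ∀ i, f (H.coeff i) ≤ τ) (i : ℕ) :
    f ((hp d H c s e).coeff i) ≤ (d + 1) * (τ * (2 ^ d * max 1 (f c) ^ d)) := by
  have hτ : 0 ≤ τ := (f.nonneg _).trans (hH 0)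
  unfold hp
  rw [finsetSum_coeff]
  refine (f.sum_le _ _).trans ?_
  have h1 : ∀ j ∈ Finset.range (d + 1), f ((C (H.coeff j) * ((C (c * s 0) + C (c * e 0) * X) ^ j *
      (C (s 1) + C (e 1) * X) ^ (d - j))).coeff i) ≤ τ * (2 ^ d * max 1 (f c) ^ d) := by
    intro j hj
    have hj' := Finset.mem_range.1 hj
    rw [coeff_C_mul, map_mul]
    refine mul_le_mul (hH j) ?_ (f.nonneg _) hτ
    have h2 := Bd.pow (f := f) (α := f c) zero_le_one (Bd.pow (α := 1) zero_le_one (Bd.one zero_le_one)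
      (hs 1) (by rw [mul_one]; exact he 1) (d - j)) (a := c * s 0) (b := c * e 0) (by
        rw [map_mul]
        exact mul_le_of_le_one_right (f.nonneg _) (hs 0)) (by
        rw [map_mul, mul_one]
        exact mul_le_of_le_one_right (f.nonneg _) (he 0)) j i
    rw [mul_one] at h2
    refine h2.trans ?_
    rw [one_pow, mul_one, mul_one, mul_one, mul_pow]
    calc (2 ^ j * f c ^ j) * 2 ^ (d - j) = 2 ^ (j + (d - j)) * f c ^ j := by
          rw [pow_add]
          ring
      _ = 2 ^ d * f c ^ j := by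
          congr 2
          omega
      _ ≤ 2 ^ d * max 1 (f c) ^ d := by
          refine mul_le_mul_of_nonneg_left ?_ (by positivity)
          calc f c ^ j ≤ max 1 (f c) ^ j := pow_le_pow_left₀ (f.nonneg _) (le_max_right _ _) _
            _ ≤ max 1 (f c) ^ d := pow_le_pow_right₀ (le_max_left _ _) (by omega)
  refine (Finset.sum_le_sum h1).trans (le_of_eq ?_)
  rw [Finset.sum_const, Finset.card_range, nsmul_eq_mul]
  push_cast
  ring

/-- the value of the form -/
theorem sideA0 {d : ℕ} {g : K[X]} {q : Multiset K} (hq : q.card = d) {c : K} {s : Fin 2 → K}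
    (hs : ∀ i, f (s i) ≤ 1) {τ : ℝ}
    (hH : ∀ i, f ((g - (q.map fun p => X - C p).prod).coeff i) ≤ τ)
    (hsmall : 2 * ((d + 1) * (τ * (2 ^ d * max 1 (f c) ^ d))) ≤ f (hv d g (c * s 0) (s 1))) :
    f ((q.map fun p => c * s 0 - p * s 1).prod) ≤ 3 / 2 * f (hv d g (c * s 0) (s 1)) ∧
      f (hv d g (c * s 0) (s 1)) ≤ 2 * f ((q.map fun p => c * s 0 - p * s 1).prod) := by
  obtain ⟨H, hHd⟩ : ∃ H : K[X], H = g - (q.map fun p => X - C p).prod := ⟨_, rfl⟩
  rw [← hHd] at hH
  have hg : g = (q.map fun p => X - C p).prod + H := by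
    rw [hHd]
    ring
  obtain ⟨P, hP⟩ : ∃ P : K[X], P = (q.map fun p => C (c * s 0 - p * s 1) +
    C (c * (0 : Fin 2 → K) 0 - p * (0 : Fin 2 → K) 1) * X).prod := ⟨_, rfl⟩
  have h1 : hp d g c s 0 = P + hp d H c s 0 := by
    conv_lhs => rw [hg]
    rw [hp_add, hP, ← hp_prod, hq]
  obtain ⟨φ, hφ⟩ : ∃ φ : ℝ, φ = f (hv d g (c * s 0) (s 1)) := ⟨_, rfl⟩
  obtain ⟨A, hA⟩ : ∃ A : ℝ, A = f ((q.map fun p => c * s 0 - p * s 1).prod) := ⟨_, rfl⟩
  rw [← hφ] at hsmall ⊢
  rw [← hA]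
  have hR : f ((hp d H c s 0).coeff 0) ≤ φ / 2 :=
    (hp_small hs (fun i => by rw [Pi.zero_apply, map_zero]; exact zero_le_one) hH 0).trans
      (by linarith)
  have hP0 : P.coeff 0 = (q.map fun p => c * s 0 - p * s 1).prod := by
    rw [hP, coeff_zero_eq_eval_zero, eval_multiset_prod, Multiset.map_map]
    congr 1
    refine Multiset.map_congr rfl fun p _ => ?_
    simp
  have h2 : hv d g (c * s 0) (s 1) = P.coeff 0 + (hp d H c s 0).coeff 0 := by
    rw [← hp_zero d g c s 0, h1, coeff_add]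
  refine ⟨?_, ?_⟩
  · have h4 : P.coeff 0 = hv d g (c * s 0) (s 1) - (hp d H c s 0).coeff 0 := by
      rw [h2]
      ring
    rw [hA, ← hP0, h4]
    have h5 : f (hv d g (c * s 0) (s 1) - (hp d H c s 0).coeff 0) ≤
        f (hv d g (c * s 0) (s 1)) + f ((hp d H c s 0).coeff 0) := by
      rw [sub_eq_add_neg]
      refine (f.add_le _ _).trans ?_
      rw [f.map_neg]
    rw [← hφ] at h5
    linarith
  · have h5 : φ ≤ A + φ / 2 := by
      rw [hφ, h2, hA, ← hP0]
      refine (f.add_le _ _).trans (add_le_add le_rfl ?_)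
      rw [← h2, ← hφ]
      exact hR
    linarith

/-- upper bounds for the coefficients along a line -/
theorem sideA {d : ℕ} {g : K[X]} {q : Multiset K} (hq : q.card = d) {c : K} {s e : Fin 2 → K}
    (hs : ∀ i, f (s i) ≤ 1) (he : ∀ i, f (e i) ≤ 1) {τ : ℝ}
    (hH : ∀ i, f ((g - (q.map fun p => X - C p).prod).coeff i) ≤ τ) {r : ℝ} (hr : 1 ≤ r)
    (hρ : ∀ p ∈ q, f (c * e 0 - p * e 1) ≤ f (c * s 0 - p * s 1) * r)
    (hsmall : 2 * ((d + 1) * (τ * (2 ^ d * max 1 (f c) ^ d))) ≤ f (hv d g (c * s 0) (s 1)))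
    (i : ℕ) :
    f ((hp d g c s e).coeff i) ≤ 2 ^ (d + 2) * f (hv d g (c * s 0) (s 1)) * r ^ i := by
  obtain ⟨h3, -⟩ := sideA0 hq hs hH hsmall
  obtain ⟨H, hHd⟩ : ∃ H : K[X], H = g - (q.map fun p => X - C p).prod := ⟨_, rfl⟩
  rw [← hHd] at hH
  have hg : g = (q.map fun p => X - C p).prod + H := by
    rw [hHd]
    ring
  obtain ⟨P, hP⟩ : ∃ P : K[X], P = (q.map fun p => C (c * s 0 - p * s 1) +
    C (c * e 0 - p * e 1) * X).prod := ⟨_, rfl⟩
  have h1 : hp d g c s e = P + hp d H c s e := by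
    conv_lhs => rw [hg]
    rw [hp_add, hP, ← hp_prod, hq]
  obtain ⟨φ, hφ⟩ : ∃ φ : ℝ, φ = f (hv d g (c * s 0) (s 1)) := ⟨_, rfl⟩
  obtain ⟨A, hA⟩ : ∃ A : ℝ, A = f ((q.map fun p => c * s 0 - p * s 1).prod) := ⟨_, rfl⟩
  rw [← hφ] at hsmall h3 ⊢
  rw [← hA] at h3
  have hφ0 : 0 ≤ φ := by
    rw [hφ]
    exact f.nonneg _
  have hR : ∀ i, f ((hp d H c s e).coeff i) ≤ φ / 2 := fun i =>
    (hp_small hs he hH i).trans (by linarith)
  have h4 := Bd.prod (f := f) (zero_le_one.trans hr)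
    (q.map fun p => (c * s 0 - p * s 1, c * e 0 - p * e 1)) (by
      intro p hp
      obtain ⟨p', hp', rfl⟩ := Multiset.mem_map.1 hp
      exact hρ p' hp') i
  rw [Multiset.map_map, Multiset.map_map, Multiset.card_map, hq] at h4
  simp only [Function.comp_def] at h4
  rw [← hP, ← hA] at h4
  rw [h1, coeff_add]
  have hri : 1 ≤ r ^ i := one_le_pow₀ hr
  have h5 : (2 : ℝ) ^ d * A * r ^ i ≤ 2 ^ d * (3 / 2 * φ) * r ^ i := by gcongr
  have h6 : φ / 2 ≤ 2 ^ d * (φ / 2) * r ^ i := by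
    have h7 : (1 : ℝ) ≤ 2 ^ d := one_le_pow₀ (by norm_num)
    calc φ / 2 = 1 * (φ / 2) * 1 := by ring
      _ ≤ 2 ^ d * (φ / 2) * r ^ i := by gcongr
  calc f (P.coeff i + (hp d H c s e).coeff i) ≤ f (P.coeff i) + f ((hp d H c s e).coeff i) :=
        f.add_le _ _
    _ ≤ 2 ^ d * (3 / 2 * φ) * r ^ i + 2 ^ d * (φ / 2) * r ^ i :=
        add_le_add (h4.trans h5) ((hR i).trans h6)
    _ = 2 ^ (d + 1) * φ * r ^ i := by ring
    _ ≤ 2 ^ (d + 2) * φ * r ^ i := by
        have h8 : 0 ≤ 2 ^ (d + 1) * φ * r ^ i := by positivity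
        have h9 : (2 : ℝ) ^ (d + 2) * φ * r ^ i = 2 * (2 ^ (d + 1) * φ * r ^ i) := by ring
        rw [h9]
        linarith

/-- lower bounds for roots -/
theorem sideB {d : ℕ} {φ : K[X]} (hd : φ.natDegree ≤ d) {B r : ℝ} (hB : 1 ≤ B) (hr : 0 ≤ r)
    (h : ∀ i, f (φ.coeff i) ≤ B * f (φ.coeff 0) * r ^ i) (h0 : φ.coeff 0 ≠ 0) {t : K}
    (ht : φ.eval t = 0) : 1 ≤ 2 * B * r * f t := by
  by_contra hcon
  push Not at hcon
  have hφ0 : 0 < f (φ.coeff 0) := f.pos h0
  obtain ⟨x, hx⟩ : ∃ x : ℝ, x = r * f t := ⟨_, rfl⟩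
  have hx0 : 0 ≤ x := by
    rw [hx]
    exact mul_nonneg hr (f.nonneg _)
  have hx1 : 2 * B * x < 1 := by
    rw [hx]
    calc 2 * B * (r * f t) = 2 * B * r * f t := by ring
      _ < 1 := hcon
  have hx2 : x < 1 / 2 := by nlinarith
  rw [eval_eq_sum_range' (Nat.lt_succ_of_le hd), Finset.sum_range_succ'] at ht
  rw [pow_zero, mul_one] at ht
  have h1 : φ.coeff 0 = -∑ i ∈ Finset.range d, φ.coeff (i + 1) * t ^ (i + 1) := by
    rw [eq_neg_iff_add_eq_zero, add_comm]
    exact ht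
  have h2 : f (φ.coeff 0) ≤ ∑ i ∈ Finset.range d, B * f (φ.coeff 0) * x ^ (i + 1) := by
    conv_lhs => rw [h1, f.map_neg]
    refine (f.sum_le _ _).trans (Finset.sum_le_sum fun i _ => ?_)
    rw [map_mul, map_pow, hx, mul_pow, ← mul_assoc]
    exact mul_le_mul_of_nonneg_right (h (i + 1)) (pow_nonneg (f.nonneg _) _)
  have h3 : ∑ i ∈ Finset.range d, B * f (φ.coeff 0) * x ^ (i + 1) =
      B * f (φ.coeff 0) * x * ∑ i ∈ Finset.range d, x ^ i := by
    rw [Finset.mul_sum]
    refine Finset.sum_congr rfl fun i _ => ?_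
    ring
  have h4 : ∑ i ∈ Finset.range d, x ^ i ≤ 2 := by
    have h5 := mul_neg_geom_sum x d
    have h6 : 0 ≤ x ^ d := pow_nonneg hx0 d
    have h7 : 0 ≤ ∑ i ∈ Finset.range d, x ^ i := Finset.sum_nonneg fun i _ => pow_nonneg hx0 i
    nlinarith
  rw [h3] at h2
  have h5 : B * f (φ.coeff 0) * x * ∑ i ∈ Finset.range d, x ^ i ≤
      B * f (φ.coeff 0) * x * 2 := by
    refine mul_le_mul_of_nonneg_left h4 ?_
    positivity
  have h6 : B * f (φ.coeff 0) * x * 2 = 2 * B * x * f (φ.coeff 0) := by ring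
  have h7 : 2 * B * x * f (φ.coeff 0) < f (φ.coeff 0) := by
    have := mul_lt_mul_of_pos_right hx1 hφ0
    rwa [one_mul] at this
  linarith

end bounds

end Pool.Agent.Run7.h489.PX
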