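import Mathlib
import Pool.Agent.Run7.h489.PX.Num

set_option autoImplicit false
set_option linter.unusedSectionVars false

/-!
The distance to a root is at least the distance to an approximate root.
-/

namespace Pool.Agent.Run7.h489.PX

open Polynomial

variable {k K Λ : Type} [Field k] [Field K] [Field Λ] {v : AbsoluteValue k ℝ}
  {f : AbsoluteValue K ℝ} {w : AbsoluteValue Λ ℝ} (ι : k →+* K) (κ : k →+* Λ)

theorem map_hv {R R' : Type} [CommRing R] [CommRing R'] (ι : R →+* R') (d : ℕ) (g : R[X])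
    (x y : R) : ι (hv d g x y) = hv d (g.map ι) (ι x) (ι y) := by
  unfold hv
  rw [map_sum]
  refine Finset.sum_congr rfl fun i _ => ?_
  simp only [map_mul, map_pow, coeff_map]

include ι κ in
theorem near_root0 (hf : ∀ x, f (ι x) = v x) (hw : ∀ x, w (κ x) = v x) {d : ℕ} {g : k[X]}
    {q : Multiset K} (hq : q.card = d) {c : k} (hc : c ≠ 0) {s e : Fin 2 → k}
    (hs : ∀ i, v (s i) ≤ 1) (he : ∀ i, v (e i) ≤ 1) {τ : ℝ}
    (hH : ∀ i, f ((g.map ι - (q.map fun p => X - C p).prod).coeff i) ≤ τ)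
    (hsmall : 2 * ((d + 1) * (τ * (2 ^ d * max 1 (v c) ^ d))) ≤ v (hv d g (c * s 0) (s 1)))
    (hne : hv d g (c * s 0) (s 1) ≠ 0) {α β : Λ} {p : Fin 2 → Λ}
    (hp' : ∀ i, p i = α * κ (s i) + β * κ (e i))
    (hroot : hv d (g.map κ) (κ c * p 0) (p 1) = 0) :
    ∃ a ∈ q, ι (c * s 0) - a * ι (s 1) ≠ 0 ∧ (w α + w β) * f (ι (c * s 0) - a * ι (s 1)) ≤
      2 ^ (d + 5) * max (v c) (f a) * w β := by
  classical
  have hd : d ≠ 0 := by
    rintro rfl
    unfold hv at hroot hne
    simp only [zero_add, Finset.sum_range_one, pow_zero, Nat.sub_self, mul_one, coeff_map] at hroot hne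
    exact hne ((map_eq_zero κ).1 hroot)
  have hvc : 0 < v c := v.pos hc
  obtain ⟨M, hM⟩ : ∃ M : K → ℝ, ∀ a, M a = max (v c) (f a) := ⟨_, fun _ => rfl⟩
  have hM0 : ∀ a, 0 < M a := fun a => by
    rw [hM]
    exact lt_max_of_lt_left hvc
  have hMc : ∀ a, f (ι c) ≤ M a := fun a => by
    rw [hf, hM]
    exact le_max_left _ _
  have hMa : ∀ a, f a ≤ M a := fun a => by
    rw [hM]
    exact le_max_right _ _
  obtain ⟨Lf, hLf⟩ : ∃ Lf : K → K, ∀ a, Lf a = ι c * ι (s 0) - a * ι (s 1) := ⟨_, fun _ => rfl⟩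
  have hne' : q.toFinset.Nonempty := by
    rw [Multiset.toFinset_nonempty]
    intro h0
    rw [h0, Multiset.card_zero] at hq
    exact hd hq.symm
  obtain ⟨a, ha, hmin⟩ := Finset.exists_min_image q.toFinset (fun a => f (Lf a) / M a) hne'
  rw [Multiset.mem_toFinset] at ha
  have hsK : ∀ i, f (ι (s i)) ≤ 1 := fun i => by
    rw [hf]
    exact hs i
  have heK : ∀ i, f (ι (e i)) ≤ 1 := fun i => by
    rw [hf]
    exact he i
  have hval : f (hv d (g.map ι) (ι c * ι (s 0)) (ι (s 1))) = v (hv d g (c * s 0) (s 1)) := by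
    rw [← hf, map_hv, map_mul]
  have hsmall' : 2 * ((d + 1) * (τ * (2 ^ d * max 1 (f (ι c)) ^ d))) ≤
      f (hv d (g.map ι) (ι c * ι (s 0)) (ι (s 1))) := by
    rw [hf, hval]
    exact hsmall
  have hLne : ∀ b ∈ q, Lf b ≠ 0 := by
    intro b hb h0
    obtain ⟨-, h2⟩ := sideA0 (f := f) (c := ι c) (s := fun i => ι (s i)) hq hsK hH hsmall'
    have h3 : (q.map fun p => ι c * ι (s 0) - p * ι (s 1)).prod = 0 := by
      refine Multiset.prod_eq_zero (Multiset.mem_map.2 ⟨b, hb, ?_⟩)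
      rw [← hLf, h0]
    rw [h3, map_zero, mul_zero, hval] at h2
    exact absurd h2 (not_le.2 (v.pos hne))
  obtain ⟨ρ, hρ⟩ : ∃ ρ : ℝ, ρ = f (Lf a) / M a / 2 := ⟨_, rfl⟩
  have hρ0 : 0 < ρ := by
    rw [hρ]
    exact div_pos (div_pos (f.pos (hLne a ha)) (hM0 a)) two_pos
  have hLle : ∀ b, f (Lf b) ≤ 2 * M b := by
    intro b
    rw [hLf, sub_eq_add_neg]
    refine (f.add_le _ _).trans ?_
    rw [f.map_neg, map_mul, map_mul]
    have h1 : f (ι c) * f (ι (s 0)) ≤ M b * 1 :=
      mul_le_mul (hMc b) (hsK 0) (f.nonneg _) (hM0 b).le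
    have h2 : f b * f (ι (s 1)) ≤ M b * 1 :=
      mul_le_mul (hMa b) (hsK 1) (f.nonneg _) (hM0 b).le
    linarith
  have hρ1 : ρ ≤ 1 := by
    rw [hρ, div_div, div_le_one (mul_pos (hM0 a) two_pos)]
    have := hLle a
    linarith
  have hr : 1 ≤ ρ⁻¹ := (one_le_inv₀ hρ0).2 hρ1
  have hle : ∀ b ∈ q, f (ι c * ι (e 0) - b * ι (e 1)) ≤ f (ι c * ι (s 0) - b * ι (s 1)) * ρ⁻¹ := by
    intro b hb
    have h1 : f (ι c * ι (e 0) - b * ι (e 1)) ≤ 2 * M b := by
      rw [sub_eq_add_neg]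
      refine (f.add_le _ _).trans ?_
      rw [f.map_neg, map_mul, map_mul]
      have h1 : f (ι c) * f (ι (e 0)) ≤ M b * 1 :=
        mul_le_mul (hMc b) (heK 0) (f.nonneg _) (hM0 b).le
      have h2 : f b * f (ι (e 1)) ≤ M b * 1 :=
        mul_le_mul (hMa b) (heK 1) (f.nonneg _) (hM0 b).le
      linarith
    refine h1.trans ?_
    rw [← hLf, ← div_eq_mul_inv, le_div_iff₀ hρ0]
    have h2 := hmin b (Multiset.mem_toFinset.2 hb)
    have h3 : 2 * ρ ≤ f (Lf b) / M b := by
      rw [hρ]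
      linarith
    rw [le_div_iff₀ (hM0 b)] at h3
    linarith
  have hco := fun i => sideA (f := f) (c := ι c) (s := fun i => ι (s i)) (e := fun i => ι (e i))
    hq hsK heK hH hr hle hsmall' i
  have hco' : ∀ i, w (((hp d g c s e).map κ).coeff i) ≤
      2 ^ (d + 2) * w (((hp d g c s e).map κ).coeff 0) * ρ⁻¹ ^ i := by
    intro i
    rw [coeff_map, coeff_map, hw, hw, hp_zero]
    have h1 := hco i
    rw [← hp_map ι, coeff_map, hf, hval] at h1
    exact h1
  have hfinal : ρ * w α ≤ 2 ^ (d + 3) * w β := by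
    by_cases hα : α = 0
    · rw [hα, map_zero, mul_zero]
      positivity
    · have h1 := sideB (f := w) (φ := (hp d g c s e).map κ) (d := d)
        ((natDegree_map_le).trans (natDegree_hp_le d g c s e)) (B := 2 ^ (d + 2))
        (one_le_pow₀ (by norm_num)) (inv_pos.2 hρ0).le hco' (by
          rw [coeff_map, hp_zero]
          exact (_root_.map_ne_zero κ).2 hne) (t := β / α) (by
          rw [hp_map, eval_hp]
          have h2 : κ c * (κ (s 0) + β / α * κ (e 0)) = α⁻¹ * (κ c * p 0) := by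
            rw [hp' 0]
            field_simp
          have h3 : κ (s 1) + β / α * κ (e 1) = α⁻¹ * p 1 := by
            rw [hp' 1]
            field_simp
          rw [h2, h3, hv_smul, hroot, mul_zero])
      rw [map_div₀] at h1
      have hwα : 0 < w α := w.pos hα
      have h2 : 2 * 2 ^ (d + 2) * ρ⁻¹ * (w β / w α) = 2 ^ (d + 3) * w β / (ρ * w α) := by
        field_simp
        ring
      rw [h2, one_le_div (mul_pos hρ0 hwα)] at h1
      exact h1
  refine ⟨a, ha, by rw [map_mul, ← hLf]; exact hLne a ha, ?_⟩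
  rw [map_mul, ← hLf, ← hM]
  have h1 : f (Lf a) = 2 * ρ * M a := by
    rw [hρ]
    have := (hM0 a).ne'
    field_simp
  rw [h1]
  have h2 : 0 ≤ w β := w.nonneg _
  have h3 : ρ * w β ≤ w β := mul_le_of_le_one_left h2 hρ1
  have h4 : (w α + w β) * (2 * ρ * M a) = 2 * M a * (ρ * w α + ρ * w β) := by ring
  rw [h4]
  have h5 : ρ * w α + ρ * w β ≤ 2 ^ (d + 4) * w β := by
    have h6 : (1 : ℝ) ≤ 2 ^ (d + 3) := one_le_pow₀ (by norm_num)
    have h7 : (2 : ℝ) ^ (d + 4) = 2 ^ (d + 3) + 2 ^ (d + 3) := by ring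
    rw [h7]
    nlinarith
  have h6 : 2 * M a * (ρ * w α + ρ * w β) ≤ 2 * M a * (2 ^ (d + 4) * w β) :=
    mul_le_mul_of_nonneg_left h5 (by have := (hM0 a).le; positivity)
  refine h6.trans (le_of_eq ?_)
  ring

include ι κ in
theorem near_root (hf : ∀ x, f (ι x) = v x) (hw : ∀ x, w (κ x) = v x) {d : ℕ} {g : k[X]}
    {q : Multiset K} (hq : q.card = d) {c : k} (hc : c ≠ 0) {s : Fin 2 → k} (hs : s ≠ 0) {τ : ℝ}
    (hH : ∀ i, f ((g.map ι - (q.map fun p => X - C p).prod).coeff i) ≤ τ)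
    (hsmall : 2 * ((d + 1) * (τ * (2 ^ d * max 1 (v c) ^ d))) * max (v (s 0)) (v (s 1)) ^ d ≤
      v (hv d g (c * s 0) (s 1)))
    (hne : hv d g (c * s 0) (s 1) ≠ 0) {p : Fin 2 → Λ}
    (hroot : hv d (g.map κ) (κ c * p 0) (p 1) = 0) :
    ∃ a ∈ q, ι (c * s 0) - a * ι (s 1) ≠ 0 ∧
      max (w (p 0)) (w (p 1)) * f (ι (c * s 0) - a * ι (s 1)) ≤
      2 ^ (d + 5) * max (v c) (f a) * w (κ (s 0) * p 1 - κ (s 1) * p 0) := by
  rcases le_or_gt (v (s 0)) (v (s 1)) with hle | hlt
  · have hs1 : s 1 ≠ 0 := by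
      intro h0
      apply hs
      rw [h0, map_zero] at hle
      have h1 : s 0 = 0 := by
        by_contra h2
        exact absurd hle (not_le.2 (v.pos h2))
      funext i
      fin_cases i
      · exact h1
      · exact h0
    have hv1 : 0 < v (s 1) := v.pos hs1
    rw [max_eq_right hle] at hsmall
    have hκ1 : κ (s 1) ≠ 0 := (_root_.map_ne_zero κ).2 hs1
    have hι1 : ι (s 1) ≠ 0 := (_root_.map_ne_zero ι).2 hs1
    obtain ⟨σ, hσ⟩ : ∃ σ : k, σ = s 0 / s 1 := ⟨_, rfl⟩
    have hσs : σ * s 1 = s 0 := by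
      rw [hσ]
      field_simp
    have hvσ : v σ ≤ 1 := by
      rw [hσ, map_div₀, div_le_one hv1]
      exact hle
    have hval : hv d g (c * s 0) (s 1) = s 1 ^ d * hv d g (c * σ) 1 := by
      rw [← hv_smul, mul_one]
      congr 1
      rw [← hσs]
      ring
    obtain ⟨a, ha, hLa, h⟩ := near_root0 ι κ hf hw hq hc (s := ![σ, 1]) (e := ![1, 0])
      (fun i => by
        fin_cases i
        · exact hvσ
        · show v 1 ≤ 1
          rw [map_one])
      (fun i => by
        fin_cases i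
        · show v 1 ≤ 1
          rw [map_one]
        · show v 0 ≤ 1
          rw [map_zero]
          exact zero_le_one) hH (by
        show _ ≤ v (hv d g (c * σ) 1)
        rw [hval, map_mul, map_pow, mul_comm (v (s 1) ^ d)] at hsmall
        exact le_of_mul_le_mul_right hsmall (pow_pos hv1 d)) (by
        show hv d g (c * σ) 1 ≠ 0
        intro h0
        rw [hval, h0, mul_zero] at hne
        exact hne rfl) (α := p 1) (β := p 0 - κ σ * p 1) (p := p) (by
        intro i
        fin_cases i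
        · show p 0 = p 1 * κ σ + (p 0 - κ σ * p 1) * κ 1
          rw [map_one]
          ring
        · show p 1 = p 1 * κ 1 + (p 0 - κ σ * p 1) * κ 0
          rw [map_one, map_zero]
          ring) hroot
    refine ⟨a, ha, ?_⟩
    have h1 : (w (p 1) + w (p 0 - κ σ * p 1)) * f (ι (c * σ) - a * ι 1) ≤
      2 ^ (d + 5) * max (v c) (f a) * w (p 0 - κ σ * p 1) := h
    have h2 : max (w (p 0)) (w (p 1)) ≤ w (p 1) + w (p 0 - κ σ * p 1) := by
      refine max_le ?_ ?_
      · have h3 : p 0 = (p 0 - κ σ * p 1) + κ σ * p 1 := by ring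
        have h4 : w (p 0) ≤ w (p 0 - κ σ * p 1) + w (κ σ * p 1) := by
          conv_lhs => rw [h3]
          exact w.add_le _ _
        rw [map_mul, hw] at h4
        have h5 : v σ * w (p 1) ≤ w (p 1) := mul_le_of_le_one_left (w.nonneg _) hvσ
        linarith
      · have := w.nonneg (p 0 - κ σ * p 1)
        linarith
    have h3 : ι (c * s 0) - a * ι (s 1) = ι (s 1) * (ι (c * σ) - a * ι 1) := by
      rw [← hσs]
      simp only [map_mul, map_one]
      ring
    have h4 : κ (s 0) * p 1 - κ (s 1) * p 0 = -(κ (s 1) * (p 0 - κ σ * p 1)) := by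
      rw [← hσs, map_mul]
      ring
    refine ⟨by rw [h3]; exact mul_ne_zero hι1 hLa, ?_⟩
    rw [h3, h4, w.map_neg, f.map_mul (ι (s 1)), w.map_mul, hf, hw]
    calc max (w (p 0)) (w (p 1)) * (v (s 1) * f (ι (c * σ) - a * ι 1)) =
          v (s 1) * (max (w (p 0)) (w (p 1)) * f (ι (c * σ) - a * ι 1)) := by ring
      _ ≤ v (s 1) * ((w (p 1) + w (p 0 - κ σ * p 1)) * f (ι (c * σ) - a * ι 1)) :=
          mul_le_mul_of_nonneg_left (mul_le_mul_of_nonneg_right h2 (f.nonneg _)) hv1.le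
      _ ≤ v (s 1) * (2 ^ (d + 5) * max (v c) (f a) * w (p 0 - κ σ * p 1)) :=
          mul_le_mul_of_nonneg_left h1 hv1.le
      _ = _ := by ring
  · have hv0 : 0 < v (s 0) := (v.nonneg _).trans_lt hlt
    have hs0 : s 0 ≠ 0 := fun h => by
      rw [h, map_zero] at hv0
      exact lt_irrefl _ hv0
    rw [max_eq_left hlt.le] at hsmall
    have hκ1 : κ (s 0) ≠ 0 := (_root_.map_ne_zero κ).2 hs0
    obtain ⟨σ, hσ⟩ : ∃ σ : k, σ = s 1 / s 0 := ⟨_, rfl⟩
    have hσs : σ * s 0 = s 1 := by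
      rw [hσ]
      field_simp
    have hvσ : v σ ≤ 1 := by
      rw [hσ, map_div₀, div_le_one hv0]
      exact hlt.le
    have hval : hv d g (c * s 0) (s 1) = s 0 ^ d * hv d g (c * 1) σ := by
      rw [← hv_smul]
      congr 1
      · ring
      · rw [← hσs]
        ring
    obtain ⟨a, ha, hLa, h⟩ := near_root0 ι κ hf hw hq hc (s := ![1, σ]) (e := ![0, 1])
      (fun i => by
        fin_cases i
        · show v 1 ≤ 1
          rw [map_one]
        · exact hvσ)
      (fun i => by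
        fin_cases i
        · show v 0 ≤ 1
          rw [map_zero]
          exact zero_le_one
        · show v 1 ≤ 1
          rw [map_one]) hH (by
        show _ ≤ v (hv d g (c * 1) σ)
        rw [hval, map_mul, map_pow, mul_comm (v (s 0) ^ d)] at hsmall
        exact le_of_mul_le_mul_right hsmall (pow_pos hv0 d)) (by
        show hv d g (c * 1) σ ≠ 0
        intro h0
        rw [hval, h0, mul_zero] at hne
        exact hne rfl) (α := p 0) (β := p 1 - κ σ * p 0) (p := p) (by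
        intro i
        fin_cases i
        · show p 0 = p 0 * κ 1 + (p 1 - κ σ * p 0) * κ 0
          rw [map_one, map_zero]
          ring
        · show p 1 = p 0 * κ σ + (p 1 - κ σ * p 0) * κ 1
          rw [map_one]
          ring) hroot
    refine ⟨a, ha, ?_⟩
    have h1 : (w (p 0) + w (p 1 - κ σ * p 0)) * f (ι (c * 1) - a * ι σ) ≤
      2 ^ (d + 5) * max (v c) (f a) * w (p 1 - κ σ * p 0) := h
    have h2 : max (w (p 0)) (w (p 1)) ≤ w (p 0) + w (p 1 - κ σ * p 0) := by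
      refine max_le ?_ ?_
      · have := w.nonneg (p 1 - κ σ * p 0)
        linarith
      · have h3 : p 1 = (p 1 - κ σ * p 0) + κ σ * p 0 := by ring
        have h4 : w (p 1) ≤ w (p 1 - κ σ * p 0) + w (κ σ * p 0) := by
          conv_lhs => rw [h3]
          exact w.add_le _ _
        rw [map_mul, hw] at h4
        have h5 : v σ * w (p 0) ≤ w (p 0) := mul_le_of_le_one_left (w.nonneg _) hvσ
        linarith
    have h3 : ι (c * s 0) - a * ι (s 1) = ι (s 0) * (ι (c * 1) - a * ι σ) := by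
      rw [← hσs]
      simp only [map_mul, map_one]
      ring
    have h4 : κ (s 0) * p 1 - κ (s 1) * p 0 = κ (s 0) * (p 1 - κ σ * p 0) := by
      rw [← hσs, map_mul]
      ring
    refine ⟨by rw [h3]; exact mul_ne_zero ((_root_.map_ne_zero ι).2 hs0) hLa, ?_⟩
    rw [h3, h4, f.map_mul (ι (s 0)), w.map_mul, hf, hw]
    calc max (w (p 0)) (w (p 1)) * (v (s 0) * f (ι (c * 1) - a * ι σ)) =
          v (s 0) * (max (w (p 0)) (w (p 1)) * f (ι (c * 1) - a * ι σ)) := by ring
      _ ≤ v (s 0) * ((w (p 0) + w (p 1 - κ σ * p 0)) * f (ι (c * 1) - a * ι σ)) :=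
          mul_le_mul_of_nonneg_left (mul_le_mul_of_nonneg_right h2 (f.nonneg _)) hv0.le
      _ ≤ v (s 0) * (2 ^ (d + 5) * max (v c) (f a) * w (p 1 - κ σ * p 0)) :=
          mul_le_mul_of_nonneg_left h1 hv0.le
      _ = _ := by ring

end Pool.Agent.Run7.h489.PX
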