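import Mathlib
import Pool.Agent.Run7.h489.PX.Dir
import Pool.Agent.Run7.h489.PX.Root
import Pool.Agent.Run7.h489.GF.Lz

set_option autoImplicit false
set_option linter.unusedSectionVars false

/-!
Values of Laurent polynomials.
-/

namespace Pool.Agent.Run7.h489.PX

open Height NumberField IsDedekindDomain
open Pool.Agent.W180.OP (Pl av wt fv nrm wt_nonneg le_nrm exists_nrm nrm_pos)
open Pool.Agent.R404.TC (Sp)
open Pool.Agent.Run7.h489.LV (IsU IsI abs_log_le)
open Pool.Agent.Run7.h489.TM

variable {m : ℕ}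

section ev

variable {K : Type} [Field K]

/-- the monomials as a homomorphism -/
noncomputable def moh (x : Fin m → K) (hx : ∀ i, x i ≠ 0) : Multiplicative (Fin m → ℤ) →* K where
  toFun a := mono x a.toAdd
  map_one' := mono_zero x
  map_mul' a b := by rw [toAdd_mul, mono_add hx]

/-- the value of a Laurent polynomial -/
noncomputable def evh (x : Fin m → K) (hx : ∀ i, x i ≠ 0) :
    AddMonoidAlgebra K (Fin m → ℤ) →+* K :=
  (AddMonoidAlgebra.lift K K (Fin m → ℤ) (moh x hx) : AddMonoidAlgebra K (Fin m → ℤ) →ₐ[K] K)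

theorem evh_single (x : Fin m → K) (hx : ∀ i, x i ≠ 0) (a : Fin m → ℤ) (c : K) :
    evh x hx (AddMonoidAlgebra.single a c) = c * mono x a := by
  show AddMonoidAlgebra.lift K K (Fin m → ℤ) (moh x hx) (AddMonoidAlgebra.single a c) = _
  rw [AddMonoidAlgebra.lift_single, smul_eq_mul]
  rfl

theorem evh_apply (x : Fin m → K) (hx : ∀ i, x i ≠ 0) (h : AddMonoidAlgebra K (Fin m → ℤ)) :
    evh x hx h = ev h.coeff x := by
  show AddMonoidAlgebra.lift K K (Fin m → ℤ) (moh x hx) h = _
  rw [AddMonoidAlgebra.lift_apply]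
  rfl

theorem evh_inc {k : Type} [Field k] (f : k →+* K) {E : ℕ} {x : Fin m → K} (hx : ∀ i, x i ≠ 0)
    {u : Fin m → k} (hu : ∀ i, u i ≠ 0) (h : ∀ i, x i ^ E = f (u i)) :
    (evh x hx).comp (inc m f E) = f.comp (evh u hu) := by
  refine AddMonoidAlgebra.ringHom_ext (fun r => ?_) fun a => ?_
  · rw [RingHom.comp_apply, inc_single, evh_single, RingHom.comp_apply, evh_single, smul_zero,
      mono_zero, mono_zero, mul_one, mul_one]
  · rw [RingHom.comp_apply, inc_single, evh_single, RingHom.comp_apply, evh_single, map_one,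
      one_mul, one_mul, map_mono]
    unfold mono
    refine Finset.prod_congr rfl fun i _ => ?_
    show x i ^ ((E : ℤ) * a i) = f (u i) ^ a i
    rw [← h, zpow_mul, zpow_natCast]

/-- the size of a value -/
theorem evh_le (f : AbsoluteValue K ℝ) (x : Fin m → K) (hx : ∀ i, x i ≠ 0)
    (h : AddMonoidAlgebra K (Fin m → ℤ)) {b : ℝ}
    (hb : ∀ a ∈ h.coeff.support, Real.log (f (mono x a)) ≤ b) :
    f (evh x hx h) ≤ (∑ a ∈ h.coeff.support, f (h.coeff a)) * Real.exp b := by
  rw [evh_apply]
  unfold ev Finsupp.sum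
  rw [Finset.sum_mul]
  refine (f.sum_le _ _).trans (Finset.sum_le_sum fun a ha => ?_)
  rw [map_mul]
  refine mul_le_mul_of_nonneg_left ?_ (f.nonneg _)
  rw [← Real.log_le_iff_le_exp (f.pos (mono_ne hx a))]
  exact hb a ha

end ev

section HB

variable {k : Type} [Field k] [NumberField k]

/-- functions of bounded height -/
def HB (φ : (Fin m → k) → k → k) : Prop := ∃ C : ℝ, 0 ≤ C ∧ ∀ (u : Fin m → k) (s : k),
  (∀ i, u i ≠ 0) → logHeight₁ (φ u s) ≤ C * (hs u + logHeight₁ s + 1)

theorem HB.const (a : k) : HB fun (_ : Fin m → k) _ => a := by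
  refine ⟨logHeight₁ a, zero_le_logHeight₁ a, fun u s _ => ?_⟩
  have h1 := hs_nonneg u
  have h2 := zero_le_logHeight₁ s
  have h3 := zero_le_logHeight₁ a
  nlinarith

theorem HB.var : HB fun (_ : Fin m → k) s => s := by
  refine ⟨1, zero_le_one, fun u s _ => ?_⟩
  have h1 := hs_nonneg u
  linarith

theorem HB.mul {φ ψ : (Fin m → k) → k → k} (h : HB φ) (h' : HB ψ) :
    HB fun u s => φ u s * ψ u s := by
  obtain ⟨C, hC, h⟩ := h
  obtain ⟨C', hC', h'⟩ := h'
  refine ⟨C + C', add_nonneg hC hC', fun u s hu => ?_⟩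
  refine (logHeight₁_mul_le _ _).trans ?_
  have h1 := h u s hu
  have h2 := h' u s hu
  rw [add_mul]
  linarith

theorem HB.add {φ ψ : (Fin m → k) → k → k} (h : HB φ) (h' : HB ψ) :
    HB fun u s => φ u s + ψ u s := by
  obtain ⟨C, hC, h⟩ := h
  obtain ⟨C', hC', h'⟩ := h'
  refine ⟨|totalWeight k * Real.log 2| + C + C', by positivity, fun u s hu => ?_⟩
  have h0 := logHeight₁_add_le (φ u s) (ψ u s)
  have h1 := h u s hu
  have h2 := h' u s hu
  have h3 := hs_nonneg u
  have h4 := zero_le_logHeight₁ s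
  have h5 := le_abs_self (totalWeight k * Real.log 2)
  have h6 := abs_nonneg (totalWeight k * Real.log 2)
  have h7 : |totalWeight k * Real.log 2| * 1 ≤
      |totalWeight k * Real.log 2| * (hs u + logHeight₁ s + 1) :=
    mul_le_mul_of_nonneg_left (by linarith) h6
  rw [add_mul, add_mul]
  linarith

theorem HB.pow {φ : (Fin m → k) → k → k} (h : HB φ) (n : ℕ) : HB fun u s => φ u s ^ n := by
  induction n with
  | zero => simpa using HB.const (m := m) (1 : k)
  | succ n ih =>
    simp only [pow_succ]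
    exact ih.mul h

theorem HB.sum {ι : Type} (t : Finset ι) {φ : ι → (Fin m → k) → k → k}
    (h : ∀ i ∈ t, HB (φ i)) : HB fun u s => ∑ i ∈ t, φ i u s := by
  classical
  induction t using Finset.induction_on with
  | empty => simpa using HB.const (m := m) (0 : k)
  | insert a t ha ih =>
    simp only [Finset.sum_insert ha]
    exact (h a (Finset.mem_insert_self _ _)).add (ih fun i hi => h i (Finset.mem_insert_of_mem hi))

theorem HB.ev (B : (Fin m → ℤ) →₀ k) : HB fun u _ => TM.ev B u := by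
  unfold TM.ev Finsupp.sum
  refine HB.sum _ fun a _ => (HB.const _).mul ?_
  refine ⟨∑ i, |(a i : ℝ)|, Finset.sum_nonneg fun _ _ => abs_nonneg _, fun u s _ => ?_⟩
  refine (height_mono_le u a).trans (mul_le_mul_of_nonneg_left ?_
    (Finset.sum_nonneg fun _ _ => abs_nonneg _))
  have := zero_le_logHeight₁ s
  linarith

end HB

section Phi

open Polynomial

variable {R : Type} [CommRing R]

/-- the monic polynomial with the roots `c_d x` for the roots `x` of `∑ c_i x^i` -/
noncomputable def Phi (c : ℕ → R) (d : ℕ) : R[X] :=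
  X ^ d + ∑ i ∈ Finset.range d, C (c i * c d ^ (d - 1 - i)) * X ^ i

theorem Phi_map {R' : Type} [CommRing R'] (e : R →+* R') (c : ℕ → R) (d : ℕ) :
    (Phi c d).map e = Phi (fun i => e (c i)) d := by
  unfold Phi
  simp only [Polynomial.map_add, Polynomial.map_pow, Polynomial.map_X, Polynomial.map_sum,
    Polynomial.map_mul, Polynomial.map_C, map_mul, map_pow]

theorem Phi_deg [Nontrivial R] (c : ℕ → R) (d : ℕ) :
    (∑ i ∈ Finset.range d, C (c i * c d ^ (d - 1 - i)) * X ^ i).degree < (d : WithBot ℕ) := by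
  refine (degree_sum_le _ _).trans_lt ?_
  refine (Finset.sup_lt_iff (WithBot.bot_lt_coe d)).2 fun i hi => ?_
  refine (degree_C_mul_X_pow_le _ _).trans_lt ?_
  exact WithBot.coe_lt_coe.2 (Finset.mem_range.1 hi)

theorem Phi_monic [Nontrivial R] (c : ℕ → R) (d : ℕ) : (Phi c d).Monic :=
  monic_X_pow_add (Phi_deg c d)

theorem natDegree_Phi [Nontrivial R] (c : ℕ → R) (d : ℕ) : (Phi c d).natDegree = d := by
  unfold Phi
  rw [natDegree_add_eq_left_of_degree_lt (by rw [degree_X_pow]; exact Phi_deg c d),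
    natDegree_X_pow]

theorem coeff_Phi (c : ℕ → R) (d i : ℕ) :
    (Phi c d).coeff i = if i = d then 1 else if i < d then c i * c d ^ (d - 1 - i) else 0 := by
  unfold Phi
  rw [coeff_add, coeff_X_pow, finsetSum_coeff]
  simp only [coeff_C_mul, coeff_X_pow, mul_ite, mul_one, mul_zero]
  rw [Finset.sum_ite_eq]
  simp only [Finset.mem_range]
  split_ifs with h1 h2
  · omega
  · rw [add_zero]
  · rw [zero_add]
  · rw [zero_add]

theorem hv_Phi (c : ℕ → R) (d : ℕ) (x y : R) :
    c d * hv d (Phi c d) (c d * x) y =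
      c d ^ d * ∑ i ∈ Finset.range (d + 1), c i * (x ^ i * y ^ (d - i)) := by
  unfold hv
  rw [Finset.mul_sum, Finset.mul_sum]
  refine Finset.sum_congr rfl fun i hi => ?_
  rw [coeff_Phi, mul_pow]
  have hi' := Finset.mem_range.1 hi
  split_ifs with h1 h2
  · rw [h1]
    ring
  · have h3 : c d ^ d = c d * (c d ^ (d - 1 - i) * c d ^ i) := by
      rw [← pow_add, ← pow_succ']
      congr 1
      omega
    rw [h3]
    ring
  · omega

end Phi

end Pool.Agent.Run7.h489.PX
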