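import Mathlib
import Pool.Agent.Run7.h489.PX.Eval
import Pool.Agent.Run7.h489.GF.Big
import Pool.Agent.N63.MT.Full

set_option autoImplicit false
set_option linter.unusedSectionVars false

/-!
The inequality for finitely many moving targets with coefficients in a bigger field.
-/

namespace Pool.Agent.Run7.h489.PX

open Height NumberField IsDedekindDomain
open Pool.Agent.W180.OP (Pl av wt fv nrm wt_nonneg le_nrm exists_nrm nrm_pos)
open Pool.Agent.R404.TC (Sp)
open Pool.Agent.R405 (Good exists_good)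
open Pool.Agent.Run7.h489.LV (IsU IsI mem_Sp_inl mem_Sp_inr)
open Pool.Agent.Run7.h489.TM
open Pool.Agent.Run7.h489.NF (max_mon)
open Pool.Agent.Run7.h489.VJ (exists_poly)
open Pool.Agent.N63.MT (core lv ku ex sn mn mn_ne mn_map ex_facts)

section

variable {K : Type} [Field K] {m n : ℕ}

/-- comparison with the determinant -/
theorem cmp' (f : AbsoluteValue K ℝ) {κ : Type} {E : Fin m →₀ ℕ}
    {a : κ → Fin n → MvPolynomial (Fin m) K} {W : κ → (Fin m → K) → Fin n → K}
    (hW : ∀ b (u : Fin m → K), (∀ i, u i ≠ 0) → ∀ i,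
      MvPolynomial.eval u (a b i) = mn u E * W b u i) (J : Fin n → κ) :
    ∃ A : ℝ, ∀ (u : Fin m → K) (x : Fin n → K) (β : ℝ), (∀ i, u i ≠ 0) →
      (Matrix.of fun i => W (J i) u).det ≠ 0 → (∀ i, W (J i) u ⬝ᵥ x ≠ 0) →
      ∃ I ∈ (Matrix.of fun j => a (J j)).det.support,
        Real.log (f (Matrix.of fun i => W (J i) u).det) +
          ∑ j, (β - Real.log (f (W (J j) u ⬝ᵥ x))) ≤
          A + (∑ j, (β - Real.log (f (lv (a (J j)) u x))) + Real.log (f (mn u I))) := by
  refine ⟨Real.log (∑ I ∈ (Matrix.of fun j => a (J j)).det.support,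
    f ((Matrix.of fun j => a (J j)).det.coeff I)), ?_⟩
  intro u x β hu hdet hne
  have hE : 0 < f (mn u E) := f.pos (mn_ne hu E)
  have hdet0 : 0 < f (Matrix.of fun i => W (J i) u).det := f.pos hdet
  have h1 : MvPolynomial.eval u (Matrix.of fun j => a (J j)).det =
      mn u E ^ n * (Matrix.of fun i => W (J i) u).det := by
    rw [RingHom.map_det]
    have h2 : (MvPolynomial.eval u).mapMatrix (Matrix.of fun j => a (J j)) =
        mn u E • (Matrix.of fun i => W (J i) u) := by
      ext1 i j
      rw [RingHom.mapMatrix_apply, Matrix.map_apply, Matrix.of_apply, hW _ u hu,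
        Matrix.smul_apply, Matrix.of_apply, smul_eq_mul]
    rw [h2, Matrix.det_smul, Fintype.card_fin]
  have h2 : MvPolynomial.eval u (Matrix.of fun j => a (J j)).det ≠ 0 := by
    rw [h1]
    exact mul_ne_zero (pow_ne_zero _ (mn_ne hu E)) hdet
  obtain ⟨I, hI, h3⟩ := max_mon f hu h2
  refine ⟨I, hI, ?_⟩
  rw [h1, map_mul, map_pow, Real.log_mul (by positivity) hdet0.ne', Real.log_pow] at h3
  have h5 : ∑ j, (β - Real.log (f (lv (a (J j)) u x))) =
      ∑ j, (β - Real.log (f (W (J j) u ⬝ᵥ x))) - n * Real.log (f (mn u E)) := by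
    have h6 : ∀ j, β - Real.log (f (lv (a (J j)) u x)) =
        (β - Real.log (f (W (J j) u ⬝ᵥ x))) - Real.log (f (mn u E)) := by
      intro j
      have h7 : lv (a (J j)) u x = mn u E * (W (J j) u ⬝ᵥ x) := by
        unfold lv dotProduct
        rw [Finset.mul_sum]
        refine Finset.sum_congr rfl fun i _ => ?_
        rw [hW _ u hu, mul_assoc]
      rw [h7, map_mul, Real.log_mul hE.ne' (f.ne_zero (hne j))]
      ring
    rw [Finset.sum_congr rfl fun j _ => h6 j, Finset.sum_sub_distrib, Finset.sum_const,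
      Finset.card_univ, Fintype.card_fin, nsmul_eq_mul]
  rw [h5]
  linarith

theorem mono_mul (x y : Fin m → K) (a : Fin m → ℤ) :
    mono (fun i => x i * y i) a = mono x a * mono y a := by
  unfold mono
  rw [← Finset.prod_mul_distrib]
  refine Finset.prod_congr rfl fun i _ => ?_
  rw [mul_zpow]

theorem isL_scale (r : Fin m → K) (B : (Fin m → ℤ) →₀ K) :
    IsL fun y : Fin m → K => ev B fun i => r i * y i := by
  have h1 : IsL fun y : Fin m → K => ∑ a ∈ B.support, B a * mono r a * mono y a :=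
    IsL.sum _ fun a _ => IsL.mono _ _
  refine h1.congr fun y _ => ?_
  unfold ev Finsupp.sum
  refine Finset.sum_congr rfl fun a _ => ?_
  show B a * mono r a * mono y a = B a * mono (fun i => r i * y i) a
  rw [mono_mul]
  ring

end

variable {k K : Type} [Field k] [NumberField k] [Field K] [NumberField K] [Algebra k K]
  {S : Finset (HeightOneSpectrum (𝓞 k))} {m : ℕ}

/-- the local terms -/
noncomputable def tm (fa : AbsoluteValue K ℝ) (v : AbsoluteValue k ℝ)
    (c : K) (o : Option K) (t : Fin 2 → k) : ℝ :=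
  match o with
  | none => Real.log (nrm v t) - Real.log (v (t 1))
  | some p => Real.log (max (fa c) (fa p)) + Real.log (nrm v t) -
      Real.log (fa (c * algebraMap k K (t 0) - p * algebraMap k K (t 1)))

/-- the point `r w` -/
def rw' (r : Fin m → K) (w : Fin m → k) : Fin m → K := fun i => r i * ku K w i

theorem glob [IsGalois ℚ K] (hi : ∃ z : K, z ^ 2 = -1) (S : Finset (HeightOneSpectrum (𝓞 k)))
    (fa : Pl k → AbsoluteValue K ℝ) (hfa : ∀ v, Good v (fa v))
    (els : Finset ((Fin m → ℤ) →₀ K)) (cd : (Fin m → ℤ) →₀ K) (r : Fin m → K) {ε : ℝ}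
    (hε : 0 < ε) :
    ∃ (Z : Finset (Fin 2 → MvPolynomial (Fin m) K)) (C : ℝ), (∀ P ∈ Z, P ≠ 0) ∧
      ∀ (w : Fin m → k) (t : Fin 2 → k), (∀ i, IsU S (w i)) → t ≠ 0 →
        (∀ P ∈ Z, lv P (ku K w) (ku K t) ≠ 0) → ev cd (rw' r w) ≠ 0 →
        ∀ J : Pl k → Option els, ∑ v ∈ Sp S, wt v * tm (fa v) (av v) (ev cd (rw' r w))
          ((J v).map fun p => ev p.1 (rw' r w)) t ≤
          (2 + ε) * logHeight t + ε * hs w + C := by
  classical
  have hfe : ∀ (v : Pl k) (y : k), fa v (algebraMap k K y) = av v y := fun v y => (hfa v).ext y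
  obtain ⟨W, hW1, hW2⟩ : ∃ W : els ⊕ Fin 2 → (Fin m → K) → Fin 2 → K,
      (∀ p y, W (Sum.inl p) y = ![ev cd (fun i => r i * y i), -ev p.1 (fun i => r i * y i)]) ∧
      ∀ i y, W (Sum.inr i) y = Pi.single i 1 :=
    ⟨Sum.elim (fun p y => ![ev cd (fun i => r i * y i), -ev p.1 (fun i => r i * y i)])
      fun i _ => Pi.single i 1, fun _ _ => rfl, fun _ _ => rfl⟩
  have hWL : ∀ b i, IsL fun u => W b u i := by
    rintro (p | l) i
    · simp only [hW1]
      fin_cases i
      · exact isL_scale r cd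
      · have h1 : IsL fun y : Fin m → K => (-1 : K) * ev p.1 (fun i => r i * y i) :=
          (IsL.const _).mul (isL_scale r p.1)
        refine h1.congr fun y _ => ?_
        show _ = -ev p.1 (fun i => r i * y i)
        ring
    · simp only [hW2]
      exact IsL.const _
  choose B hB using hWL
  obtain ⟨E, P, hP⟩ := exists_poly (Finset.univ.image fun x : (els ⊕ Fin 2) × Fin 2 => B x.1 x.2)
  obtain ⟨a, ha⟩ : ∃ a : els ⊕ Fin 2 → Fin 2 → MvPolynomial (Fin m) K,
      ∀ b i, a b i = P (B b i) := ⟨fun b i => P (B b i), fun _ _ => rfl⟩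
  have hW : ∀ b (u : Fin m → K), (∀ i, u i ≠ 0) → ∀ i,
      MvPolynomial.eval u (a b i) = mn u E * W b u i := by
    intro b u hu i
    rw [ha, hP _ (Finset.mem_image.2 ⟨(b, i), Finset.mem_univ _, rfl⟩) u hu]
    have h1 : W b u i = ev (B b i) u := hB b i u hu
    rw [h1]
  obtain ⟨Z, C1, C2, hC1, hC2, hZ, hmain⟩ := core hi (Sp S) fa hfa two_pos a ε hε
  choose Ac hAc using fun (x : Fin 2 → els ⊕ Fin 2) (v : Pl k) => cmp' (fa v) hW x
  obtain ⟨Cc, hCc0, hCcle⟩ := bound2 (Sp S) Ac
  obtain ⟨ws, hws⟩ : ∃ ws : ℝ, ws = wS S := ⟨_, rfl⟩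
  refine ⟨Z, C2 + Cc * ws, hZ, ?_⟩
  intro w t hwU ht hoff hcd J
  have hw0 : ∀ i, w i ≠ 0 := fun i => (hwU i).1
  have hwK0 : ∀ i, ku K w i ≠ 0 := fun i => (_root_.map_ne_zero _).2 (hw0 i)
  obtain ⟨hne, -, hineq⟩ := hmain w t hw0 hoff
  have hdot : ∀ b, W b (ku K w) ≠ 0 → W b (ku K w) ⬝ᵥ ku K t ≠ 0 := by
    intro b hb h0
    refine hne b ?_ ?_
    · intro h1
      apply hb
      funext i
      have h2 := hW b (ku K w) hwK0 i
      rw [h1, Pi.zero_apply, map_zero] at h2
      exact (mul_eq_zero.1 h2.symm).resolve_left (mn_ne hwK0 E)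
    · have h7 : lv (a b) (ku K w) (ku K t) = mn (ku K w) E * (W b (ku K w) ⬝ᵥ ku K t) := by
        unfold lv dotProduct
        rw [Finset.mul_sum]
        refine Finset.sum_congr rfl fun i _ => ?_
        rw [hW b _ hwK0, mul_assoc]
      rw [h7, h0, mul_zero]
  have hWu : ∀ i, W (Sum.inr i) (ku K w) ⬝ᵥ ku K t = ku K t i := by
    intro i
    rw [hW2, single_one_dotProduct]
  have hWune : ∀ i, W (Sum.inr i) (ku K w) ≠ 0 := by
    intro i h0
    have h1 := congrFun h0 i
    rw [hW2, Pi.single_eq_same, Pi.zero_apply] at h1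
    exact one_ne_zero h1
  have ht0 : ∀ i, ku K t i ≠ 0 := fun i => by
    have h1 := hdot _ (hWune i)
    rwa [hWu] at h1
  have hmn : ∀ (v : Pl k) (I : Fin m →₀ ℕ), fa v (mn (ku K w) I) = av v (mn w I) := by
    intro v I
    have h1 : mn (ku K w) I = algebraMap k K (mn w I) := mn_map (algebraMap k K) w I
    rw [h1, hfe]
  have hpos : ∀ (v : Pl k) i, 0 ≤ Real.log (nrm (av v) t) - Real.log (fa v (ku K t i)) := by
    intro v i
    rw [sub_nonneg]
    refine Real.log_le_log ((fa v).pos (ht0 i)) ?_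
    show fa v (algebraMap k K (t i)) ≤ _
    rw [hfe]
    exact le_nrm (av v) t i
  -- the local inequalities
  have hlocal : ∀ v : Pl k, ∃ (Jv : Fin 2 → els ⊕ Fin 2) (I : Fin m →₀ ℕ),
      I ∈ (Matrix.of fun j => a (Jv j)).det.support ∧ (v ∈ Sp S →
        tm (fa v) (av v) (ev cd (rw' r w)) ((J v).map fun p => ev p.1 (rw' r w)) t ≤
          Cc + (∑ j, (Real.log (sn (av v) t) -
            Real.log (fa v (lv (a (Jv j)) (ku K w) (ku K t)))) + Real.log (av v (mn w I)))) := by
    intro v
    -- a general statement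
    have hgen : ∀ Jv : Fin 2 → els ⊕ Fin 2, (Matrix.of fun i => W (Jv i) (ku K w)).det ≠ 0 →
        (∀ i, W (Jv i) (ku K w) ≠ 0) →
        tm (fa v) (av v) (ev cd (rw' r w)) ((J v).map fun p => ev p.1 (rw' r w)) t ≤
          Real.log (fa v (Matrix.of fun i => W (Jv i) (ku K w)).det) +
          ∑ j, (Real.log (nrm (av v) t) - Real.log (fa v (W (Jv j) (ku K w) ⬝ᵥ ku K t))) →
        ∃ I : Fin m →₀ ℕ, I ∈ (Matrix.of fun j => a (Jv j)).det.support ∧ (v ∈ Sp S →
        tm (fa v) (av v) (ev cd (rw' r w)) ((J v).map fun p => ev p.1 (rw' r w)) t ≤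
          Cc + (∑ j, (Real.log (sn (av v) t) -
            Real.log (fa v (lv (a (Jv j)) (ku K w) (ku K t)))) + Real.log (av v (mn w I)))) := by
      intro Jv hdet hne' hle
      obtain ⟨I, hI, hIs⟩ := hAc Jv v (ku K w) (ku K t) (Real.log (nrm (av v) t)) hwK0 hdet
        fun i => hdot _ (hne' i)
      refine ⟨I, hI, fun hvS => ?_⟩
      rw [hmn] at hIs
      have h7 := hCcle v hvS Jv
      have h9 : Real.log (fa v (Matrix.of fun i => W (Jv i) (ku K w)).det) +
          ∑ j, (Real.log (nrm (av v) t) - Real.log (fa v (W (Jv j) (ku K w) ⬝ᵥ ku K t))) ≤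
          Ac Jv v + (∑ j, (Real.log (sn (av v) t) -
            Real.log (fa v (lv (a (Jv j)) (ku K w) (ku K t)))) + Real.log (av v (mn w I))) := hIs
      linarith
    rcases hJ : J v with _ | p
    · obtain ⟨I, hI, hIs⟩ := hgen (fun i => Sum.inr i) (by
          have h1 : (Matrix.of fun i : Fin 2 => W (Sum.inr i) (ku K w)) = 1 := by
            ext1 i j
            rw [Matrix.of_apply, hW2, Matrix.one_apply, Pi.single_apply]
            simp only [eq_comm]
          rw [h1, Matrix.det_one]
          exact one_ne_zero) (fun i => hWune i) (by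
          have h1 : (Matrix.of fun i : Fin 2 => W (Sum.inr i) (ku K w)) = 1 := by
            ext1 i j
            rw [Matrix.of_apply, hW2, Matrix.one_apply, Pi.single_apply]
            simp only [eq_comm]
          rw [h1, Matrix.det_one, map_one, Real.log_one, zero_add, Fin.sum_univ_two, hWu, hWu, hJ]
          have h2 := hpos v 0
          show Real.log (nrm (av v) t) - Real.log (av v (t 1)) ≤ _
          have h3 : fa v (ku K t 1) = av v (t 1) := hfe v (t 1)
          rw [h3]
          linarith)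
      rw [hJ] at hIs
      exact ⟨fun i => Sum.inr i, I, hI, hIs⟩
    · obtain ⟨c, hc⟩ : ∃ c : K, c = ev cd (rw' r w) := ⟨_, rfl⟩
      obtain ⟨b, hb⟩ : ∃ b : K, b = ev p.1 (rw' r w) := ⟨_, rfl⟩
      have hWp : W (Sum.inl p) (ku K w) = ![c, -b] := by
        rw [hW1, hc, hb]
        rfl
      have hWpne : W (Sum.inl p) (ku K w) ≠ 0 := by
        intro h0
        rw [hWp] at h0
        have h1 : c = 0 := congrFun h0 0
        rw [hc] at h1
        exact hcd h1
      have hval : W (Sum.inl p) (ku K w) ⬝ᵥ ku K t =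
          c * algebraMap k K (t 0) - b * algebraMap k K (t 1) := by
        rw [hWp]
        simp only [dotProduct, Fin.sum_univ_two]
        show c * algebraMap k K (t 0) + -b * algebraMap k K (t 1) = _
        ring
      have htm : tm (fa v) (av v) (ev cd (rw' r w)) ((J v).map fun p => ev p.1 (rw' r w)) t =
          Real.log (max (fa v c) (fa v b)) + Real.log (nrm (av v) t) -
            Real.log (fa v (W (Sum.inl p) (ku K w) ⬝ᵥ ku K t)) := by
        rw [hJ, hval, hc, hb]
        rfl
      rcases le_total (fa v b) (fa v c) with hbc | hbc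
      · have hd : (Matrix.of fun i => W ((![Sum.inl p, Sum.inr 1] : Fin 2 → els ⊕ Fin 2) i)
            (ku K w)).det = c := by
          rw [Matrix.det_fin_two]
          show W (Sum.inl p) (ku K w) 0 * W (Sum.inr 1) (ku K w) 1 -
            W (Sum.inl p) (ku K w) 1 * W (Sum.inr 1) (ku K w) 0 = c
          rw [hWp, hW2]
          simp
        obtain ⟨I, hI, hIs⟩ := hgen ![Sum.inl p, Sum.inr 1] (by
          rw [hd, hc]
          exact hcd) (by
          intro i
          fin_cases i
          · exact hWpne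
          · exact hWune 1) (by
          rw [hd, htm, max_eq_left hbc, Fin.sum_univ_two]
          show _ ≤ _ + ((_ - Real.log (fa v (W (Sum.inl p) (ku K w) ⬝ᵥ ku K t))) +
            (_ - Real.log (fa v (W (Sum.inr 1) (ku K w) ⬝ᵥ ku K t))))
          rw [hWu]
          have := hpos v 1
          linarith)
        rw [hJ] at hIs
        exact ⟨_, I, hI, hIs⟩
      · have hb0 : b ≠ 0 := by
          intro h0
          rw [h0, map_zero] at hbc
          rw [← hc] at hcd
          exact absurd hbc (not_le.2 ((fa v).pos hcd))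
        have hd : (Matrix.of fun i => W ((![Sum.inl p, Sum.inr 0] : Fin 2 → els ⊕ Fin 2) i)
            (ku K w)).det = b := by
          rw [Matrix.det_fin_two]
          show W (Sum.inl p) (ku K w) 0 * W (Sum.inr 0) (ku K w) 1 -
            W (Sum.inl p) (ku K w) 1 * W (Sum.inr 0) (ku K w) 0 = b
          rw [hWp, hW2]
          simp
        obtain ⟨I, hI, hIs⟩ := hgen ![Sum.inl p, Sum.inr 0] (by
          rw [hd]
          exact hb0) (by
          intro i
          fin_cases i
          · exact hWpne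
          · exact hWune 0) (by
          rw [hd, htm, max_eq_right hbc, Fin.sum_univ_two]
          show _ ≤ _ + ((_ - Real.log (fa v (W (Sum.inl p) (ku K w) ⬝ᵥ ku K t))) +
            (_ - Real.log (fa v (W (Sum.inr 0) (ku K w) ⬝ᵥ ku K t))))
          rw [hWu]
          have := hpos v 0
          linarith)
        rw [hJ] at hIs
        exact ⟨_, I, hI, hIs⟩
  choose Jv I hI hb using hlocal
  have hfinal := hineq Jv I hI
  have hex : ∀ i, ex (Sp S) (w i) = 0 := fun i =>
    Pool.Agent.N63.MT.ex_unit (Sp S) (hw0 i) fun v hv => by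
      rcases v with v | v
      · exact absurd (mem_Sp_inl v) hv
      · exact (hwU i).2 v fun h => hv (mem_Sp_inr.2 h)
  simp only [hex, Finset.sum_const_zero, mul_zero, add_zero] at hfinal
  have h1 : ∑ v ∈ Sp S, wt v * tm (fa v) (av v) (ev cd (rw' r w))
      ((J v).map fun p => ev p.1 (rw' r w)) t ≤
      Cc * ws + ∑ v ∈ Sp S, wt v * (∑ j, (Real.log (sn (av v) t) -
            Real.log (fa v (lv (a (Jv v j)) (ku K w) (ku K t)))) + Real.log (av v (mn w (I v)))) := by
    rw [hws]
    unfold wS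
    rw [Finset.mul_sum, ← Finset.sum_add_distrib]
    refine Finset.sum_le_sum fun v hv => ?_
    have h2 := mul_le_mul_of_nonneg_left (hb v hv) (wt_nonneg v)
    rw [mul_add] at h2
    linarith
  have h2 : ∑ i, logHeight₁ (w i) = hs w := rfl
  rw [h2] at hfinal
  push_cast at hfinal
  linarith

end Pool.Agent.Run7.h489.PX
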