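import Mathlib
import Pool.Agent.Run7.h489.PX.Glob

set_option autoImplicit false
set_option linter.unusedSectionVars false

/-!
The local inequality.
-/

namespace Pool.Agent.Run7.h489.PX

open Height NumberField IsDedekindDomain Polynomial
open Pool.Agent.W180.OP (Pl av wt fv nrm wt_nonneg le_nrm exists_nrm nrm_pos)
open Pool.Agent.R404.TC (Sp)
open Pool.Agent.Run7.h489.LV (IsU IsI mem_Sp_inl mem_Sp_inr)
open Pool.Agent.Run7.h489.TM

section

variable {k : Type} [Field k] {m : ℕ}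

/-- the value of the form with the coefficients `c` -/
noncomputable def fvl {Λ : Type} [Field Λ] (κ : k →+* Λ) (c : ℕ → AddMonoidAlgebra k (Fin m → ℤ))
    (d : ℕ) (u : Fin m → k) (y : Fin 2 → Λ) : Λ :=
  ∑ i ∈ Finset.range (d + 1), κ (ev (c i).coeff u) * (y 0 ^ i * y 1 ^ (d - i))

/-- the real number `x` is the local height of `t` with respect to a zero of the form -/
def LV (c : ℕ → AddMonoidAlgebra k (Fin m → ℤ)) (d : ℕ) (f : AbsoluteValue k ℝ) (u : Fin m → k)
    (t : Fin 2 → k) (x : ℝ) : Prop :=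
  ∃ (Λ : Type) (_ : Field Λ) (κ : k →+* Λ) (w : AbsoluteValue Λ ℝ) (y : Fin 2 → Λ),
    (∀ z, w (κ z) = f z) ∧ y ≠ 0 ∧ (y 1 = 0 ∨ fvl κ c d u y = 0) ∧
      x = Real.log (nrm f t) + Real.log (nrm w y) -
        Real.log (w (κ (t 0) * y 1 - κ (t 1) * y 0))

theorem nrm2 (f : AbsoluteValue k ℝ) (x : Fin 2 → k) : nrm f x = max (f (x 0)) (f (x 1)) := by
  apply le_antisymm
  · refine ciSup_le fun i => ?_
    fin_cases i
    · exact le_max_left _ _
    · exact le_max_right _ _
  · exact max_le (le_nrm f x 0) (le_nrm f x 1)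

theorem loc1 {K Λ : Type} [Field K] [Algebra k K] [Field Λ] {fa : AbsoluteValue K ℝ}
    {v : AbsoluteValue k ℝ} (hf : ∀ y, fa (algebraMap k K y) = v y)
    (c : ℕ → AddMonoidAlgebra k (Fin m → ℤ)) {d : ℕ} {u : Fin m → k} (hu : ∀ i, u i ≠ 0) {E : ℕ}
    {x : Fin m → K} (hx : ∀ i, x i ≠ 0) (hxu : ∀ i, x i ^ E = algebraMap k K (u i))
    {P : Multiset (AddMonoidAlgebra K (Fin m → ℤ))} (hP : P.card = d) {τ : ℝ}
    (hτ : ∀ i, fa (evh x hx (((Phi c d).map (inc m (algebraMap k K) E) -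
      (P.map fun p => X - C p).prod).coeff i)) ≤ τ) (hcd : ev (c d).coeff u ≠ 0)
    {t : Fin 2 → k} (ht : t ≠ 0) (hF : fvl (RingHom.id k) c d u t ≠ 0)
    (hsmall : 2 * ((d + 1) * (τ * (2 ^ d * max 1 (v (ev (c d).coeff u)) ^ d))) *
      max (v (t 0)) (v (t 1)) ^ d ≤
      v (hv d (Phi (fun i => ev (c i).coeff u) d) (ev (c d).coeff u * t 0) (t 1)))
    {κ : k →+* Λ} {w : AbsoluteValue Λ ℝ} (hw : ∀ z, w (κ z) = v z) {y : Fin 2 → Λ} (hy : y ≠ 0)
    (hroot : fvl κ c d u y = 0) :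
    ∃ p ∈ P, Real.log (nrm v t) + Real.log (nrm w y) -
        Real.log (w (κ (t 0) * y 1 - κ (t 1) * y 0)) ≤
      (d + 5) * Real.log 2 + tm fa v (algebraMap k K (ev (c d).coeff u))
        (some (evh x hx p)) t := by
  have hinc : ∀ h : AddMonoidAlgebra k (Fin m → ℤ), evh x hx (inc m (algebraMap k K) E h) =
      algebraMap k K (ev h.coeff u) := by
    intro h
    have h1 := congrArg (fun g => g h) (evh_inc (algebraMap k K) hx hu hxu)
    simp only [RingHom.comp_apply] at h1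
    rw [h1, evh_apply]
  have hmap : (Phi (fun i => ev (c i).coeff u) d).map (algebraMap k K) -
      ((P.map (evh x hx)).map fun p => X - C p).prod =
      ((Phi c d).map (inc m (algebraMap k K) E) - (P.map fun p => X - C p).prod).map
        (evh x hx) := by
    rw [Polynomial.map_sub, Phi_map, Phi_map, Phi_map, Polynomial.map_multiset_prod,
      Multiset.map_map, Multiset.map_map]
    congr 1
    · congr 1
      funext i
      exact (hinc (c i)).symm
    · congr 1
      refine Multiset.map_congr rfl fun p _ => ?_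
      rw [Function.comp_apply, Function.comp_apply, Polynomial.map_sub, Polynomial.map_X,
        Polynomial.map_C]
  have hne : hv d (Phi (fun i => ev (c i).coeff u) d) (ev (c d).coeff u * t 0) (t 1) ≠ 0 := by
    intro h0
    have h1 := hv_Phi (fun i => ev (c i).coeff u) d (t 0) (t 1)
    rw [h0, mul_zero] at h1
    rcases mul_eq_zero.1 h1.symm with h2 | h2
    · exact pow_ne_zero _ hcd h2
    · exact hF h2
  have hroot' : hv d ((Phi (fun i => ev (c i).coeff u) d).map κ) (κ (ev (c d).coeff u) * y 0)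
      (y 1) = 0 := by
    rw [Phi_map]
    have h1 := hv_Phi (fun i => κ (ev (c i).coeff u)) d (y 0) (y 1)
    have h2 : ∑ i ∈ Finset.range (d + 1), κ (ev (c i).coeff u) * (y 0 ^ i * y 1 ^ (d - i)) = 0 :=
      hroot
    rw [h2, mul_zero] at h1
    exact (mul_eq_zero.1 h1).resolve_left ((_root_.map_ne_zero κ).2 hcd)
  obtain ⟨a, ha, hLa, hle⟩ := near_root (algebraMap k K) κ hf hw
    (q := P.map (evh x hx)) (by rw [Multiset.card_map, hP]) hcd ht (τ := τ) (fun i => by
      rw [hmap, coeff_map]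
      exact hτ i) hsmall hne hroot'
  obtain ⟨p, hp, rfl⟩ := Multiset.mem_map.1 ha
  refine ⟨p, hp, ?_⟩
  have h1 : 0 < nrm w y := nrm_pos w hy
  have h2 : 0 < fa (algebraMap k K (ev (c d).coeff u * t 0) - evh x hx p * algebraMap k K (t 1)) :=
    fa.pos hLa
  rw [← nrm2] at hle
  have h3 : 0 < max (v (ev (c d).coeff u)) (fa (evh x hx p)) := lt_max_of_lt_left (v.pos hcd)
  have h4 : 0 < w (κ (t 0) * y 1 - κ (t 1) * y 0) := by
    by_contra hcon
    have h5 : w (κ (t 0) * y 1 - κ (t 1) * y 0) = 0 := le_antisymm (not_lt.1 hcon) (w.nonneg _)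
    rw [h5, mul_zero] at hle
    exact absurd hle (not_le.2 (mul_pos h1 h2))
  have h5 := Real.log_le_log (mul_pos h1 h2) hle
  have h6 : (0 : ℝ) < 2 ^ (d + 5) := by positivity
  rw [Real.log_mul h1.ne' h2.ne', Real.log_mul (mul_pos h6 h3).ne' h4.ne',
    Real.log_mul h6.ne' h3.ne', Real.log_pow] at h5
  have e5 : ((d + 5 : ℕ) : ℝ) = d + 5 := by
    push_cast
    ring
  rw [e5] at h5
  unfold tm
  simp only
  rw [hf, ← map_mul]
  linarith

end

end Pool.Agent.Run7.h489.PX
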