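import Mathlib
import Pool.Agent.Run7.h489.PX.Loc
import Pool.Agent.Run7.h489.PX.Exc
import Pool.Agent.Run7.h489.PX.Kum

set_option autoImplicit false
set_option linter.unusedSectionVars false

/-!
The inequality for almost all tuples of units.
-/

namespace Pool.Agent.Run7.h489.PX

open Height NumberField IsDedekindDomain Polynomial
open Pool.Agent.W180.OP (Pl av wt fv nrm wt_nonneg le_nrm exists_nrm nrm_pos)
open Pool.Agent.R404.TC (Sp)
open Pool.Agent.R405 (Good exists_good)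
open Pool.Agent.Run7.h489.LV (IsU IsI mem_Sp_inl mem_Sp_inr)
open Pool.Agent.Run7.h489.TM
open Pool.Agent.N63.MT (lv ku mn mn_ne)

variable {k : Type} [Field k] [NumberField k] {m : ℕ}

theorem av_le_exp {S : Finset (HeightOneSpectrum (𝓞 k))} (x : k) {v : Pl k} (hv : v ∈ Sp S) :
    av v x ≤ Real.exp (logHeight₁ x) := by
  rcases eq_or_ne x 0 with rfl | hx
  · rw [map_zero]
    exact (Real.exp_pos _).le
  · rw [← Real.log_le_iff_le_exp ((av v).pos hx)]
    exact log_le_height (S := S) x hx hv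

theorem exp_le_av {S : Finset (HeightOneSpectrum (𝓞 k))} {x : k} (hx : x ≠ 0) {v : Pl k}
    (hv : v ∈ Sp S) : Real.exp (-logHeight₁ x) ≤ av v x := by
  rw [← Real.le_log_iff_exp_le ((av v).pos hx)]
  have := neg_log_le_height (S := S) x hx hv
  linarith

/-- heights of the values of the forms -/
theorem hb_val (c : ℕ → AddMonoidAlgebra k (Fin m → ℤ)) (d : ℕ) :
    HB fun (u : Fin m → k) s => hv d (Phi (fun i => ev (c i).coeff u) d)
      (ev (c d).coeff u * s) 1 := by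
  unfold hv
  refine HB.sum _ fun i _ => HB.mul ?_ (HB.mul (HB.pow ((HB.ev _).mul HB.var) i)
    ((HB.const 1).pow _))
  simp only [coeff_Phi]
  split_ifs
  · exact HB.const 1
  · exact (HB.ev _).mul ((HB.ev _).pow _)
  · exact HB.const 0

theorem hv_scale (c : ℕ → AddMonoidAlgebra k (Fin m → ℤ)) (d : ℕ) (u : Fin m → k)
    {t : Fin 2 → k} (ht : t 1 ≠ 0) :
    hv d (Phi (fun i => ev (c i).coeff u) d) (ev (c d).coeff u * t 0) (t 1) =
      t 1 ^ d * hv d (Phi (fun i => ev (c i).coeff u) d) (ev (c d).coeff u * (t 0 / t 1)) 1 := by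
  rw [← hv_smul, mul_one]
  congr 1
  field_simp

theorem height_t {t : Fin 2 → k} (ht : t 1 ≠ 0) : logHeight t = logHeight₁ (t 0 / t 1) := by
  rw [logHeight₁_eq_logHeight, ← logHeight_smul_eq_logHeight ![t 0 / t 1, 1] ht]
  congr 1
  funext i
  fin_cases i
  · show t 0 = t 1 * (t 0 / t 1)
    field_simp
  · show t 1 = t 1 * 1
    rw [mul_one]

/-- the smallness condition -/
theorem small_ok (S : Finset (HeightOneSpectrum (𝓞 k))) (c : ℕ → AddMonoidAlgebra k (Fin m → ℤ))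
    (d : ℕ) {B : ℝ} (hB : 0 ≤ B) :
    ∃ L : ℝ, ∀ A : ℝ, ∃ T₀ : ℝ, 1 ≤ T₀ ∧ ∀ T : ℝ, T₀ ≤ T → ∀ (u : Fin m → k) (t : Fin 2 → k),
      (∀ i, u i ≠ 0) → hs u ≤ m * T → logHeight t ≤ B * T → t 1 ≠ 0 →
      hv d (Phi (fun i => ev (c i).coeff u) d) (ev (c d).coeff u * t 0) (t 1) ≠ 0 →
      ∀ v ∈ Sp S, 2 * ((d + 1) * (A * Real.exp (-L * T) *
        (2 ^ d * max 1 (av v (ev (c d).coeff u)) ^ d))) * max (av v (t 0)) (av v (t 1)) ^ d ≤
        av v (hv d (Phi (fun i => ev (c i).coeff u) d) (ev (c d).coeff u * t 0) (t 1)) := by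
  obtain ⟨C1, hC1, h1⟩ := HB.ev (m := m) (c d).coeff
  obtain ⟨C2, hC2, h2⟩ := hb_val c d
  refine ⟨d * (C1 * (m + B + 1)) + d * B + C2 * (m + B + 1) + 1, fun A => ?_⟩
  refine ⟨max 1 (2 * (d + 1) * |A| * 2 ^ d), le_max_left _ _, fun T hT u t hu hhu hht ht1 hne v hv => ?_⟩
  have hT1 : 1 ≤ T := (le_max_left _ _).trans hT
  have hT2 : 2 * (d + 1) * |A| * 2 ^ d ≤ T := (le_max_right _ _).trans hT
  obtain ⟨s, hs'⟩ : ∃ s : k, s = t 0 / t 1 := ⟨_, rfl⟩
  obtain ⟨z, hz⟩ : ∃ z : k, z = Pool.Agent.Run7.h489.PX.hv d (Phi (fun i => ev (c i).coeff u) d)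
    (ev (c d).coeff u * s) 1 := ⟨_, rfl⟩
  have hval := hv_scale c d u ht1
  rw [← hs', ← hz] at hval
  rw [hval] at hne ⊢
  have hz0 : z ≠ 0 := fun h => hne (by rw [h, mul_zero])
  have hv1 : 0 < av v (t 1) := (av v).pos ht1
  have hmax : max (av v (t 0)) (av v (t 1)) = av v (t 1) * max (av v s) 1 := by
    rw [mul_max_of_nonneg _ _ hv1.le, mul_one, ← map_mul, hs']
    congr 2
    field_simp
  rw [hmax, mul_pow, map_mul, map_pow]
  have hht' : logHeight₁ s ≤ B * T := by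
    rw [hs', ← height_t ht1]
    exact hht
  have hH : hs u + logHeight₁ s + 1 ≤ (m + B + 1) * T := by nlinarith
  have b1 : max 1 (av v (ev (c d).coeff u)) ≤ Real.exp (C1 * (m + B + 1) * T) := by
    refine max_le (Real.one_le_exp (by positivity)) ?_
    refine (av_le_exp _ hv).trans (Real.exp_le_exp.2 ?_)
    refine (h1 u s hu).trans ?_
    rw [mul_assoc]
    exact mul_le_mul_of_nonneg_left hH hC1
  have b2 : max (av v s) 1 ≤ Real.exp (B * T) := by
    refine max_le ?_ (Real.one_le_exp (by positivity))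
    exact (av_le_exp _ hv).trans (Real.exp_le_exp.2 hht')
  have b3 : Real.exp (-(C2 * (m + B + 1) * T)) ≤ av v z := by
    refine le_trans (Real.exp_le_exp.2 ?_) (exp_le_av hz0 hv)
    rw [neg_le_neg_iff, mul_assoc]
    have := h2 u s hu
    beta_reduce at this
    rw [← hz] at this
    exact this.trans (mul_le_mul_of_nonneg_left hH hC2)
  have b4 : 2 * (d + 1) * |A| * 2 ^ d ≤ Real.exp T := by
    have := Real.add_one_le_exp T
    linarith
  obtain ⟨e1, he1⟩ : ∃ e1 : ℝ, e1 = Real.exp (C1 * (m + B + 1) * T) := ⟨_, rfl⟩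
  obtain ⟨e2, he2⟩ : ∃ e2 : ℝ, e2 = Real.exp (B * T) := ⟨_, rfl⟩
  obtain ⟨L, hL⟩ : ∃ L : ℝ, L = d * (C1 * (m + B + 1)) + d * B + C2 * (m + B + 1) + 1 := ⟨_, rfl⟩
  rw [← hL]
  have b5 : Real.exp T * Real.exp (-L * T) * e1 ^ d * e2 ^ d = Real.exp (-(C2 * (m + B + 1) * T)) := by
    rw [he1, he2, ← Real.exp_nat_mul, ← Real.exp_nat_mul, ← Real.exp_add, ← Real.exp_add,
      ← Real.exp_add, hL]
    congr 1
    ring
  have p1 : 0 ≤ max 1 (av v (ev (c d).coeff u)) := zero_le_one.trans (le_max_left _ _)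
  have p2 : 0 ≤ max (av v s) 1 := zero_le_one.trans (le_max_right _ _)
  have q1 : max 1 (av v (ev (c d).coeff u)) ^ d ≤ e1 ^ d := by
    rw [he1]
    exact pow_le_pow_left₀ p1 b1 d
  have q2 : max (av v s) 1 ^ d ≤ e2 ^ d := by
    rw [he2]
    exact pow_le_pow_left₀ p2 b2 d
  have p3 : 0 ≤ e1 ^ d := (pow_nonneg p1 d).trans q1
  have p4 : 0 ≤ e2 ^ d := (pow_nonneg p2 d).trans q2
  have b6 : 2 * ((d + 1) * (A * Real.exp (-L * T) *
        (2 ^ d * max 1 (av v (ev (c d).coeff u)) ^ d))) * max (av v s) 1 ^ d ≤ av v z := by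
    refine le_trans ?_ b3
    rw [← b5]
    have r1 : 2 * ((d + 1) * (A * Real.exp (-L * T) *
        (2 ^ d * max 1 (av v (ev (c d).coeff u)) ^ d))) * max (av v s) 1 ^ d =
        (2 * (d + 1) * A * 2 ^ d) * (Real.exp (-L * T) *
        (max 1 (av v (ev (c d).coeff u)) ^ d * max (av v s) 1 ^ d)) := by ring
    rw [r1]
    have r2 : (2 * (d + 1) * A * 2 ^ d : ℝ) ≤ Real.exp T := by
      refine le_trans ?_ b4
      have := le_abs_self A
      gcongr
    have r3 : 0 ≤ Real.exp (-L * T) *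
        (max 1 (av v (ev (c d).coeff u)) ^ d * max (av v s) 1 ^ d) := by positivity
    refine (mul_le_mul_of_nonneg_right r2 r3).trans ?_
    have r4 : Real.exp T * Real.exp (-L * T) * e1 ^ d * e2 ^ d =
        Real.exp T * (Real.exp (-L * T) * (e1 ^ d * e2 ^ d)) := by ring
    rw [r4]
    refine mul_le_mul_of_nonneg_left (mul_le_mul_of_nonneg_left ?_ (Real.exp_pos _).le)
      (Real.exp_pos _).le
    exact mul_le_mul q1 q2 (pow_nonneg p2 d) p3
  calc 2 * ((d + 1) * (A * Real.exp (-L * T) *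
        (2 ^ d * max 1 (av v (ev (c d).coeff u)) ^ d))) * (av v (t 1) ^ d * max (av v s) 1 ^ d) =
        av v (t 1) ^ d * (2 * ((d + 1) * (A * Real.exp (-L * T) *
        (2 ^ d * max 1 (av v (ev (c d).coeff u)) ^ d))) * max (av v s) 1 ^ d) := by ring
    _ ≤ av v (t 1) ^ d * av v z := mul_le_mul_of_nonneg_left b6 (pow_nonneg hv1.le d)

/-- roots -/
theorem exists_rt (k : Type) [Field k] : ∃ rt : ℕ → k → AlgebraicClosure k,
    ∀ E : ℕ, 0 < E → ∀ ξ, rt E ξ ^ E = algebraMap k (AlgebraicClosure k) ξ := by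
  have h : ∀ (E : ℕ) (ξ : k), ∃ z : AlgebraicClosure k, 0 < E →
      z ^ E = algebraMap k (AlgebraicClosure k) ξ := by
    intro E ξ
    by_cases hE : 0 < E
    · obtain ⟨z, hz⟩ := IsAlgClosed.exists_pow_nat_eq (algebraMap k (AlgebraicClosure k) ξ) hE
      exact ⟨z, fun _ => hz⟩
    · exact ⟨0, fun h => absurd h hE⟩
  choose rt hrt using h
  exact ⟨rt, fun E hE ξ => hrt E ξ hE⟩

theorem px (S : Finset (HeightOneSpectrum (𝓞 k))) (hS : 2 ≤ (Sp S).card)
    (c : ℕ → AddMonoidAlgebra k (Fin m → ℤ)) (d : ℕ) (hcd : c d ≠ 0) {ε η B : ℝ} (hε : 0 < ε)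
    (hη : 0 < η) (hB : 0 ≤ B) :
    ∃ (G : MvPolynomial (Fin m ⊕ Fin 2) k) (C T₀ : ℝ), G ≠ 0 ∧ ∀ T : ℝ, T₀ ≤ T →
      (({u | u ∈ Bx m S T ∧ ∃ t : Fin 2 → k, MvPolynomial.eval (Sum.elim u t) G ≠ 0 ∧
        fvl (RingHom.id k) c d u t ≠ 0 ∧ logHeight t ≤ B * T ∧
        ∃ x : Pl k → ℝ, (∀ v ∈ Sp S, LV c d (av v) u t (x v)) ∧
          (2 + ε) * logHeight t + ε * hs u + C < ∑ v ∈ Sp S, wt v * x v}.ncard : ℕ) : ℝ) ≤
        η * (UF S T).card ^ m := by
  classical
  obtain ⟨L, hL⟩ := small_ok S c d hB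
  obtain ⟨rt, hrt⟩ := exists_rt k
  have hk : ∀ E : ℕ, ∃ Ξ : Finset k, 0 < E → (∀ ξ ∈ Ξ, IsU S ξ) ∧
      ∀ x : k, IsU S x → ∃ ξ ∈ Ξ, ∃ w, IsU S w ∧ x = ξ * w ^ E := by
    intro E
    by_cases hE : 0 < E
    · obtain ⟨Ξ, h⟩ := kummer S hE
      exact ⟨Ξ, fun _ => h⟩
    · exact ⟨∅, fun h => absurd h hE⟩
  choose Ξ hΞ using hk
  obtain ⟨Z, E, K, hK1, hK2, hK3, φ, Ps, hZ, hE, hK4, hi, hext, hcard, happ⟩ :=
    transfer (dens S hS) (Φ := Phi c d) (Phi_monic c d) (natDegree_Phi c d)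
      (fun E => (Ξ E).image (rt E)) L hη
  have hE0 : 0 < E := Nat.pos_of_ne_zero hE
  obtain ⟨hΞU, hΞr⟩ := hΞ E hE0
  have hint : ∀ a : K, (algebraMap k K).IsIntegralElem a := by
    intro a
    have hfd : FiniteDimensional ℚ K := inferInstance
    have hfk : FiniteDimensional k K := Module.Finite.of_restrictScalars_finite ℚ k K
    have halg : Algebra.IsAlgebraic k K := Algebra.IsAlgebraic.of_finite k K
    exact (halg.isAlgebraic a).isIntegral
  choose fa hfa using fun v : Pl k => exists_good (K := K) v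
  have hfe : ∀ (v : Pl k) (y : k), fa v (algebraMap k K y) = av v y := fun v y => (hfa v).ext y
  have hrr : ∀ ξ : k, ∃ y : K, ξ ∈ Ξ E → φ y = rt E ξ := by
    intro ξ
    by_cases h : ξ ∈ Ξ E
    · obtain ⟨y, hy⟩ := hext _ (Finset.mem_image_of_mem _ h)
      exact ⟨y, fun _ => hy⟩
    · exact ⟨0, fun h' => absurd h' h⟩
  choose rr hrr using hrr
  have hrrE : ∀ ξ ∈ Ξ E, rr ξ ^ E = algebraMap k K ξ := by
    intro ξ hξ
    refine (φ : K →+* AlgebraicClosure k).injective ?_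
    show φ (rr ξ ^ E) = φ (algebraMap k K ξ)
    rw [map_pow, hrr ξ hξ, hrt E hE0, AlgHom.commutes]
  have hrr0 : ∀ ξ ∈ Ξ E, rr ξ ≠ 0 := by
    intro ξ hξ h0
    have h1 := hrrE ξ hξ
    rw [h0, zero_pow hE] at h1
    exact (hΞU ξ hξ).1 ((map_eq_zero _).1 h1.symm)
  obtain ⟨els, hels⟩ : ∃ els : Finset ((Fin m → ℤ) →₀ K),
      els = (Ps.biUnion fun P => P.toFinset).image fun p => p.coeff := ⟨_, rfl⟩
  have hmem : ∀ P ∈ Ps, ∀ p ∈ P, p.coeff ∈ els := by
    intro P hP p hp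
    rw [hels]
    exact Finset.mem_image_of_mem _ (Finset.mem_biUnion.2 ⟨P, hP, Multiset.mem_toFinset.2 hp⟩)
  obtain ⟨cK, hcK⟩ : ∃ cK : (Fin m → ℤ) →₀ K, cK = (inc m (algebraMap k K) E (c d)).coeff :=
    ⟨_, rfl⟩
  obtain ⟨pi, hpi⟩ : ∃ pi : Finset (Fin m → k), pi = Fintype.piFinset fun _ => Ξ E := ⟨_, rfl⟩
  have hpim : ∀ ξ ∈ pi, ∀ i, ξ i ∈ Ξ E := fun ξ hξ i => by
    rw [hpi] at hξ
    exact Fintype.mem_piFinset.1 hξ i
  have hgl := fun ξ : Fin m → k => glob hi S fa hfa els cK (fun i => rr (ξ i)) hε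
  choose Zx Cx hZx hmain using hgl
  -- the exceptional set
  have hpush : ∀ (ξ : Fin m → k) (P : Fin 2 → MvPolynomial (Fin m) K), ∃ G :
      MvPolynomial (Fin m ⊕ Fin 2) k, ξ ∈ pi → P ∈ Zx ξ → G ≠ 0 ∧
      ∀ (u w : Fin m → k) (t : Fin 2 → k), (∀ i, u i = ξ i * w i ^ E) →
        MvPolynomial.eval (Sum.elim u t) G ≠ 0 → lv P (ku K w) (ku K t) ≠ 0 := by
    intro ξ P
    by_cases h : ξ ∈ pi ∧ P ∈ Zx ξ
    · obtain ⟨G, hG, hG'⟩ := push (algebraMap k K) hint (ξ := ξ)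
        (fun i => (hΞU _ (hpim ξ h.1 i)).1) hE0 (lpol_ne (hZx ξ P h.2))
      refine ⟨G, fun _ _ => ⟨hG, fun u w t hu hGe => ?_⟩⟩
      have h1 := hG' u w t hu hGe
      rwa [eval_lpol] at h1
    · exact ⟨0, fun h1 h2 => absurd ⟨h1, h2⟩ h⟩
  choose Gp hGp using hpush
  obtain ⟨E1, qd, hqd0, hqd⟩ := clear' (c d).coeff
  have hcd' : (c d).coeff ≠ 0 := fun h => hcd (AddMonoidAlgebra.coeff_eq_zero.1 h)
  obtain ⟨G, hG⟩ : ∃ G : MvPolynomial (Fin m ⊕ Fin 2) k, G = MvPolynomial.X (Sum.inr 1) *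
    MvPolynomial.rename Sum.inl qd * ∏ ξ ∈ pi, ∏ P ∈ Zx ξ, Gp ξ P := ⟨_, rfl⟩
  -- the constants
  obtain ⟨sz, hsz⟩ : ∃ sz : Pl k → Multiset (AddMonoidAlgebra K (Fin m → ℤ)) → ℕ → ℝ,
    ∀ v P i, sz v P i = ∑ a ∈ (((Phi c d).map (inc m (algebraMap k K) E) -
      (P.map fun p => X - C p).prod).coeff i).coeff.support,
      fa v ((((Phi c d).map (inc m (algebraMap k K) E) -
        (P.map fun p => X - C p).prod).coeff i).coeff a) := ⟨_, fun _ _ _ => rfl⟩
  have hsz0 : ∀ v P i, 0 ≤ sz v P i := fun v P i => by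
    rw [hsz]
    exact Finset.sum_nonneg fun _ _ => (fa v).nonneg _
  obtain ⟨A, hA⟩ : ∃ A : ℝ, A = ∑ v ∈ Sp S, ∑ P ∈ Ps, ∑ i ∈ Finset.range (d + 1), sz v P i :=
    ⟨_, rfl⟩
  have hA0 : 0 ≤ A := by
    rw [hA]
    exact Finset.sum_nonneg fun _ _ => Finset.sum_nonneg fun _ _ =>
      Finset.sum_nonneg fun _ _ => hsz0 _ _ _
  have hAle : ∀ v ∈ Sp S, ∀ P ∈ Ps, ∀ i < d + 1, sz v P i ≤ A := by
    intro v hv P hP i hi
    have h1 : sz v P i ≤ ∑ i ∈ Finset.range (d + 1), sz v P i :=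
      Finset.single_le_sum (f := fun i => sz v P i) (fun _ _ => hsz0 _ _ _) (Finset.mem_range.2 hi)
    have h2 : ∑ i ∈ Finset.range (d + 1), sz v P i ≤
        ∑ P ∈ Ps, ∑ i ∈ Finset.range (d + 1), sz v P i :=
      Finset.single_le_sum (f := fun P => ∑ i ∈ Finset.range (d + 1), sz v P i)
        (fun _ _ => Finset.sum_nonneg fun _ _ => hsz0 _ _ _) hP
    have h3 : ∑ P ∈ Ps, ∑ i ∈ Finset.range (d + 1), sz v P i ≤ A := by
      rw [hA]
      exact Finset.single_le_sum (f := fun v => ∑ P ∈ Ps, ∑ i ∈ Finset.range (d + 1), sz v P i)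
        (fun _ _ => Finset.sum_nonneg fun _ _ => Finset.sum_nonneg fun _ _ => hsz0 _ _ _) hv
    exact h1.trans (h2.trans h3)
  obtain ⟨T₀, hT₀1, hsm⟩ := hL A
  obtain ⟨T₁, hT₁⟩ := hZ
  obtain ⟨Cm, hCm0, hCm⟩ : ∃ Cm : ℝ, 0 ≤ Cm ∧ ∀ ξ ∈ pi, |Cx ξ| ≤ Cm :=
    ⟨∑ ξ ∈ pi, |Cx ξ|, Finset.sum_nonneg fun _ _ => abs_nonneg _, fun ξ hξ =>
      Finset.single_le_sum (f := fun ξ => |Cx ξ|) (fun _ _ => abs_nonneg _) hξ⟩
  obtain ⟨Ch, hCh0, hCh⟩ : ∃ Ch : ℝ, 0 ≤ Ch ∧ ∀ ξ ∈ pi, hs ξ ≤ Ch :=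
    ⟨∑ ξ ∈ pi, hs ξ, Finset.sum_nonneg fun _ _ => hs_nonneg _, fun ξ hξ =>
      Finset.single_le_sum (f := fun ξ => hs ξ) (fun _ _ => hs_nonneg _) hξ⟩
  obtain ⟨ws, hws⟩ : ∃ ws : ℝ, ws = wS S := ⟨_, rfl⟩
  refine ⟨G, Cm + ε * Ch + (d + 5) * Real.log 2 * ws, max T₀ T₁, ?_, fun T hT => ?_⟩
  · rw [hG]
    refine mul_ne_zero (mul_ne_zero (MvPolynomial.X_ne_zero _) ?_) ?_
    · intro h0
      apply hqd0 hcd'
      apply MvPolynomial.rename_injective (Sum.inl : Fin m → Fin m ⊕ Fin 2) Sum.inl_injective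
      rw [h0, map_zero]
    · exact Finset.prod_ne_zero_iff.2 fun ξ hξ => Finset.prod_ne_zero_iff.2 fun P hP =>
        (hGp ξ P hξ hP).1
  have hTT₀ : T₀ ≤ T := (le_max_left _ _).trans hT
  have hT1 : 1 ≤ T := hT₀1.trans hTT₀
  have hT0 : 0 < T := by linarith
  refine le_trans ?_ (hT₁ T ((le_max_right _ _).trans hT))
  rw [Nat.cast_le]
  refine Set.ncard_le_ncard ?_ (bd_finite S Z T)
  rintro u ⟨huB, t, hGe, hF, htB, x, hx, hlt⟩
  refine ⟨huB, ?_⟩
  by_contra hcon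
  push Not at hcon
  have huU := mem_Bx.1 huB
  have hu0 : ∀ i, u i ≠ 0 := fun i => (huU i).1.1
  -- the classes
  have hcl := fun i => hΞr (u i) (huU i).1
  choose ξ hξ w hwU hw using hcl
  have hξpi : ξ ∈ pi := by
    rw [hpi]
    exact Fintype.mem_piFinset.2 hξ
  have hw0 : ∀ i, w i ≠ 0 := fun i => (hwU i).1
  obtain ⟨x', hx'⟩ : ∃ x' : Fin m → K, x' = rw' (fun i => rr (ξ i)) w := ⟨_, rfl⟩
  have hx'0 : ∀ i, x' i ≠ 0 := fun i => by
    rw [hx']
    exact mul_ne_zero (hrr0 _ (hξ i)) ((_root_.map_ne_zero _).2 (hw0 i))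
  have hx'E : ∀ i, x' i ^ E = algebraMap k K (u i) := fun i => by
    rw [hx']
    show (rr (ξ i) * algebraMap k K (w i)) ^ E = _
    rw [mul_pow, hrrE _ (hξ i), ← map_pow, ← map_mul, ← hw i]
  -- the nonvanishing
  rw [hG, map_mul, map_mul, map_prod] at hGe
  have ht1 : t 1 ≠ 0 := by
    intro h0
    apply hGe
    rw [MvPolynomial.eval_X]
    show t 1 * _ * _ = 0
    rw [h0, zero_mul, zero_mul]
  have hcdu : ev (c d).coeff u ≠ 0 := by
    intro h0
    apply hGe
    rw [MvPolynomial.eval_rename]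
    have h1 : (Sum.elim u t : Fin m ⊕ Fin 2 → k) ∘ Sum.inl = u := rfl
    rw [h1, hqd u hu0, h0, mul_zero, mul_zero, zero_mul]
  have hprod : ∀ P ∈ Zx ξ, lv P (ku K w) (ku K t) ≠ 0 := by
    intro P hP
    refine (hGp ξ P hξpi hP).2 u w t hw ?_
    intro h0
    apply hGe
    have h1 : ∏ ξ ∈ pi, MvPolynomial.eval (Sum.elim u t) (∏ P ∈ Zx ξ, Gp ξ P) = 0 := by
      refine Finset.prod_eq_zero hξpi ?_
      rw [map_prod]
      exact Finset.prod_eq_zero hP h0
    rw [h1, mul_zero]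
  have ht : t ≠ 0 := fun h => ht1 (by rw [h, Pi.zero_apply])
  have hcKu : ev cK x' = algebraMap k K (ev (c d).coeff u) := by
    have h1 := congrArg (fun g => g (c d)) (evh_inc (algebraMap k K) hx'0 hu0 hx'E)
    simp only [RingHom.comp_apply] at h1
    rw [evh_apply, evh_apply] at h1
    rw [hcK]
    exact h1
  have hnev : hv d (Phi (fun i => ev (c i).coeff u) d) (ev (c d).coeff u * t 0) (t 1) ≠ 0 := by
    intro h0
    have h1 := hv_Phi (fun i => ev (c i).coeff u) d (t 0) (t 1)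
    rw [h0, mul_zero] at h1
    rcases mul_eq_zero.1 h1.symm with h2 | h2
    · exact pow_ne_zero _ hcdu h2
    · exact hF h2
  have hhu : hs u ≤ m * T := by
    unfold hs
    refine (Finset.sum_le_sum fun i _ => (huU i).2).trans ?_
    rw [Finset.sum_const, Finset.card_univ, Fintype.card_fin, nsmul_eq_mul]
  -- the local choice
  have hJ : ∀ v : Pl k, ∃ J : Option els, v ∈ Sp S → x v ≤ (d + 5) * Real.log 2 +
      tm (fa v) (av v) (ev cK x') (J.map fun p => ev p.1 x') t := by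
    intro v
    by_cases hvS : v ∈ Sp S
    · obtain ⟨Λ, hΛ, κ, ww, y, hww, hy, hroot, hxv⟩ := hx v hvS
      have hlog2 : 0 ≤ (d + 5) * Real.log 2 := by
        have : 0 ≤ Real.log 2 := Real.log_nonneg (by norm_num)
        positivity
      by_cases hy1 : y 1 = 0
      · refine ⟨none, fun _ => ?_⟩
        have hy0 : y 0 ≠ 0 := by
          intro h0
          apply hy
          funext i
          fin_cases i
          · exact h0
          · exact hy1
        have h1 : nrm ww y = ww (y 0) := by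
          rw [nrm2, hy1, map_zero, max_eq_left (ww.nonneg _)]
        have h2 : ww (κ (t 0) * y 1 - κ (t 1) * y 0) = av v (t 1) * ww (y 0) := by
          rw [hy1, mul_zero, zero_sub, ww.map_neg, map_mul, hww]
        rw [hxv, h1, h2, Real.log_mul ((av v).pos ht1).ne' (ww.pos hy0).ne']
        show _ ≤ (d + 5) * Real.log 2 + (Real.log (nrm (av v) t) - Real.log (av v (t 1)))
        linarith
      · have hroot' : fvl κ c d u y = 0 := hroot.resolve_left hy1
        have hθ := hcon v hvS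
        obtain ⟨P, hP, hsupp⟩ := happ _ (dir_mem hT0 huB hvS) hθ
        have hτ : ∀ i, fa v (evh x' hx'0 (((Phi c d).map (inc m (algebraMap k K) E) -
            (P.map fun p => X - C p).prod).coeff i)) ≤ A * Real.exp (-L * T) := by
          intro i
          refine (evh_le (fa v) x' hx'0 _ (b := -L * T) ?_).trans ?_
          · intro a ha
            have h1 := hsupp i a ha
            rw [dr_dv, dt_div] at h1
            have h2 : (E : ℝ) * Real.log (fa v (mono x' a)) = dt (dir u v) a := by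
              have h3 : mono x' a ^ E = algebraMap k K (mono u a) := by
                rw [map_mono]
                unfold mono
                rw [← Finset.prod_pow]
                refine Finset.prod_congr rfl fun i _ => ?_
                show (x' i ^ a i) ^ E = algebraMap k K (u i) ^ a i
                rw [← hx'E, ← zpow_natCast (x' i ^ a i), ← zpow_mul, mul_comm, zpow_mul,
                  zpow_natCast]
              rw [← log_av_mono hu0, ← hfe, ← h3, map_pow, Real.log_pow]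
            have hE' : (0 : ℝ) < E := by exact_mod_cast hE0
            rw [← h2] at h1
            have h4 : (E : ℝ) * Real.log (fa v (mono x' a)) / T / E =
                Real.log (fa v (mono x' a)) / T := by
              field_simp
            rw [h4, div_le_iff₀ hT0] at h1
            exact h1
          · refine mul_le_mul_of_nonneg_right ?_ (Real.exp_pos _).le
            rw [← hsz]
            by_cases hi : i < d + 1
            · exact hAle v hvS P hP i hi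
            · have h0 : ((Phi c d).map (inc m (algebraMap k K) E) -
                  (P.map fun p => X - C p).prod).coeff i = 0 := by
                apply coeff_eq_zero_of_natDegree_lt
                refine (natDegree_sub_le _ _).trans_lt (max_lt ?_ ?_)
                · refine natDegree_map_le.trans_lt ?_
                  rw [natDegree_Phi]
                  omega
                · rw [natDegree_multiset_prod_X_sub_C_eq_card, hcard P hP]
                  omega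
              rw [hsz, h0]
              simp only [AddMonoidAlgebra.coeff_zero, Finsupp.support_zero, Finset.sum_empty]
              exact hA0
        obtain ⟨p, hp, hle⟩ := loc1 (hfe v) c hu0 hx'0 hx'E (hcard P hP) hτ hcdu ht hF
          (hsm T hTT₀ u t hu0 hhu htB ht1 hnev v hvS) hww hy hroot'
        refine ⟨some ⟨p.coeff, hmem P hP p hp⟩, fun _ => ?_⟩
        rw [hxv, hcKu]
        rw [evh_apply] at hle
        exact hle
    · exact ⟨none, fun h => absurd h hvS⟩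
  choose J hJ using hJ
  have hfin := hmain ξ w t hwU ht hprod (by
    rw [← hx', hcKu]
    exact (_root_.map_ne_zero _).2 hcdu) J
  rw [← hx'] at hfin
  have hsum : ∑ v ∈ Sp S, wt v * x v ≤ (d + 5) * Real.log 2 * ws + ∑ v ∈ Sp S, wt v *
      tm (fa v) (av v) (ev cK x') ((J v).map fun p => ev p.1 x') t := by
    rw [hws]
    unfold wS
    rw [Finset.mul_sum, ← Finset.sum_add_distrib]
    refine Finset.sum_le_sum fun v hv => ?_
    have h2 := mul_le_mul_of_nonneg_left (hJ v hv) (wt_nonneg v)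
    rw [mul_add] at h2
    linarith
  have hhw : hs w ≤ hs u + hs ξ := by
    unfold hs
    rw [← Finset.sum_add_distrib]
    refine Finset.sum_le_sum fun i _ => ?_
    have h1 : w i ^ E = u i * (ξ i)⁻¹ := by
      rw [hw i]
      have := (hΞU _ (hξ i)).1
      field_simp
    have h2 : (E : ℝ) * logHeight₁ (w i) = logHeight₁ (u i * (ξ i)⁻¹) := by
      rw [← h1, logHeight₁_pow]
    have h3 := logHeight₁_mul_le (u i) (ξ i)⁻¹
    rw [logHeight₁_inv] at h3
    have h4 : logHeight₁ (w i) ≤ (E : ℝ) * logHeight₁ (w i) := by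
      refine le_mul_of_one_le_left (zero_le_logHeight₁ _) ?_
      exact_mod_cast hE0
    linarith
  have hξh := hCh ξ hξpi
  have hξc := (le_abs_self _).trans (hCm ξ hξpi)
  have h5 : ε * hs w ≤ ε * hs u + ε * Ch := by
    rw [← mul_add]
    exact mul_le_mul_of_nonneg_left (by linarith) hε.le
  linarith

end Pool.Agent.Run7.h489.PX
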