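import Mathlib
import Pool.Agent.Run7.h489.PX.Main
import Pool.Agent.Run7.h489.NF.Base

set_option autoImplicit false
set_option linter.unusedSectionVars false

/-!
Forms over Laurent polynomials, homogeneous exceptional sets.
-/

namespace Pool.Agent.Run7.h489.PX

open Height NumberField IsDedekindDomain Polynomial
open Pool.Agent.W180.OP (Pl av wt fv nrm wt_nonneg le_nrm exists_nrm nrm_pos)
open Pool.Agent.R404.TC (Sp)
open Pool.Agent.Run7.h489.LV (IsU IsI mem_Sp_inl mem_Sp_inr)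
open Pool.Agent.Run7.h489.TM

section

variable {k : Type} [Field k] {m : ℕ}

/-- the exponent of `x^i y^(N-i)` -/
noncomputable def ex2 (N i : ℕ) : Fin 2 →₀ ℕ := Finsupp.single 0 i + Finsupp.single 1 (N - i)

theorem ex2_zero (N i : ℕ) : ex2 N i 0 = i := by
  unfold ex2
  rw [Finsupp.add_apply, Finsupp.single_eq_same, Finsupp.single_eq_of_ne (by decide), add_zero]

theorem ex2_one (N i : ℕ) : ex2 N i 1 = N - i := by
  unfold ex2
  rw [Finsupp.add_apply, Finsupp.single_eq_same, Finsupp.single_eq_of_ne (by decide), zero_add]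

/-- the value of a form in two variables -/
theorem eval_form {Λ : Type} [Field Λ] (κ : k →+* Λ) {P : MvPolynomial (Fin 2) k} {N : ℕ}
    (hP : P.IsHomogeneous N) (y : Fin 2 → Λ) :
    MvPolynomial.eval₂ κ y P =
      ∑ i ∈ Finset.range (N + 1), κ (P.coeff (ex2 N i)) * (y 0 ^ i * y 1 ^ (N - i)) := by
  classical
  rw [MvPolynomial.eval₂_eq']
  have hdeg : ∀ s ∈ P.support, s 0 + s 1 = N := by
    intro s hs
    have h2 := hP (MvPolynomial.mem_support_iff.1 hs)
    rw [Finsupp.weight_apply, Finsupp.sum_fintype _ _ (fun i => by simp)] at h2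
    simpa [Fin.sum_univ_two] using h2
  have hse : ∀ s ∈ P.support, s = ex2 N (s 0) := by
    intro s hs
    ext i
    fin_cases i
    · exact (ex2_zero N (s 0)).symm
    · have h1 := ex2_one N (s 0)
      have h2 := hdeg s hs
      show s 1 = ex2 N (s 0) 1
      omega
  refine Finset.sum_bij_ne_zero (fun s _ _ => s 0) ?_ ?_ ?_ ?_
  · intro s hs _
    have := hdeg s hs
    exact Finset.mem_range.2 (by omega)
  · intro s hs _ s' hs' _ h
    rw [hse s hs, hse s' hs', h]
  · intro i hi hne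
    have h1 : P.coeff (ex2 N i) ≠ 0 := by
      intro h0
      rw [h0, map_zero, zero_mul] at hne
      exact hne rfl
    refine ⟨ex2 N i, MvPolynomial.mem_support_iff.2 h1, ?_, ex2_zero N i⟩
    rw [Fin.prod_univ_two, ex2_zero, ex2_one]
    exact hne
  · intro s hs _
    rw [Fin.prod_univ_two, ← hse s hs]
    have := hdeg s hs
    have h1 : N - s 0 = s 1 := by omega
    rw [h1]

/-- the fibre form -/
noncomputable def fb (R : (Fin m → ℤ) →₀ MvPolynomial (Fin 2) k) (u : Fin m → k) :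
    MvPolynomial (Fin 2) k := ∑ a ∈ R.support, MvPolynomial.C (mono u a) * R a

/-- the coefficient of `x^i y^(N-i)` -/
noncomputable def cf (R : (Fin m → ℤ) →₀ MvPolynomial (Fin 2) k) (N i : ℕ) :
    AddMonoidAlgebra k (Fin m → ℤ) :=
  AddMonoidAlgebra.ofCoeff (R.mapRange (fun P => P.coeff (ex2 N i)) (MvPolynomial.coeff_zero _))

theorem ev_cf (R : (Fin m → ℤ) →₀ MvPolynomial (Fin 2) k) (N i : ℕ) (u : Fin m → k) :
    ev (cf R N i).coeff u = (fb R u).coeff (ex2 N i) := by
  unfold cf fb ev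
  rw [AddMonoidAlgebra.coeff_ofCoeff, Finsupp.sum_mapRange_index (fun a => zero_mul _),
    MvPolynomial.coeff_sum]
  unfold Finsupp.sum
  refine Finset.sum_congr rfl fun a _ => ?_
  rw [MvPolynomial.coeff_C_mul]
  ring

theorem fb_hom {R : (Fin m → ℤ) →₀ MvPolynomial (Fin 2) k} {N : ℕ}
    (hR : ∀ a, (R a).IsHomogeneous N) (u : Fin m → k) : (fb R u).IsHomogeneous N := by
  unfold fb
  refine MvPolynomial.IsHomogeneous.sum _ _ _ fun a _ => ?_
  have h := (MvPolynomial.isHomogeneous_C (Fin 2) (mono u a)).mul (hR a)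
  rwa [zero_add] at h

theorem eval_fb {Λ : Type} [Field Λ] (κ : k →+* Λ) {R : (Fin m → ℤ) →₀ MvPolynomial (Fin 2) k}
    {N : ℕ} (hR : ∀ a, (R a).IsHomogeneous N) (u : Fin m → k) (y : Fin 2 → Λ) :
    MvPolynomial.eval y (MvPolynomial.map κ (fb R u)) =
      ∑ i ∈ Finset.range (N + 1), κ (ev (cf R N i).coeff u) * (y 0 ^ i * y 1 ^ (N - i)) := by
  rw [MvPolynomial.eval_map, eval_form κ (fb_hom hR u)]
  exact Finset.sum_congr rfl fun i _ => by rw [ev_cf]

theorem exists_top {R : (Fin m → ℤ) →₀ MvPolynomial (Fin 2) k} {N : ℕ}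
    (hR : ∀ a, (R a).IsHomogeneous N) (hR0 : R ≠ 0) :
    ∃ d ≤ N, cf R N d ≠ 0 ∧ ∀ i, d < i → i ≤ N → cf R N i = 0 := by
  classical
  obtain ⟨a, ha⟩ := Finsupp.support_nonempty_iff.2 hR0
  have ha' : R a ≠ 0 := Finsupp.mem_support_iff.1 ha
  have hne : ∃ i ≤ N, cf R N i ≠ 0 := by
    obtain ⟨s, hs⟩ := MvPolynomial.ne_zero_iff.1 ha'
    have h2 := hR a hs
    rw [Finsupp.weight_apply, Finsupp.sum_fintype _ _ (fun i => by simp)] at h2
    have h3 : s 0 + s 1 = N := by simpa [Fin.sum_univ_two] using h2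
    refine ⟨s 0, by omega, fun h0 => hs ?_⟩
    have h4 : s = ex2 N (s 0) := by
      ext i
      fin_cases i
      · exact (ex2_zero N (s 0)).symm
      · have h1 := ex2_one N (s 0)
        show s 1 = ex2 N (s 0) 1
        omega
    have h5 : (cf R N (s 0)).coeff a = 0 := by
      rw [h0]
      rfl
    unfold cf at h5
    rw [AddMonoidAlgebra.coeff_ofCoeff, Finsupp.mapRange_apply, ← h4] at h5
    exact h5
  obtain ⟨i0, hi0, hi1⟩ := hne
  refine ⟨Nat.findGreatest (fun i => cf R N i ≠ 0) N, Nat.findGreatest_le N,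
    Nat.findGreatest_spec (P := fun i => cf R N i ≠ 0) hi0 hi1, fun i h1 h2 => ?_⟩
  by_contra h3
  exact Nat.findGreatest_is_greatest h1 h2 h3

theorem eval_fvl {Λ : Type} [Field Λ] (κ : k →+* Λ) {R : (Fin m → ℤ) →₀ MvPolynomial (Fin 2) k}
    {N d : ℕ} (hR : ∀ a, (R a).IsHomogeneous N) (hd : d ≤ N)
    (h0 : ∀ i, d < i → i ≤ N → cf R N i = 0) (u : Fin m → k) (y : Fin 2 → Λ) :
    MvPolynomial.eval y (MvPolynomial.map κ (fb R u)) =
      y 1 ^ (N - d) * fvl κ (cf R N) d u y := by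
  rw [eval_fb κ hR]
  unfold fvl
  rw [Finset.mul_sum]
  symm
  refine Finset.sum_subset_zero_on_sdiff (Finset.range_mono (by omega)) ?_ ?_
  · intro i hi
    obtain ⟨h1, h2⟩ := Finset.mem_sdiff.1 hi
    rw [h0 i (by rw [Finset.mem_range] at h2; omega) (by rw [Finset.mem_range] at h1; omega),
      AddMonoidAlgebra.coeff_zero, ev_zero, map_zero, zero_mul]
  · intro i hi
    rw [Finset.mem_range] at hi
    have h1 : N - i = (N - d) + (d - i) := by omega
    rw [h1, pow_add]
    ring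

/-- the weights for the degree with respect to `t` -/
def wgt (m : ℕ) : Fin m ⊕ Fin 2 → ℕ := Sum.elim (fun _ => 0) fun _ => 1

/-- the restriction of `G` to a line through the origin -/
noncomputable def ray (G : MvPolynomial (Fin m ⊕ Fin 2) k) (u : Fin m → k) (t : Fin 2 → k) : k[X] :=
  MvPolynomial.aeval (Sum.elim (fun i => C (u i)) fun i => C (t i) * X) G

theorem ray_eval (G : MvPolynomial (Fin m ⊕ Fin 2) k) (u : Fin m → k) (t : Fin 2 → k) (c : k) :
    (ray G u t).eval c = MvPolynomial.eval (Sum.elim u (c • t)) G := by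
  unfold ray
  induction G using MvPolynomial.induction_on with
  | C a => simp
  | add P Q hP hQ => rw [map_add, eval_add, hP, hQ, map_add]
  | mul_X P i hP =>
    rw [map_mul, eval_mul, hP, map_mul, MvPolynomial.aeval_X, MvPolynomial.eval_X]
    congr 1
    rcases i with i | i
    · show (C (u i)).eval c = u i
      rw [eval_C]
    · show (C (t i) * X).eval c = c * t i
      rw [eval_mul, eval_C, eval_X, mul_comm]

theorem ray_coeff (G : MvPolynomial (Fin m ⊕ Fin 2) k) (u : Fin m → k) (t : Fin 2 → k) (e : ℕ) :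
    (ray G u t).coeff e = MvPolynomial.eval (Sum.elim u t)
      (MvPolynomial.weightedHomogeneousComponent (wgt m) e G) := by
  have h : (Polynomial.lcoeff k e) ∘ₗ (MvPolynomial.aeval (Sum.elim (fun i => C (u i))
      fun i => C (t i) * X) : MvPolynomial (Fin m ⊕ Fin 2) k →ₐ[k] k[X]).toLinearMap =
      (MvPolynomial.aeval (Sum.elim u t) : MvPolynomial (Fin m ⊕ Fin 2) k →ₐ[k] k).toLinearMap ∘ₗ
        MvPolynomial.weightedHomogeneousComponent (wgt m) e := by
    refine MvPolynomial.linearMap_ext fun s => LinearMap.ext fun a => ?_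
    simp only [LinearMap.comp_apply, AlgHom.toLinearMap_apply, Polynomial.lcoeff_apply]
    rw [MvPolynomial.aeval_monomial, Finsupp.prod_fintype _ _ (fun i => pow_zero _),
      Fintype.prod_sum_type]
    simp only [Sum.elim_inl, Sum.elim_inr, mul_pow, Finset.prod_mul_distrib, Finset.prod_pow_eq_pow_sum]
    have hw : Finsupp.weight (wgt m) s = ∑ i, s (Sum.inr i) := by
      rw [Finsupp.weight_apply, Finsupp.sum_fintype _ _ (fun i => by simp), Fintype.sum_sum_type]
      simp [wgt]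
    have h1 : algebraMap k k[X] a * ((∏ i, C (u i) ^ s (Sum.inl i)) *
        ((∏ i, C (t i) ^ s (Sum.inr i)) * X ^ ∑ i, s (Sum.inr i))) =
        C (a * ((∏ i, u i ^ s (Sum.inl i)) * ∏ i, t i ^ s (Sum.inr i))) *
          X ^ ∑ i, s (Sum.inr i) := by
      rw [map_mul, map_mul, map_prod, map_prod]
      simp only [map_pow]
      rw [← Polynomial.C_eq_algebraMap]
      ring
    rw [h1, Polynomial.coeff_C_mul_X_pow]
    by_cases he : e = ∑ i, s (Sum.inr i)
    · have h2 : MvPolynomial.weightedHomogeneousComponent (wgt m) e (MvPolynomial.monomial s a) =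
          MvPolynomial.monomial s a := by
        rw [MvPolynomial.weightedHomogeneousComponent_of_mem (n := e), if_pos rfl]
        rw [MvPolynomial.mem_weightedHomogeneousSubmodule, he, ← hw]
        exact MvPolynomial.isWeightedHomogeneous_monomial _ _ _ rfl
      rw [h2, if_pos he, MvPolynomial.aeval_monomial, Finsupp.prod_fintype _ _ (fun i => pow_zero _),
        Fintype.prod_sum_type]
      rfl
    · have h2 : MvPolynomial.weightedHomogeneousComponent (wgt m) e (MvPolynomial.monomial s a) =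
          0 := by
        rw [MvPolynomial.weightedHomogeneousComponent_of_mem (n := Finsupp.weight (wgt m) s),
          if_neg (by rw [hw]; exact he)]
        rw [MvPolynomial.mem_weightedHomogeneousSubmodule]
        exact MvPolynomial.isWeightedHomogeneous_monomial _ _ _ rfl
      rw [h2, map_zero, if_neg he]
  have h1 := congrArg (fun φ => φ G) h
  exact h1

theorem exists_comp {G : MvPolynomial (Fin m ⊕ Fin 2) k} (hG : G ≠ 0) :
    ∃ e, MvPolynomial.weightedHomogeneousComponent (wgt m) e G ≠ 0 := by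
  by_contra h
  push Not at h
  apply hG
  rw [← MvPolynomial.sum_weightedHomogeneousComponent (wgt m) G]
  simp only [h]
  exact finsum_zero

/-- parallel vectors -/
theorem par {Λ : Type} [Field Λ] {t y : Fin 2 → Λ} (ht : t ≠ 0) (hy : y ≠ 0)
    (h : t 0 * y 1 - t 1 * y 0 = 0) : ∃ c : Λ, c ≠ 0 ∧ y = c • t := by
  have h' : t 0 * y 1 = t 1 * y 0 := sub_eq_zero.1 h
  by_cases h0 : t 0 = 0
  · have h1 : t 1 ≠ 0 := by
      intro h1
      apply ht
      funext i
      fin_cases i
      · exact h0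
      · exact h1
    have h2 : y 0 = 0 := by
      rw [h0, zero_mul] at h'
      exact (mul_eq_zero.1 h'.symm).resolve_left h1
    have h3 : y 1 ≠ 0 := by
      intro h3
      apply hy
      funext i
      fin_cases i
      · exact h2
      · exact h3
    refine ⟨y 1 / t 1, div_ne_zero h3 h1, ?_⟩
    funext i
    fin_cases i
    · show y 0 = y 1 / t 1 * t 0
      rw [h2, h0, mul_zero]
    · show y 1 = y 1 / t 1 * t 1
      field_simp
  · have h2 : y 0 ≠ 0 := by
      intro h2
      rw [h2, mul_zero] at h'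
      have h3 := (mul_eq_zero.1 h').resolve_left h0
      apply hy
      funext i
      fin_cases i
      · exact h2
      · exact h3
    refine ⟨y 0 / t 0, div_ne_zero h2 h0, ?_⟩
    funext i
    fin_cases i
    · show y 0 = y 0 / t 0 * t 0
      field_simp
    · show y 1 = y 0 / t 0 * t 1
      field_simp
      rw [mul_comm (y 1)]
      rw [h']
      ring

theorem eval_hom {F : Type} [Field F] {n : ℕ} {P : MvPolynomial (Fin n) F} {N : ℕ}
    (hP : P.IsHomogeneous N) (c : F) (x : Fin n → F) :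
    MvPolynomial.eval (c • x) P = c ^ N * MvPolynomial.eval x P := by
  rw [MvPolynomial.eval_eq', MvPolynomial.eval_eq', Finset.mul_sum]
  refine Finset.sum_congr rfl fun s hs => ?_
  have h1 : ∏ i, (c • x) i ^ s i = c ^ N * ∏ i, x i ^ s i := by
    have h2 : ∑ i, s i = N := by
      have h2 := hP (MvPolynomial.mem_support_iff.1 hs)
      rw [Finsupp.weight_apply, Finsupp.sum_fintype _ _ (fun i => by simp)] at h2
      simpa using h2
    rw [← h2, ← Finset.prod_pow_eq_pow_sum, ← Finset.prod_mul_distrib]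
    refine Finset.prod_congr rfl fun i _ => ?_
    rw [Pi.smul_apply, smul_eq_mul, mul_pow]
  rw [h1]
  ring

theorem wedge_ne {Λ : Type} [Field Λ] (κ : k →+* Λ) {P : MvPolynomial (Fin 2) k} {N : ℕ}
    (hP : P.IsHomogeneous N) {t : Fin 2 → k} (ht : t ≠ 0) {y : Fin 2 → Λ} (hy : y ≠ 0)
    (h1 : MvPolynomial.eval t P ≠ 0) (h2 : MvPolynomial.eval y (MvPolynomial.map κ P) = 0) :
    κ (t 0) * y 1 - κ (t 1) * y 0 ≠ 0 := by
  intro h0
  have ht' : (fun i => κ (t i)) ≠ 0 := by
    intro h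
    apply ht
    funext i
    exact (map_eq_zero κ).1 (congrFun h i)
  obtain ⟨c, hc, rfl⟩ := par (t := fun i => κ (t i)) ht' hy h0
  rw [eval_hom (hP.map κ), MvPolynomial.eval_map] at h2
  have h3 : MvPolynomial.eval₂ κ (fun i => κ (t i)) P = κ (MvPolynomial.eval t P) :=
    (MvPolynomial.eval₂_comp κ t P).symm
  rw [h3] at h2
  rcases mul_eq_zero.1 h2 with h4 | h4
  · exact pow_ne_zero _ hc h4
  · exact h1 ((map_eq_zero κ).1 h4)

/-- `x` is the local height of `t` with respect to a zero of the form in the fibre -/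
def LR (R : (Fin m → ℤ) →₀ MvPolynomial (Fin 2) k) (f : AbsoluteValue k ℝ) (u : Fin m → k)
    (t : Fin 2 → k) (x : ℝ) : Prop :=
  ∃ (Λ : Type) (_ : Field Λ) (κ : k →+* Λ) (w : AbsoluteValue Λ ℝ) (y : Fin 2 → Λ),
    (∀ z, w (κ z) = f z) ∧ y ≠ 0 ∧ MvPolynomial.eval y (MvPolynomial.map κ (fb R u)) = 0 ∧
      x = Real.log (nrm f t) + Real.log (nrm w y) -
        Real.log (w (κ (t 0) * y 1 - κ (t 1) * y 0))

theorem LR.toLV {R : (Fin m → ℤ) →₀ MvPolynomial (Fin 2) k} {N d : ℕ}
    (hR : ∀ a, (R a).IsHomogeneous N) (hd : d ≤ N) (h0 : ∀ i, d < i → i ≤ N → cf R N i = 0)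
    {f : AbsoluteValue k ℝ} {u : Fin m → k} {t : Fin 2 → k} (ht : t ≠ 0)
    (hF : MvPolynomial.eval t (fb R u) ≠ 0) {c : k} (hc : c ≠ 0) {x : ℝ} (h : LR R f u t x) :
    LV (cf R N) d f u (c • t) x := by
  obtain ⟨Λ, hΛ, κ, w, y, hw, hy, hroot, hx⟩ := h
  have hne := wedge_ne κ (fb_hom hR u) ht hy hF hroot
  refine ⟨Λ, hΛ, κ, w, y, hw, hy, ?_, ?_⟩
  · rw [eval_fvl κ hR hd h0] at hroot
    rcases mul_eq_zero.1 hroot with h1 | h1
    · left
      by_contra h2
      exact pow_ne_zero _ h2 h1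
    · exact Or.inr h1
  · have h1 : κ ((c • t) 0) * y 1 - κ ((c • t) 1) * y 0 =
        κ c * (κ (t 0) * y 1 - κ (t 1) * y 0) := by
      show κ (c * t 0) * y 1 - κ (c * t 1) * y 0 = _
      rw [map_mul, map_mul]
      ring
    rw [h1, map_mul, hw, Pool.Agent.Run7.h489.NF.nrm_smul, Real.log_mul (f.pos hc).ne'
      (nrm_pos f ht).ne', Real.log_mul (f.pos hc).ne' (w.pos hne).ne', hx]
    ring

end

section

variable {k : Type} [Field k] [NumberField k] {m : ℕ}

theorem px2 (S : Finset (HeightOneSpectrum (𝓞 k))) (hS : 2 ≤ (Sp S).card)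
    {R : (Fin m → ℤ) →₀ MvPolynomial (Fin 2) k} {N : ℕ} (hR : ∀ a, (R a).IsHomogeneous N)
    (hR0 : R ≠ 0) {ε η B : ℝ} (hε : 0 < ε) (hη : 0 < η) (hB : 0 ≤ B) :
    ∃ (G : MvPolynomial (Fin m ⊕ Fin 2) k) (e : ℕ) (C T₀ : ℝ), G ≠ 0 ∧
      MvPolynomial.IsWeightedHomogeneous (wgt m) G e ∧ ∀ T : ℝ, T₀ ≤ T →
      (({u | u ∈ Bx m S T ∧ ∃ t : Fin 2 → k, t ≠ 0 ∧ MvPolynomial.eval (Sum.elim u t) G ≠ 0 ∧
        MvPolynomial.eval t (fb R u) ≠ 0 ∧ logHeight t ≤ B * T ∧
        ∃ x : Pl k → ℝ, (∀ v ∈ Sp S, LR R (av v) u t (x v)) ∧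
          (2 + ε) * logHeight t + ε * hs u + C < ∑ v ∈ Sp S, wt v * x v}.ncard : ℕ) : ℝ) ≤
        η * (UF S T).card ^ m := by
  obtain ⟨d, hd, hcd, h0⟩ := exists_top hR hR0
  obtain ⟨G, C, T₀, hG, hmain⟩ := px S hS (cf R N) d hcd hε hη hB
  obtain ⟨e, he⟩ := exists_comp hG
  refine ⟨MvPolynomial.weightedHomogeneousComponent (wgt m) e G, e, C, T₀, he,
    MvPolynomial.weightedHomogeneousComponent_isWeightedHomogeneous _ _, fun T hT => ?_⟩
  refine le_trans ?_ (hmain T hT)
  rw [Nat.cast_le]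
  refine Set.ncard_le_ncard ?_ ((Bx m S T).finite_toSet.subset fun u hu => hu.1)
  rintro u ⟨huB, t, ht, hGt, hF, hht, x, hx, hlt⟩
  have hray : ray G u t ≠ 0 := by
    intro h1
    apply hGt
    rw [← ray_coeff, h1, Polynomial.coeff_zero]
  obtain ⟨c, hc⟩ : ∃ c : k, (X * ray G u t).eval c ≠ 0 := by
    by_contra hcon
    push Not at hcon
    have h1 : X * ray G u t = 0 := Polynomial.funext fun c => by rw [hcon c, eval_zero]
    rcases mul_eq_zero.1 h1 with h2 | h2
    · exact X_ne_zero h2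
    · exact hray h2
  rw [eval_mul, eval_X, ray_eval] at hc
  have hc0 : c ≠ 0 := left_ne_zero_of_mul hc
  refine ⟨huB, c • t, right_ne_zero_of_mul hc, ?_, ?_, x, fun v hv => ?_, ?_⟩
  · intro h1
    apply hF
    have h2 := eval_fvl (RingHom.id k) hR hd h0 u (c • t)
    rw [h1, mul_zero, MvPolynomial.map_id,
      eval_hom (fb_hom hR u)] at h2
    exact (mul_eq_zero.1 h2).resolve_left (pow_ne_zero _ hc0)
  · rwa [logHeight_smul_eq_logHeight t hc0]
  · exact (hx v hv).toLV hR hd h0 ht hF hc0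
  · rwa [logHeight_smul_eq_logHeight t hc0]

end

end Pool.Agent.Run7.h489.PX
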