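import Mathlib
import Pool.Agent.Run7.h489.PX.Pack
import Pool.Agent.Run7.h489.GF.Base

set_option autoImplicit false
set_option linter.unusedSectionVars false

/-!
The discriminant and the distances to the roots.
-/

namespace Pool.Agent.Run7.h489.PX

open Height NumberField IsDedekindDomain Polynomial
open Pool.Agent.W180.OP (Pl av wt fv nrm wt_nonneg le_nrm exists_nrm nrm_pos)
open Pool.Agent.R404.TC (Sp)
open Pool.Agent.Run7.h489.LV (IsU IsI mem_Sp_inl mem_Sp_inr)
open Pool.Agent.Run7.h489.TM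

section

variable {Λ : Type} [Field Λ]

theorem hv_split {f : Λ[X]} {c : Λ} {s : Multiset Λ}
    (hf : f = C c * (s.map fun r => X - C r).prod) {N : ℕ} (hs : s.card ≤ N) (x y : Λ) :
    hv N f x y = c * (y ^ (N - s.card) * (s.map fun r => x - r * y).prod) := by
  have hm : (s.map fun r => X - C r).prod.Monic := monic_multiset_prod_of_monic _ _ fun r _ =>
    monic_X_sub_C r
  have hd : (s.map fun r => X - C r).prod.natDegree = s.card :=
    natDegree_multiset_prod_X_sub_C_eq_card s
  have hfd : f.natDegree ≤ s.card := by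
    rw [hf, ← hd]
    exact natDegree_C_mul_le _ _
  by_cases hy : y = 0
  · have h1 : hv N f x y = f.coeff N * x ^ N := by
      unfold hv
      rw [Finset.sum_eq_single N]
      · rw [Nat.sub_self, pow_zero, mul_one]
      · intro i hi hne
        rw [Finset.mem_range] at hi
        rw [hy, zero_pow (by omega), mul_zero, mul_zero]
      · intro h
        exact absurd (Finset.mem_range.2 (Nat.lt_succ_self N)) h
    rw [h1, hy]
    rcases hs.lt_or_eq with h2 | h2
    · rw [coeff_eq_zero_of_natDegree_lt (lt_of_le_of_lt hfd h2), zero_pow (by omega)]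
      ring
    · have h3 : f.coeff N = c := by
        rw [hf, coeff_C_mul, ← h2, ← hd, hm.coeff_natDegree, mul_one]
      rw [h3, h2, Nat.sub_self, pow_zero, one_mul]
      simp only [mul_zero, sub_zero]
      rw [Multiset.map_const', Multiset.prod_replicate, h2]
  · have h1 : hv N f x y = y ^ N * f.eval (x / y) := by
      unfold hv
      rw [eval_eq_sum_range' (lt_of_le_of_lt (hfd.trans hs) (Nat.lt_succ_self N)), Finset.mul_sum]
      refine Finset.sum_congr rfl fun i hi => ?_
      rw [Finset.mem_range] at hi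
      have h2 : y ^ N = y ^ (N - i) * y ^ i := by
        rw [← pow_add]
        congr 1
        omega
      rw [h2, div_pow]
      field_simp
    rw [h1, hf, eval_mul, eval_C, eval_multiset_prod, Multiset.map_map]
    have h2 : y ^ N = y ^ (N - s.card) * y ^ s.card := by
      rw [← pow_add]
      congr 1
      omega
    have h3 : (s.map fun r => x - r * y).prod =
        y ^ s.card * (s.map ((eval (x / y)) ∘ fun r => X - C r)).prod := by
      have h4 : y ^ s.card = (s.map fun _ => y).prod := by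
        rw [Multiset.map_const', Multiset.prod_replicate]
      rw [h4, ← Multiset.prod_map_mul]
      congr 1
      refine Multiset.map_congr rfl fun r _ => ?_
      simp only [Function.comp_apply, eval_sub, eval_X, eval_C]
      field_simp
    rw [h3, h2]
    ring

/-- forms in two variables are products of linear forms -/
theorem form_split [IsAlgClosed Λ] {P : MvPolynomial (Fin 2) Λ} {N : ℕ}
    (hP : P.IsHomogeneous N) (hN : 1 ≤ N) : ∃ a b : Fin N → Λ,
      P = ∏ j, (MvPolynomial.C (b j) * MvPolynomial.X 0 -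
        MvPolynomial.C (a j) * MvPolynomial.X 1) := by
  classical
  obtain ⟨f, hf⟩ : ∃ f : Λ[X], f = ∑ i ∈ Finset.range (N + 1),
    Polynomial.monomial i (P.coeff (ex2 N i)) := ⟨_, rfl⟩
  have hfc : ∀ i ≤ N, f.coeff i = P.coeff (ex2 N i) := by
    intro i hi
    rw [hf, finsetSum_coeff, Finset.sum_eq_single i]
    · rw [coeff_monomial, if_pos rfl]
    · intro j _ hj
      rw [coeff_monomial, if_neg hj]
    · intro h
      exact absurd (Finset.mem_range.2 (Nat.lt_succ_of_le hi)) h
  have hfN : f.natDegree ≤ N := by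
    rw [hf]
    refine natDegree_sum_le_of_forall_le _ _ fun i hi => ?_
    rw [Finset.mem_range] at hi
    exact (natDegree_monomial_le _).trans (by omega)
  have hval : ∀ x : Fin 2 → Λ, MvPolynomial.eval x P = hv N f (x 0) (x 1) := by
    intro x
    have h1 := eval_form (RingHom.id Λ) hP x
    have h2 : MvPolynomial.eval₂ (RingHom.id Λ) x P = MvPolynomial.eval x P := rfl
    rw [← h2, h1]
    unfold hv
    refine Finset.sum_congr rfl fun i hi => ?_
    rw [Finset.mem_range] at hi
    rw [hfc i (by omega), RingHom.id_apply]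
  have hspl := IsAlgClosed.splits f
  have hroots := hspl.eq_prod_roots
  obtain ⟨s, hs⟩ : ∃ s : Multiset Λ, s = f.roots := ⟨_, rfl⟩
  rw [← hs] at hroots
  have hsN : s.card ≤ N := by
    rw [hs]
    exact (card_roots' f).trans hfN
  obtain ⟨M, hM⟩ : ∃ M : Multiset (Λ × Λ), M = (s.map fun r => (r, (1 : Λ))) +
    Multiset.replicate (N - s.card) ((-1 : Λ), (0 : Λ)) := ⟨_, rfl⟩
  have hMc : M.card = N := by
    rw [hM, Multiset.card_add, Multiset.card_map, Multiset.card_replicate]
    omega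
  obtain ⟨l, hl⟩ := Quot.exists_rep M
  have hl' : (l : Multiset (Λ × Λ)) = M := hl
  have hlN : l.length = N := by
    rw [← hMc, ← hl', Multiset.coe_card]
  subst hlN
  have hprod : ∀ x : Fin 2 → Λ, ∏ j : Fin l.length, (l[j.1].2 * x 0 - l[j.1].1 * x 1) =
      x 1 ^ (l.length - s.card) * (s.map fun r => x 0 - r * x 1).prod := by
    intro x
    rw [Fin.prod_univ_fun_getElem l fun p => p.2 * x 0 - p.1 * x 1]
    have h1 : (l.map fun p => p.2 * x 0 - p.1 * x 1).prod =
        (M.map fun p => p.2 * x 0 - p.1 * x 1).prod := by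
      rw [← hl', Multiset.map_coe, Multiset.prod_coe]
    rw [h1, hM, Multiset.map_add, Multiset.prod_add, Multiset.map_map, Multiset.map_replicate,
      Multiset.prod_replicate, mul_comm]
    congr 1
    · congr 1
      ring
    · congr 1
      refine Multiset.map_congr rfl fun r _ => ?_
      simp only [Function.comp_apply, one_mul]
  obtain ⟨c, hc⟩ : ∃ c : Λ, c = f.leadingCoeff := ⟨_, rfl⟩
  rw [← hc] at hroots
  obtain ⟨j0, hj0⟩ : ∃ j0 : Fin l.length, j0.1 = 0 := ⟨⟨0, hN⟩, rfl⟩
  refine ⟨fun j => (if j = j0 then c else 1) * l[j.1].1,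
    fun j => (if j = j0 then c else 1) * l[j.1].2, ?_⟩
  refine MvPolynomial.funext fun x => ?_
  rw [hval, hv_split hroots hsN, ← hprod, map_prod]
  have h1 : ∀ j : Fin l.length, MvPolynomial.eval x
      (MvPolynomial.C ((if j = j0 then c else 1) * l[j.1].2) * MvPolynomial.X 0 -
        MvPolynomial.C ((if j = j0 then c else 1) * l[j.1].1) * MvPolynomial.X 1) =
      (if j = j0 then c else 1) * (l[j.1].2 * x 0 - l[j.1].1 * x 1) := by
    intro j
    simp only [map_sub, map_mul, MvPolynomial.eval_C, MvPolynomial.eval_X]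
    ring
  rw [Finset.prod_congr rfl fun j _ => h1 j, Finset.prod_mul_distrib,
    Finset.prod_ite_eq' Finset.univ j0, if_pos (Finset.mem_univ _)]

theorem sum_pairs {n : ℕ} (μ : Fin n → ℝ) :
    ∑ i, ∑ j ∈ Finset.Ioi i, (μ i + μ j) = (n - 1) * ∑ i, μ i := by
  have h1 : ∑ i, ∑ j ∈ Finset.Ioi i, μ j = ∑ j, ∑ _i ∈ Finset.Iio j, μ j := by
    refine Finset.sum_comm' fun i j => ?_
    simp
  simp only [Finset.sum_add_distrib]
  rw [h1]
  simp only [Finset.sum_const, Fin.card_Ioi, Fin.card_Iio, nsmul_eq_mul]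
  rw [← Finset.sum_add_distrib, Finset.mul_sum]
  refine Finset.sum_congr rfl fun i _ => ?_
  have h2 : ((n - 1 - (i : ℕ) : ℕ) : ℝ) = n - 1 - i := by
    have := i.2
    rw [Nat.cast_sub (by omega), Nat.cast_sub (by omega), Nat.cast_one]
  rw [h2]
  ring

/-- the local inequality for one pair -/
theorem pair_le (w : AbsoluteValue Λ ℝ) {t p q : Fin 2 → Λ} (ht : t ≠ 0) (hp : p ≠ 0) (hq : q ≠ 0)
    (hlp : p 1 * t 0 - p 0 * t 1 ≠ 0) (hlq : q 1 * t 0 - q 0 * t 1 ≠ 0)
    (hpq : p 0 * q 1 - q 0 * p 1 ≠ 0) {X : ℝ}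
    (h1 : Real.log (nrm w t) + Real.log (nrm w p) - Real.log (w (p 1 * t 0 - p 0 * t 1)) ≤ X)
    (h2 : Real.log (nrm w t) + Real.log (nrm w q) - Real.log (w (q 1 * t 0 - q 0 * t 1)) ≤ X) :
    Real.log (w (p 0 * q 1 - q 0 * p 1)) +
      ((Real.log (nrm w t) - Real.log (w (p 1 * t 0 - p 0 * t 1))) +
        (Real.log (nrm w t) - Real.log (w (q 1 * t 0 - q 0 * t 1)))) ≤ X + Real.log 2 := by
  obtain ⟨D, hD⟩ : ∃ D, D = p 0 * q 1 - q 0 * p 1 := ⟨_, rfl⟩
  obtain ⟨A, hA⟩ : ∃ A, A = p 1 * t 0 - p 0 * t 1 := ⟨_, rfl⟩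
  obtain ⟨B, hB⟩ : ∃ B, B = q 1 * t 0 - q 0 * t 1 := ⟨_, rfl⟩
  rw [← hD] at hpq
  rw [← hA] at hlp h1
  rw [← hB] at hlq h2
  rw [← hA, ← hB, ← hD]
  have hAp := w.pos hlp
  have hBp := w.pos hlq
  have hDp := w.pos hpq
  have htp := nrm_pos w ht
  have hpp := nrm_pos w hp
  have hqp := nrm_pos w hq
  have key : w D * nrm w t ≤ nrm w p * w B + nrm w q * w A := by
    obtain ⟨i, hi⟩ := exists_nrm w two_pos t
    rw [← hi, ← map_mul]
    fin_cases i
    · have e : D * t 0 = p 0 * B - q 0 * A := by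
        rw [hD, hA, hB]
        ring
      show w (D * t 0) ≤ _
      rw [e]
      refine (w.sub_le_add _ _).trans ?_
      rw [map_mul, map_mul]
      exact add_le_add (mul_le_mul_of_nonneg_right (le_nrm w p 0) hBp.le)
        (mul_le_mul_of_nonneg_right (le_nrm w q 0) hAp.le)
    · have e : D * t 1 = p 1 * B - q 1 * A := by
        rw [hD, hA, hB]
        ring
      show w (D * t 1) ≤ _
      rw [e]
      refine (w.sub_le_add _ _).trans ?_
      rw [map_mul, map_mul]
      exact add_le_add (mul_le_mul_of_nonneg_right (le_nrm w p 1) hBp.le)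
        (mul_le_mul_of_nonneg_right (le_nrm w q 1) hAp.le)
  rcases le_total (nrm w p * w B) (nrm w q * w A) with h | h
  · have h3 : w D * nrm w t ≤ 2 * (nrm w q * w A) := by linarith
    have h4 := Real.log_le_log (mul_pos hDp htp) h3
    rw [Real.log_mul hDp.ne' htp.ne', Real.log_mul two_ne_zero (mul_pos hqp hAp).ne',
      Real.log_mul hqp.ne' hAp.ne'] at h4
    linarith
  · have h3 : w D * nrm w t ≤ 2 * (nrm w p * w B) := by linarith
    have h4 := Real.log_le_log (mul_pos hDp htp) h3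
    rw [Real.log_mul hDp.ne' htp.ne', Real.log_mul two_ne_zero (mul_pos hpp hBp).ne',
      Real.log_mul hpp.ne' hBp.ne'] at h4
    linarith

/-- the local inequality for the discriminant -/
theorem disc_local (w : AbsoluteValue Λ ℝ) {n : ℕ} {t : Fin 2 → Λ} (ht : t ≠ 0)
    (p : Fin n → Fin 2 → Λ) (hp : ∀ j, p j ≠ 0) (hl : ∀ j, p j 1 * t 0 - p j 0 * t 1 ≠ 0)
    (hD : ∀ i j, i < j → p i 0 * p j 1 - p j 0 * p i 1 ≠ 0) {X : ℝ}
    (h : ∀ j, Real.log (nrm w t) + Real.log (nrm w (p j)) -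
      Real.log (w (p j 1 * t 0 - p j 0 * t 1)) ≤ X) :
    Real.log (w (∏ i, ∏ j ∈ Finset.Ioi i, (p i 0 * p j 1 - p j 0 * p i 1) ^ 2)) +
      2 * (n - 1) * (n * Real.log (nrm w t) - Real.log (w (∏ j, (p j 1 * t 0 - p j 0 * t 1)))) ≤
      n * (n - 1) * (X + Real.log 2) := by
  obtain ⟨μ, hμ⟩ : ∃ μ : Fin n → ℝ, ∀ j, μ j =
    Real.log (nrm w t) - Real.log (w (p j 1 * t 0 - p j 0 * t 1)) := ⟨_, fun _ => rfl⟩
  have e1 : Real.log (w (∏ i, ∏ j ∈ Finset.Ioi i, (p i 0 * p j 1 - p j 0 * p i 1) ^ 2)) =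
      ∑ i, ∑ j ∈ Finset.Ioi i, 2 * Real.log (w (p i 0 * p j 1 - p j 0 * p i 1)) := by
    rw [map_prod, Real.log_prod]
    · refine Finset.sum_congr rfl fun i _ => ?_
      rw [map_prod, Real.log_prod]
      · refine Finset.sum_congr rfl fun j _ => ?_
        rw [map_pow, Real.log_pow]
        norm_num
      · intro j hj
        exact (w.pos (pow_ne_zero _ (hD i j (Finset.mem_Ioi.1 hj)))).ne'
    · intro i _
      refine (w.pos ?_).ne'
      exact Finset.prod_ne_zero_iff.2 fun j hj => pow_ne_zero _ (hD i j (Finset.mem_Ioi.1 hj))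
  have e2 : n * Real.log (nrm w t) - Real.log (w (∏ j, (p j 1 * t 0 - p j 0 * t 1))) =
      ∑ j, μ j := by
    rw [map_prod, Real.log_prod fun j _ => (w.pos (hl j)).ne']
    simp only [hμ]
    rw [Finset.sum_sub_distrib, Finset.sum_const, Finset.card_univ, Fintype.card_fin, nsmul_eq_mul]
  have e3 : 2 * ((n : ℝ) - 1) * ∑ j, μ j = ∑ i, ∑ j ∈ Finset.Ioi i, 2 * (μ i + μ j) := by
    rw [mul_assoc, ← sum_pairs μ, Finset.mul_sum]
    exact Finset.sum_congr rfl fun i _ => Finset.mul_sum _ _ _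
  have e4 : (n : ℝ) * (n - 1) * (X + Real.log 2) =
      ∑ i : Fin n, ∑ j ∈ Finset.Ioi i, 2 * (X + Real.log 2) := by
    have h1 := sum_pairs fun _ : Fin n => X + Real.log 2
    rw [Finset.sum_const, Finset.card_univ, Fintype.card_fin, nsmul_eq_mul] at h1
    have h2 : ∑ i : Fin n, ∑ j ∈ Finset.Ioi i, 2 * (X + Real.log 2) =
        ∑ i : Fin n, ∑ j ∈ Finset.Ioi i, ((X + Real.log 2) + (X + Real.log 2)) :=
      Finset.sum_congr rfl fun i _ => Finset.sum_congr rfl fun j _ => by ring
    rw [h2, h1]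
    ring
  rw [e1, e2, e3, e4, ← Finset.sum_add_distrib]
  refine Finset.sum_le_sum fun i _ => ?_
  rw [← Finset.sum_add_distrib]
  refine Finset.sum_le_sum fun j hj => ?_
  have h1 := pair_le w ht (hp i) (hp j) (hl i) (hl j) (hD i j (Finset.mem_Ioi.1 hj)) (h i) (h j)
  rw [hμ, hμ]
  linarith

end

end Pool.Agent.Run7.h489.PX
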