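import Mathlib
import Pool.Agent.Run7.h489.PX.Disc
import Pool.Agent.Run7.h489.TM.Cnt

set_option autoImplicit false
set_option linter.unusedSectionVars false

/-!
The counting function of the divisor and the discriminant.
-/

namespace Pool.Agent.Run7.h489.PX

open Height NumberField IsDedekindDomain Polynomial
open Pool.Agent.W180.OP (Pl av wt fv nrm wt_nonneg le_nrm exists_nrm nrm_pos lam lam_eq)
open Pool.Agent.R404.TC (Sp cnt fmtS)
open Pool.Agent.R405 (Good exists_good)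
open Pool.Agent.Run7.h489.LV (IsU IsI mem_Sp_inl mem_Sp_inr)
open Pool.Agent.Run7.h489.TM

variable {k : Type} [Field k] [NumberField k] {m : ℕ}

/-- `Δ` is the discriminant of the forms of degree `n` in the fibres -/
def IsDisc (R : (Fin m → ℤ) →₀ MvPolynomial (Fin 2) k) (n : ℕ) (Δ : (Fin m → ℤ) →₀ k) : Prop :=
  ∀ u : Fin m → k, (∀ i, u i ≠ 0) → ∀ a b : Fin n → AlgebraicClosure k,
    MvPolynomial.map (algebraMap k (AlgebraicClosure k)) (fb R u) =
      ∏ j, (MvPolynomial.C (b j) * MvPolynomial.X 0 - MvPolynomial.C (a j) * MvPolynomial.X 1) →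
    algebraMap k (AlgebraicClosure k) (ev Δ u) =
      ∏ i, ∏ j ∈ Finset.Ioi i, (a i * b j - a j * b i) ^ 2

theorem nrm_map {Λ : Type} [Field Λ] {κ : k →+* Λ} {w : AbsoluteValue Λ ℝ} {f : AbsoluteValue k ℝ}
    (h : ∀ z, w (κ z) = f z) {n : ℕ} (t : Fin n → k) : nrm w (fun i => κ (t i)) = nrm f t := by
  unfold nrm
  exact congrArg iSup (funext fun i => h (t i))

theorem exists_x {R : (Fin m → ℤ) →₀ MvPolynomial (Fin 2) k} {n : ℕ} (hn : 1 ≤ n)
    (hR : ∀ a, (R a).IsHomogeneous n) {Δ : (Fin m → ℤ) →₀ k} (hΔ : IsDisc R n Δ)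
    {u : Fin m → k} (hu : ∀ i, u i ≠ 0) (hΔu : ev Δ u ≠ 0) {t : Fin 2 → k} (ht : t ≠ 0)
    (hF : MvPolynomial.eval t (fb R u) ≠ 0) : ∃ x : Pl k → ℝ, ∀ v, LR R (av v) u t (x v) ∧
      Real.log (av v (ev Δ u)) + 2 * (n - 1) *
        (n * Real.log (nrm (av v) t) - Real.log (av v (MvPolynomial.eval t (fb R u)))) ≤
        n * (n - 1) * (x v + Real.log 2) := by
  obtain ⟨a, b, hab⟩ := form_split ((fb_hom hR u).map (algebraMap k (AlgebraicClosure k))) hn
  obtain ⟨M, hM1, hM2, hM3, -, -, φ, hφ⟩ := Pool.Agent.Run7.h489.GF.exists_field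
    (Sum.elim a b : Fin n ⊕ Fin n → AlgebraicClosure k)
  choose z hz using hφ
  obtain ⟨p, hp⟩ : ∃ p : Fin n → Fin 2 → M, p = fun j => ![z (Sum.inl j), z (Sum.inr j)] :=
    ⟨_, rfl⟩
  have hp0 : ∀ j, φ (p j 0) = a j := fun j => by
    rw [hp]
    exact hz (Sum.inl j)
  have hp1 : ∀ j, φ (p j 1) = b j := fun j => by
    rw [hp]
    exact hz (Sum.inr j)
  have hMf : MvPolynomial.map (algebraMap k M) (fb R u) =
      ∏ j, (MvPolynomial.C (p j 1) * MvPolynomial.X 0 -
        MvPolynomial.C (p j 0) * MvPolynomial.X 1) := by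
    apply MvPolynomial.map_injective (φ : M →+* AlgebraicClosure k) (RingHom.injective _)
    rw [MvPolynomial.map_map, AlgHom.comp_algebraMap, hab, map_prod]
    refine Finset.prod_congr rfl fun j _ => ?_
    simp only [map_sub, map_mul, MvPolynomial.map_C, MvPolynomial.map_X]
    rw [← hp0, ← hp1]
    rfl
  have hval : ∀ y : Fin 2 → M, MvPolynomial.eval y (MvPolynomial.map (algebraMap k M) (fb R u)) =
      ∏ j, (p j 1 * y 0 - p j 0 * y 1) := by
    intro y
    rw [hMf, map_prod]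
    refine Finset.prod_congr rfl fun j _ => ?_
    simp only [map_sub, map_mul, MvPolynomial.eval_C, MvPolynomial.eval_X]
  obtain ⟨tM, htM⟩ : ∃ tM : Fin 2 → M, tM = fun i => algebraMap k M (t i) := ⟨_, rfl⟩
  have htM0 : tM ≠ 0 := by
    intro h
    apply ht
    funext i
    have h1 := congrFun h i
    rw [htM] at h1
    exact (_root_.map_eq_zero _).1 h1
  have hFt : algebraMap k M (MvPolynomial.eval t (fb R u)) =
      ∏ j, (p j 1 * tM 0 - p j 0 * tM 1) := by
    rw [← hval, htM, MvPolynomial.eval_map]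
    exact MvPolynomial.eval₂_comp (algebraMap k M) t (fb R u)
  have hFt0 : ∏ j, (p j 1 * tM 0 - p j 0 * tM 1) ≠ 0 := by
    rw [← hFt]
    exact (_root_.map_ne_zero _).2 hF
  have hl : ∀ j, p j 1 * tM 0 - p j 0 * tM 1 ≠ 0 := fun j =>
    Finset.prod_ne_zero_iff.1 hFt0 j (Finset.mem_univ j)
  have hpne : ∀ j, p j ≠ 0 := by
    intro j h
    apply hl j
    rw [h, Pi.zero_apply, Pi.zero_apply, zero_mul, zero_mul, sub_zero]
  have hΔM : algebraMap k M (ev Δ u) =
      ∏ i, ∏ j ∈ Finset.Ioi i, (p i 0 * p j 1 - p j 0 * p i 1) ^ 2 := by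
    apply (φ : M →+* AlgebraicClosure k).injective
    have h1 := hΔ u hu a b hab
    have h2 : (φ : M →+* AlgebraicClosure k) (algebraMap k M (ev Δ u)) =
        algebraMap k (AlgebraicClosure k) (ev Δ u) := AlgHom.commutes φ _
    rw [h2, h1, map_prod]
    refine Finset.prod_congr rfl fun i _ => ?_
    rw [map_prod]
    refine Finset.prod_congr rfl fun j _ => ?_
    rw [← hp0, ← hp0, ← hp1, ← hp1]
    simp only [map_pow, map_sub, map_mul]
    rfl
  have hD : ∀ i j, i < j → p i 0 * p j 1 - p j 0 * p i 1 ≠ 0 := by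
    intro i j hij h0
    apply hΔu
    apply (_root_.map_eq_zero (algebraMap k M)).1
    rw [hΔM]
    refine Finset.prod_eq_zero (Finset.mem_univ i) (Finset.prod_eq_zero (Finset.mem_Ioi.2 hij) ?_)
    rw [h0, zero_pow two_ne_zero]
  have hne : Nonempty (Fin n) := ⟨⟨0, hn⟩⟩
  have hx : ∀ v : Pl k, ∃ x : ℝ, LR R (av v) u t x ∧
      Real.log (av v (ev Δ u)) + 2 * (n - 1) *
        (n * Real.log (nrm (av v) t) - Real.log (av v (MvPolynomial.eval t (fb R u)))) ≤
        n * (n - 1) * (x + Real.log 2) := by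
    intro v
    obtain ⟨w, hw⟩ := exists_good (K := M) v
    have hwe : ∀ y : k, w (algebraMap k M y) = av v y := hw.ext
    obtain ⟨j0, hj0⟩ := Finite.exists_max fun j => Real.log (nrm w tM) + Real.log (nrm w (p j)) -
      Real.log (w (p j 1 * tM 0 - p j 0 * tM 1))
    have hnt : nrm w tM = nrm (av v) t := by
      rw [htM]
      exact nrm_map hwe t
    refine ⟨Real.log (nrm w tM) + Real.log (nrm w (p j0)) -
      Real.log (w (p j0 1 * tM 0 - p j0 0 * tM 1)), ?_, ?_⟩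
    · refine ⟨M, inferInstance, algebraMap k M, w, p j0, hwe, hpne j0, ?_, ?_⟩
      · rw [hval]
        exact Finset.prod_eq_zero (Finset.mem_univ j0) (by ring)
      · rw [hnt, htM]
        congr 2
        ring_nf
    · have h1 := disc_local w htM0 p hpne hl hD hj0
      rw [← hΔM, ← hFt, hwe, hwe, hnt] at h1
      rw [hnt]
      exact h1
  choose x hx using hx
  exact ⟨x, hx⟩

/-- the counting function and the discriminant -/
theorem disc_most (S : Finset (HeightOneSpectrum (𝓞 k))) (hS : 2 ≤ (Sp S).card)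
    {R : (Fin m → ℤ) →₀ MvPolynomial (Fin 2) k} {n : ℕ} (hn : 1 ≤ n)
    (hR : ∀ a, (R a).IsHomogeneous n) (hR0 : R ≠ 0) {Δ : (Fin m → ℤ) →₀ k} (hΔ : IsDisc R n Δ)
    (hΔ0 : Δ ≠ 0) {ε η B : ℝ} (hε : 0 < ε) (hη : 0 < η) (hB : 0 ≤ B) :
    ∃ (G : MvPolynomial (Fin m ⊕ Fin 2) k) (e : ℕ) (T₀ : ℝ), G ≠ 0 ∧
      MvPolynomial.IsWeightedHomogeneous (wgt m) G e ∧ ∀ T : ℝ, T₀ ≤ T →
      (({u | u ∈ Bx m S T ∧ ∃ t : Fin 2 → k, t ≠ 0 ∧ MvPolynomial.eval (Sum.elim u t) G ≠ 0 ∧
        MvPolynomial.eval t (fb R u) ≠ 0 ∧ logHeight t ≤ B * T ∧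
        2 * (n - 1) * cnt S n (fb R u) t <
          ∑ v ∈ Sp S, wt v * Real.log (av v (ev Δ u)) - ε * T}.ncard : ℕ) : ℝ) ≤
        η * (UF S T).card ^ m := by
  obtain ⟨ε', hε', hε'2⟩ : ∃ ε' : ℝ, 0 < ε' ∧ n * (n - 1) * (ε' * (B + m)) ≤ ε / 2 := by
    have h1 : (0 : ℝ) ≤ n * (n - 1) * (B + m) := by
      have h2 : (1 : ℝ) ≤ n := by exact_mod_cast hn
      have h3 : (0 : ℝ) ≤ m := Nat.cast_nonneg m
      have h4 : (0 : ℝ) ≤ n - 1 := by linarith
      positivity
    refine ⟨ε / 2 / (n * (n - 1) * (B + m) + 1), by positivity, ?_⟩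
    have h2 : (0 : ℝ) < n * (n - 1) * (B + m) + 1 := by linarith
    have h3 : n * (n - 1) * (ε / 2 / (n * (n - 1) * (B + m) + 1) * (B + m)) =
        ε / 2 * ((n * (n - 1) * (B + m)) / (n * (n - 1) * (B + m) + 1)) := by
      field_simp
    rw [h3]
    refine mul_le_of_le_one_right (by positivity) ?_
    rw [div_le_one h2]
    linarith
  obtain ⟨G, e, C, T₀, hG, hGe, hmain⟩ := px2 S hS hR hR0 hε' hη hB
  obtain ⟨E1, qd, hqd0, hqd⟩ := clear' Δ
  obtain ⟨ws, hws⟩ : ∃ ws : ℝ, ws = wS S := ⟨_, rfl⟩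
  have hws0 : 0 ≤ ws := by
    rw [hws]
    exact wS_nonneg S
  refine ⟨G * MvPolynomial.rename Sum.inl qd, e,
    max (max T₀ 0) (2 * (n * (n - 1) * (|C| + Real.log 2 * ws)) / ε), ?_, ?_, fun T hT => ?_⟩
  · refine mul_ne_zero hG ?_
    intro h0
    apply hqd0 hΔ0
    apply MvPolynomial.rename_injective (Sum.inl : Fin m → Fin m ⊕ Fin 2) Sum.inl_injective
    rw [h0, map_zero]
  · have h1 : MvPolynomial.IsWeightedHomogeneous (wgt m)
        (MvPolynomial.rename (Sum.inl : Fin m → Fin m ⊕ Fin 2) qd) 0 := by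
      intro d hd
      rw [Finsupp.weight_apply, Finsupp.sum_fintype _ _ (fun i => by simp), Fintype.sum_sum_type]
      have h2 : ∀ i : Fin 2, d (Sum.inr i) = 0 := by
        intro i
        by_contra h3
        obtain ⟨d', hd', -⟩ := MvPolynomial.coeff_rename_ne_zero _ _ _ hd
        apply h3
        rw [← hd']
        exact Finsupp.mapDomain_of_notMem_range _ _ (by rintro ⟨j, hj⟩; exact Sum.inl_ne_inr hj)
      simp [wgt, h2]
    have h2 := hGe.mul h1
    rwa [add_zero] at h2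
  have hTT₀ : T₀ ≤ T := (le_max_left _ _).trans ((le_max_left _ _).trans hT)
  have hT0 : 0 ≤ T := (le_max_right _ _).trans ((le_max_left _ _).trans hT)
  have hTC : 2 * (n * (n - 1) * (|C| + Real.log 2 * ws)) / ε ≤ T := (le_max_right _ _).trans hT
  refine le_trans ?_ (hmain T hTT₀)
  rw [Nat.cast_le]
  refine Set.ncard_le_ncard ?_ ((Bx m S T).finite_toSet.subset fun u hu => hu.1)
  rintro u ⟨huB, t, ht, hGt, hF, hht, hlt⟩
  have huU := mem_Bx.1 huB
  have hu0 : ∀ i, u i ≠ 0 := fun i => (huU i).1.1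
  rw [map_mul] at hGt
  have hΔu : ev Δ u ≠ 0 := by
    intro h0
    apply hGt
    rw [MvPolynomial.eval_rename]
    have h1 : (Sum.elim u t : Fin m ⊕ Fin 2 → k) ∘ Sum.inl = u := rfl
    rw [h1, hqd u hu0, h0, mul_zero, mul_zero]
  obtain ⟨x, hx⟩ := exists_x hn hR hΔ hu0 hΔu ht hF
  refine ⟨huB, t, ht, left_ne_zero_of_mul hGt, hF, hht, x, fun v _ => (hx v).1, ?_⟩
  by_contra hcon
  push Not at hcon
  have hhu : hs u ≤ m * T := by
    unfold hs
    refine (Finset.sum_le_sum fun i _ => (huU i).2).trans ?_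
    rw [Finset.sum_const, Finset.card_univ, Fintype.card_fin, nsmul_eq_mul]
  have hfm := fmtS n (fb R u) ht hF S
  have hl : ∑ v ∈ Sp S, wt v * lam (av v) n (fb R u) t =
      ∑ v ∈ Sp S, wt v * (n * Real.log (nrm (av v) t) -
        Real.log (av v (MvPolynomial.eval t (fb R u)))) :=
    Finset.sum_congr rfl fun v _ => by rw [lam_eq (av v) n _ ht hF]
  rw [hl] at hfm
  have hsum : ∑ v ∈ Sp S, wt v * Real.log (av v (ev Δ u)) + 2 * (n - 1) *
      ∑ v ∈ Sp S, wt v * (n * Real.log (nrm (av v) t) -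
        Real.log (av v (MvPolynomial.eval t (fb R u)))) ≤
      n * (n - 1) * (∑ v ∈ Sp S, wt v * x v + Real.log 2 * ws) := by
    have h1 : n * (n - 1) * (∑ v ∈ Sp S, wt v * x v + Real.log 2 * ws) =
        ∑ v ∈ Sp S, wt v * (n * (n - 1) * (x v + Real.log 2)) := by
      rw [hws]
      unfold wS
      rw [Finset.mul_sum, ← Finset.sum_add_distrib, Finset.mul_sum]
      exact Finset.sum_congr rfl fun v _ => by ring
    rw [h1, Finset.mul_sum, ← Finset.sum_add_distrib]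
    refine Finset.sum_le_sum fun v _ => ?_
    have h2 := mul_le_mul_of_nonneg_left (hx v).2 (wt_nonneg v)
    linarith
  rw [hfm] at hsum
  have hn1 : (1 : ℝ) ≤ n := by exact_mod_cast hn
  have hnn : (0 : ℝ) ≤ n * (n - 1) := by
    have : (0 : ℝ) ≤ n - 1 := by linarith
    positivity
  have h3 : n * (n - 1) * (∑ v ∈ Sp S, wt v * x v + Real.log 2 * ws) ≤
      n * (n - 1) * ((2 + ε') * logHeight t + ε' * hs u + C + Real.log 2 * ws) :=
    mul_le_mul_of_nonneg_left (by linarith) hnn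
  have h4 : n * (n - 1) * (ε' * logHeight t + ε' * hs u) ≤ ε / 2 * T := by
    refine le_trans ?_ (mul_le_mul_of_nonneg_right hε'2 hT0)
    have h5 : ε' * logHeight t + ε' * hs u ≤ ε' * (B + m) * T := by
      have h6 := mul_le_mul_of_nonneg_left hht hε'.le
      have h7 := mul_le_mul_of_nonneg_left hhu hε'.le
      nlinarith
    calc n * (n - 1) * (ε' * logHeight t + ε' * hs u) ≤ n * (n - 1) * (ε' * (B + m) * T) :=
          mul_le_mul_of_nonneg_left h5 hnn
      _ = n * (n - 1) * (ε' * (B + m)) * T := by ring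
  have h5 : n * (n - 1) * (C + Real.log 2 * ws) ≤ ε / 2 * T := by
    rw [div_le_iff₀ hε] at hTC
    have h6 : n * (n - 1) * (C + Real.log 2 * ws) ≤ n * (n - 1) * (|C| + Real.log 2 * ws) :=
      mul_le_mul_of_nonneg_left (by linarith [le_abs_self C]) hnn
    linarith
  have h6 : n * (n - 1) * ((2 + ε') * logHeight t + ε' * hs u + C + Real.log 2 * ws) =
      2 * (n - 1) * (n * logHeight t) + n * (n - 1) * (ε' * logHeight t + ε' * hs u) +
        n * (n - 1) * (C + Real.log 2 * ws) := by ring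
  rw [h6] at h3
  have h7 : 2 * ((n : ℝ) - 1) * (n * logHeight t - cnt S n (fb R u) t) =
      2 * (n - 1) * (n * logHeight t) - 2 * (n - 1) * cnt S n (fb R u) t := by ring
  rw [h7] at hsum
  linarith

end Pool.Agent.Run7.h489.PX
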