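import Mathlib
import Pool.Agent.Run7.h489.PX.Disc

set_option autoImplicit false
set_option linter.unusedSectionVars false

/-!
Taylor coefficients near to the nearest zero.
-/

namespace Pool.Agent.Run7.h489.PX

open Polynomial

/-- the point of a chart -/
def pc {R : Type} [One R] (l : Fin 2) (s : R) : Fin 2 → R := fun i => if i = l then s else 1

/-- the restriction of a form to a chart -/
noncomputable def ch {R : Type} [CommRing R] (l : Fin 2) (P : MvPolynomial (Fin 2) R) : R[X] :=
  MvPolynomial.eval₂ C (fun i => if i = l then X else 1) P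

theorem ch_eval {R : Type} [CommRing R] (l : Fin 2) (P : MvPolynomial (Fin 2) R) (s : R) :
    (ch l P).eval s = MvPolynomial.eval (pc l s) P := by
  unfold ch
  rw [← coe_evalRingHom, MvPolynomial.hom_eval₂]
  have h1 : (evalRingHom s).comp (C : R →+* R[X]) = RingHom.id R := by
    refine RingHom.ext fun x => ?_
    simp
  rw [h1]
  have h2 : (fun i => (evalRingHom s) (if i = l then (X : R[X]) else 1)) = pc l s := by
    funext i
    unfold pc
    split_ifs <;> simp
  rw [h2]
  rfl

theorem taylor_ch {R : Type} [CommRing R] (l : Fin 2) (P : MvPolynomial (Fin 2) R) (s : R) :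
    taylor s (ch l P) = MvPolynomial.eval₂ C (fun i => if i = l then X + C s else 1) P := by
  have h0 : taylor s (ch l P) = (taylorAlgHom s : R[X] →+* R[X]) (ch l P) := rfl
  rw [h0]
  unfold ch
  rw [MvPolynomial.hom_eval₂]
  have h1 : ((taylorAlgHom s : R[X] →+* R[X])).comp (C : R →+* R[X]) = C := by
    refine RingHom.ext fun x => ?_
    show taylor s (C x) = C x
    rw [taylor_C]
  rw [h1]
  congr 1
  funext i
  split_ifs
  · show taylor s X = _
    rw [taylor_X]
  · show taylor s 1 = _
    rw [taylor_one, C_1]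

theorem ch_natDegree {R : Type} [CommRing R] (l : Fin 2) {P : MvPolynomial (Fin 2) R} {N : ℕ}
    (hP : P.IsHomogeneous N) : (ch l P).natDegree ≤ N := by
  unfold ch
  rw [MvPolynomial.eval₂_eq']
  refine natDegree_sum_le_of_forall_le _ _ fun s hs => ?_
  refine (natDegree_C_mul_le _ _).trans ?_
  refine (natDegree_prod_le _ _).trans ?_
  have h1 : s 0 + s 1 = N := by
    have h2 := hP (MvPolynomial.mem_support_iff.1 hs)
    rw [Finsupp.weight_apply, Finsupp.sum_fintype _ _ (fun i => by simp)] at h2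
    simpa [Fin.sum_univ_two] using h2
  have h3 : ∀ i : Fin 2, ((if i = l then (X : R[X]) else 1) ^ s i).natDegree ≤ s i := by
    intro i
    refine natDegree_pow_le.trans ?_
    have h4 : (if i = l then (X : R[X]) else 1).natDegree ≤ 1 := by
      split_ifs
      · exact natDegree_X_le
      · rw [natDegree_one]
        exact Nat.zero_le _
    calc s i * (if i = l then (X : R[X]) else 1).natDegree ≤ s i * 1 := Nat.mul_le_mul_left _ h4
      _ = s i := mul_one _
  rw [Fin.sum_univ_two]
  have := h3 0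
  have := h3 1
  omega

section

variable {k K Λ : Type} [Field k] [Field K] [Field Λ]

theorem tay_bd {v : AbsoluteValue k ℝ} {w : AbsoluteValue Λ ℝ} {κ : k →+* Λ}
    (hw : ∀ z, w (κ z) = v z) {P : MvPolynomial (Fin 2) k} {N : ℕ} {a b : Fin N → Λ}
    (hP : MvPolynomial.map κ P = ∏ j, (MvPolynomial.C (b j) * MvPolynomial.X 0 -
      MvPolynomial.C (a j) * MvPolynomial.X 1)) (l : Fin 2) (s : k) {r : ℝ} (hr : 0 ≤ r)
    (h : ∀ j, w (b j * (Pi.single l 1 : Fin 2 → Λ) 0 - a j * (Pi.single l 1 : Fin 2 → Λ) 1) ≤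
      w (b j * κ (pc l s 0) - a j * κ (pc l s 1)) * r) (i : ℕ) :
    v ((taylor s (ch l P)).coeff i) ≤ 2 ^ N * v (MvPolynomial.eval (pc l s) P) * r ^ i := by
  have h1 : (taylor s (ch l P)).map κ = ((Finset.univ.val.map fun j : Fin N =>
      (b j * κ (pc l s 0) - a j * κ (pc l s 1), b j * (Pi.single l 1 : Fin 2 → Λ) 0 -
        a j * (Pi.single l 1 : Fin 2 → Λ) 1)).map fun p => C p.1 + C p.2 * X).prod := by
    rw [taylor_ch, ← coe_mapRingHom, MvPolynomial.hom_eval₂]
    have h2 : (mapRingHom κ).comp (C : k →+* k[X]) = (C : Λ →+* Λ[X]).comp κ := by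
      refine RingHom.ext fun x => ?_
      simp
    rw [h2, ← MvPolynomial.eval₂_map, hP, MvPolynomial.eval₂_prod, Multiset.map_map]
    show _ = ∏ j : Fin N, _
    refine Finset.prod_congr rfl fun j _ => ?_
    simp only [MvPolynomial.eval₂_sub, MvPolynomial.eval₂_mul, MvPolynomial.eval₂_C,
      MvPolynomial.eval₂_X, Function.comp_apply]
    fin_cases l
    · simp [pc]
      ring_nf
    · simp [pc]
      ring_nf
  have h2 := Bd.prod (f := w) hr (Finset.univ.val.map fun j : Fin N =>
      (b j * κ (pc l s 0) - a j * κ (pc l s 1), b j * (Pi.single l 1 : Fin 2 → Λ) 0 -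
        a j * (Pi.single l 1 : Fin 2 → Λ) 1)) (by
    intro p hp
    obtain ⟨j, -, rfl⟩ := Multiset.mem_map.1 hp
    exact h j) i
  rw [← h1, coeff_map, hw, Multiset.card_map, Multiset.map_map] at h2
  have h3 : (Multiset.map (Prod.fst ∘ fun j : Fin N =>
      (b j * κ (pc l s 0) - a j * κ (pc l s 1), b j * (Pi.single l 1 : Fin 2 → Λ) 0 -
        a j * (Pi.single l 1 : Fin 2 → Λ) 1)) Finset.univ.val).prod =
      κ (MvPolynomial.eval (pc l s) P) := by
    show ∏ j : Fin N, (b j * κ (pc l s 0) - a j * κ (pc l s 1)) = _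
    have h4 : κ (MvPolynomial.eval (pc l s) P) =
        MvPolynomial.eval (fun i => κ (pc l s i)) (MvPolynomial.map κ P) := by
      rw [MvPolynomial.eval_map]
      exact MvPolynomial.eval₂_comp κ _ P
    rw [h4, hP, map_prod]
    refine Finset.prod_congr rfl fun j _ => ?_
    simp only [map_sub, map_mul, MvPolynomial.eval_C, MvPolynomial.eval_X]
  rw [h3, hw] at h2
  have h4 : Multiset.card (Finset.univ : Finset (Fin N)).val = N := by
    show (Finset.univ : Finset (Fin N)).card = N
    rw [Finset.card_univ, Fintype.card_fin]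
  rw [h4] at h2
  exact h2

/-- moving the centre -/
theorem tay_shift {v : AbsoluteValue k ℝ} {f : AbsoluteValue K ℝ} {ι : k →+* K}
    (hf : ∀ z, f (ι z) = v z) {g : k[X]} {N : ℕ} (hg : g.natDegree ≤ N) {s : k} {α : K}
    {D r A : ℝ} (hD : 0 ≤ D) (hr : 0 ≤ r) (hA : 1 ≤ A) (h : ∀ i, v ((taylor s g).coeff i) ≤ D * r ^ i)
    (hζ : f (ι s - α) * r ≤ A) (j : ℕ) :
    f ((taylor α (g.map ι)).coeff j) * f (ι s - α) ^ j ≤ (N + 1) * (2 ^ N * (D * A ^ N)) := by
  obtain ⟨ζ, hζd⟩ : ∃ ζ : K, ζ = ι s - α := ⟨_, rfl⟩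
  rw [← hζd] at hζ ⊢
  have h1 : taylor α (g.map ι) = taylor (-ζ) ((taylor s g).map ι) := by
    have h2 : (taylor s g).map ι = taylor (ι s) (g.map ι) := by
      rw [taylor_apply, taylor_apply, map_comp]
      simp
    rw [h2, taylor_taylor, hζd]
    congr 1
    ring
  have hz0 : 0 ≤ f ζ := f.nonneg _
  have hd : (hasseDeriv j ((taylor s g).map ι)).natDegree < N + 1 := by
    have h2 := natDegree_hasseDeriv_le ((taylor s g).map ι) j
    have h3 : ((taylor s g).map ι).natDegree ≤ N := natDegree_map_le.trans (by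
      rw [natDegree_taylor]
      exact hg)
    omega
  rw [h1, taylor_coeff, eval_eq_sum_range' hd]
  have hterm : ∀ i ∈ Finset.range (N + 1), f ((hasseDeriv j ((taylor s g).map ι)).coeff i *
      (-ζ) ^ i) * f ζ ^ j ≤ 2 ^ N * (D * A ^ N) := by
    intro i _
    rw [hasseDeriv_coeff, coeff_map, map_mul, map_mul, map_pow, f.map_neg, hf]
    by_cases hij : i + j ≤ N
    · have h2 : f (((i + j).choose j : ℕ) : K) ≤ 2 ^ N := by
        refine (AbsoluteValue.apply_nat_le_self f _).trans ?_
        calc (((i + j).choose j : ℕ) : ℝ) ≤ ((2 ^ (i + j) : ℕ) : ℝ) := by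
              exact_mod_cast Nat.choose_le_two_pow _ _
          _ = 2 ^ (i + j) := by push_cast; rfl
          _ ≤ 2 ^ N := pow_le_pow_right₀ (by norm_num) hij
      have h3 : v ((taylor s g).coeff (i + j)) * f ζ ^ (i + j) ≤ D * A ^ N := by
        calc v ((taylor s g).coeff (i + j)) * f ζ ^ (i + j) ≤ D * r ^ (i + j) * f ζ ^ (i + j) :=
              mul_le_mul_of_nonneg_right (h _) (pow_nonneg hz0 _)
          _ = D * (f ζ * r) ^ (i + j) := by
              rw [mul_pow]
              ring
          _ ≤ D * A ^ (i + j) := mul_le_mul_of_nonneg_left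
              (pow_le_pow_left₀ (mul_nonneg hz0 hr) hζ _) hD
          _ ≤ D * A ^ N := mul_le_mul_of_nonneg_left (pow_le_pow_right₀ hA hij) hD
      calc f (((i + j).choose j : ℕ) : K) * v ((taylor s g).coeff (i + j)) * f ζ ^ i * f ζ ^ j =
            f (((i + j).choose j : ℕ) : K) * (v ((taylor s g).coeff (i + j)) * f ζ ^ (i + j)) := by
            rw [pow_add]
            ring
        _ ≤ 2 ^ N * (D * A ^ N) := mul_le_mul h2 h3 (by positivity) (by positivity)
    · have h2 : (taylor s g).coeff (i + j) = 0 := by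
        apply coeff_eq_zero_of_natDegree_lt
        rw [natDegree_taylor]
        omega
      rw [h2, map_zero, mul_zero, zero_mul, zero_mul]
      positivity
  calc f (∑ i ∈ Finset.range (N + 1), (hasseDeriv j ((taylor s g).map ι)).coeff i * (-ζ) ^ i) *
        f ζ ^ j ≤ (∑ i ∈ Finset.range (N + 1), f ((hasseDeriv j ((taylor s g).map ι)).coeff i *
          (-ζ) ^ i)) * f ζ ^ j := mul_le_mul_of_nonneg_right (f.sum_le _ _) (pow_nonneg hz0 _)
    _ = ∑ i ∈ Finset.range (N + 1), f ((hasseDeriv j ((taylor s g).map ι)).coeff i *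
          (-ζ) ^ i) * f ζ ^ j := by rw [Finset.sum_mul]
    _ ≤ ∑ _i ∈ Finset.range (N + 1), 2 ^ N * (D * A ^ N) := Finset.sum_le_sum hterm
    _ = (N + 1) * (2 ^ N * (D * A ^ N)) := by
        rw [Finset.sum_const, Finset.card_range, nsmul_eq_mul]
        push_cast
        ring

/-- the value at a point by the Taylor coefficients -/
theorem val_tay {f : AbsoluteValue K ℝ} {ι : k →+* K} (g : k[X]) {N : ℕ} (hg : g.natDegree ≤ N)
    (s : k) (α : K) : ι (g.eval s) =
      ∑ j ∈ Finset.range (N + 1), (taylor α (g.map ι)).coeff j * (ι s - α) ^ j := by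
  have h1 : ι (g.eval s) = (g.map ι).eval (ι s) := by
    rw [eval_map, eval₂_hom]
  have h2 : (g.map ι).eval (ι s) = (taylor α (g.map ι)).eval (ι s - α) := by
    rw [taylor_eval]
    congr 1
    ring
  rw [h1, h2]
  refine eval_eq_sum_range' ?_ _
  rw [natDegree_taylor]
  exact Nat.lt_succ_of_le (natDegree_map_le.trans hg)

end

end Pool.Agent.Run7.h489.PX
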