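import Mathlib
import Pool.Agent.Run7.h489.PX.Eval
import Pool.Agent.Run7.h489.PX.Big

set_option autoImplicit false
set_option linter.unusedSectionVars false

/-!
Generic directions: dominating monomials and approximate inverses.
-/

namespace Pool.Agent.Run7.h489.PX

open Height NumberField IsDedekindDomain Polynomial
open Pool.Agent.W180.OP (Pl av wt fv nrm wt_nonneg le_nrm exists_nrm nrm_pos)
open Pool.Agent.R404.TC (Sp)
open Pool.Agent.Run7.h489.TM

section

variable {K : Type} [Field K] {m : ℕ}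

/-- the monomial `a` dominates by `r` -/
def Dom (f : AbsoluteValue K ℝ) (x : Fin m → K) (s : Finset (Fin m → ℤ)) (a : Fin m → ℤ)
    (r : ℝ) : Prop :=
  a ∈ s ∧ ∀ b ∈ s, b ≠ a → Real.log (f (mono x b)) + r ≤ Real.log (f (mono x a))

theorem exists_Dom (f : AbsoluteValue K ℝ) (x : Fin m → K) {s : Finset (Fin m → ℤ)}
    (hs : s.Nonempty) {r : ℝ}
    (h : ∀ b ∈ s, ∀ b' ∈ s, b ≠ b' → r ≤ |Real.log (f (mono x b)) - Real.log (f (mono x b'))|) :
    ∃ a, Dom f x s a r := by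
  obtain ⟨a, ha, hmax⟩ := Finset.exists_max_image s (fun a => Real.log (f (mono x a))) hs
  refine ⟨a, ha, fun b hb hne => ?_⟩
  have h1 := h a ha b hb (Ne.symm hne)
  rw [abs_of_nonneg (sub_nonneg.2 (hmax b hb))] at h1
  linarith

theorem dom_mul (f : AbsoluteValue K ℝ) {h : (Fin m → ℤ) →₀ K} (hh : h ≠ 0) :
    ∃ A M : ℝ, 0 < A ∧ 0 ≤ M ∧ ∀ (x : Fin m → K) (r : ℝ), (∀ i, x i ≠ 0) → M ≤ r →
      ∀ a, Dom f x h.support a r → ∀ b ∈ h.support, f (mono x b) ≤ A * f (ev h x) := by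
  classical
  obtain ⟨a0, ha0, hmin⟩ := Finset.exists_min_image h.support (fun a => f (h a))
    (Finsupp.support_nonempty_iff.2 hh)
  obtain ⟨c, hc⟩ : ∃ c : ℝ, c = f (h a0) := ⟨_, rfl⟩
  have hc0 : 0 < c := by
    rw [hc]
    exact f.pos (Finsupp.mem_support_iff.1 ha0)
  obtain ⟨Q, hQ⟩ : ∃ Q : ℝ, Q = ∑ b ∈ h.support, f (h b) := ⟨_, rfl⟩
  have hQ0 : 0 ≤ Q := by
    rw [hQ]
    exact Finset.sum_nonneg fun _ _ => f.nonneg _
  refine ⟨2 / c, 2 * Q / c, by positivity, by positivity, ?_⟩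
  intro x r hx hr a ⟨ha, hb⟩ b0 hb0
  have hma : 0 < f (mono x a) := f.pos (mono_ne hx a)
  have hr0 : 0 ≤ r := le_trans (by positivity) hr
  have he : Q * Real.exp (-r) ≤ c / 2 := by
    have h1 : 2 * Q / c ≤ Real.exp r := hr.trans (by linarith [Real.add_one_le_exp r])
    rw [div_le_iff₀ hc0] at h1
    have h2 := mul_le_mul_of_nonneg_right h1 (Real.exp_pos (-r)).le
    have h3 : Real.exp r * c * Real.exp (-r) = c := by
      rw [mul_right_comm, ← Real.exp_add, add_neg_cancel, Real.exp_zero, one_mul]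
    rw [h3] at h2
    linarith
  have hle : ∀ b ∈ h.support, b ≠ a → f (mono x b) ≤ Real.exp (-r) * f (mono x a) := by
    intro b hbs hne
    have h5 := hb b hbs hne
    have hmb : 0 < f (mono x b) := f.pos (mono_ne hx b)
    rw [← Real.exp_log hmb, ← Real.exp_log hma, ← Real.exp_add]
    exact Real.exp_le_exp.2 (by linarith)
  have h1 : ev h x = h a * mono x a + ∑ b ∈ h.support.erase a, h b * mono x b := by
    unfold ev Finsupp.sum
    exact (Finset.add_sum_erase _ _ ha).symm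
  have h2 : f (∑ b ∈ h.support.erase a, h b * mono x b) ≤
      Q * Real.exp (-r) * f (mono x a) := by
    refine (f.sum_le _ _).trans ?_
    rw [hQ, Finset.sum_mul, Finset.sum_mul]
    refine (Finset.sum_le_sum fun b hbs => ?_).trans (Finset.sum_le_sum_of_subset_of_nonneg
      (Finset.erase_subset _ _) fun b _ _ => mul_nonneg (mul_nonneg (f.nonneg _)
        (Real.exp_pos _).le) hma.le)
    obtain ⟨h3, h4⟩ := Finset.mem_erase.1 hbs
    rw [map_mul, mul_assoc]
    exact mul_le_mul_of_nonneg_left (hle b h4 h3) (f.nonneg _)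
  have h3 : f (h a * mono x a) - f (∑ b ∈ h.support.erase a, h b * mono x b) ≤ f (ev h x) := by
    rw [h1]
    have := f.sub_le_add (h a * mono x a + ∑ b ∈ h.support.erase a, h b * mono x b)
      (∑ b ∈ h.support.erase a, h b * mono x b)
    rw [add_sub_cancel_right] at this
    linarith
  have h4 : c * f (mono x a) ≤ f (h a * mono x a) := by
    rw [map_mul, hc]
    exact mul_le_mul_of_nonneg_right (hmin a ha) hma.le
  have h5 : c / 2 * f (mono x a) ≤ f (ev h x) := by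
    have h6 := mul_le_mul_of_nonneg_right he hma.le
    linarith
  have h6 : f (mono x b0) ≤ f (mono x a) := by
    by_cases hba : b0 = a
    · rw [hba]
    · refine (hle b0 hb0 hba).trans (mul_le_of_le_one_left hma.le ?_)
      exact Real.exp_le_one_iff.2 (by linarith)
  refine h6.trans ?_
  rw [div_mul_eq_mul_div, le_div_iff₀ hc0]
  linarith

/-- the approximate inverse -/
noncomputable def ainv (h : AddMonoidAlgebra K (Fin m → ℤ)) (a : Fin m → ℤ) (J : ℕ) :
    AddMonoidAlgebra K (Fin m → ℤ) :=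
  AddMonoidAlgebra.single (-a) (h.coeff a)⁻¹ *
    ∑ j ∈ Finset.range J, (1 - AddMonoidAlgebra.single (-a) (h.coeff a)⁻¹ * h) ^ j

theorem mul_ainv (h : AddMonoidAlgebra K (Fin m → ℤ)) (a : Fin m → ℤ) (J : ℕ) :
    h * ainv h a J = 1 - (1 - AddMonoidAlgebra.single (-a) (h.coeff a)⁻¹ * h) ^ J := by
  rw [← mul_neg_geom_sum]
  unfold ainv
  ring

theorem ainv_bd (f : AbsoluteValue K ℝ) {h : AddMonoidAlgebra K (Fin m → ℤ)} {a : Fin m → ℤ}
    (ha : a ∈ h.coeff.support) : ∃ Q : ℝ, 0 ≤ Q ∧ ∀ (x : Fin m → K) (hx : ∀ i, x i ≠ 0) (r : ℝ),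
      Dom f x h.coeff.support a r → ∀ J, f (1 - evh x hx h * evh x hx (ainv h a J)) ≤
        (Q * Real.exp (-r)) ^ J := by
  classical
  have hha : h.coeff a ≠ 0 := Finsupp.mem_support_iff.1 ha
  obtain ⟨Q, hQ⟩ : ∃ Q : ℝ, Q = ∑ b ∈ h.coeff.support, f ((h.coeff a)⁻¹ * h.coeff b) := ⟨_, rfl⟩
  refine ⟨Q, ?_, ?_⟩
  · rw [hQ]
    exact Finset.sum_nonneg fun _ _ => f.nonneg _
  rintro x hx r ⟨-, hb⟩ J
  have h1 : 1 - evh x hx h * evh x hx (ainv h a J) =
      (1 - evh x hx (AddMonoidAlgebra.single (-a) (h.coeff a)⁻¹ * h)) ^ J := by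
    rw [← map_mul, mul_ainv, map_sub, map_one, map_pow, map_sub, map_one]
    ring
  rw [h1, map_pow]
  refine pow_le_pow_left₀ (f.nonneg _) ?_ J
  have hma : mono x a ≠ 0 := mono_ne hx a
  have hmn : mono x (-a) * mono x a = 1 := by
    rw [← mono_add hx, neg_add_cancel, mono_zero]
  have h2 : 1 - evh x hx (AddMonoidAlgebra.single (-a) (h.coeff a)⁻¹ * h) =
      -∑ b ∈ h.coeff.support.erase a, (h.coeff a)⁻¹ * h.coeff b * (mono x (-a) * mono x b) := by
    rw [map_mul, evh_single, evh_apply]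
    unfold ev Finsupp.sum
    rw [← Finset.add_sum_erase _ _ ha]
    have h3 : (h.coeff a)⁻¹ * mono x (-a) * (h.coeff a * mono x a +
        ∑ b ∈ h.coeff.support.erase a, h.coeff b * mono x b) =
        ((h.coeff a)⁻¹ * h.coeff a) * (mono x (-a) * mono x a) +
          ∑ b ∈ h.coeff.support.erase a, (h.coeff a)⁻¹ * h.coeff b *
            (mono x (-a) * mono x b) := by
      rw [mul_add, Finset.mul_sum]
      congr 1
      · ring
      · exact Finset.sum_congr rfl fun b _ => by ring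
    rw [h3, hmn, inv_mul_cancel₀ hha]
    ring
  rw [h2, f.map_neg]
  refine (f.sum_le _ _).trans ?_
  rw [hQ, Finset.sum_mul]
  refine (Finset.sum_le_sum fun b hbs => ?_).trans (Finset.sum_le_sum_of_subset_of_nonneg
    (Finset.erase_subset _ _) fun b _ _ => mul_nonneg (f.nonneg _) (Real.exp_pos _).le)
  obtain ⟨h3, h4⟩ := Finset.mem_erase.1 hbs
  rw [map_mul]
  refine mul_le_mul_of_nonneg_left ?_ (f.nonneg _)
  have h5 := hb b h4 h3
  have hpa : 0 < f (mono x a) := f.pos hma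
  have hpb : 0 < f (mono x b) := f.pos (mono_ne hx b)
  have h6 : f (mono x (-a)) = (f (mono x a))⁻¹ := by
    refine eq_inv_of_mul_eq_one_left ?_
    rw [← map_mul, hmn, map_one]
  rw [map_mul, h6, inv_mul_le_iff₀ hpa, ← Real.exp_log hpb, ← Real.exp_log hpa, ← Real.exp_add]
  exact Real.exp_le_exp.2 (by linarith)

end

section

variable {k K : Type} [Field k] [Field K] {m : ℕ}

theorem log_x {ι : k →+* K} {f : AbsoluteValue K ℝ} {v : AbsoluteValue k ℝ}
    (hf : ∀ y, f (ι y) = v y) {u : Fin m → k} {x : Fin m → K} {E : ℕ} (hE : 0 < E)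
    (hxE : ∀ i, x i ^ E = ι (u i)) (a : Fin m → ℤ) :
    Real.log (f (mono x a)) = Real.log (v (mono u a)) / E := by
  have h3 : mono x a ^ E = ι (mono u a) := by
    rw [map_mono]
    unfold mono
    rw [← Finset.prod_pow]
    refine Finset.prod_congr rfl fun i _ => ?_
    show (x i ^ a i) ^ E = ι (u i) ^ a i
    rw [← hxE, ← zpow_natCast (x i ^ a i), ← zpow_mul, mul_comm, zpow_mul, zpow_natCast]
  rw [← hf, ← h3, map_pow, Real.log_pow]
  have hE' : (E : ℝ) ≠ 0 := by exact_mod_cast hE.ne'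
  field_simp

end

section

variable {k : Type} [Field k] [NumberField k] {m : ℕ}

/-- the direction of `u` is not near to the walls -/
def Gn (S : Finset (HeightOneSpectrum (𝓞 k))) (W : Finset (Fin m → ℤ)) (r : ℝ)
    (u : Fin m → k) : Prop := ∀ v ∈ Sp S, ∀ ν ∈ W, r ≤ |dt (dir u v) ν|

/-- the walls of a finite set of exponents -/
noncomputable def wls (s : Finset (Fin m → ℤ)) : Finset (Fin m → ℤ) :=
  open Classical in (s.offDiag.image fun p => p.1 - p.2) ∪ s.erase 0

theorem wls_ne {s : Finset (Fin m → ℤ)} {ν : Fin m → ℤ} (h : ν ∈ wls s) : ν ≠ 0 := by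
  classical
  rcases Finset.mem_union.1 h with h | h
  · obtain ⟨p, hp, rfl⟩ := Finset.mem_image.1 h
    exact sub_ne_zero.2 (Finset.mem_offDiag.1 hp).2.2
  · exact Finset.ne_of_mem_erase h

theorem Gn.gap {S : Finset (HeightOneSpectrum (𝓞 k))} {s : Finset (Fin m → ℤ)} {r : ℝ}
    {u : Fin m → k} (h : Gn S (wls s) r u) (hu : ∀ i, u i ≠ 0) {K : Type} [Field K]
    {ι : k →+* K} {f : AbsoluteValue K ℝ} {v : Pl k} (hv : v ∈ Sp S)
    (hf : ∀ y, f (ι y) = av v y) {x : Fin m → K} {E : ℕ} (hE : 0 < E)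
    (hxE : ∀ i, x i ^ E = ι (u i)) :
    (∀ b ∈ s, ∀ b' ∈ s, b ≠ b' →
      r / E ≤ |Real.log (f (mono x b)) - Real.log (f (mono x b'))|) ∧
    ∀ b ∈ s, b ≠ 0 → r / E ≤ |Real.log (f (mono x b))| := by
  classical
  have hE0 : (0 : ℝ) < E := by exact_mod_cast hE
  have hlog : ∀ a, Real.log (f (mono x a)) = dt (dir u v) a / E := by
    intro a
    rw [log_x hf hE hxE, log_av_mono hu]
  constructor
  · intro b hb b' hb' hne
    have h1 := h v hv (b - b') (Finset.mem_union_left _ (Finset.mem_image.2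
      ⟨(b, b'), Finset.mem_offDiag.2 ⟨hb, hb', hne⟩, rfl⟩))
    rw [dt_sub] at h1
    rw [hlog, hlog, ← sub_div, abs_div, abs_of_pos hE0]
    exact div_le_div_of_nonneg_right h1 hE0.le
  · intro b hb hne
    have h1 := h v hv b (Finset.mem_union_right _ (Finset.mem_erase.2 ⟨hne, hb⟩))
    rw [hlog, abs_div, abs_of_pos hE0]
    exact div_le_div_of_nonneg_right h1 hE0.le

/-- subsets -/
theorem gap_mono {K : Type} [Field K] {f : AbsoluteValue K ℝ} {x : Fin m → K}
    {s s' : Finset (Fin m → ℤ)} (hss : s' ⊆ s) {r : ℝ}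
    (h : ∀ b ∈ s, ∀ b' ∈ s, b ≠ b' →
      r ≤ |Real.log (f (mono x b)) - Real.log (f (mono x b'))|) :
    ∀ b ∈ s', ∀ b' ∈ s', b ≠ b' →
      r ≤ |Real.log (f (mono x b)) - Real.log (f (mono x b'))| :=
  fun b hb b' hb' => h b (hss hb) b' (hss hb')

end

end Pool.Agent.Run7.h489.PX
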