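import Mathlib
import Pool.Agent.Run7.h489.PX.MulA
import Pool.Agent.Run7.h489.PX.MulB

set_option autoImplicit false
set_option linter.unusedSectionVars false

/-!
Expansions along arcs and the local inequality.
-/

namespace Pool.Agent.Run7.h489.PX

open Height NumberField IsDedekindDomain Polynomial
open Pool.Agent.W180.OP (Pl av wt fv nrm wt_nonneg le_nrm exists_nrm nrm_pos)
open Pool.Agent.R404.TC (Sp)
open Pool.Agent.Run7.h489.TM

section

variable {m : ℕ}

/-- the expansion of a form -/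
noncomputable def xp {k B : Type} [CommRing k] [CommRing B]
    (R : (Fin m → ℤ) →₀ MvPolynomial (Fin 2) k) (e : (Fin m → ℤ) → B) (κ : k →+* B) (l : Fin 2)
    (α : B) : B[X] :=
  ∑ a ∈ R.support, C (e a) *
    MvPolynomial.eval₂ (C.comp κ) (fun i => if i = l then X + C α else 1) (R a)

theorem xp_map {k B B' : Type} [CommRing k] [CommRing B] [CommRing B'] (φ : B →+* B')
    (R : (Fin m → ℤ) →₀ MvPolynomial (Fin 2) k) (e : (Fin m → ℤ) → B) (κ : k →+* B) (l : Fin 2)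
    (α : B) : (xp R e κ l α).map φ = xp R (fun a => φ (e a)) (φ.comp κ) l (φ α) := by
  unfold xp
  rw [Polynomial.map_sum]
  refine Finset.sum_congr rfl fun a _ => ?_
  rw [Polynomial.map_mul, map_C]
  congr 1
  rw [← coe_mapRingHom, MvPolynomial.hom_eval₂]
  congr 1
  · refine RingHom.ext fun y => ?_
    simp
  · funext i
    split_ifs
    · simp
    · simp

theorem ch_map {k K : Type} [CommRing k] [CommRing K] (ι : k →+* K) (l : Fin 2)
    (P : MvPolynomial (Fin 2) k) : (ch l P).map ι = ch l (MvPolynomial.map ι P) := by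
  unfold ch
  rw [← coe_mapRingHom, MvPolynomial.hom_eval₂, MvPolynomial.eval₂_map]
  congr 1
  · refine RingHom.ext fun y => ?_
    simp
  · funext i
    split_ifs
    · simp
    · simp

variable {k K : Type} [Field k] [Field K]

/-- the expansion over the Laurent polynomials in the roots -/
noncomputable def xk (ι : k →+* K) (E : ℕ) (R : (Fin m → ℤ) →₀ MvPolynomial (Fin 2) k) (l : Fin 2)
    (α : AddMonoidAlgebra K (Fin m → ℤ)) : (AddMonoidAlgebra K (Fin m → ℤ))[X] :=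
  xp R (fun a => AddMonoidAlgebra.single ((E : ℤ) • a) 1)
    ((algebraMap K (AddMonoidAlgebra K (Fin m → ℤ))).comp ι) l α

theorem evh_alg (x : Fin m → K) (hx : ∀ i, x i ≠ 0) (c : K) :
    evh x hx (algebraMap K (AddMonoidAlgebra K (Fin m → ℤ)) c) = c := by
  rw [AddMonoidAlgebra.coe_algebraMap]
  show evh x hx (AddMonoidAlgebra.single 0 (algebraMap K K c)) = c
  rw [evh_single, mono_zero, mul_one]
  rfl

theorem mono_E {ι : k →+* K} {u : Fin m → k} {x : Fin m → K} {E : ℕ}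
    (hxE : ∀ i, x i ^ E = ι (u i)) (a : Fin m → ℤ) : mono x ((E : ℤ) • a) = ι (mono u a) := by
  rw [map_mono]
  unfold mono
  refine Finset.prod_congr rfl fun i _ => ?_
  show x i ^ ((E : ℤ) * a i) = ι (u i) ^ a i
  rw [zpow_mul, zpow_natCast, hxE]

theorem xk_ev {ι : k →+* K} {E : ℕ} (R : (Fin m → ℤ) →₀ MvPolynomial (Fin 2) k) (l : Fin 2)
    (α : AddMonoidAlgebra K (Fin m → ℤ)) {u : Fin m → k} {x : Fin m → K} (hx : ∀ i, x i ≠ 0)
    (hxE : ∀ i, x i ^ E = ι (u i)) :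
    (xk ι E R l α).map (evh x hx) = taylor (evh x hx α) ((ch l (fb R u)).map ι) := by
  unfold xk
  rw [xp_map, ch_map, taylor_ch, MvPolynomial.eval₂_map]
  have h1 : (evh x hx).comp ((algebraMap K (AddMonoidAlgebra K (Fin m → ℤ))).comp ι) = ι := by
    refine RingHom.ext fun y => ?_
    rw [RingHom.comp_apply, RingHom.comp_apply, evh_alg]
  rw [h1]
  unfold xp fb
  rw [MvPolynomial.eval₂_sum]
  refine Finset.sum_congr rfl fun a _ => ?_
  show C (evh x hx (AddMonoidAlgebra.single ((E : ℤ) • a) 1)) * _ = _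
  rw [MvPolynomial.eval₂_mul, MvPolynomial.eval₂_C, evh_single, one_mul, mono_E hxE]
  rfl

theorem f_evh_le (f : AbsoluteValue K ℝ) {x : Fin m → K} (hx : ∀ i, x i ≠ 0)
    (h : AddMonoidAlgebra K (Fin m → ℤ)) :
    f (evh x hx h) ≤ ∑ b ∈ h.coeff.support, f (h.coeff b) * f (mono x b) := by
  rw [evh_apply]
  unfold ev Finsupp.sum
  refine (f.sum_le _ _).trans (le_of_eq ?_)
  exact Finset.sum_congr rfl fun b _ => map_mul _ _ _

/-- the local inequality -/
theorem mul_local {ι : k →+* K} {f : AbsoluteValue K ℝ} {v : AbsoluteValue k ℝ}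
    (hf : ∀ y, f (ι y) = v y) {u : Fin m → k} {x : Fin m → K} (hx : ∀ i, x i ≠ 0) {E : ℕ}
    (hxE : ∀ i, x i ^ E = ι (u i)) {Fs : Finset ((Fin m → ℤ) →₀ MvPolynomial (Fin 2) k)}
    {G : (Fin m → ℤ) →₀ MvPolynomial (Fin 2) k} {N N' : ℕ}
    (hFs : ∀ F ∈ Fs, ∀ a, (F a).IsHomogeneous N) (hG : ∀ a, (G a).IsHomogeneous N') {l : Fin 2}
    {α : AddMonoidAlgebra K (Fin m → ℤ)} {s : k} (hζ0 : ι s - evh x hx α ≠ 0) {A0 : ℝ}
    (hA0 : 1 ≤ A0) (hζA : f (ι s - evh x hx α) ≤ A0) {D r A : ℝ} (hD : 1 ≤ D) (hr : 0 ≤ r)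
    (hA : 1 ≤ A) (hco : ∀ F ∈ Fs, ∀ i, v ((taylor s (ch l (fb F u))).coeff i) ≤
      D * v (MvPolynomial.eval (pc l s) (fb F u)) * r ^ i)
    (hζr : f (ι s - evh x hx α) * r ≤ A) {A1 : ℝ} (hA1 : 1 ≤ A1)
    (hdom : ∀ F ∈ Fs, ∀ j, ∀ b ∈ ((xk ι E F l α).coeff j).coeff.support,
      f (mono x b) ≤ A1 * f (evh x hx ((xk ι E F l α).coeff j)))
    (hFne : ∀ F ∈ Fs, MvPolynomial.eval (pc l s) (fb F u) ≠ 0)
    (hGne : MvPolynomial.eval (pc l s) (fb G u) ≠ 0) {hA' hA'' Q : ℝ} (hQ1 : 1 ≤ Q)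
    (hQ : ∑ j ∈ Finset.range (N' + 1), ∑ b ∈ ((xk ι E G l α).coeff j).coeff.support,
      f (((xk ι E G l α).coeff j).coeff b) ≤ Q)
    (hcond : ∀ β : ℝ, 0 ≤ β → ∀ j, ∀ b ∈ ((xk ι E G l α).coeff j).coeff.support, ∃ F ∈ Fs, ∃ j',
      ∃ b' ∈ ((xk ι E F l α).coeff j').coeff.support,
        Real.log (f (mono x b)) - j * β - hA' ≤ Real.log (f (mono x b')) - j' * β - hA'' + β) :
    ∃ F ∈ Fs, Real.log (v (MvPolynomial.eval (pc l s) (fb G u))) - hA' ≤
      (Real.log Q + N' * Real.log A0 + Real.log A1 + Real.log ((N + 1) * (2 ^ N * (D * A ^ N)))) +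
        (Real.log (v (MvPolynomial.eval (pc l s) (fb F u))) - hA'') +
        max 0 (-Real.log (f (ι s - evh x hx α))) := by
  classical
  obtain ⟨ζ, hζ⟩ : ∃ ζ : K, ζ = ι s - evh x hx α := ⟨_, rfl⟩
  rw [← hζ] at hζ0 hζA hζr ⊢
  have hfz : 0 < f ζ := f.pos hζ0
  have hcoef : ∀ (R : (Fin m → ℤ) →₀ MvPolynomial (Fin 2) k) (j : ℕ),
      evh x hx ((xk ι E R l α).coeff j) =
        (taylor (evh x hx α) ((ch l (fb R u)).map ι)).coeff j := by
    intro R j
    rw [← xk_ev R l α hx hxE, coeff_map]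
  have hval : f (ι (MvPolynomial.eval (pc l s) (fb G u))) ≤
      ∑ j ∈ Finset.range (N' + 1), ∑ b ∈ ((xk ι E G l α).coeff j).coeff.support,
        f (((xk ι E G l α).coeff j).coeff b) * (f (mono x b) * f ζ ^ j) := by
    rw [← ch_eval, val_tay (f := f) (ι := ι) (ch l (fb G u)) (ch_natDegree l (fb_hom hG u)) s
      (evh x hx α)]
    refine (f.sum_le _ _).trans (Finset.sum_le_sum fun j _ => ?_)
    rw [map_mul, map_pow, ← hζ, ← hcoef]
    refine (mul_le_mul_of_nonneg_right (f_evh_le f hx _) (pow_nonneg hfz.le _)).trans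
      (le_of_eq ?_)
    rw [Finset.sum_mul]
    exact Finset.sum_congr rfl fun b _ => by ring
  have hGpos : 0 < f (ι (MvPolynomial.eval (pc l s) (fb G u))) :=
    f.pos ((_root_.map_ne_zero ι).2 hGne)
  -- the largest monomial
  obtain ⟨ms, hms⟩ : ∃ ms : Finset (Σ _ : ℕ, Fin m → ℤ), ms = (Finset.range (N' + 1)).sigma
    fun j => ((xk ι E G l α).coeff j).coeff.support := ⟨_, rfl⟩
  have hval' : f (ι (MvPolynomial.eval (pc l s) (fb G u))) ≤
      ∑ p ∈ ms, f (((xk ι E G l α).coeff p.1).coeff p.2) * (f (mono x p.2) * f ζ ^ p.1) := by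
    rw [hms, Finset.sum_sigma]
    exact hval
  have hQ' : ∑ p ∈ ms, f (((xk ι E G l α).coeff p.1).coeff p.2) ≤ Q := by
    rw [hms, Finset.sum_sigma]
    exact hQ
  have hmsne : ms.Nonempty := by
    rw [Finset.nonempty_iff_ne_empty]
    intro h0
    rw [h0, Finset.sum_empty] at hval'
    exact absurd hval' (not_le.2 hGpos)
  obtain ⟨p, hp, hmax⟩ := Finset.exists_max_image ms
    (fun p => f (mono x p.2) * f ζ ^ p.1) hmsne
  obtain ⟨j, b⟩ := p
  obtain ⟨hj, hb⟩ := Finset.mem_sigma.1 (hms ▸ hp)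
  simp only at hj hb
  have hmb : 0 < f (mono x b) := f.pos (mono_ne hx b)
  have h1 : f (ι (MvPolynomial.eval (pc l s) (fb G u))) ≤ Q * (f (mono x b) * f ζ ^ j) := by
    refine hval'.trans ?_
    refine (Finset.sum_le_sum fun p hp => mul_le_mul_of_nonneg_left (hmax p hp)
      (f.nonneg _)).trans ?_
    rw [← Finset.sum_mul]
    exact mul_le_mul_of_nonneg_right hQ' (by positivity)
  have h2 := Real.log_le_log hGpos h1
  rw [Real.log_mul (by positivity) (by positivity), Real.log_mul hmb.ne' (by positivity),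
    Real.log_pow, hf] at h2
  obtain ⟨β, hβ⟩ : ∃ β : ℝ, β = max 0 (-Real.log (f ζ)) := ⟨_, rfl⟩
  have hβ0 : 0 ≤ β := by
    rw [hβ]
    exact le_max_left _ _
  have hβ1 : -β ≤ Real.log (f ζ) := by
    rw [hβ]
    have := le_max_right 0 (-Real.log (f ζ))
    linarith
  have hlA0 : 0 ≤ Real.log A0 := Real.log_nonneg hA0
  have hβ2 : Real.log (f ζ) ≤ -β + Real.log A0 := by
    have h3 := Real.log_le_log hfz hζA
    rcases max_cases 0 (-Real.log (f ζ)) with ⟨h4, h5⟩ | ⟨h4, h5⟩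
    · rw [hβ, h4]
      linarith
    · rw [hβ, h4]
      linarith
  have hjN : (j : ℝ) ≤ N' := by
    have := Finset.mem_range.1 hj
    exact_mod_cast Nat.lt_succ_iff.1 this
  have h3 : j * Real.log (f ζ) ≤ -(j * β) + N' * Real.log A0 := by
    have h4 : j * Real.log (f ζ) ≤ j * (-β + Real.log A0) :=
      mul_le_mul_of_nonneg_left hβ2 (Nat.cast_nonneg _)
    have h5 : j * Real.log A0 ≤ N' * Real.log A0 := mul_le_mul_of_nonneg_right hjN hlA0
    linarith
  obtain ⟨F, hF, j', b', hb', hle⟩ := hcond β hβ0 j b hb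
  refine ⟨F, hF, ?_⟩
  have hFpos : 0 < v (MvPolynomial.eval (pc l s) (fb F u)) := v.pos (hFne F hF)
  have hmb' : 0 < f (mono x b') := f.pos (mono_ne hx b')
  have h4 : f (mono x b') * f ζ ^ j' ≤ A1 * ((N + 1) * (2 ^ N *
      (D * v (MvPolynomial.eval (pc l s) (fb F u)) * A ^ N))) := by
    have h5 := hdom F hF j' b' hb'
    rw [hcoef] at h5
    have h6 := tay_shift hf (g := ch l (fb F u)) (N := N)
      (ch_natDegree l (fb_hom (hFs F hF) u)) (s := s) (α := evh x hx α)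
      (D := D * v (MvPolynomial.eval (pc l s) (fb F u))) (r := r) (A := A) (by positivity) hr hA
      (hco F hF) (by rw [← hζ]; exact hζr) j'
    rw [← hζ] at h6
    calc f (mono x b') * f ζ ^ j' ≤ A1 * f ((taylor (evh x hx α)
          ((ch l (fb F u)).map ι)).coeff j') * f ζ ^ j' :=
          mul_le_mul_of_nonneg_right h5 (pow_nonneg hfz.le _)
      _ = A1 * (f ((taylor (evh x hx α) ((ch l (fb F u)).map ι)).coeff j') * f ζ ^ j') := by ring
      _ ≤ _ := mul_le_mul_of_nonneg_left h6 (by linarith)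
  have h5 := Real.log_le_log (by positivity) h4
  have e1 : A1 * ((N + 1) * (2 ^ N * (D * v (MvPolynomial.eval (pc l s) (fb F u)) * A ^ N))) =
      A1 * ((N + 1) * (2 ^ N * (D * A ^ N))) * v (MvPolynomial.eval (pc l s) (fb F u)) := by ring
  have hc1 : (0 : ℝ) < (N + 1) * (2 ^ N * (D * A ^ N)) := by positivity
  rw [e1, Real.log_mul (by positivity) hFpos.ne', Real.log_mul (by positivity) hc1.ne',
    Real.log_mul hmb'.ne' (by positivity), Real.log_pow] at h5
  have h6 : -(j' * β) ≤ j' * Real.log (f ζ) := by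
    have h7 : (j' : ℝ) * (-β) ≤ j' * Real.log (f ζ) :=
      mul_le_mul_of_nonneg_left hβ1 (Nat.cast_nonneg _)
    linarith
  rw [← hβ]
  linarith

end

end Pool.Agent.Run7.h489.PX
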