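import Mathlib
import Pool.Agent.Run7.h489.PX.Main
import Pool.Agent.Run7.h489.PX.MulC

set_option autoImplicit false
set_option linter.unusedSectionVars false

/-!
The targets and their approximation for most tuples of units.
-/

namespace Pool.Agent.Run7.h489.PX

open Height NumberField IsDedekindDomain Polynomial
open Pool.Agent.W180.OP (Pl av wt fv nrm wt_nonneg le_nrm exists_nrm nrm_pos)
open Pool.Agent.R404.TC (Sp)
open Pool.Agent.R405 (Good exists_good)
open Pool.Agent.Run7.h489.LV (IsU IsI mem_Sp_inl mem_Sp_inr)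
open Pool.Agent.Run7.h489.TM
open Pool.Agent.N63.MT (lv ku mn mn_ne)

section

variable {k : Type} [Field k] {m : ℕ}

theorem loc2 {K Λ : Type} [Field K] [Algebra k K] [Field Λ] {fa : AbsoluteValue K ℝ}
    {v : AbsoluteValue k ℝ} (hf : ∀ y, fa (algebraMap k K y) = v y)
    (c : ℕ → AddMonoidAlgebra k (Fin m → ℤ)) {d : ℕ} {u : Fin m → k} (hu : ∀ i, u i ≠ 0) {E : ℕ}
    {x : Fin m → K} (hx : ∀ i, x i ≠ 0) (hxu : ∀ i, x i ^ E = algebraMap k K (u i))
    {P : Multiset (AddMonoidAlgebra K (Fin m → ℤ))} (hP : P.card = d) {τ : ℝ}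
    (hτ : ∀ i, fa (evh x hx (((Phi c d).map (inc m (algebraMap k K) E) -
      (P.map fun p => X - C p).prod).coeff i)) ≤ τ) (hcd : ev (c d).coeff u ≠ 0)
    {t : Fin 2 → k} (ht : t ≠ 0) (hF : fvl (RingHom.id k) c d u t ≠ 0)
    (hsmall : 2 * ((d + 1) * (τ * (2 ^ d * max 1 (v (ev (c d).coeff u)) ^ d))) *
      max (v (t 0)) (v (t 1)) ^ d ≤
      v (hv d (Phi (fun i => ev (c i).coeff u) d) (ev (c d).coeff u * t 0) (t 1)))
    {κ : k →+* Λ} {w : AbsoluteValue Λ ℝ} (hw : ∀ z, w (κ z) = v z) {y : Fin 2 → Λ} (hy : y ≠ 0)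
    (hroot : fvl κ c d u y = 0) :
    ∃ p ∈ P, algebraMap k K (ev (c d).coeff u) * algebraMap k K (t 0) -
        evh x hx p * algebraMap k K (t 1) ≠ 0 ∧ Real.log (nrm v t) + Real.log (nrm w y) -
        Real.log (w (κ (t 0) * y 1 - κ (t 1) * y 0)) ≤
      (d + 5) * Real.log 2 + tm fa v (algebraMap k K (ev (c d).coeff u))
        (some (evh x hx p)) t := by
  have hinc : ∀ h : AddMonoidAlgebra k (Fin m → ℤ), evh x hx (inc m (algebraMap k K) E h) =
      algebraMap k K (ev h.coeff u) := by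
    intro h
    have h1 := congrArg (fun g => g h) (evh_inc (algebraMap k K) hx hu hxu)
    simp only [RingHom.comp_apply] at h1
    rw [h1, evh_apply]
  have hmap : (Phi (fun i => ev (c i).coeff u) d).map (algebraMap k K) -
      ((P.map (evh x hx)).map fun p => X - C p).prod =
      ((Phi c d).map (inc m (algebraMap k K) E) - (P.map fun p => X - C p).prod).map
        (evh x hx) := by
    rw [Polynomial.map_sub, Phi_map, Phi_map, Phi_map, Polynomial.map_multiset_prod,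
      Multiset.map_map, Multiset.map_map]
    congr 1
    · congr 1
      funext i
      exact (hinc (c i)).symm
    · congr 1
      refine Multiset.map_congr rfl fun p _ => ?_
      rw [Function.comp_apply, Function.comp_apply, Polynomial.map_sub, Polynomial.map_X,
        Polynomial.map_C]
  have hne : hv d (Phi (fun i => ev (c i).coeff u) d) (ev (c d).coeff u * t 0) (t 1) ≠ 0 := by
    intro h0
    have h1 := hv_Phi (fun i => ev (c i).coeff u) d (t 0) (t 1)
    rw [h0, mul_zero] at h1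
    rcases mul_eq_zero.1 h1.symm with h2 | h2
    · exact pow_ne_zero _ hcd h2
    · exact hF h2
  have hroot' : hv d ((Phi (fun i => ev (c i).coeff u) d).map κ) (κ (ev (c d).coeff u) * y 0)
      (y 1) = 0 := by
    rw [Phi_map]
    have h1 := hv_Phi (fun i => κ (ev (c i).coeff u)) d (y 0) (y 1)
    have h2 : ∑ i ∈ Finset.range (d + 1), κ (ev (c i).coeff u) * (y 0 ^ i * y 1 ^ (d - i)) = 0 :=
      hroot
    rw [h2, mul_zero] at h1
    exact (mul_eq_zero.1 h1).resolve_left ((_root_.map_ne_zero κ).2 hcd)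
  obtain ⟨a, ha, hLa, hle⟩ := near_root (algebraMap k K) κ hf hw
    (q := P.map (evh x hx)) (by rw [Multiset.card_map, hP]) hcd ht (τ := τ) (fun i => by
      rw [hmap, coeff_map]
      exact hτ i) hsmall hne hroot'
  obtain ⟨p, hp, rfl⟩ := Multiset.mem_map.1 ha
  refine ⟨p, hp, by rw [← map_mul]; exact hLa, ?_⟩
  have h1 : 0 < nrm w y := nrm_pos w hy
  have h2 : 0 < fa (algebraMap k K (ev (c d).coeff u * t 0) - evh x hx p * algebraMap k K (t 1)) :=
    fa.pos hLa
  rw [← nrm2] at hle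
  have h3 : 0 < max (v (ev (c d).coeff u)) (fa (evh x hx p)) := lt_max_of_lt_left (v.pos hcd)
  have h4 : 0 < w (κ (t 0) * y 1 - κ (t 1) * y 0) := by
    by_contra hcon
    have h5 : w (κ (t 0) * y 1 - κ (t 1) * y 0) = 0 := le_antisymm (not_lt.1 hcon) (w.nonneg _)
    rw [h5, mul_zero] at hle
    exact absurd hle (not_le.2 (mul_pos h1 h2))
  have h5 := Real.log_le_log (mul_pos h1 h2) hle
  have h6 : (0 : ℝ) < 2 ^ (d + 5) := by positivity
  rw [Real.log_mul h1.ne' h2.ne', Real.log_mul (mul_pos h6 h3).ne' h4.ne',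
    Real.log_mul h6.ne' h3.ne', Real.log_pow] at h5
  have e5 : ((d + 5 : ℕ) : ℝ) = d + 5 := by
    push_cast
    ring
  rw [e5] at h5
  unfold tm
  simp only
  rw [hf, ← map_mul]
  linarith

end

variable {k : Type} [Field k] [NumberField k] {m : ℕ}

/-- the target does not vanish -/
def nv {k K : Type} [Field k] [Field K] [Algebra k K] (c : K) (o : Option K) (t : Fin 2 → k) :
    Prop :=
  match o with
  | none => True
  | some p => c * algebraMap k K (t 0) - p * algebraMap k K (t 1) ≠ 0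

/-- the good tuples -/
def Gd {K : Type} [Field K] [Algebra k K] (S : Finset (HeightOneSpectrum (𝓞 k)))
    (c : ℕ → AddMonoidAlgebra k (Fin m → ℤ)) (d : ℕ) (E : ℕ) (fa : Pl k → AbsoluteValue K ℝ)
    (cK : AddMonoidAlgebra K (Fin m → ℤ)) (els : Finset (AddMonoidAlgebra K (Fin m → ℤ)))
    (G : MvPolynomial (Fin m ⊕ Fin 2) k) (ε B C T : ℝ) (u : Fin m → k) : Prop :=
  ∃ x : Fin m → K, (∀ i, x i ≠ 0) ∧ (∀ i, x i ^ E = algebraMap k K (u i)) ∧
    ∀ t : Fin 2 → k, MvPolynomial.eval (Sum.elim u t) G ≠ 0 → fvl (RingHom.id k) c d u t ≠ 0 →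
      logHeight t ≤ B * T → t 1 ≠ 0 ∧ ev cK.coeff x ≠ 0 ∧
        (∀ J : Pl k → Option els, ∑ v ∈ Sp S, wt v * tm (fa v) (av v) (ev cK.coeff x)
          ((J v).map fun p => ev p.1.coeff x) t ≤ (2 + ε) * logHeight t + ε * hs u + C) ∧
        ∀ v ∈ Sp S, ∀ y : ℝ, LV c d (av v) u t y → ∃ o : Option els,
          nv (ev cK.coeff x) (o.map fun p => ev p.1.coeff x) t ∧
          y ≤ (d + 5) * Real.log 2 + tm (fa v) (av v) (ev cK.coeff x)
            (o.map fun p => ev p.1.coeff x) t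

theorem tgt (S : Finset (HeightOneSpectrum (𝓞 k))) (hS : 2 ≤ (Sp S).card)
    (c : ℕ → AddMonoidAlgebra k (Fin m → ℤ)) (d : ℕ) (hcd : c d ≠ 0) {ε η B : ℝ} (hε : 0 < ε)
    (hη : 0 < η) (hB : 0 ≤ B) :
    ∃ (E : ℕ) (K : Type) (_ : Field K) (_ : NumberField K) (_ : Algebra k K)
      (_ : K →ₐ[k] AlgebraicClosure k) (fa : Pl k → AbsoluteValue K ℝ)
      (cK : AddMonoidAlgebra K (Fin m → ℤ)) (els : Finset (AddMonoidAlgebra K (Fin m → ℤ)))
      (G : MvPolynomial (Fin m ⊕ Fin 2) k) (C T₀ : ℝ), 0 < E ∧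
      (∀ v y, fa v (algebraMap k K y) = av v y) ∧ G ≠ 0 ∧ 1 ≤ T₀ ∧ ∀ T : ℝ, T₀ ≤ T →
        (({u | u ∈ Bx m S T ∧ ¬ Gd S c d E fa cK els G ε B C T u}.ncard : ℕ) : ℝ) ≤
          η * (UF S T).card ^ m := by
  classical
  obtain ⟨L, hL⟩ := small_ok S c d hB
  obtain ⟨rt, hrt⟩ := exists_rt k
  have hk : ∀ E : ℕ, ∃ Ξ : Finset k, 0 < E → (∀ ξ ∈ Ξ, IsU S ξ) ∧
      ∀ x : k, IsU S x → ∃ ξ ∈ Ξ, ∃ w, IsU S w ∧ x = ξ * w ^ E := by
    intro E
    by_cases hE : 0 < E
    · obtain ⟨Ξ, h⟩ := kummer S hE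
      exact ⟨Ξ, fun _ => h⟩
    · exact ⟨∅, fun h => absurd h hE⟩
  choose Ξ hΞ using hk
  obtain ⟨Z, E, K, hK1, hK2, hK3, φ, Ps, hZ, hE, hK4, hi, hext, hcard, happ⟩ :=
    transfer (dens S hS) (Φ := Phi c d) (Phi_monic c d) (natDegree_Phi c d)
      (fun E => (Ξ E).image (rt E)) L hη
  have hE0 : 0 < E := Nat.pos_of_ne_zero hE
  obtain ⟨hΞU, hΞr⟩ := hΞ E hE0
  have hint : ∀ a : K, (algebraMap k K).IsIntegralElem a := by
    intro a
    have hfd : FiniteDimensional ℚ K := inferInstance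
    have hfk : FiniteDimensional k K := Module.Finite.of_restrictScalars_finite ℚ k K
    have halg : Algebra.IsAlgebraic k K := Algebra.IsAlgebraic.of_finite k K
    exact (halg.isAlgebraic a).isIntegral
  choose fa hfa using fun v : Pl k => exists_good (K := K) v
  have hfe : ∀ (v : Pl k) (y : k), fa v (algebraMap k K y) = av v y := fun v y => (hfa v).ext y
  have hrr : ∀ ξ : k, ∃ y : K, ξ ∈ Ξ E → φ y = rt E ξ := by
    intro ξ
    by_cases h : ξ ∈ Ξ E
    · obtain ⟨y, hy⟩ := hext _ (Finset.mem_image_of_mem _ h)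
      exact ⟨y, fun _ => hy⟩
    · exact ⟨0, fun h' => absurd h' h⟩
  choose rr hrr using hrr
  have hrrE : ∀ ξ ∈ Ξ E, rr ξ ^ E = algebraMap k K ξ := by
    intro ξ hξ
    refine (φ : K →+* AlgebraicClosure k).injective ?_
    show φ (rr ξ ^ E) = φ (algebraMap k K ξ)
    rw [map_pow, hrr ξ hξ, hrt E hE0, AlgHom.commutes]
  have hrr0 : ∀ ξ ∈ Ξ E, rr ξ ≠ 0 := by
    intro ξ hξ h0
    have h1 := hrrE ξ hξ
    rw [h0, zero_pow hE] at h1
    exact (hΞU ξ hξ).1 ((map_eq_zero _).1 h1.symm)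
  obtain ⟨els, hels⟩ : ∃ els : Finset (AddMonoidAlgebra K (Fin m → ℤ)),
      els = Ps.biUnion fun P => P.toFinset := ⟨_, rfl⟩
  have hmem : ∀ P ∈ Ps, ∀ p ∈ P, p ∈ els := by
    intro P hP p hp
    rw [hels]
    exact Finset.mem_biUnion.2 ⟨P, hP, Multiset.mem_toFinset.2 hp⟩
  obtain ⟨cK, hcK⟩ : ∃ cK : AddMonoidAlgebra K (Fin m → ℤ), cK = inc m (algebraMap k K) E (c d) :=
    ⟨_, rfl⟩
  obtain ⟨pi, hpi⟩ : ∃ pi : Finset (Fin m → k), pi = Fintype.piFinset fun _ => Ξ E := ⟨_, rfl⟩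
  have hpim : ∀ ξ ∈ pi, ∀ i, ξ i ∈ Ξ E := fun ξ hξ i => by
    rw [hpi] at hξ
    exact Fintype.mem_piFinset.1 hξ i
  have hgl := fun ξ : Fin m → k => glob hi S fa hfa (els.image fun p => p.coeff) cK.coeff
    (fun i => rr (ξ i)) hε
  choose Zx Cx hZx hmain using hgl
  -- the exceptional set
  have hpush : ∀ (ξ : Fin m → k) (P : Fin 2 → MvPolynomial (Fin m) K), ∃ G :
      MvPolynomial (Fin m ⊕ Fin 2) k, ξ ∈ pi → P ∈ Zx ξ → G ≠ 0 ∧
      ∀ (u w : Fin m → k) (t : Fin 2 → k), (∀ i, u i = ξ i * w i ^ E) →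
        MvPolynomial.eval (Sum.elim u t) G ≠ 0 → lv P (ku K w) (ku K t) ≠ 0 := by
    intro ξ P
    by_cases h : ξ ∈ pi ∧ P ∈ Zx ξ
    · obtain ⟨G, hG, hG'⟩ := push (algebraMap k K) hint (ξ := ξ)
        (fun i => (hΞU _ (hpim ξ h.1 i)).1) hE0 (lpol_ne (hZx ξ P h.2))
      refine ⟨G, fun _ _ => ⟨hG, fun u w t hu hGe => ?_⟩⟩
      have h1 := hG' u w t hu hGe
      rwa [eval_lpol] at h1
    · exact ⟨0, fun h1 h2 => absurd ⟨h1, h2⟩ h⟩
  choose Gp hGp using hpush
  obtain ⟨E1, qd, hqd0, hqd⟩ := clear' (c d).coeff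
  have hcd' : (c d).coeff ≠ 0 := fun h => hcd (AddMonoidAlgebra.coeff_eq_zero.1 h)
  obtain ⟨G, hG⟩ : ∃ G : MvPolynomial (Fin m ⊕ Fin 2) k, G = MvPolynomial.X (Sum.inr 1) *
    MvPolynomial.rename Sum.inl qd * ∏ ξ ∈ pi, ∏ P ∈ Zx ξ, Gp ξ P := ⟨_, rfl⟩
  -- the constants
  obtain ⟨sz, hsz⟩ : ∃ sz : Pl k → Multiset (AddMonoidAlgebra K (Fin m → ℤ)) → ℕ → ℝ,
    ∀ v P i, sz v P i = ∑ a ∈ (((Phi c d).map (inc m (algebraMap k K) E) -
      (P.map fun p => X - C p).prod).coeff i).coeff.support,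
      fa v ((((Phi c d).map (inc m (algebraMap k K) E) -
        (P.map fun p => X - C p).prod).coeff i).coeff a) := ⟨_, fun _ _ _ => rfl⟩
  have hsz0 : ∀ v P i, 0 ≤ sz v P i := fun v P i => by
    rw [hsz]
    exact Finset.sum_nonneg fun _ _ => (fa v).nonneg _
  obtain ⟨A, hA⟩ : ∃ A : ℝ, A = ∑ v ∈ Sp S, ∑ P ∈ Ps, ∑ i ∈ Finset.range (d + 1), sz v P i :=
    ⟨_, rfl⟩
  have hA0 : 0 ≤ A := by
    rw [hA]
    exact Finset.sum_nonneg fun _ _ => Finset.sum_nonneg fun _ _ =>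
      Finset.sum_nonneg fun _ _ => hsz0 _ _ _
  have hAle : ∀ v ∈ Sp S, ∀ P ∈ Ps, ∀ i < d + 1, sz v P i ≤ A := by
    intro v hv P hP i hi
    have h1 : sz v P i ≤ ∑ i ∈ Finset.range (d + 1), sz v P i :=
      Finset.single_le_sum (f := fun i => sz v P i) (fun _ _ => hsz0 _ _ _) (Finset.mem_range.2 hi)
    have h2 : ∑ i ∈ Finset.range (d + 1), sz v P i ≤
        ∑ P ∈ Ps, ∑ i ∈ Finset.range (d + 1), sz v P i :=
      Finset.single_le_sum (f := fun P => ∑ i ∈ Finset.range (d + 1), sz v P i)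
        (fun _ _ => Finset.sum_nonneg fun _ _ => hsz0 _ _ _) hP
    have h3 : ∑ P ∈ Ps, ∑ i ∈ Finset.range (d + 1), sz v P i ≤ A := by
      rw [hA]
      exact Finset.single_le_sum (f := fun v => ∑ P ∈ Ps, ∑ i ∈ Finset.range (d + 1), sz v P i)
        (fun _ _ => Finset.sum_nonneg fun _ _ => Finset.sum_nonneg fun _ _ => hsz0 _ _ _) hv
    exact h1.trans (h2.trans h3)
  obtain ⟨T₀, hT₀1, hsm⟩ := hL A
  obtain ⟨T₁, hT₁⟩ := hZ
  obtain ⟨Cm, hCm0, hCm⟩ : ∃ Cm : ℝ, 0 ≤ Cm ∧ ∀ ξ ∈ pi, |Cx ξ| ≤ Cm :=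
    ⟨∑ ξ ∈ pi, |Cx ξ|, Finset.sum_nonneg fun _ _ => abs_nonneg _, fun ξ hξ =>
      Finset.single_le_sum (f := fun ξ => |Cx ξ|) (fun _ _ => abs_nonneg _) hξ⟩
  obtain ⟨Ch, hCh0, hCh⟩ : ∃ Ch : ℝ, 0 ≤ Ch ∧ ∀ ξ ∈ pi, hs ξ ≤ Ch :=
    ⟨∑ ξ ∈ pi, hs ξ, Finset.sum_nonneg fun _ _ => hs_nonneg _, fun ξ hξ =>
      Finset.single_le_sum (f := fun ξ => hs ξ) (fun _ _ => hs_nonneg _) hξ⟩
  obtain ⟨ws, hws⟩ : ∃ ws : ℝ, ws = wS S := ⟨_, rfl⟩
  refine ⟨E, K, inferInstance, inferInstance, inferInstance, φ, fa, cK, els, G, Cm + ε * Ch,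
    max T₀ T₁, hE0, hfe, ?_, hT₀1.trans (le_max_left _ _), fun T hT => ?_⟩
  · rw [hG]
    refine mul_ne_zero (mul_ne_zero (MvPolynomial.X_ne_zero _) ?_) ?_
    · intro h0
      apply hqd0 hcd'
      apply MvPolynomial.rename_injective (Sum.inl : Fin m → Fin m ⊕ Fin 2) Sum.inl_injective
      rw [h0, map_zero]
    · exact Finset.prod_ne_zero_iff.2 fun ξ hξ => Finset.prod_ne_zero_iff.2 fun P hP =>
        (hGp ξ P hξ hP).1
  have hTT₀ : T₀ ≤ T := (le_max_left _ _).trans hT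
  have hT1 : 1 ≤ T := hT₀1.trans hTT₀
  have hT0 : 0 < T := by linarith
  refine le_trans ?_ (hT₁ T ((le_max_right _ _).trans hT))
  rw [Nat.cast_le]
  refine Set.ncard_le_ncard ?_ (bd_finite S Z T)
  rintro u ⟨huB, hnG⟩
  refine ⟨huB, ?_⟩
  by_contra hcon
  push Not at hcon
  apply hnG
  have huU := mem_Bx.1 huB
  have hu0 : ∀ i, u i ≠ 0 := fun i => (huU i).1.1
  -- the classes
  have hcl := fun i => hΞr (u i) (huU i).1
  choose ξ hξ w hwU hw using hcl
  have hξpi : ξ ∈ pi := by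
    rw [hpi]
    exact Fintype.mem_piFinset.2 hξ
  have hw0 : ∀ i, w i ≠ 0 := fun i => (hwU i).1
  obtain ⟨x', hx'⟩ : ∃ x' : Fin m → K, x' = rw' (fun i => rr (ξ i)) w := ⟨_, rfl⟩
  have hx'0 : ∀ i, x' i ≠ 0 := fun i => by
    rw [hx']
    exact mul_ne_zero (hrr0 _ (hξ i)) ((_root_.map_ne_zero _).2 (hw0 i))
  have hx'E : ∀ i, x' i ^ E = algebraMap k K (u i) := fun i => by
    rw [hx']
    show (rr (ξ i) * algebraMap k K (w i)) ^ E = _
    rw [mul_pow, hrrE _ (hξ i), ← map_pow, ← map_mul, ← hw i]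
  refine ⟨x', hx'0, hx'E, fun t hGe hF htB => ?_⟩
  -- the nonvanishing
  rw [hG, map_mul, map_mul, map_prod] at hGe
  have ht1 : t 1 ≠ 0 := by
    intro h0
    apply hGe
    rw [MvPolynomial.eval_X]
    show t 1 * _ * _ = 0
    rw [h0, zero_mul, zero_mul]
  have hcdu : ev (c d).coeff u ≠ 0 := by
    intro h0
    apply hGe
    rw [MvPolynomial.eval_rename]
    have h1 : (Sum.elim u t : Fin m ⊕ Fin 2 → k) ∘ Sum.inl = u := rfl
    rw [h1, hqd u hu0, h0, mul_zero, mul_zero, zero_mul]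
  have hprod : ∀ P ∈ Zx ξ, lv P (ku K w) (ku K t) ≠ 0 := by
    intro P hP
    refine (hGp ξ P hξpi hP).2 u w t hw ?_
    intro h0
    apply hGe
    have h1 : ∏ ξ ∈ pi, MvPolynomial.eval (Sum.elim u t) (∏ P ∈ Zx ξ, Gp ξ P) = 0 := by
      refine Finset.prod_eq_zero hξpi ?_
      rw [map_prod]
      exact Finset.prod_eq_zero hP h0
    rw [h1, mul_zero]
  have ht : t ≠ 0 := fun h => ht1 (by rw [h, Pi.zero_apply])
  have hcKu : ev cK.coeff x' = algebraMap k K (ev (c d).coeff u) := by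
    have h1 := congrArg (fun g => g (c d)) (evh_inc (algebraMap k K) hx'0 hu0 hx'E)
    simp only [RingHom.comp_apply] at h1
    rw [evh_apply, evh_apply] at h1
    rw [hcK]
    exact h1
  have hnev : hv d (Phi (fun i => ev (c i).coeff u) d) (ev (c d).coeff u * t 0) (t 1) ≠ 0 := by
    intro h0
    have h1 := hv_Phi (fun i => ev (c i).coeff u) d (t 0) (t 1)
    rw [h0, mul_zero] at h1
    rcases mul_eq_zero.1 h1.symm with h2 | h2
    · exact pow_ne_zero _ hcdu h2
    · exact hF h2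
  have hhu : hs u ≤ m * T := by
    unfold hs
    refine (Finset.sum_le_sum fun i _ => (huU i).2).trans ?_
    rw [Finset.sum_const, Finset.card_univ, Fintype.card_fin, nsmul_eq_mul]
  refine ⟨ht1, by rw [hcKu]; exact (_root_.map_ne_zero _).2 hcdu, ?_, ?_⟩
  · intro J
    have hfin := hmain ξ w t hwU ht hprod (by
      rw [← hx', hcKu]
      exact (_root_.map_ne_zero _).2 hcdu) fun v => (J v).map fun p =>
        ⟨p.1.coeff, Finset.mem_image_of_mem _ p.2⟩
    rw [← hx'] at hfin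
    have hhw : hs w ≤ hs u + hs ξ := by
      unfold hs
      rw [← Finset.sum_add_distrib]
      refine Finset.sum_le_sum fun i _ => ?_
      have h1 : w i ^ E = u i * (ξ i)⁻¹ := by
        rw [hw i]
        have := (hΞU _ (hξ i)).1
        field_simp
      have h2 : (E : ℝ) * logHeight₁ (w i) = logHeight₁ (u i * (ξ i)⁻¹) := by
        rw [← h1, logHeight₁_pow]
      have h3 := logHeight₁_mul_le (u i) (ξ i)⁻¹
      rw [logHeight₁_inv] at h3
      have h4 : logHeight₁ (w i) ≤ (E : ℝ) * logHeight₁ (w i) := by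
        refine le_mul_of_one_le_left (zero_le_logHeight₁ _) ?_
        exact_mod_cast hE0
      linarith
    have hξh := hCh ξ hξpi
    have hξc := (le_abs_self _).trans (hCm ξ hξpi)
    have h5 : ε * hs w ≤ ε * hs u + ε * Ch := by
      rw [← mul_add]
      exact mul_le_mul_of_nonneg_left (by linarith) hε.le
    simp only [Option.map_map, Function.comp_def] at hfin
    linarith
  · intro v hvS y' hx
    obtain ⟨Λ, hΛ, κ, ww, y, hww, hy, hroot, hxv⟩ := hx
    have hlog2 : 0 ≤ (d + 5) * Real.log 2 := by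
      have : 0 ≤ Real.log 2 := Real.log_nonneg (by norm_num)
      positivity
    by_cases hy1 : y 1 = 0
    · refine ⟨none, trivial, ?_⟩
      have hy0 : y 0 ≠ 0 := by
        intro h0
        apply hy
        funext i
        fin_cases i
        · exact h0
        · exact hy1
      have h1 : nrm ww y = ww (y 0) := by
        rw [nrm2, hy1, map_zero, max_eq_left (ww.nonneg _)]
      have h2 : ww (κ (t 0) * y 1 - κ (t 1) * y 0) = av v (t 1) * ww (y 0) := by
        rw [hy1, mul_zero, zero_sub, ww.map_neg, map_mul, hww]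
      rw [hxv, h1, h2, Real.log_mul ((av v).pos ht1).ne' (ww.pos hy0).ne']
      show _ ≤ (d + 5) * Real.log 2 + (Real.log (nrm (av v) t) - Real.log (av v (t 1)))
      linarith
    · have hroot' : fvl κ c d u y = 0 := hroot.resolve_left hy1
      have hθ := hcon v hvS
      obtain ⟨P, hP, hsupp⟩ := happ _ (dir_mem hT0 huB hvS) hθ
      have hτ : ∀ i, fa v (evh x' hx'0 (((Phi c d).map (inc m (algebraMap k K) E) -
          (P.map fun p => X - C p).prod).coeff i)) ≤ A * Real.exp (-L * T) := by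
        intro i
        refine (evh_le (fa v) x' hx'0 _ (b := -L * T) ?_).trans ?_
        · intro a ha
          have h1 := hsupp i a ha
          rw [dr_dv, dt_div] at h1
          have h2 : (E : ℝ) * Real.log (fa v (mono x' a)) = dt (dir u v) a := by
            have h3 : mono x' a ^ E = algebraMap k K (mono u a) := by
              rw [map_mono]
              unfold mono
              rw [← Finset.prod_pow]
              refine Finset.prod_congr rfl fun i _ => ?_
              show (x' i ^ a i) ^ E = algebraMap k K (u i) ^ a i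
              rw [← hx'E, ← zpow_natCast (x' i ^ a i), ← zpow_mul, mul_comm, zpow_mul,
                zpow_natCast]
            rw [← log_av_mono hu0, ← hfe, ← h3, map_pow, Real.log_pow]
          have hE' : (0 : ℝ) < E := by exact_mod_cast hE0
          rw [← h2] at h1
          have h4 : (E : ℝ) * Real.log (fa v (mono x' a)) / T / E =
              Real.log (fa v (mono x' a)) / T := by
            field_simp
          rw [h4, div_le_iff₀ hT0] at h1
          exact h1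
        · refine mul_le_mul_of_nonneg_right ?_ (Real.exp_pos _).le
          rw [← hsz]
          by_cases hi : i < d + 1
          · exact hAle v hvS P hP i hi
          · have h0 : ((Phi c d).map (inc m (algebraMap k K) E) -
                (P.map fun p => X - C p).prod).coeff i = 0 := by
              apply coeff_eq_zero_of_natDegree_lt
              refine (natDegree_sub_le _ _).trans_lt (max_lt ?_ ?_)
              · refine natDegree_map_le.trans_lt ?_
                rw [natDegree_Phi]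
                omega
              · rw [natDegree_multiset_prod_X_sub_C_eq_card, hcard P hP]
                omega
            rw [hsz, h0]
            simp only [AddMonoidAlgebra.coeff_zero, Finsupp.support_zero, Finset.sum_empty]
            exact hA0
      obtain ⟨p, hp, hnv, hle⟩ := loc2 (hfe v) c hu0 hx'0 hx'E (hcard P hP) hτ hcdu ht hF
        (hsm T hTT₀ u t hu0 hhu htB ht1 hnev v hvS) hww hy hroot'
      refine ⟨some ⟨p, hmem P hP p hp⟩, ?_, ?_⟩
      · show ev cK.coeff x' * algebraMap k K (t 0) - ev p.coeff x' * algebraMap k K (t 1) ≠ 0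
        rw [hcKu, ← evh_apply x' hx'0]
        exact hnv
      · rw [hxv, hcKu]
        rw [evh_apply] at hle
        exact hle

end Pool.Agent.Run7.h489.PX
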