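import Mathlib
import Pool.Agent.Run7.h489.PX.MulD

set_option autoImplicit false
set_option linter.unusedSectionVars false

/-!
The choice of an arc near to the nearest target.
-/

namespace Pool.Agent.Run7.h489.PX

open Height NumberField IsDedekindDomain Polynomial
open Pool.Agent.W180.OP (Pl av wt fv nrm wt_nonneg le_nrm exists_nrm nrm_pos)
open Pool.Agent.R404.TC (Sp)
open Pool.Agent.Run7.h489.TM

section

variable {K : Type} [Field K]

theorem apx (f : AbsoluteValue K ℝ) {a b s β : K} {ρ τ : ℝ} (hb : b ≠ 0) (hρ0 : 0 < ρ)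
    (hρ : ρ ≤ 1 / 2) (hs : f s ≤ 1) (h : f (b * s - a) = ρ * max (f a) (f b)) (hτ : τ ≤ ρ / 4)
    (hβ : f (1 - b * β) ≤ τ) :
    f (a * β) ≤ 4 ∧ ρ / 4 ≤ f (s - a * β) ∧ f (s - a * β) ≤ 4 * ρ := by
  have hfb : 0 < f b := f.pos hb
  have hfa : 0 ≤ f a := f.nonneg _
  have h1 : f a ≤ 2 * f b := by
    rcases le_total (f a) (f b) with h2 | h2
    · linarith
    · rw [max_eq_left h2] at h
      have h3 : f a ≤ f (b * s) + f (b * s - a) := by
        have h4 : a = b * s - (b * s - a) := by ring
        conv_lhs => rw [h4]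
        exact f.sub_le_add _ _
      rw [map_mul] at h3
      have h4 : f b * f s ≤ f b := mul_le_of_le_one_right hfb.le hs
      have h5 : ρ * f a ≤ 1 / 2 * f a := mul_le_mul_of_nonneg_right hρ hfa
      linarith
  have h2 : max (f a) (f b) ≤ 2 * f b := max_le h1 (by linarith)
  have h3 : f b ≤ max (f a) (f b) := le_max_right _ _
  obtain ⟨z, hz⟩ : ∃ z : K, z = (b * s - a) / b := ⟨_, rfl⟩
  obtain ⟨w, hw⟩ : ∃ w : K, w = a / b * (1 - b * β) := ⟨_, rfl⟩
  have hzw : s - a * β = z + w := by
    rw [hz, hw]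
    field_simp
    ring
  have hz1 : f z ≤ 2 * ρ := by
    rw [hz, map_div₀, h, div_le_iff₀ hfb]
    have := mul_le_mul_of_nonneg_left h2 hρ0.le
    linarith
  have hz2 : ρ ≤ f z := by
    rw [hz, map_div₀, h, le_div_iff₀ hfb]
    exact mul_le_mul_of_nonneg_left h3 hρ0.le
  have hab : f (a / b) ≤ 2 := by
    rw [map_div₀, div_le_iff₀ hfb]
    exact h1
  have hτ0 : 0 ≤ τ := (f.nonneg _).trans hβ
  have hw1 : f w ≤ ρ / 2 := by
    rw [hw, map_mul]
    calc f (a / b) * f (1 - b * β) ≤ 2 * τ := mul_le_mul hab hβ (f.nonneg _) (by norm_num)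
      _ ≤ ρ / 2 := by linarith
  refine ⟨?_, ?_, ?_⟩
  · have h4 : a * β = a / b * (b * β) := by
      field_simp
    rw [h4, map_mul]
    have h5 : f (b * β) ≤ 1 + τ := by
      have h6 : b * β = 1 - (1 - b * β) := by ring
      rw [h6]
      refine (f.sub_le_add _ _).trans ?_
      rw [map_one]
      linarith
    calc f (a / b) * f (b * β) ≤ 2 * (1 + τ) := mul_le_mul hab h5 (f.nonneg _) (by norm_num)
      _ ≤ 4 := by linarith
  · rw [hzw]
    have h4 : f z ≤ f (z + w) + f w := by
      have h5 : z = (z + w) - w := by ring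
      conv_lhs => rw [h5]
      exact f.sub_le_add _ _
    linarith
  · rw [hzw]
    have h4 := f.add_le z w
    linarith

variable {k : Type} [Field k]

theorem chart0 (v : AbsoluteValue k ℝ) {t : Fin 2 → k} (h : v (t 0) ≤ v (t 1)) (h1 : t 1 ≠ 0) :
    (∀ i, t i = t 1 * pc 0 (t 0 / t 1) i) ∧ v (t 0 / t 1) ≤ 1 ∧ nrm v t = v (t 1) := by
  refine ⟨fun i => ?_, ?_, ?_⟩
  · fin_cases i
    · show t 0 = t 1 * (t 0 / t 1)
      field_simp
    · show t 1 = t 1 * 1
      rw [mul_one]
  · rw [map_div₀, div_le_one (v.pos h1)]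
    exact h
  · rw [nrm2, max_eq_right h]

theorem chart1 (v : AbsoluteValue k ℝ) {t : Fin 2 → k} (h : v (t 1) ≤ v (t 0)) (h1 : t 0 ≠ 0) :
    (∀ i, t i = t 0 * pc 1 (t 1 / t 0) i) ∧ v (t 1 / t 0) ≤ 1 ∧ nrm v t = v (t 0) := by
  refine ⟨fun i => ?_, ?_, ?_⟩
  · fin_cases i
    · show t 0 = t 0 * 1
      rw [mul_one]
    · show t 1 = t 0 * (t 1 / t 0)
      field_simp
  · rw [map_div₀, div_le_one (v.pos h1)]
    exact h
  · rw [nrm2, max_eq_left h]

theorem arc [Algebra k K] {f : AbsoluteValue K ℝ} {v : AbsoluteValue k ℝ}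
    (hf : ∀ y, f (algebraMap k K y) = v y) {t : Fin 2 → k} (ht1 : t 1 ≠ 0) {c : K} (hc : c ≠ 0)
    {ι : Type} [Finite ι] (p : ι → K) (βc : K) (βp : ι → K) {τ : ℝ} (h1 : f (1 - c * βc) ≤ τ)
    (h2 : ∀ i, p i ≠ 0 → f (1 - p i * βp i) ≤ τ)
    (hτ : ∀ o : Option ι, nv c (o.map p) t → τ ≤ Real.exp (-tm f v c (o.map p) t) / 4) :
    ∃ (o : Option ι) (l : Fin 2) (s t' : k) (α : K), nv c (o.map p) t ∧
      (∀ o' : Option ι, nv c (o'.map p) t → tm f v c (o'.map p) t ≤ tm f v c (o.map p) t) ∧
      0 ≤ tm f v c (o.map p) t ∧ t' ≠ 0 ∧ (∀ i, t i = t' * pc l s i) ∧ v s ≤ 1 ∧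
      nrm v t = v t' ∧ f α ≤ 4 ∧ (α = 0 ∨ α = 1 ∨ (∃ i, α = p i * βc) ∨
        ∃ i, α = c * βp i ∧ p i ≠ 0) ∧
      Real.exp (-tm f v c (o.map p) t) / 4 ≤ f (algebraMap k K s - α) ∧
      f (algebraMap k K s - α) ≤ 4 * Real.exp (-tm f v c (o.map p) t) := by
  classical
  have hv1 : 0 < v (t 1) := v.pos ht1
  have ht : t ≠ 0 := fun h => ht1 (by rw [h, Pi.zero_apply])
  have hfin : {o : Option ι | nv c (o.map p) t}.Finite := Set.toFinite _
  obtain ⟨o, ho, hmax⟩ := hfin.exists_maximalFor (fun o => tm f v c (o.map p) t) _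
    ⟨none, trivial⟩
  have hmax' : ∀ o' : Option ι, nv c (o'.map p) t → tm f v c (o'.map p) t ≤ tm f v c (o.map p) t := by
    intro o' ho'
    rcases le_total (tm f v c (o'.map p) t) (tm f v c (o.map p) t) with h | h
    · exact h
    · exact hmax ho' h
  have hn0 : 0 ≤ tm f v c (o.map p) t := by
    refine le_trans ?_ (hmax' none trivial)
    show 0 ≤ Real.log (nrm v t) - Real.log (v (t 1))
    rw [sub_nonneg]
    exact Real.log_le_log hv1 (le_nrm v t 1)
  obtain ⟨ρ, hρ⟩ : ∃ ρ : ℝ, ρ = Real.exp (-tm f v c (o.map p) t) := ⟨_, rfl⟩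
  have hρ0 : 0 < ρ := by
    rw [hρ]
    exact Real.exp_pos _
  have hρ1 : ρ ≤ 1 := by
    rw [hρ]
    exact Real.exp_le_one_iff.2 (by linarith)
  have hτρ : τ ≤ ρ / 4 := by
    rw [hρ]
    exact hτ o ho
  rcases lt_or_ge (1 / 2) ρ with hρ2 | hρ2
  · -- far from all targets
    obtain ⟨l, s, t', ht', hts, hs, hnt⟩ : ∃ (l : Fin 2) (s t' : k), t' ≠ 0 ∧
        (∀ i, t i = t' * pc l s i) ∧ v s ≤ 1 ∧ nrm v t = v t' := by
      rcases le_or_gt (v (t 0)) (v (t 1)) with h | h
      · exact ⟨0, t 0 / t 1, t 1, ht1, chart0 v h ht1⟩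
      · have h0 : t 0 ≠ 0 := fun h0 => by
          rw [h0, map_zero] at h
          exact absurd hv1 (not_lt.2 h.le)
        exact ⟨1, t 1 / t 0, t 0, h0, chart1 v h.le h0⟩
    have hfs : f (algebraMap k K s) ≤ 1 := by
      rw [hf]
      exact hs
    rcases le_or_gt (1 / 2) (f (algebraMap k K s)) with h | h
    · refine ⟨o, l, s, t', 0, ho, hmax', hn0, ht', hts, hs, hnt, ?_, Or.inl rfl, ?_, ?_⟩
      · rw [map_zero]
        norm_num
      · rw [sub_zero, ← hρ]
        linarith
      · rw [sub_zero, ← hρ]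
        linarith
    · refine ⟨o, l, s, t', 1, ho, hmax', hn0, ht', hts, hs, hnt, ?_, Or.inr (Or.inl rfl), ?_, ?_⟩
      · rw [map_one]
        norm_num
      · rw [← hρ]
        have h3 : f 1 ≤ f (algebraMap k K s) + f (algebraMap k K s - 1) := by
          have h4 : (1 : K) = algebraMap k K s - (algebraMap k K s - 1) := by ring
          conv_lhs => rw [h4]
          exact f.sub_le_add _ _
        rw [map_one] at h3
        linarith
      · rw [← hρ]
        have h3 := f.sub_le_add (algebraMap k K s) 1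
        rw [map_one] at h3
        linarith
  · rcases o with _ | i
    · -- near to infinity
      have h3 : v (t 1) = ρ * nrm v t := by
        have h4 : -tm f v c ((none : Option ι).map p) t =
            Real.log (v (t 1)) - Real.log (nrm v t) := by
          show -(Real.log (nrm v t) - Real.log (v (t 1))) = _
          ring
        rw [hρ, h4, Real.exp_sub, Real.exp_log hv1, Real.exp_log (nrm_pos v ht)]
        have := (nrm_pos v ht).ne'
        field_simp
      have hnp := nrm_pos v ht
      have h4 : v (t 1) < v (t 0) := by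
        by_contra hcon
        push Not at hcon
        rw [nrm2, max_eq_right hcon] at h3
        nlinarith
      have h0 : t 0 ≠ 0 := fun h0 => by
        rw [h0, map_zero] at h4
        exact absurd hv1 (not_lt.2 h4.le)
      obtain ⟨hts, hs, hnt⟩ := chart1 v h4.le h0
      have h5 : f (algebraMap k K (t 1 / t 0)) = ρ := by
        rw [hf, map_div₀, h3, hnt]
        have := (v.pos h0).ne'
        field_simp
      refine ⟨none, 1, t 1 / t 0, t 0, 0, trivial, hmax', hn0, h0, hts, hs, hnt, ?_,
        Or.inl rfl, ?_, ?_⟩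
      · rw [map_zero]
        norm_num
      · rw [sub_zero, ← hρ, h5]
        linarith
      · rw [sub_zero, ← hρ, h5]
        linarith
    · have ho' : c * algebraMap k K (t 0) - p i * algebraMap k K (t 1) ≠ 0 := ho
      have hfp : 0 < f (c * algebraMap k K (t 0) - p i * algebraMap k K (t 1)) := f.pos ho'
      have hmx : 0 < max (f c) (f (p i)) := lt_max_of_lt_left (f.pos hc)
      have hnp := nrm_pos v ht
      have h3 : f (c * algebraMap k K (t 0) - p i * algebraMap k K (t 1)) =
          ρ * (max (f c) (f (p i)) * nrm v t) := by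
        have h4 : -tm f v c ((some i : Option ι).map p) t =
            Real.log (f (c * algebraMap k K (t 0) - p i * algebraMap k K (t 1))) -
              (Real.log (max (f c) (f (p i))) + Real.log (nrm v t)) := by
          show -(Real.log (max (f c) (f (p i))) + Real.log (nrm v t) -
            Real.log (f (c * algebraMap k K (t 0) - p i * algebraMap k K (t 1)))) = _
          ring
        rw [hρ, h4, Real.exp_sub, Real.exp_add, Real.exp_log hfp, Real.exp_log hmx,
          Real.exp_log hnp]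
        field_simp
      rcases le_or_gt (v (t 0)) (v (t 1)) with h4 | h4
      · obtain ⟨hts, hs, hnt⟩ := chart0 v h4 ht1
        have h5 : f (c * algebraMap k K (t 0 / t 1) - p i) = ρ * max (f (p i)) (f c) := by
          have h6 : c * algebraMap k K (t 0) - p i * algebraMap k K (t 1) =
              algebraMap k K (t 1) * (c * algebraMap k K (t 0 / t 1) - p i) := by
            rw [map_div₀]
            have : algebraMap k K (t 1) ≠ 0 := (_root_.map_ne_zero _).2 ht1
            field_simp
          rw [h6, map_mul, hf, hnt] at h3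
          rw [max_comm]
          have h7 : v (t 1) * f (c * algebraMap k K (t 0 / t 1) - p i) =
              v (t 1) * (ρ * max (f c) (f (p i))) := by
            rw [h3]
            ring
          exact mul_left_cancel₀ hv1.ne' h7
        obtain ⟨h6, h7, h8⟩ := apx f hc hρ0 hρ2 (by rw [hf]; exact hs) h5 hτρ h1
        refine ⟨some i, 0, t 0 / t 1, t 1, p i * βc, ho, hmax', hn0, ht1, hts, hs, hnt, h6,
          Or.inr (Or.inr (Or.inl ⟨i, rfl⟩)), ?_, ?_⟩
        · rw [← hρ]
          exact h7
        · rw [← hρ]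
          exact h8
      · have h0 : t 0 ≠ 0 := fun h0 => by
          rw [h0, map_zero] at h4
          exact absurd hv1 (not_lt.2 h4.le)
        obtain ⟨hts, hs, hnt⟩ := chart1 v h4.le h0
        have h5 : f (p i * algebraMap k K (t 1 / t 0) - c) = ρ * max (f c) (f (p i)) := by
          have h6 : c * algebraMap k K (t 0) - p i * algebraMap k K (t 1) =
              -(algebraMap k K (t 0) * (p i * algebraMap k K (t 1 / t 0) - c)) := by
            rw [map_div₀]
            have : algebraMap k K (t 0) ≠ 0 := (_root_.map_ne_zero _).2 h0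
            field_simp
            ring
          rw [h6, f.map_neg, map_mul, hf, hnt] at h3
          have h7 : v (t 0) * f (p i * algebraMap k K (t 1 / t 0) - c) =
              v (t 0) * (ρ * max (f c) (f (p i))) := by
            rw [h3]
            ring
          exact mul_left_cancel₀ (v.pos h0).ne' h7
        have hp0 : p i ≠ 0 := by
          intro hp0
          rw [hp0, zero_mul, zero_sub, f.map_neg, map_zero, max_eq_left (f.nonneg _)] at h5
          have := f.pos hc
          nlinarith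
        obtain ⟨h6, h7, h8⟩ := apx f hp0 hρ0 hρ2 (by rw [hf]; exact hs) h5 hτρ (h2 i hp0)
        refine ⟨some i, 1, t 1 / t 0, t 0, c * βp i, ho, hmax', hn0, h0, hts, hs, hnt, h6,
          Or.inr (Or.inr (Or.inr ⟨i, rfl, hp0⟩)), ?_, ?_⟩
        · rw [← hρ]
          exact h7
        · rw [← hρ]
          exact h8

end

end Pool.Agent.Run7.h489.PX
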