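import Mathlib
import Pool.Agent.Run7.h489.PX.MulE
import Pool.Agent.Run7.h489.PX.Cnt2

set_option autoImplicit false
set_option linter.unusedSectionVars false

/-!
Expansions with rational exponents and uniform constants.
-/

namespace Pool.Agent.Run7.h489.PX

open Height NumberField IsDedekindDomain Polynomial
open Pool.Agent.W180.OP (Pl av wt fv nrm wt_nonneg le_nrm exists_nrm nrm_pos)
open Pool.Agent.R404.TC (Sp)
open Pool.Agent.R405 (Good exists_good)
open Pool.Agent.Run7.h489.TM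

theorem ub {ι : Type} (s : Finset ι) (q : ι → ℝ) : ∃ Q : ℝ, 1 ≤ Q ∧ ∀ i ∈ s, q i ≤ Q := by
  classical
  obtain ⟨M, hM⟩ := (s.image q).exists_le
  exact ⟨max 1 M, le_max_left _ _, fun i hi =>
    (hM _ (Finset.mem_image_of_mem q hi)).trans (le_max_right _ _)⟩

section

variable {K : Type} [Field K] {m : ℕ}

/-- the monomials are not near to each other -/
def Gap (f : AbsoluteValue K ℝ) (x : Fin m → K) (h : AddMonoidAlgebra K (Fin m → ℤ)) (r : ℝ) :
    Prop := ∀ b ∈ h.coeff.support, ∀ b' ∈ h.coeff.support, b ≠ b' →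
      r ≤ |Real.log (f (mono x b)) - Real.log (f (mono x b'))|

theorem dom_gap (f : AbsoluteValue K ℝ) (h : AddMonoidAlgebra K (Fin m → ℤ)) :
    ∃ A M : ℝ, 1 ≤ A ∧ 0 ≤ M ∧ ∀ (x : Fin m → K) (hx : ∀ i, x i ≠ 0) (r : ℝ), M ≤ r →
      Gap f x h r → ∀ b ∈ h.coeff.support, f (mono x b) ≤ A * f (evh x hx h) := by
  by_cases hh : h.coeff = 0
  · refine ⟨1, 0, le_rfl, le_rfl, fun x hx r _ _ b hb => ?_⟩
    rw [hh, Finsupp.support_zero] at hb
    exact absurd hb (Finset.notMem_empty _)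
  · obtain ⟨A, M, hA, hM, hmain⟩ := dom_mul f hh
    refine ⟨max 1 A, M, le_max_left _ _, hM, fun x hx r hr hg b hb => ?_⟩
    obtain ⟨a, ha⟩ := exists_Dom f x (Finsupp.support_nonempty_iff.2 hh) hg
    rw [evh_apply]
    refine (hmain x r hx hr a ha b hb).trans ?_
    exact mul_le_mul_of_nonneg_right (le_max_right _ _) (f.nonneg _)

theorem inv_gap (f : AbsoluteValue K ℝ) (h : AddMonoidAlgebra K (Fin m → ℤ)) :
    ∃ Q : ℝ, 1 ≤ Q ∧ ∀ (x : Fin m → K) (hx : ∀ i, x i ≠ 0) (r : ℝ), h.coeff ≠ 0 →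
      Gap f x h r → ∃ a ∈ h.coeff.support, ∀ J, f (1 - evh x hx h * evh x hx (ainv h a J)) ≤
        (Q * Real.exp (-r)) ^ J := by
  have h1 := fun a : h.coeff.support => ainv_bd f a.2
  choose q hq0 hq using h1
  obtain ⟨Q, hQ1, hQ⟩ := ub Finset.univ q
  refine ⟨Q, hQ1, fun x hx r hh hg => ?_⟩
  obtain ⟨a, ha⟩ := exists_Dom f x (Finsupp.support_nonempty_iff.2 hh) hg
  refine ⟨a, ha.1, fun J => (hq ⟨a, ha.1⟩ x hx r ha J).trans ?_⟩
  refine pow_le_pow_left₀ (mul_nonneg (hq0 _) (Real.exp_pos _).le) ?_ J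
  exact mul_le_mul_of_nonneg_right (hQ _ (Finset.mem_univ _)) (Real.exp_pos _).le

theorem mem_jh {Λ : Type} [Field Λ] (φ : K →+* Λ) {E : ℕ} (hE : E ≠ 0)
    {h : AddMonoidAlgebra K (Fin m → ℤ)} {b : Fin m → ℤ} (hb : b ∈ h.coeff.support) :
    dv m E b ∈ (jh m φ E h).coeff.support := by
  rw [Finsupp.mem_support_iff, coeff_jh φ hE]
  exact (_root_.map_ne_zero φ).2 (Finsupp.mem_support_iff.1 hb)

theorem jh_mem {Λ : Type} [Field Λ] (φ : K →+* Λ) (E : ℕ)
    {h : AddMonoidAlgebra K (Fin m → ℤ)} {ν : Fin m → ℚ} (hν : ν ∈ (jh m φ E h).coeff.support) :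
    ∃ b ∈ h.coeff.support, dv m E b = ν := by
  classical
  rw [Finsupp.mem_support_iff] at hν
  unfold jh at hν
  rw [RingHom.comp_apply, AddMonoidAlgebra.coeff_mapRingHom,
    AddMonoidAlgebra.mapDomainRingHom_apply] at hν
  have h1 : (AddMonoidAlgebra.mapDomain (dv m E) h).coeff ν ≠ 0 := fun h0 => hν (by
    rw [h0, map_zero])
  have h2 : ν ∈ (Finsupp.mapDomain (dv m E) h.coeff).support := Finsupp.mem_support_iff.2 h1
  obtain ⟨b, hb, hb'⟩ := Finset.mem_image.1 (Finsupp.mapDomain_support h2)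
  exact ⟨b, hb, hb'⟩

end

section

variable {k : Type} [Field k] {m : ℕ}

/-- the expansion over the Laurent polynomials with rational exponents -/
noncomputable def xq (R : (Fin m → ℤ) →₀ MvPolynomial (Fin 2) k) (l : Fin 2)
    (α : AddMonoidAlgebra (AlgebraicClosure k) (Fin m → ℚ)) :
    (AddMonoidAlgebra (AlgebraicClosure k) (Fin m → ℚ))[X] :=
  xp R (fun a => AddMonoidAlgebra.single (fun i => (a i : ℚ)) 1)
    ((algebraMap (AlgebraicClosure k) (AddMonoidAlgebra (AlgebraicClosure k) (Fin m → ℚ))).comp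
      (algebraMap k (AlgebraicClosure k))) l α

theorem xk_map {K : Type} [Field K] [Algebra k K] (φ : K →ₐ[k] AlgebraicClosure k) {E : ℕ}
    (hE : E ≠ 0) (R : (Fin m → ℤ) →₀ MvPolynomial (Fin 2) k) (l : Fin 2)
    (α : AddMonoidAlgebra K (Fin m → ℤ)) :
    (xk (algebraMap k K) E R l α).map (jh m (φ : K →+* AlgebraicClosure k) E) =
      xq R l (jh m (φ : K →+* AlgebraicClosure k) E α) := by
  unfold xk xq
  rw [xp_map]
  congr 1
  · funext a
    rw [jh_single, dv_smul hE, map_one]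
    congr 1
    funext i
    show (a i : ℚ) / ((1 : ℕ) : ℚ) = a i
    rw [Nat.cast_one, div_one]
  · refine RingHom.ext fun y => ?_
    rw [RingHom.comp_apply, RingHom.comp_apply, RingHom.comp_apply,
      AddMonoidAlgebra.coe_algebraMap, AddMonoidAlgebra.coe_algebraMap]
    show jh m (φ : K →+* AlgebraicClosure k) E (AddMonoidAlgebra.single 0
      (algebraMap k K y)) = AddMonoidAlgebra.single 0 (algebraMap k (AlgebraicClosure k) y)
    rw [jh_single, map_zero]
    congr 1
    exact AlgHom.commutes φ y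

theorem xk_natDegree {K : Type} [Field K] (ι : k →+* K) (E : ℕ)
    {R : (Fin m → ℤ) →₀ MvPolynomial (Fin 2) k} {N : ℕ} (hR : ∀ a, (R a).IsHomogeneous N)
    (l : Fin 2) (α : AddMonoidAlgebra K (Fin m → ℤ)) : (xk ι E R l α).natDegree ≤ N := by
  unfold xk xp
  refine natDegree_sum_le_of_forall_le _ _ fun a _ => ?_
  refine (natDegree_C_mul_le _ _).trans ?_
  rw [MvPolynomial.eval₂_eq']
  refine natDegree_sum_le_of_forall_le _ _ fun s hs => ?_
  rw [RingHom.comp_apply]
  refine (natDegree_C_mul_le _ _).trans ?_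
  refine (natDegree_prod_le _ _).trans ?_
  have h1 : s 0 + s 1 = N := by
    have h2 := hR a (MvPolynomial.mem_support_iff.1 hs)
    rw [Finsupp.weight_apply, Finsupp.sum_fintype _ _ (fun i => by simp)] at h2
    simpa [Fin.sum_univ_two] using h2
  have h3 : ∀ i : Fin 2, ((if i = l then (X : (AddMonoidAlgebra K (Fin m → ℤ))[X]) + C α
      else 1) ^ s i).natDegree ≤ s i := by
    intro i
    refine natDegree_pow_le.trans ?_
    have h4 : (if i = l then (X : (AddMonoidAlgebra K (Fin m → ℤ))[X]) + C α else 1).natDegree ≤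
        1 := by
      split_ifs
      · rw [natDegree_add_C]
        exact natDegree_X_le
      · rw [natDegree_one]
        exact Nat.zero_le _
    calc s i * (if i = l then (X : (AddMonoidAlgebra K (Fin m → ℤ))[X]) + C α else 1).natDegree ≤
          s i * 1 := Nat.mul_le_mul_left _ h4
      _ = s i := mul_one _
  rw [Fin.sum_univ_two]
  have := h3 0
  have := h3 1
  omega

/-- the condition for the multiplier ideal -/
def Cnd (Fs Gs : Finset ((Fin m → ℤ) →₀ MvPolynomial (Fin 2) k)) (A A' : Finset (Fin m → ℤ)) :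
    Prop :=
  ∀ (θ : Fin m → ℝ) (l : Fin 2) (α : AddMonoidAlgebra (AlgebraicClosure k) (Fin m → ℚ)),
    (∀ b ∈ α.coeff.support, dr θ b ≤ 0) → ∀ β : ℝ, 0 ≤ β → ∀ G ∈ Gs, ∀ j,
      ∀ b ∈ ((xq G l α).coeff j).coeff.support, ∃ F ∈ Fs, ∃ j',
        ∃ b' ∈ ((xq F l α).coeff j').coeff.support,
          dr θ b - j * β - (⨆ a : A', dt θ a) ≤ dr θ b' - j' * β - (⨆ a : A, dt θ a) + β

/-- the local height of the ideal -/
noncomputable def lamI (A : Finset (Fin m → ℤ)) (N : ℕ)
    (Fs : Finset ((Fin m → ℤ) →₀ MvPolynomial (Fin 2) k)) (f : AbsoluteValue k ℝ)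
    (u : Fin m → k) (t : Fin 2 → k) : ℝ :=
  ⨅ F : Fs, ((⨆ a : A, Real.log (f (mono u a))) + N * Real.log (nrm f t) -
    Real.log (f (MvPolynomial.eval t (fb F.1 u))))

end

section

variable {k : Type} [Field k] [NumberField k] {m : ℕ}

/-- the Taylor coefficients of a form without near zeros -/
theorem co_bd {P : MvPolynomial (Fin 2) k} {N : ℕ} (hP : P.IsHomogeneous N) (hN : 1 ≤ N)
    (v : Pl k) {t : Fin 2 → k} (hPt : MvPolynomial.eval t P ≠ 0) {l : Fin 2} {s t' : k}
    (ht' : t' ≠ 0) (hts : ∀ i, t i = t' * pc l s i) {R0 : ℝ}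
    (hroot : ∀ (M : Type) (_ : Field M) (κ : k →+* M) (w : AbsoluteValue M ℝ) (y : Fin 2 → M),
      (∀ z, w (κ z) = av v z) → y ≠ 0 → MvPolynomial.eval y (MvPolynomial.map κ P) = 0 →
      Real.log (nrm (av v) t) + Real.log (nrm w y) -
        Real.log (w (κ (t 0) * y 1 - κ (t 1) * y 0)) ≤ R0) (i : ℕ) :
    av v ((taylor s (ch l P)).coeff i) ≤
      2 ^ N * av v (MvPolynomial.eval (pc l s) P) * Real.exp R0 ^ i := by
  obtain ⟨a, b, hab⟩ := form_split (hP.map (algebraMap k (AlgebraicClosure k))) hN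
  obtain ⟨M, hM1, hM2, hM3, -, -, φ, hφ⟩ := Pool.Agent.Run7.h489.GF.exists_field
    (Sum.elim a b : Fin N ⊕ Fin N → AlgebraicClosure k)
  choose z hz using hφ
  have hMf : MvPolynomial.map (algebraMap k M) P =
      ∏ j : Fin N, (MvPolynomial.C (z (Sum.inr j)) * MvPolynomial.X 0 -
        MvPolynomial.C (z (Sum.inl j)) * MvPolynomial.X 1) := by
    apply MvPolynomial.map_injective (φ : M →+* AlgebraicClosure k) (RingHom.injective _)
    rw [MvPolynomial.map_map, AlgHom.comp_algebraMap, hab, map_prod]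
    refine Finset.prod_congr rfl fun j _ => ?_
    have h1 : (φ : M →+* AlgebraicClosure k) (z (Sum.inr j)) = b j := hz (Sum.inr j)
    have h2 : (φ : M →+* AlgebraicClosure k) (z (Sum.inl j)) = a j := hz (Sum.inl j)
    simp only [map_sub, map_mul, MvPolynomial.map_C, MvPolynomial.map_X]
    rw [h1, h2]
  obtain ⟨w, hw⟩ := exists_good (K := M) v
  have hwe : ∀ y : k, w (algebraMap k M y) = av v y := hw.ext
  have hval : ∀ y : Fin 2 → M, MvPolynomial.eval y (MvPolynomial.map (algebraMap k M) P) =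
      ∏ j : Fin N, (z (Sum.inr j) * y 0 - z (Sum.inl j) * y 1) := by
    intro y
    rw [hMf, map_prod]
    refine Finset.prod_congr rfl fun j _ => ?_
    simp only [map_sub, map_mul, MvPolynomial.eval_C, MvPolynomial.eval_X]
  have hPt' : ∏ j : Fin N, (z (Sum.inr j) * algebraMap k M (t 0) -
      z (Sum.inl j) * algebraMap k M (t 1)) ≠ 0 := by
    have h1 := hval fun i => algebraMap k M (t i)
    rw [← h1, MvPolynomial.eval_map]
    have h2 : MvPolynomial.eval₂ (algebraMap k M) (fun i => algebraMap k M (t i)) P =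
        algebraMap k M (MvPolynomial.eval t P) := (MvPolynomial.eval₂_comp _ t P).symm
    rw [h2]
    exact (_root_.map_ne_zero _).2 hPt
  refine tay_bd hwe hMf l s (Real.exp_pos R0).le (fun j => ?_) i
  have hj : z (Sum.inr j) * algebraMap k M (t 0) - z (Sum.inl j) * algebraMap k M (t 1) ≠ 0 :=
    Finset.prod_ne_zero_iff.1 hPt' j (Finset.mem_univ j)
  obtain ⟨y, hy⟩ : ∃ y : Fin 2 → M, y = ![z (Sum.inl j), z (Sum.inr j)] := ⟨_, rfl⟩
  have hy0 : y 0 = z (Sum.inl j) := by
    rw [hy]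
    rfl
  have hy1 : y 1 = z (Sum.inr j) := by
    rw [hy]
    rfl
  rw [← hy0, ← hy1] at hj ⊢
  have hyne : y ≠ 0 := by
    intro h
    apply hj
    rw [h, Pi.zero_apply, Pi.zero_apply, zero_mul, zero_mul, sub_zero]
  have h1 := hroot M inferInstance (algebraMap k M) w y hwe hyne (by
    rw [hval]
    refine Finset.prod_eq_zero (Finset.mem_univ j) ?_
    rw [hy0, hy1]
    ring)
  obtain ⟨L, hL⟩ : ∃ L : M, L = y 1 * algebraMap k M (pc l s 0) -
    y 0 * algebraMap k M (pc l s 1) := ⟨_, rfl⟩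
  have hL2 : algebraMap k M (t 0) * y 1 - algebraMap k M (t 1) * y 0 =
      algebraMap k M t' * L := by
    rw [hL, hts 0, hts 1, map_mul, map_mul]
    ring
  have hL0 : L ≠ 0 := by
    intro h0
    apply hj
    have h2 : y 1 * algebraMap k M (t 0) - y 0 * algebraMap k M (t 1) =
        algebraMap k M (t 0) * y 1 - algebraMap k M (t 1) * y 0 := by ring
    rw [h2, hL2, h0, mul_zero]
  rw [← hL]
  have ht : t ≠ 0 := by
    intro h
    apply hj
    rw [h, Pi.zero_apply, Pi.zero_apply, map_zero, mul_zero, mul_zero, sub_zero]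
  have hnt := nrm_pos (av v) ht
  have hny := nrm_pos w hyne
  have hvt' : 0 < av v t' := (av v).pos ht'
  have hLp := w.pos hL0
  rw [hL2, map_mul, hwe] at h1
  have h2 : Real.log (nrm (av v) t * nrm w y) ≤ Real.log (av v t' * w L * Real.exp R0) := by
    rw [Real.log_mul hnt.ne' hny.ne', Real.log_mul (by positivity) (Real.exp_pos _).ne',
      Real.log_exp]
    linarith
  have h3 : nrm (av v) t * nrm w y ≤ av v t' * w L * Real.exp R0 :=
    (Real.log_le_log_iff (by positivity) (by positivity)).1 h2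
  have h4 : av v t' ≤ nrm (av v) t := by
    fin_cases l
    · have h5 : t 1 = t' := by
        rw [hts 1]
        show t' * 1 = t'
        rw [mul_one]
      rw [← h5]
      exact le_nrm (av v) t 1
    · have h5 : t 0 = t' := by
        rw [hts 0]
        show t' * 1 = t'
        rw [mul_one]
      rw [← h5]
      exact le_nrm (av v) t 0
  have h5 : av v t' * nrm w y ≤ av v t' * (w L * Real.exp R0) := by
    calc av v t' * nrm w y ≤ nrm (av v) t * nrm w y := mul_le_mul_of_nonneg_right h4 hny.le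
      _ ≤ av v t' * w L * Real.exp R0 := h3
      _ = _ := by ring
  have h6 : nrm w y ≤ w L * Real.exp R0 := le_of_mul_le_mul_left h5 hvt'
  refine le_trans ?_ h6
  fin_cases l
  · show w (y 1 * (Pi.single 0 1 : Fin 2 → M) 0 - y 0 * (Pi.single 0 1 : Fin 2 → M) 1) ≤ _
    rw [Pi.single_eq_same, Pi.single_eq_of_ne (by decide), mul_one, mul_zero, sub_zero]
    exact le_nrm w y 1
  · show w (y 1 * (Pi.single 1 1 : Fin 2 → M) 0 - y 0 * (Pi.single 1 1 : Fin 2 → M) 1) ≤ _
    rw [Pi.single_eq_same, Pi.single_eq_of_ne (by decide), mul_one, mul_zero, zero_sub,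
      w.map_neg]
    exact le_nrm w y 0

end

end Pool.Agent.Run7.h489.PX
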