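import Mathlib
import Pool.Agent.Run7.h489.PX.MulF

set_option autoImplicit false
set_option linter.unusedSectionVars false

/-!
The inequality at one place, the product of the forms and the walls.
-/

namespace Pool.Agent.Run7.h489.PX

open Height NumberField IsDedekindDomain Polynomial
open Pool.Agent.W180.OP (Pl av wt fv nrm wt_nonneg le_nrm exists_nrm nrm_pos)
open Pool.Agent.R404.TC (Sp)
open Pool.Agent.R405 (Good exists_good)
open Pool.Agent.Run7.h489.TM

section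

variable {k : Type} [Field k] {m : ℕ}

/-- the coefficients of the form as a polynomial -/
noncomputable def fp (N : ℕ) (F : (Fin m → ℤ) →₀ MvPolynomial (Fin 2) k) :
    (AddMonoidAlgebra k (Fin m → ℤ))[X] :=
  ∑ i ∈ Finset.range (N + 1), Polynomial.monomial i (cf F N i)

theorem coeff_fp (N : ℕ) (F : (Fin m → ℤ) →₀ MvPolynomial (Fin 2) k) {i : ℕ} (hi : i ≤ N) :
    (fp N F).coeff i = cf F N i := by
  unfold fp
  rw [finsetSum_coeff, Finset.sum_eq_single i]
  · rw [coeff_monomial, if_pos rfl]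
  · intro j _ hj
    rw [coeff_monomial, if_neg hj]
  · intro h
    exact absurd (Finset.mem_range.2 (Nat.lt_succ_of_le hi)) h

theorem fp_ne {N : ℕ} {F : (Fin m → ℤ) →₀ MvPolynomial (Fin 2) k}
    (hF : ∀ a, (F a).IsHomogeneous N) (hF0 : F ≠ 0) : fp N F ≠ 0 := by
  obtain ⟨d, hd, hcd, -⟩ := exists_top hF hF0
  intro h
  apply hcd
  rw [← coeff_fp N F hd, h, coeff_zero]

theorem fp_eval {Λ : Type} [Field Λ] (κ : k →+* Λ) {N : ℕ}
    {F : (Fin m → ℤ) →₀ MvPolynomial (Fin 2) k} (hF : ∀ a, (F a).IsHomogeneous N)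
    {u : Fin m → k} (hu : ∀ i, u i ≠ 0) {y : Fin 2 → Λ} (hy : y 1 ≠ 0) :
    MvPolynomial.eval y (MvPolynomial.map κ (fb F u)) =
      y 1 ^ N * ((fp N F).map (κ.comp (evh u hu))).eval (y 0 / y 1) := by
  rw [eval_fb κ hF]
  unfold fp
  rw [Polynomial.map_sum, eval_finsetSum, Finset.mul_sum]
  refine Finset.sum_congr rfl fun i hi => ?_
  rw [Polynomial.map_monomial, eval_monomial, RingHom.comp_apply, evh_apply]
  have h1 : y 1 ^ N = y 1 ^ (N - i) * y 1 ^ i := by
    rw [← pow_add]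
    congr 1
    have := Finset.mem_range.1 hi
    omega
  rw [h1, div_pow]
  field_simp

theorem fvl_eval {Λ : Type} [Field Λ] (κ : k →+* Λ) (f : (AddMonoidAlgebra k (Fin m → ℤ))[X])
    {u : Fin m → k} (hu : ∀ i, u i ≠ 0) {y : Fin 2 → Λ} (hy : y 1 ≠ 0) :
    fvl κ (fun i => f.coeff i) f.natDegree u y =
      y 1 ^ f.natDegree * (f.map (κ.comp (evh u hu))).eval (y 0 / y 1) := by
  have h0 : (f.map (κ.comp (evh u hu))).natDegree < f.natDegree + 1 :=
    Nat.lt_succ_of_le natDegree_map_le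
  rw [eval_eq_sum_range' h0, Finset.mul_sum]
  unfold fvl
  refine Finset.sum_congr rfl fun i hi => ?_
  rw [coeff_map, RingHom.comp_apply, evh_apply]
  have h1 : y 1 ^ f.natDegree = y 1 ^ (f.natDegree - i) * y 1 ^ i := by
    rw [← pow_add]
    congr 1
    have := Finset.mem_range.1 hi
    omega
  rw [h1, div_pow]
  field_simp

/-- the zeros of the forms are zeros of the product -/
theorem prod_root {Λ : Type} [Field Λ] (κ : k →+* Λ) {N : ℕ}
    {Fs : Finset ((Fin m → ℤ) →₀ MvPolynomial (Fin 2) k)}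
    (hFs : ∀ F ∈ Fs, ∀ a, (F a).IsHomogeneous N) {u : Fin m → k} (hu : ∀ i, u i ≠ 0)
    {y : Fin 2 → Λ} (hy : y 1 ≠ 0) :
    fvl κ (fun i => (∏ F ∈ Fs, fp N F).coeff i) (∏ F ∈ Fs, fp N F).natDegree u y = 0 ↔
      ∃ F ∈ Fs, MvPolynomial.eval y (MvPolynomial.map κ (fb F u)) = 0 := by
  rw [fvl_eval κ _ hu hy, Polynomial.map_prod, eval_prod, mul_eq_zero,
    or_iff_right (pow_ne_zero _ hy), Finset.prod_eq_zero_iff]
  constructor
  · rintro ⟨F, hF, h⟩
    exact ⟨F, hF, by rw [fp_eval κ (hFs F hF) hu hy, h, mul_zero]⟩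
  · rintro ⟨F, hF, h⟩
    rw [fp_eval κ (hFs F hF) hu hy] at h
    exact ⟨F, hF, (mul_eq_zero.1 h).resolve_left (pow_ne_zero _ hy)⟩

end

section

variable {k : Type} [Field k] [NumberField k] {m : ℕ}

/-- the inequality at one place -/
theorem plc {K : Type} [Field K] [Algebra k K] (φ : K →ₐ[k] AlgebraicClosure k)
    {fa : AbsoluteValue K ℝ} {v : Pl k} (hf : ∀ y, fa (algebraMap k K y) = av v y) {E : ℕ}
    (hE : 0 < E) {Fs Gs : Finset ((Fin m → ℤ) →₀ MvPolynomial (Fin 2) k)} {N N' : ℕ} (hN : 1 ≤ N)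
    (hFs : ∀ F ∈ Fs, ∀ a, (F a).IsHomogeneous N) (hGs : ∀ F ∈ Gs, ∀ a, (F a).IsHomogeneous N')
    (hGne : Gs.Nonempty) {A A' : Finset (Fin m → ℤ)} (hcond : Cnd Fs Gs A A')
    {u : Fin m → k} (hu : ∀ i, u i ≠ 0) {x : Fin m → K} (hx : ∀ i, x i ≠ 0)
    (hxE : ∀ i, x i ^ E = algebraMap k K (u i)) {t : Fin 2 → k}
    (hFt : ∀ F ∈ Fs, MvPolynomial.eval t (fb F u) ≠ 0)
    (hGt : ∀ F ∈ Gs, MvPolynomial.eval t (fb F u) ≠ 0) {l : Fin 2} {s t' : k} (ht' : t' ≠ 0)
    (hts : ∀ i, t i = t' * pc l s i) (hnt : nrm (av v) t = av v t')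
    {α : AddMonoidAlgebra K (Fin m → ℤ)} {X R0 : ℝ} (hX : 0 ≤ X)
    (hα : fa (evh x hx α) ≤ 4) (h1 : Real.exp (-X) / 4 ≤ fa (algebraMap k K s - evh x hx α))
    (h2 : fa (algebraMap k K s - evh x hx α) ≤ 4 * Real.exp (-X))
    (hR0 : 0 ≤ R0)
    (hroot : ∀ F ∈ Fs, ∀ (M : Type) (_ : Field M) (κ : k →+* M) (w : AbsoluteValue M ℝ)
      (y : Fin 2 → M), (∀ z, w (κ z) = av v z) → y ≠ 0 →
      MvPolynomial.eval y (MvPolynomial.map κ (fb F u)) = 0 →
      Real.log (nrm (av v) t) + Real.log (nrm w y) -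
        Real.log (w (κ (t 0) * y 1 - κ (t 1) * y 0)) ≤ R0 + X)
    {A1 r : ℝ} (hA1 : 1 ≤ A1) (hdα : ∀ b ∈ α.coeff.support, fa (mono x b) ≤ A1 * fa (evh x hx α))
    (hsα : ∀ b ∈ α.coeff.support, b ≠ 0 → r ≤ |Real.log (fa (mono x b))|)
    (hr : Real.log (A1 * 4) < r)
    (hdom : ∀ F ∈ Fs, ∀ j ≤ N, ∀ b ∈ ((xk (algebraMap k K) E F l α).coeff j).coeff.support,
      fa (mono x b) ≤ A1 * fa (evh x hx ((xk (algebraMap k K) E F l α).coeff j)))
    {Q : ℝ} (hQ1 : 1 ≤ Q) (hQ : ∀ F ∈ Gs, ∑ j ∈ Finset.range (N' + 1),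
      ∑ b ∈ ((xk (algebraMap k K) E F l α).coeff j).coeff.support,
        fa (((xk (algebraMap k K) E F l α).coeff j).coeff b) ≤ Q) :
    lamI A N Fs (av v) u t - lamI A' N' Gs (av v) u t ≤
      (Real.log Q + N' * Real.log 4 + Real.log A1 +
        Real.log ((N + 1) * (2 ^ N * (2 ^ N * (4 * Real.exp R0) ^ N)))) + Real.log 4 + X := by
  classical
  have hE' : E ≠ 0 := hE.ne'
  have htp : t = t' • pc l s := by
    funext i
    rw [Pi.smul_apply, smul_eq_mul]
    exact hts i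
  have hFp : ∀ F ∈ Fs, MvPolynomial.eval t (fb F u) =
      t' ^ N * MvPolynomial.eval (pc l s) (fb F u) := fun F hF => by
    rw [htp, eval_hom (fb_hom (hFs F hF) u)]
  have hGp : ∀ F ∈ Gs, MvPolynomial.eval t (fb F u) =
      t' ^ N' * MvPolynomial.eval (pc l s) (fb F u) := fun F hF => by
    rw [htp, eval_hom (fb_hom (hGs F hF) u)]
  have hFne : ∀ F ∈ Fs, MvPolynomial.eval (pc l s) (fb F u) ≠ 0 := fun F hF =>
    right_ne_zero_of_mul (hFp F hF ▸ hFt F hF)
  have hGne' : ∀ F ∈ Gs, MvPolynomial.eval (pc l s) (fb F u) ≠ 0 := fun F hF =>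
    right_ne_zero_of_mul (hGp F hF ▸ hGt F hF)
  have hvt' : 0 < av v t' := (av v).pos ht'
  have hζ0 : algebraMap k K s - evh x hx α ≠ 0 := by
    intro h0
    rw [h0, map_zero] at h1
    have := Real.exp_pos (-X)
    linarith
  have hlog : ∀ b : Fin m → ℤ, Real.log (fa (mono x b)) = dr (dir u v) (dv m E b) := by
    intro b
    rw [log_x hf hE hxE, log_av_mono hu, dr_dv]
  -- the condition for the arc
  have hsup : ∀ ν ∈ (jh m (φ : K →+* AlgebraicClosure k) E α).coeff.support,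
      dr (dir u v) ν ≤ 0 := by
    intro ν hν
    obtain ⟨b, hb, rfl⟩ := jh_mem _ E hν
    rw [← hlog]
    by_contra hcon
    push Not at hcon
    have hb0 : b ≠ 0 := by
      rintro rfl
      rw [mono_zero, map_one, Real.log_one] at hcon
      exact lt_irrefl _ hcon
    have h3 := hsα b hb hb0
    rw [abs_of_pos hcon] at h3
    have h4 : fa (mono x b) ≤ A1 * 4 := (hdα b hb).trans
      (mul_le_mul_of_nonneg_left hα (by linarith))
    have h5 := Real.log_le_log (fa.pos (mono_ne hx b)) h4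
    linarith
  obtain ⟨hA, hhA⟩ : ∃ hA : ℝ, hA = ⨆ a : A, Real.log (av v (mono u a)) := ⟨_, rfl⟩
  obtain ⟨hA', hhA'⟩ : ∃ hA' : ℝ, hA' = ⨆ a : A', Real.log (av v (mono u a)) := ⟨_, rfl⟩
  have hAd : (⨆ a : A, dt (dir u v) a) = hA := by
    rw [hhA]
    exact iSup_congr fun a => (log_av_mono hu v a.1).symm
  have hAd' : (⨆ a : A', dt (dir u v) a) = hA' := by
    rw [hhA']
    exact iSup_congr fun a => (log_av_mono hu v a.1).symm
  have hnGs : Nonempty Gs := hGne.to_subtype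
  obtain ⟨G, hG⟩ := Finite.exists_min fun F : Gs => ((⨆ a : A', Real.log (av v (mono u a))) +
    N' * Real.log (nrm (av v) t) - Real.log (av v (MvPolynomial.eval t (fb F.1 u))))
  have hlG : lamI A' N' Gs (av v) u t = hA' + N' * Real.log (nrm (av v) t) -
      Real.log (av v (MvPolynomial.eval t (fb G.1 u))) := by
    rw [hhA']
    exact le_antisymm (ciInf_le (Set.finite_range _).bddBelow G) (le_ciInf hG)
  obtain ⟨F, hF, hle⟩ := mul_local hf hx hxE hFs (hGs G.1 G.2) (l := l) (α := α) (s := s) hζ0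
    (A0 := 4) (by norm_num) (by
      refine h2.trans ?_
      have : Real.exp (-X) ≤ 1 := Real.exp_le_one_iff.2 (by linarith)
      linarith) (D := 2 ^ N) (r := Real.exp (R0 + X)) (A := 4 * Real.exp R0)
    (one_le_pow₀ (by norm_num)) (Real.exp_pos _).le (by
      have := Real.one_le_exp hR0
      linarith)
    (fun F hF i => co_bd (fb_hom (hFs F hF) u) hN v (hFt F hF) ht' hts (hroot F hF) i) (by
      rw [Real.exp_add]
      calc fa (algebraMap k K s - evh x hx α) * (Real.exp R0 * Real.exp X) ≤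
            4 * Real.exp (-X) * (Real.exp R0 * Real.exp X) :=
            mul_le_mul_of_nonneg_right h2 (by positivity)
        _ = 4 * Real.exp R0 * (Real.exp (-X) * Real.exp X) := by ring
        _ = 4 * Real.exp R0 := by
            rw [← Real.exp_add, neg_add_cancel, Real.exp_zero, mul_one]) (A1 := A1) hA1
    (fun F hF j b hb => by
      by_cases hj : j ≤ N
      · exact hdom F hF j hj b hb
      · exfalso
        rw [coeff_eq_zero_of_natDegree_lt (lt_of_le_of_lt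
          (xk_natDegree (algebraMap k K) E (hFs F hF) l α) (not_le.1 hj))] at hb
        simp at hb) hFne (hGne' G.1 G.2)
    (hA' := hA') (hA'' := hA) hQ1 (hQ G.1 G.2) (by
      intro β hβ j b hb
      have hm : ∀ (R : (Fin m → ℤ) →₀ MvPolynomial (Fin 2) k) (j : ℕ),
          (xq R l (jh m (φ : K →+* AlgebraicClosure k) E α)).coeff j =
            jh m (φ : K →+* AlgebraicClosure k) E ((xk (algebraMap k K) E R l α).coeff j) := by
        intro R j
        rw [← xk_map φ hE', coeff_map]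
      obtain ⟨F, hF, j', b', hb', h3⟩ := hcond (dir u v) l
        (jh m (φ : K →+* AlgebraicClosure k) E α) hsup β hβ G.1 G.2 j (dv m E b) (by
          rw [hm]
          exact mem_jh _ hE' hb)
      rw [hm] at hb'
      obtain ⟨b'', hb'', rfl⟩ := jh_mem _ E hb'
      refine ⟨F, hF, j', b'', hb'', ?_⟩
      rw [hlog, hlog, ← hAd, ← hAd']
      exact h3)
  have hlF : lamI A N Fs (av v) u t ≤ hA + N * Real.log (nrm (av v) t) -
      Real.log (av v (MvPolynomial.eval t (fb F u))) := by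
    rw [hhA]
    exact ciInf_le (Set.finite_range fun F : Fs => ((⨆ a : A, Real.log (av v (mono u a))) +
      N * Real.log (nrm (av v) t) - Real.log (av v (MvPolynomial.eval t (fb F.1 u))))).bddBelow
      ⟨F, hF⟩
  rw [hFp F hF, hnt, map_mul, map_pow, Real.log_mul (by positivity)
    ((av v).pos (hFne F hF)).ne', Real.log_pow] at hlF
  rw [hGp G.1 G.2, hnt, map_mul, map_pow, Real.log_mul (by positivity)
    ((av v).pos (hGne' G.1 G.2)).ne', Real.log_pow] at hlG
  have hmax : max 0 (-Real.log (fa (algebraMap k K s - evh x hx α))) ≤ Real.log 4 + X := by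
    have hl4 : 0 ≤ Real.log 4 := Real.log_nonneg (by norm_num)
    refine max_le (by linarith) ?_
    have h3 := Real.log_le_log (by positivity) h1
    rw [Real.log_div (Real.exp_pos _).ne' (by norm_num), Real.log_exp] at h3
    linarith
  rw [hlG]
  linarith

/-- the directions of most tuples of units are not near to the walls -/
theorem wall (S : Finset (HeightOneSpectrum (𝓞 k))) (hS : 2 ≤ (Sp S).card)
    (W : Finset (Fin m → ℤ)) (hW : ∀ ν ∈ W, ν ≠ 0) {η : ℝ} (hη : 0 < η) :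
    ∃ δ T₀ : ℝ, 0 < δ ∧ ∀ T : ℝ, T₀ ≤ T →
      (({u | u ∈ Bx m S T ∧ ¬ Gn S W (δ * T) u}.ncard : ℕ) : ℝ) ≤ η * (UF S T).card ^ m := by
  classical
  obtain ⟨δ, T₀, hδ, h⟩ := bad S hS hW hη
  refine ⟨δ, T₀, hδ, fun T hT => ?_⟩
  refine le_trans ?_ (h T hT)
  rw [Nat.cast_le, ← Set.ncard_coe_finset]
  refine Set.ncard_le_ncard ?_ (Finset.finite_toSet _)
  rintro u ⟨huB, hu⟩
  refine Finset.mem_coe.2 (Finset.mem_filter.2 ⟨huB, ?_⟩)
  by_contra hcon
  push Not at hcon
  exact hu hcon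

/-- the walls of finitely many elements -/
noncomputable def wal {K : Type} [Field K] (H : Finset (AddMonoidAlgebra K (Fin m → ℤ))) :
    Finset (Fin m → ℤ) := open Classical in H.biUnion fun h => wls h.coeff.support

theorem wal_ne {K : Type} [Field K] {H : Finset (AddMonoidAlgebra K (Fin m → ℤ))} :
    ∀ ν ∈ wal H, ν ≠ 0 := by
  classical
  intro ν hν
  obtain ⟨h, -, hh⟩ := Finset.mem_biUnion.1 hν
  exact wls_ne hh

theorem wal_gap {K : Type} [Field K] {H : Finset (AddMonoidAlgebra K (Fin m → ℤ))}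
    {S : Finset (HeightOneSpectrum (𝓞 k))} {r : ℝ} {u : Fin m → k} (h : Gn S (wal H) r u)
    (hu : ∀ i, u i ≠ 0) {ι : k →+* K} {f : AbsoluteValue K ℝ} {v : Pl k} (hv : v ∈ Sp S)
    (hf : ∀ y, f (ι y) = av v y) {x : Fin m → K} {E : ℕ} (hE : 0 < E)
    (hxE : ∀ i, x i ^ E = ι (u i)) {p : AddMonoidAlgebra K (Fin m → ℤ)} (hp : p ∈ H) :
    Gap f x p (r / E) ∧ ∀ b ∈ p.coeff.support, b ≠ 0 → r / E ≤ |Real.log (f (mono x b))| := by
  classical
  have h1 : Gn S (wls p.coeff.support) r u := fun v hv ν hν =>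
    h v hv ν (Finset.mem_biUnion.2 ⟨p, hp, hν⟩)
  exact h1.gap hu hv hf hE hxE

end

end Pool.Agent.Run7.h489.PX
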