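import Mathlib
import Pool.Agent.Run7.h489.PX.MulG

set_option autoImplicit false
set_option linter.unusedSectionVars false

/-!
The inequality with the multiplier ideal for most tuples of units.
-/

namespace Pool.Agent.Run7.h489.PX

open Height NumberField IsDedekindDomain Polynomial
open Pool.Agent.W180.OP (Pl av wt fv nrm wt_nonneg le_nrm exists_nrm nrm_pos)
open Pool.Agent.R404.TC (Sp)
open Pool.Agent.R405 (Good exists_good)
open Pool.Agent.Run7.h489.LV (IsU IsI mem_Sp_inl mem_Sp_inr)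
open Pool.Agent.Run7.h489.TM

theorem tau_le {Q δ E C5 T : ℝ} {J : ℕ} (hQ1 : 1 ≤ Q) (hδ : 0 < δ) (hE : 0 < E)
    (hJ : C5 + 2 ≤ J * (δ / (2 * E))) (hT : 2 ≤ T) (hTQ : 2 * E * Q / δ ≤ T) :
    (Q * Real.exp (-(δ * T / E))) ^ J ≤ Real.exp (-(C5 * T)) / 4 := by
  have h1 : Q ≤ Real.exp (δ * T / (2 * E)) := by
    rw [div_le_iff₀ hδ] at hTQ
    have h2 : Q ≤ δ * T / (2 * E) := by
      rw [le_div_iff₀ (by positivity)]
      linarith
    have h3 := Real.add_one_le_exp (δ * T / (2 * E))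
    linarith
  have h2 : Q * Real.exp (-(δ * T / E)) ≤ Real.exp (-(δ * T / (2 * E))) := by
    calc Q * Real.exp (-(δ * T / E)) ≤ Real.exp (δ * T / (2 * E)) * Real.exp (-(δ * T / E)) :=
          mul_le_mul_of_nonneg_right h1 (Real.exp_pos _).le
      _ = Real.exp (-(δ * T / (2 * E))) := by
          rw [← Real.exp_add]
          congr 1
          field_simp
          ring
  have h3 : (Q * Real.exp (-(δ * T / E))) ^ J ≤ Real.exp (-((C5 + 2) * T)) := by
    refine (pow_le_pow_left₀ (by positivity) h2 J).trans ?_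
    rw [← Real.exp_nat_mul]
    refine Real.exp_le_exp.2 ?_
    have h4 := mul_le_mul_of_nonneg_right hJ (by linarith : (0 : ℝ) ≤ T)
    have h5 : (J : ℝ) * -(δ * T / (2 * E)) = -(J * (δ / (2 * E)) * T) := by ring
    rw [h5]
    linarith
  refine h3.trans ?_
  have h4 : -((C5 + 2) * T) = -(C5 * T) + -(2 * T) := by ring
  rw [h4, Real.exp_add, div_eq_mul_inv]
  refine mul_le_mul_of_nonneg_left ?_ (Real.exp_pos _).le
  rw [Real.exp_neg]
  refine inv_anti₀ (by norm_num) ?_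
  have h5 := Real.add_one_le_exp (2 * T)
  linarith

section

variable {k : Type} [Field k] [NumberField k] {m : ℕ}

theorem tm_none_nonneg {K : Type} [Field K] [Algebra k K] (f : AbsoluteValue K ℝ) (v : Pl k)
    (c : K) {t : Fin 2 → k} (ht1 : t 1 ≠ 0) : 0 ≤ tm f (av v) c none t := by
  show 0 ≤ Real.log (nrm (av v) t) - Real.log (av v (t 1))
  rw [sub_nonneg]
  exact Real.log_le_log ((av v).pos ht1) (le_nrm (av v) t 1)

/-- the bound for one place -/
theorem tm_le {K : Type} [Field K] [Algebra k K] {S : Finset (HeightOneSpectrum (𝓞 k))}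
    {fa : Pl k → AbsoluteValue K ℝ} {c : K} {ι : Type} {p : ι → K} {t : Fin 2 → k}
    (ht1 : t 1 ≠ 0) {b : ℝ}
    (h : ∀ J : Pl k → Option ι, ∑ v ∈ Sp S, wt v * tm (fa v) (av v) c ((J v).map p) t ≤ b)
    (hb : 0 ≤ b) {v : Pl k} (hv : v ∈ Sp S) (o : Option ι) :
    tm (fa v) (av v) c (o.map p) t ≤ b := by
  classical
  rcases le_total (tm (fa v) (av v) c (o.map p) t) 0 with h0 | h0
  · exact h0.trans hb
  · have h1 := h fun w => if w = v then o else none
    have h2 : ∀ w ∈ Sp S, 0 ≤ wt w * tm (fa w) (av w) c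
        (((fun w => if w = v then o else none) w).map p) t := by
      intro w _
      refine mul_nonneg (wt_nonneg w) ?_
      by_cases hw : w = v
      · rw [hw]
        simp only [if_true]
        exact h0
      · simp only [if_neg hw]
        exact tm_none_nonneg (fa w) w c ht1
    have h3 := Finset.single_le_sum h2 hv
    simp only [if_true] at h3
    refine le_trans ?_ (h3.trans h1)
    exact le_mul_of_one_le_left h0 (Pool.Agent.Run7.h489.LV.wt_pos v)

theorem mul_core (S : Finset (HeightOneSpectrum (𝓞 k))) (hS : 2 ≤ (Sp S).card)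
    {Fs Gs : Finset ((Fin m → ℤ) →₀ MvPolynomial (Fin 2) k)} {N N' : ℕ} (hN : 1 ≤ N)
    (hFs : ∀ F ∈ Fs, ∀ a, (F a).IsHomogeneous N) (hGs : ∀ F ∈ Gs, ∀ a, (F a).IsHomogeneous N')
    (hF0 : ∀ F ∈ Fs, F ≠ 0) (hGne : Gs.Nonempty) {A A' : Finset (Fin m → ℤ)}
    (hcond : Cnd Fs Gs A A') {ε η B : ℝ} (hε : 0 < ε) (hη : 0 < η) (hB : 0 ≤ B) :
    ∃ (G : MvPolynomial (Fin m ⊕ Fin 2) k) (C T₀ : ℝ), G ≠ 0 ∧ ∀ T : ℝ, T₀ ≤ T →
      (({u | u ∈ Bx m S T ∧ ∃ t : Fin 2 → k, MvPolynomial.eval (Sum.elim u t) G ≠ 0 ∧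
        (∀ F ∈ Fs, MvPolynomial.eval t (fb F u) ≠ 0) ∧
        (∀ F ∈ Gs, MvPolynomial.eval t (fb F u) ≠ 0) ∧ logHeight t ≤ B * T ∧
        (2 + ε) * logHeight t + ε * hs u + C <
          ∑ v ∈ Sp S, wt v * (lamI A N Fs (av v) u t - lamI A' N' Gs (av v) u t)}.ncard :
            ℕ) : ℝ) ≤ η * (UF S T).card ^ m := by
  classical
  obtain ⟨f, hf⟩ : ∃ f : (AddMonoidAlgebra k (Fin m → ℤ))[X], f = ∏ F ∈ Fs, fp N F := ⟨_, rfl⟩
  have hf0 : f ≠ 0 := by
    rw [hf]
    exact Finset.prod_ne_zero_iff.2 fun F hF => fp_ne (hFs F hF) (hF0 F hF)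
  have hη3 : 0 < η / 3 := by positivity
  obtain ⟨d, hd⟩ : ∃ d : ℕ, d = f.natDegree := ⟨_, rfl⟩
  have hcd : (fun i => f.coeff i) d ≠ 0 := by
    show f.coeff d ≠ 0
    rw [hd]
    exact leadingCoeff_ne_zero.2 hf0
  obtain ⟨E, K, hK1, hK2, hK3, φ, fa, cK, els, G, C, T₀, hE, hfe, hG, hT₀, htgt⟩ :=
    tgt S hS (fun i => f.coeff i) d hcd hε hη3 hB
  have hE0 : (0 : ℝ) < E := by exact_mod_cast hE
  obtain ⟨C5, hC5⟩ : ∃ C5 : ℝ, C5 = (2 + ε) * B + ε * m + |C| := ⟨_, rfl⟩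
  have hC50 : 0 ≤ C5 := by
    rw [hC5]
    positivity
  -- the first walls
  obtain ⟨H1, hH1⟩ : ∃ H1 : Finset (AddMonoidAlgebra K (Fin m → ℤ)), H1 = insert cK els :=
    ⟨_, rfl⟩
  obtain ⟨δ1, T1, hδ1, hwall1⟩ := wall S hS (wal H1) wal_ne hη3
  choose Qi hQi1 hQi using fun q : Pl k × AddMonoidAlgebra K (Fin m → ℤ) =>
    inv_gap (m := m) (fa q.1) q.2
  obtain ⟨Q1, hQ11, hQ1⟩ := ub (Sp S ×ˢ H1) Qi
  obtain ⟨J, hJ⟩ : ∃ J : ℕ, C5 + 2 ≤ J * (δ1 / (2 * E)) := by
    obtain ⟨J, hJ⟩ := exists_nat_ge ((C5 + 2) / (δ1 / (2 * E)))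
    refine ⟨J, ?_⟩
    rwa [div_le_iff₀ (by positivity)] at hJ
  -- the arcs
  obtain ⟨AA, hAA⟩ : ∃ AA : Finset (AddMonoidAlgebra K (Fin m → ℤ)),
      AA = {0, 1} ∪ (els ×ˢ cK.coeff.support).image (fun q => q.1 * ainv cK q.2 J) ∪
        els.biUnion fun p => p.coeff.support.image fun a => cK * ainv p a J := ⟨_, rfl⟩
  obtain ⟨H2, hH2⟩ : ∃ H2 : Finset (AddMonoidAlgebra K (Fin m → ℤ)),
      H2 = AA ∪ (((AA ×ˢ (Finset.univ : Finset (Fin 2))) ×ˢ Fs) ×ˢ Finset.range (N + 1)).image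
        fun q => (xk (algebraMap k K) E q.1.2 q.1.1.2 q.1.1.1).coeff q.2 := ⟨_, rfl⟩
  obtain ⟨δ2, T2, hδ2, hwall2⟩ := wall S hS (wal H2) wal_ne hη3
  choose Ad Md hAd1 hMd0 hdg using fun q : Pl k × AddMonoidAlgebra K (Fin m → ℤ) =>
    dom_gap (m := m) (fa q.1) q.2
  obtain ⟨A1, hA11, hA1⟩ := ub (Sp S ×ˢ H2) Ad
  obtain ⟨M1, hM11, hM1⟩ := ub (Sp S ×ˢ H2) Md
  obtain ⟨Q, hQ0, hQ⟩ := ub (((Sp S ×ˢ AA) ×ˢ (Finset.univ : Finset (Fin 2))) ×ˢ Gs)
    fun q => ∑ j ∈ Finset.range (N' + 1),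
      ∑ b ∈ ((xk (algebraMap k K) E q.2 q.1.2 q.1.1.2).coeff j).coeff.support,
        fa q.1.1.1 (((xk (algebraMap k K) E q.2 q.1.2 q.1.1.2).coeff j).coeff b)
  obtain ⟨R0, hR0⟩ : ∃ R0 : ℝ, R0 = (d + 5) * Real.log 2 := ⟨_, rfl⟩
  have hR00 : 0 ≤ R0 := by
    rw [hR0]
    have : 0 ≤ Real.log 2 := Real.log_nonneg (by norm_num)
    positivity
  obtain ⟨Kc, hKc⟩ : ∃ Kc : ℝ, Kc = (Real.log Q + N' * Real.log 4 + Real.log A1 +
    Real.log ((N + 1) * (2 ^ N * (2 ^ N * (4 * Real.exp R0) ^ N)))) + Real.log 4 := ⟨_, rfl⟩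
  refine ⟨G * MvPolynomial.X (Sum.inr 1), C + Kc * wS S, max (max (max T₀ T1) (max T2 2))
    (max (2 * E * Q1 / δ1) (max (E * M1 / δ2) (E * (Real.log (A1 * 4) + 1) / δ2))),
    mul_ne_zero hG (MvPolynomial.X_ne_zero _), fun T hT => ?_⟩
  have hTa := (le_max_left _ _).trans hT
  have hTb := (le_max_right _ _).trans hT
  have hTT₀ : T₀ ≤ T := (le_max_left _ _).trans ((le_max_left _ _).trans hTa)
  have hTT1 : T1 ≤ T := (le_max_right _ _).trans ((le_max_left _ _).trans hTa)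
  have hTT2 : T2 ≤ T := (le_max_left _ _).trans ((le_max_right _ _).trans hTa)
  have hT2 : 2 ≤ T := (le_max_right _ _).trans ((le_max_right _ _).trans hTa)
  have hTQ : 2 * E * Q1 / δ1 ≤ T := (le_max_left _ _).trans hTb
  have hTM : M1 ≤ δ2 * T / E := by
    have h1 : E * M1 / δ2 ≤ T := (le_max_left _ _).trans ((le_max_right _ _).trans hTb)
    rw [div_le_iff₀ hδ2] at h1
    rw [le_div_iff₀ hE0]
    linarith
  have hTA : Real.log (A1 * 4) < δ2 * T / E := by
    have h1 : E * (Real.log (A1 * 4) + 1) / δ2 ≤ T :=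
      (le_max_right _ _).trans ((le_max_right _ _).trans hTb)
    rw [div_le_iff₀ hδ2] at h1
    rw [lt_div_iff₀ hE0]
    linarith
  have hT0 : 0 ≤ T := by linarith
  have hT1 : 1 ≤ T := by linarith
  have h3 : η * ((UF S T).card : ℝ) ^ m = η / 3 * ((UF S T).card : ℝ) ^ m +
      η / 3 * ((UF S T).card : ℝ) ^ m + η / 3 * ((UF S T).card : ℝ) ^ m := by ring
  rw [h3]
  refine le_trans ?_ (add_le_add (add_le_add (htgt T hTT₀) (hwall1 T hTT1)) (hwall2 T hTT2))
  rw [← Nat.cast_add, ← Nat.cast_add, Nat.cast_le]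
  have hfinB : ∀ p : (Fin m → k) → Prop, {u | u ∈ Bx m S T ∧ p u}.Finite := fun p =>
    (Bx m S T).finite_toSet.subset fun u hu => hu.1
  refine le_trans ?_ (Nat.add_le_add_right (Set.ncard_union_le _ _) _)
  refine le_trans ?_ (Set.ncard_union_le _ _)
  refine Set.ncard_le_ncard ?_ (((hfinB _).union (hfinB _)).union (hfinB _))
  rintro u ⟨huB, t, hGt, hFt, hGst, hht, hlt⟩
  by_contra hcon
  simp only [Set.mem_union, Set.mem_ofPred_eq, not_or, not_and, not_not] at hcon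
  obtain ⟨⟨hgd, hgn1⟩, hgn2⟩ := hcon
  have hgd := hgd huB
  have hgn1 := hgn1 huB
  have hgn2 := hgn2 huB
  have huU := mem_Bx.1 huB
  have hu0 : ∀ i, u i ≠ 0 := fun i => (huU i).1.1
  obtain ⟨x, hx, hxE, hmain⟩ := hgd
  rw [map_mul, MvPolynomial.eval_X] at hGt
  have ht1 : t 1 ≠ 0 := right_ne_zero_of_mul hGt
  have ht : t ≠ 0 := fun h => ht1 (by rw [h, Pi.zero_apply])
  obtain ⟨-, hcx, hglob, hnear⟩ := hmain t (left_ne_zero_of_mul hGt) (by
    intro h0
    rw [hd, hf] at h0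
    obtain ⟨F, hF, h1⟩ := (prod_root (RingHom.id k) hFs hu0 ht1).1 h0
    rw [MvPolynomial.map_id] at h1
    exact hFt F hF h1) hht
  have hhu : hs u ≤ m * T := by
    unfold hs
    refine (Finset.sum_le_sum fun i _ => (huU i).2).trans ?_
    rw [Finset.sum_const, Finset.card_univ, Fintype.card_fin, nsmul_eq_mul]
  have hbb : (2 + ε) * logHeight t + ε * hs u + C ≤ C5 * T := by
    have h4 := mul_le_mul_of_nonneg_left hht (by linarith : (0 : ℝ) ≤ 2 + ε)
    have h5 := mul_le_mul_of_nonneg_left hhu hε.le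
    have h6 : C ≤ |C| * T := (le_abs_self C).trans (le_mul_of_one_le_right (abs_nonneg C) hT1)
    rw [hC5]
    linarith
  have hC5T : 0 ≤ C5 * T := mul_nonneg hC50 hT0
  -- the local choice
  have hloc : ∀ v : Pl k, ∃ o : Option els, v ∈ Sp S →
      lamI A N Fs (av v) u t - lamI A' N' Gs (av v) u t ≤ Kc +
        tm (fa v) (av v) (ev cK.coeff x) (o.map fun p => ev p.1.coeff x) t := by
    intro v
    by_cases hv : v ∈ Sp S
    swap
    · exact ⟨none, fun h => absurd h hv⟩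
    have htm : ∀ o : Option els, tm (fa v) (av v) (ev cK.coeff x)
        (o.map fun p => ev p.1.coeff x) t ≤ C5 * T :=
      tm_le ht1 (fun J => (hglob J).trans hbb) hC5T hv
    have hne : ∀ h : AddMonoidAlgebra K (Fin m → ℤ), ev h.coeff x ≠ 0 → h.coeff ≠ 0 := by
      intro h h1 h2
      rw [h2, ev_zero] at h1
      exact h1 rfl
    -- the inverses
    have hinv : ∀ h ∈ H1, ev h.coeff x ≠ 0 → ∃ a ∈ h.coeff.support,
        fa v (1 - ev h.coeff x * evh x hx (ainv h a J)) ≤ Real.exp (-(C5 * T)) / 4 := by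
      intro h hh h1
      obtain ⟨hgap, -⟩ := wal_gap hgn1 hu0 hv (hfe v) hE hxE hh
      obtain ⟨a, ha, h2⟩ := hQi (v, h) x hx (δ1 * T / E) (hne h h1) hgap
      refine ⟨a, ha, ?_⟩
      rw [← evh_apply x hx]
      refine (h2 J).trans ?_
      refine le_trans ?_ (tau_le hQ11 hδ1 hE0 hJ hT2 hTQ)
      refine pow_le_pow_left₀ (mul_nonneg (by linarith [hQi1 (v, h)]) (Real.exp_pos _).le) ?_ J
      exact mul_le_mul_of_nonneg_right (hQ1 (v, h) (Finset.mem_product.2 ⟨hv, hh⟩))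
        (Real.exp_pos _).le
    obtain ⟨ac, hac, hβc⟩ := hinv cK (by rw [hH1]; exact Finset.mem_insert_self _ _) hcx
    have hinv' : ∀ p : els, ∃ a : Fin m → ℤ, ev p.1.coeff x ≠ 0 → a ∈ p.1.coeff.support ∧
        fa v (1 - ev p.1.coeff x * evh x hx (ainv p.1 a J)) ≤ Real.exp (-(C5 * T)) / 4 := by
      intro p
      by_cases hp : ev p.1.coeff x = 0
      · exact ⟨0, fun h => absurd hp h⟩
      · obtain ⟨a, ha, h1⟩ := hinv p.1 (by
          rw [hH1]
          exact Finset.mem_insert_of_mem p.2) hp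
        exact ⟨a, fun _ => ⟨ha, h1⟩⟩
    choose ap hap using hinv'
    obtain ⟨o, l, s, t', α0, hnv, hmax, hX, ht', hts, hs, hnt, hα4, hαc, hd1, hd2⟩ :=
      arc (hfe v) ht1 hcx (fun p : els => ev p.1.coeff x) (evh x hx (ainv cK ac J))
        (fun p => evh x hx (ainv p.1 (ap p) J)) hβc (fun p hp => (hap p hp).2) (by
          intro o _
          have h1 := htm o
          have h2 : Real.exp (-(C5 * T)) ≤ Real.exp (-tm (fa v) (av v) (ev cK.coeff x)
            (o.map fun p => ev p.1.coeff x) t) := Real.exp_le_exp.2 (by linarith)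
          linarith)
    -- the arc
    obtain ⟨α, hα, hαe⟩ : ∃ α ∈ AA, evh x hx α = α0 := by
      rw [hAA]
      rcases hαc with h | h | ⟨p, h⟩ | ⟨p, h, hp⟩
      · exact ⟨0, Finset.mem_union_left _ (Finset.mem_union_left _ (by simp)), by
          rw [h, map_zero]⟩
      · exact ⟨1, Finset.mem_union_left _ (Finset.mem_union_left _ (by simp)), by
          rw [h, map_one]⟩
      · refine ⟨p.1 * ainv cK ac J, Finset.mem_union_left _ (Finset.mem_union_right _
          (Finset.mem_image.2 ⟨(p.1, ac), Finset.mem_product.2 ⟨p.2, hac⟩, rfl⟩)), ?_⟩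
        rw [h, map_mul, evh_apply x hx p.1]
      · refine ⟨cK * ainv p.1 (ap p) J, Finset.mem_union_right _ (Finset.mem_biUnion.2
          ⟨p.1, p.2, Finset.mem_image.2 ⟨ap p, (hap p hp).1, rfl⟩⟩), ?_⟩
        rw [h, map_mul, evh_apply x hx cK]
    have hαH : α ∈ H2 := by
      rw [hH2]
      exact Finset.mem_union_left _ hα
    have hgapH : ∀ h ∈ H2, ∀ b ∈ h.coeff.support, fa v (mono x b) ≤ A1 * fa v (evh x hx h) := by
      intro h hh b hb
      obtain ⟨hgap, -⟩ := wal_gap hgn2 hu0 hv (hfe v) hE hxE hh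
      have hm : (v, h) ∈ Sp S ×ˢ H2 := Finset.mem_product.2 ⟨hv, hh⟩
      refine (hdg (v, h) x hx (δ2 * T / E) ((hM1 _ hm).trans hTM) hgap b hb).trans ?_
      exact mul_le_mul_of_nonneg_right (hA1 _ hm) ((fa v).nonneg _)
    obtain ⟨-, hsepα⟩ := wal_gap hgn2 hu0 hv (hfe v) hE hxE hαH
    obtain ⟨Xo, hXo⟩ : ∃ Xo : ℝ, Xo = tm (fa v) (av v) (ev cK.coeff x)
      (o.map fun p => ev p.1.coeff x) t := ⟨_, rfl⟩
    rw [← hXo] at hX hd1 hd2
    refine ⟨o, fun _ => ?_⟩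
    rw [← hXo]
    have hfin := plc φ (hfe v) hE hN hFs hGs hGne hcond hu0 hx hxE hFt hGst ht' hts hnt
      (α := α) hX (by rw [hαe]; exact hα4) (by rw [hαe]; exact hd1) (by rw [hαe]; exact hd2)
      hR00 (by
        intro F hF M hM κ w y hw hy hy0
        obtain ⟨o', hnv', hle⟩ := hnear v hv (Real.log (nrm (av v) t) + Real.log (nrm w y) -
          Real.log (w (κ (t 0) * y 1 - κ (t 1) * y 0))) (by
            refine ⟨M, hM, κ, w, y, hw, hy, ?_, rfl⟩
            by_cases hy1 : y 1 = 0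
            · exact Or.inl hy1
            · right
              rw [hd, hf]
              exact (prod_root κ hFs hu0 hy1).2 ⟨F, hF, hy0⟩)
        have h1 := hmax o' hnv'
        rw [hR0, hXo]
        linarith) hA11 (hgapH α hαH) hsepα hTA (by
        intro F hF j hj
        refine hgapH _ ?_
        rw [hH2]
        exact Finset.mem_union_right _ (Finset.mem_image.2 ⟨(((α, l), F), j),
          Finset.mem_product.2 ⟨Finset.mem_product.2 ⟨Finset.mem_product.2 ⟨hα,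
            Finset.mem_univ l⟩, hF⟩, Finset.mem_range.2 (Nat.lt_succ_of_le hj)⟩, rfl⟩))
      hQ0 (by
        intro F hF
        exact hQ (((v, α), l), F) (Finset.mem_product.2 ⟨Finset.mem_product.2
          ⟨Finset.mem_product.2 ⟨hv, hα⟩, Finset.mem_univ l⟩, hF⟩))
    rw [hKc]
    exact hfin
  choose o ho using hloc
  have hfin := hglob o
  have hsum : ∑ v ∈ Sp S, wt v * (lamI A N Fs (av v) u t - lamI A' N' Gs (av v) u t) ≤
      Kc * wS S + ∑ v ∈ Sp S, wt v * tm (fa v) (av v) (ev cK.coeff x)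
        ((o v).map fun p => ev p.1.coeff x) t := by
    unfold wS
    rw [Finset.mul_sum, ← Finset.sum_add_distrib]
    refine Finset.sum_le_sum fun v hv => ?_
    have h2 := mul_le_mul_of_nonneg_left (ho v hv) (wt_nonneg v)
    rw [mul_add] at h2
    linarith
  linarith

end

end Pool.Agent.Run7.h489.PX
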