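import Mathlib
import Pool.Agent.Run7.h489.PX.MulH

set_option autoImplicit false
set_option linter.unusedSectionVars false

/-!
The exceptional closed subset for the inequality with the multiplier ideal.
-/

namespace Pool.Agent.Run7.h489.PX

open Height NumberField IsDedekindDomain Polynomial
open Pool.Agent.W180.OP (Pl av wt fv nrm wt_nonneg le_nrm exists_nrm nrm_pos)
open Pool.Agent.R404.TC (Sp)
open Pool.Agent.R405 (Good exists_good)
open Pool.Agent.Run7.h489.LV (IsU IsI mem_Sp_inl mem_Sp_inr)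
open Pool.Agent.Run7.h489.TM
open Pool.Agent.N63.MT (mn mn_ne)

section

variable {k : Type} [Field k] [Infinite k] {m : ℕ}

theorem ev_exists {b : (Fin m → ℤ) →₀ k} (hb : b ≠ 0) :
    ∃ u : Fin m → k, (∀ i, u i ≠ 0) ∧ ev b u ≠ 0 := by
  obtain ⟨E, q, hq0, hq⟩ := clear' b
  have h1 : (∏ i : Fin m, MvPolynomial.X i) * q ≠ (0 : MvPolynomial (Fin m) k) :=
    mul_ne_zero (Finset.prod_ne_zero_iff.2 fun i _ => MvPolynomial.X_ne_zero i) (hq0 hb)
  obtain ⟨u, hu⟩ : ∃ u : Fin m → k,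
      MvPolynomial.eval u ((∏ i : Fin m, MvPolynomial.X i) * q) ≠ 0 := by
    by_contra hcon
    push Not at hcon
    exact h1 (MvPolynomial.funext fun u => by rw [hcon u, map_zero])
  rw [map_mul, map_prod] at hu
  have hu0 : ∀ i, u i ≠ 0 := fun i => by
    have := Finset.prod_ne_zero_iff.1 (left_ne_zero_of_mul hu) i (Finset.mem_univ i)
    rwa [MvPolynomial.eval_X] at this
  refine ⟨u, hu0, fun h0 => right_ne_zero_of_mul hu ?_⟩
  rw [hq u hu0, h0, mul_zero]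

/-- a polynomial which vanishes on the zeros of the form -/
theorem exc {R : (Fin m → ℤ) →₀ MvPolynomial (Fin 2) k} (hR : R ≠ 0) :
    ∃ Q : MvPolynomial (Fin m ⊕ Fin 2) k, Q ≠ 0 ∧ ∀ (u : Fin m → k) (t : Fin 2 → k),
      (∀ i, u i ≠ 0) → MvPolynomial.eval (Sum.elim u t) Q ≠ 0 →
        MvPolynomial.eval t (fb R u) ≠ 0 := by
  classical
  obtain ⟨D, hD⟩ : ∃ D : ℕ, ∀ ν ∈ R.support, ∀ i, |ν i| ≤ D := by
    refine ⟨∑ ν ∈ R.support, ∑ i, (ν i).natAbs, ?_⟩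
    intro ν hν i
    have h1 := Finset.single_le_sum (f := fun i => (ν i).natAbs) (fun _ _ => Nat.zero_le _)
      (Finset.mem_univ i)
    have h2 := Finset.single_le_sum (f := fun ν : Fin m → ℤ => ∑ i, (ν i).natAbs)
      (fun _ _ => Nat.zero_le _) hν
    rw [Int.abs_eq_natAbs]
    exact_mod_cast h1.trans h2
  obtain ⟨Q, hQ⟩ : ∃ Q : MvPolynomial (Fin m ⊕ Fin 2) k, Q = ∑ a ∈ R.support,
    (∏ i, MvPolynomial.X (Sum.inl i) ^ (a i + D).toNat) * MvPolynomial.rename Sum.inr (R a) :=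
    ⟨_, rfl⟩
  have hev : ∀ (u : Fin m → k) (t : Fin 2 → k), (∀ i, u i ≠ 0) →
      MvPolynomial.eval (Sum.elim u t) Q = (∏ i, u i ^ D) * MvPolynomial.eval t (fb R u) := by
    intro u t hu
    rw [hQ, map_sum]
    unfold fb
    rw [map_sum, Finset.mul_sum]
    refine Finset.sum_congr rfl fun a ha => ?_
    rw [map_mul, map_prod, map_mul, MvPolynomial.eval_C, MvPolynomial.eval_rename]
    have h1 : (Sum.elim u t : Fin m ⊕ Fin 2 → k) ∘ Sum.inr = t := rfl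
    rw [h1, ← mul_assoc]
    congr 1
    unfold mono
    rw [← Finset.prod_mul_distrib]
    refine Finset.prod_congr rfl fun i _ => ?_
    rw [map_pow, MvPolynomial.eval_X]
    show u i ^ (a i + D).toNat = u i ^ D * u i ^ a i
    have h2 : (((a i + D).toNat : ℕ) : ℤ) = a i + D := by
      rw [Int.toNat_of_nonneg]
      have := (abs_le.1 (hD a ha i)).1
      omega
    rw [← zpow_natCast (u i) (a i + D).toNat, h2, zpow_add₀ (hu i), zpow_natCast]
    ring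
  refine ⟨Q, ?_, fun u t hu h h0 => h (by rw [hev u t hu, h0, mul_zero])⟩
  obtain ⟨a, ha⟩ := Finsupp.support_nonempty_iff.2 hR
  have ha' : R a ≠ 0 := Finsupp.mem_support_iff.1 ha
  obtain ⟨t, ht⟩ : ∃ t : Fin 2 → k, MvPolynomial.eval t (R a) ≠ 0 := by
    by_contra hcon
    push Not at hcon
    exact ha' (MvPolynomial.funext fun t => by rw [hcon t, map_zero])
  obtain ⟨b, hb⟩ : ∃ b : (Fin m → ℤ) →₀ k,
      b = R.mapRange (fun P => MvPolynomial.eval t P) (map_zero _) := ⟨_, rfl⟩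
  have hb0 : b ≠ 0 := by
    intro h
    apply ht
    have h1 : b a = MvPolynomial.eval t (R a) := by
      rw [hb, Finsupp.mapRange_apply]
    rw [← h1, h, Finsupp.zero_apply]
  obtain ⟨u, hu, hbu⟩ := ev_exists hb0
  intro hQ0
  apply hbu
  have h1 := hev u t hu
  rw [hQ0, map_zero] at h1
  have h2 := (mul_eq_zero.1 h1.symm).resolve_left
    (Finset.prod_ne_zero_iff.2 fun i _ => pow_ne_zero _ (hu i))
  rw [← h2, hb]
  unfold ev fb
  rw [Finsupp.sum_mapRange_index (fun a => zero_mul _), map_sum]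
  unfold Finsupp.sum
  refine Finset.sum_congr rfl fun a _ => ?_
  rw [map_mul, MvPolynomial.eval_C]
  ring

end

section

variable {k : Type} [Field k] {m : ℕ}

/-- the local height does not depend on the coordinates -/
theorem lamI_smul (A : Finset (Fin m → ℤ)) {N : ℕ}
    {Fs : Finset ((Fin m → ℤ) →₀ MvPolynomial (Fin 2) k)}
    (hFs : ∀ F ∈ Fs, ∀ a, (F a).IsHomogeneous N) (f : AbsoluteValue k ℝ) {u : Fin m → k}
    {t : Fin 2 → k} (ht : t ≠ 0) (hF : ∀ F ∈ Fs, MvPolynomial.eval t (fb F u) ≠ 0) {c : k}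
    (hc : c ≠ 0) : lamI A N Fs f u (c • t) = lamI A N Fs f u t := by
  unfold lamI
  refine iInf_congr fun F => ?_
  rw [eval_hom (fb_hom (hFs F.1 F.2) u), Pool.Agent.Run7.h489.NF.nrm_smul, map_mul, map_pow,
    Real.log_mul (f.pos hc).ne' (nrm_pos f ht).ne',
    Real.log_mul (pow_pos (f.pos hc) N).ne' (f.pos (hF F.1 F.2)).ne', Real.log_pow]
  ring

end

section

variable {k : Type} [Field k] [NumberField k] {m : ℕ}

theorem mul_most (S : Finset (HeightOneSpectrum (𝓞 k))) (hS : 2 ≤ (Sp S).card)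
    {Fs Gs : Finset ((Fin m → ℤ) →₀ MvPolynomial (Fin 2) k)} {N N' : ℕ} (hN : 1 ≤ N)
    (hFs : ∀ F ∈ Fs, ∀ a, (F a).IsHomogeneous N) (hGs : ∀ F ∈ Gs, ∀ a, (F a).IsHomogeneous N')
    (hF0 : ∀ F ∈ Fs, F ≠ 0) (hG0 : ∀ F ∈ Gs, F ≠ 0) (hGne : Gs.Nonempty)
    {A A' : Finset (Fin m → ℤ)} (hcond : Cnd Fs Gs A A') {ε η B : ℝ} (hε : 0 < ε) (hη : 0 < η)
    (hB : 0 ≤ B) :
    ∃ (G : MvPolynomial (Fin m ⊕ Fin 2) k) (e : ℕ) (C T₀ : ℝ), G ≠ 0 ∧
      MvPolynomial.IsWeightedHomogeneous (wgt m) G e ∧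
      (∀ (u : Fin m → k) (t : Fin 2 → k), (∀ i, u i ≠ 0) →
        MvPolynomial.eval (Sum.elim u t) G ≠ 0 → (∀ F ∈ Fs, MvPolynomial.eval t (fb F u) ≠ 0) ∧
          ∀ F ∈ Gs, MvPolynomial.eval t (fb F u) ≠ 0) ∧ ∀ T : ℝ, T₀ ≤ T →
      (({u | u ∈ Bx m S T ∧ ∃ t : Fin 2 → k, t ≠ 0 ∧ MvPolynomial.eval (Sum.elim u t) G ≠ 0 ∧
        logHeight t ≤ B * T ∧ (2 + ε) * logHeight t + ε * hs u + C <
          ∑ v ∈ Sp S, wt v * (lamI A N Fs (av v) u t - lamI A' N' Gs (av v) u t)}.ncard :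
            ℕ) : ℝ) ≤ η * (UF S T).card ^ m := by
  classical
  have hinf : Infinite k := inferInstance
  obtain ⟨G, C, T₀, hG, hmain⟩ := mul_core S hS hN hFs hGs hF0 hGne hcond hε hη hB
  have hex : ∀ R : (Fin m → ℤ) →₀ MvPolynomial (Fin 2) k, ∃ Q : MvPolynomial (Fin m ⊕ Fin 2) k,
      R ≠ 0 → Q ≠ 0 ∧ ∀ (u : Fin m → k) (t : Fin 2 → k), (∀ i, u i ≠ 0) →
        MvPolynomial.eval (Sum.elim u t) Q ≠ 0 → MvPolynomial.eval t (fb R u) ≠ 0 := by
    intro R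
    by_cases hR : R = 0
    · exact ⟨0, fun h => absurd hR h⟩
    · obtain ⟨Q, hQ, hQ'⟩ := exc hR
      exact ⟨Q, fun _ => ⟨hQ, hQ'⟩⟩
  choose Q hQ using hex
  obtain ⟨G1, hG1⟩ : ∃ G1 : MvPolynomial (Fin m ⊕ Fin 2) k, G1 = G * ∏ F ∈ Fs ∪ Gs, Q F :=
    ⟨_, rfl⟩
  have hFG0 : ∀ F ∈ Fs ∪ Gs, F ≠ 0 := fun F hF => by
    rcases Finset.mem_union.1 hF with h | h
    · exact hF0 F h
    · exact hG0 F h
  have hG10 : G1 ≠ 0 := by
    rw [hG1]
    exact mul_ne_zero hG (Finset.prod_ne_zero_iff.2 fun F hF => (hQ F (hFG0 F hF)).1)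
  have hFGhom : ∀ F ∈ Fs ∪ Gs, ∃ n, ∀ a, (F a).IsHomogeneous n := fun F hF => by
    rcases Finset.mem_union.1 hF with h | h
    · exact ⟨N, hFs F h⟩
    · exact ⟨N', hGs F h⟩
  obtain ⟨e, he⟩ := exists_comp hG10
  have hkey : ∀ (u : Fin m → k) (t : Fin 2 → k), MvPolynomial.eval (Sum.elim u t)
      (MvPolynomial.weightedHomogeneousComponent (wgt m) e G1) ≠ 0 →
        ∃ c : k, c ≠ 0 ∧ MvPolynomial.eval (Sum.elim u (c • t)) G1 ≠ 0 := by
    intro u t hGt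
    have hray : ray G1 u t ≠ 0 := by
      intro h1
      apply hGt
      rw [← ray_coeff, h1, Polynomial.coeff_zero]
    obtain ⟨c, hc⟩ : ∃ c : k, (X * ray G1 u t).eval c ≠ 0 := by
      by_contra hcon
      push Not at hcon
      have h1 : X * ray G1 u t = 0 := Polynomial.funext fun c => by rw [hcon c, eval_zero]
      rcases mul_eq_zero.1 h1 with h2 | h2
      · exact X_ne_zero h2
      · exact hray h2
    rw [eval_mul, eval_X, ray_eval] at hc
    exact ⟨c, left_ne_zero_of_mul hc, right_ne_zero_of_mul hc⟩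
  have hnz : ∀ (u : Fin m → k) (t : Fin 2 → k) (c : k), (∀ i, u i ≠ 0) →
      MvPolynomial.eval (Sum.elim u (c • t)) G1 ≠ 0 → ∀ F ∈ Fs ∪ Gs,
        MvPolynomial.eval (c • t) (fb F u) ≠ 0 := by
    intro u t c hu hc F hF
    rw [hG1, map_mul, map_prod] at hc
    exact (hQ F (hFG0 F hF)).2 u (c • t) hu
      (Finset.prod_ne_zero_iff.1 (right_ne_zero_of_mul hc) F hF)
  have hnz' : ∀ (u : Fin m → k) (t : Fin 2 → k), (∀ i, u i ≠ 0) → MvPolynomial.eval (Sum.elim u t)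
      (MvPolynomial.weightedHomogeneousComponent (wgt m) e G1) ≠ 0 → ∀ F ∈ Fs ∪ Gs,
        MvPolynomial.eval t (fb F u) ≠ 0 := by
    intro u t hu hGt F hF
    obtain ⟨c, hc0, hc⟩ := hkey u t hGt
    obtain ⟨n, hn⟩ := hFGhom F hF
    have h1 := hnz u t c hu hc F hF
    rw [eval_hom (fb_hom hn u)] at h1
    exact right_ne_zero_of_mul h1
  refine ⟨MvPolynomial.weightedHomogeneousComponent (wgt m) e G1, e, C, T₀, he,
    MvPolynomial.weightedHomogeneousComponent_isWeightedHomogeneous _ _, ?_, fun T hT => ?_⟩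
  · intro u t hu hGt
    exact ⟨fun F hF => hnz' u t hu hGt F (Finset.mem_union_left _ hF),
      fun F hF => hnz' u t hu hGt F (Finset.mem_union_right _ hF)⟩
  refine le_trans ?_ (hmain T hT)
  rw [Nat.cast_le]
  refine Set.ncard_le_ncard ?_ ((Bx m S T).finite_toSet.subset fun u hu => hu.1)
  rintro u ⟨huB, t, ht, hGt, hht, hlt⟩
  have hu0 : ∀ i, u i ≠ 0 := fun i => (mem_Bx.1 huB i).1.1
  obtain ⟨c, hc0, hc⟩ := hkey u t hGt
  have h1 := hnz u t c hu0 hc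
  have h2 := hnz' u t hu0 hGt
  refine ⟨huB, c • t, ?_, fun F hF => h1 F (Finset.mem_union_left _ hF),
    fun F hF => h1 F (Finset.mem_union_right _ hF), ?_, ?_⟩
  · rw [hG1, map_mul] at hc
    exact left_ne_zero_of_mul hc
  · rwa [logHeight_smul_eq_logHeight t hc0]
  · rw [logHeight_smul_eq_logHeight t hc0]
    refine lt_of_lt_of_le hlt (le_of_eq ?_)
    refine Finset.sum_congr rfl fun v _ => ?_
    rw [lamI_smul A hFs (av v) ht (fun F hF => h2 F (Finset.mem_union_left _ hF)) hc0,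
      lamI_smul A' hGs (av v) ht (fun F hF => h2 F (Finset.mem_union_right _ hF)) hc0]

end

end Pool.Agent.Run7.h489.PX
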